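import Mathlib

/-!
# MP_183346_co : definitions shared by all the modules `CRam.*`
-/

open Classical

namespace CRam

/-- `A`, `B` are `s`-joined in `H`: any `s` vertices of `A` and any `s` vertices of `B` span an
edge of `H`. -/
def Jn {V : Type*} (H : SimpleGraph V) (s : ℕ) (A B : Finset V) : Prop :=
  ∀ A' ⊆ A, ∀ B' ⊆ B, s ≤ A'.card → s ≤ B'.card → ∃ a ∈ A', ∃ b ∈ B', H.Adj a b

theorem Jn.symm {V : Type*} {H : SimpleGraph V} {s : ℕ} {A B : Finset V} (h : Jn H s A B) :
    Jn H s B A := by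
  intro A' hA B' hB hA' hB'
  obtain ⟨a, ha, b, hb, hab⟩ := h B' hB A' hA hB' hA'
  exact ⟨b, hb, a, ha, hab.symm⟩

theorem Jn.mono {V : Type*} {H : SimpleGraph V} {s : ℕ} {A B A₁ B₁ : Finset V} (h : Jn H s A B)
    (hA : A₁ ⊆ A) (hB : B₁ ⊆ B) : Jn H s A₁ B₁ :=
  fun A' hA' B' hB' h1 h2 => h A' (hA'.trans hA) B' (hB'.trans hB) h1 h2

/-- The reduced graph of a family of clusters. -/
def Red {V ι : Type*} (H : SimpleGraph V) (s : ℕ) (P : ι → Finset V) : SimpleGraph ι where
  Adj a b := a ≠ b ∧ Jn H s (P a) (P b)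
  symm := ⟨fun _ _ h => ⟨h.1.symm, h.2.symm⟩⟩
  loopless := ⟨fun _ h => h.1 rfl⟩

/-- Index `i` and index `j` are covered in a `k`-coloured system of labels `K` and weights `F`:
some colour gives them the same (existing) label and total weight at least two. -/
def Cov {k : ℕ} {ι κ : Type*} (K : Fin k → ι → Option κ) (F : Fin k → ι → ℕ) (i j : ι) : Prop :=
  ∃ c x, K c i = some x ∧ K c j = some x ∧ 2 ≤ F c i + F c j

/-- The number of colours in which `i` has a label. -/
noncomputable def lab {k : ℕ} {ι κ : Type*} (K : Fin k → ι → Option κ) (i : ι) : ℕ :=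
  (Finset.univ.filter (fun c : Fin k => (K c i).isSome)).card

/-- `ExactBound k w α β`: in every finite `k`-coloured system with all pairs covered
(also the pairs `(i, i)`) and all component weights at most `B`, one has
`α * ∑ i, w (lab i) ≤ β * B`. -/
def ExactBound (k : ℕ) (w : ℕ → ℕ) (α β : ℕ) : Prop :=
  ∀ (ι κ : Type) [Fintype ι] (K : Fin k → ι → Option κ) (F : Fin k → ι → ℕ),
    (∀ c i, F c i ≤ 2) → (∀ i j, Cov K F i j) →
    ∀ B : ℕ, (∀ c x, ∑ i ∈ Finset.univ.filter (fun i => K c i = some x), F c i ≤ B) →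
      α * ∑ i, w (lab K i) ≤ β * B

/-- Probability of the event `E` in the binomial random graph `G(N, p)` on `Fin N`. -/
noncomputable def gnpProb (N : ℕ) (p : ℝ) (E : SimpleGraph (Fin N) → Prop) : ℝ :=
  ∑ G : SimpleGraph (Fin N),
    if E G then p ^ G.edgeFinset.card * (1 - p) ^ (N.choose 2 - G.edgeFinset.card) else 0

/-- The subgraph of the edges of `F` which have colour `c`. -/
def colGraph {V : Type*} {k : ℕ} (F : SimpleGraph V) (χ : Sym2 V → Fin k) (c : Fin k) :
    SimpleGraph V where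
  Adj u v := F.Adj u v ∧ χ s(u, v) = c
  symm := ⟨fun u v h => ⟨h.1.symm, by rw [Sym2.eq_swap]; exact h.2⟩⟩
  loopless := ⟨fun u h => F.loopless.irrefl u h.1⟩

/-- `F → (C_ℓ)_k`. -/
def Arrows {V : Type*} (F : SimpleGraph V) (k ℓ : ℕ) : Prop :=
  ∀ χ : Sym2 V → Fin k, ∃ c, (SimpleGraph.cycleGraph ℓ).IsContained (colGraph F χ c)

/-- `F` has an edge between any two disjoint sets of at least `N / Q` vertices. -/
def Joined {N : ℕ} (Q : ℕ) (F : SimpleGraph (Fin N)) : Prop :=
  ∀ A B : Finset (Fin N), Disjoint A B → N ≤ Q * A.card → N ≤ Q * B.card →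
    ∃ a ∈ A, ∃ b ∈ B, F.Adj a b

end CRam
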