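import Mathlib
import Pool.Agent.Lib.CRam.Defs

/-!
# CRam.Clean : cleaning a joined pair to an expanding pair

Sketch. Consider pairs `(W₁, W₂)`, `Wᵢ ⊆ Xᵢ`, `|Wᵢ| < s`, such that `Wᵢ` has at most `10 |Wᵢ|`
neighbours in `X_{3-i} \ W_{3-i}`. `(∅, ∅)` is one; take one with `|W₁| + |W₂|` maximal, and
`Yᵢ = Xᵢ \ Wᵢ`. A set `W` with `|W| ≥ s` of `Xᵢ` has more than `|X_{3-i}| - s` neighbours in `X_{3-i}`,
so `≥ |X_{3-i}| - 2 s ≥ 198 s` in `Y_{3-i}`. Let `W ⊆ Y₁`, `1 ≤ |W| ≤ 5s`, have fewer than `10|W|`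
neighbours in `Y₂`; then `|W| < s`. `W₁ ∪ W` has at most `10 |W₁ ∪ W|` neighbours in `X₂ \ W₂`, and the
condition for `W₂` is preserved (smaller target). If `|W₁ ∪ W| < s` this contradicts maximality; if
`s ≤ |W₁ ∪ W| < 2s` then it has `≥ 198 s > 20 s` neighbours in `Y₂`, contradiction. Same for `i = 2`.
-/

open Classical

namespace CRam

/-- neighbours of `W` in `T` -/
noncomputable def cleanNb {V : Type*} (H : SimpleGraph V) (T W : Finset V) : Finset V :=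
  T.filter (fun v => ∃ u ∈ W, H.Adj u v)

theorem clean_big {V : Type*} [DecidableEq V] {H : SimpleGraph V} {s : ℕ} {A B : Finset V}
    (hJ : Jn H s A B) (W2 : Finset V) (h2 : W2.card < s) {W : Finset V} (hW : W ⊆ A)
    (hs : s ≤ W.card) : B.card < (cleanNb H (B \ W2) W).card + 2 * s := by
  have h1 : (B.filter (fun v => ¬ ∃ u ∈ W, H.Adj u v)).card < s := by
    by_contra hcon
    obtain ⟨a, ha, b, hb, hab⟩ := hJ W hW _ (Finset.filter_subset _ _) hs (not_lt.1 hcon)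
    exact (Finset.mem_filter.1 hb).2 ⟨a, ha, hab⟩
  have h3 := Finset.card_filter_add_card_filter_not (s := B) (fun v => ∃ u ∈ W, H.Adj u v)
  have h4 : (B.filter (fun v => ∃ u ∈ W, H.Adj u v)).card ≤
      (cleanNb H (B \ W2) W).card + W2.card := by
    refine (Finset.card_le_card (t := cleanNb H (B \ W2) W ∪ W2) ?_).trans
      (Finset.card_union_le _ _)
    intro v hv
    rw [Finset.mem_filter] at hv
    rw [Finset.mem_union]
    by_cases h : v ∈ W2
    · exact Or.inr h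
    · exact Or.inl (Finset.mem_filter.2 ⟨Finset.mem_sdiff.2 ⟨hv.1, h⟩, hv.2⟩)
  omega

theorem clean_aux {V : Type*} [DecidableEq V] {H : SimpleGraph V} {s : ℕ}
    {X1 X2 : Finset V} (hJ : Jn H s X1 X2) (h2 : 200 * s ≤ X2.card) {W1 W2 : Finset V}
    (hW1 : W1 ⊆ X1) (c1 : W1.card < s) (c2 : W2.card < s)
    (n1 : (cleanNb H (X2 \ W2) W1).card ≤ 10 * W1.card)
    (hmax : ∀ W' ⊆ X1, W'.card < s → W1 ⊆ W' → (cleanNb H (X2 \ W2) W').card ≤ 10 * W'.card →
      W'.card ≤ W1.card) :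
    ∀ W ⊆ X1 \ W1, W.card ≤ 5 * s → 10 * W.card ≤ (cleanNb H (X2 \ W2) W).card := by
  intro W hW hWc
  by_contra hcon
  rw [not_le] at hcon
  have hWX : W ⊆ X1 := hW.trans Finset.sdiff_subset
  have hlt : W.card < s := by
    by_contra h
    have := clean_big hJ W2 c2 hWX (not_lt.1 h)
    omega
  have hdis : Disjoint W1 W := by
    rw [Finset.disjoint_left]
    intro v hv hvW
    exact (Finset.mem_sdiff.1 (hW hvW)).2 hv
  have hcard : (W1 ∪ W).card = W1.card + W.card := Finset.card_union_of_disjoint hdis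
  have hnb : (cleanNb H (X2 \ W2) (W1 ∪ W)).card ≤ 10 * (W1 ∪ W).card := by
    have : cleanNb H (X2 \ W2) (W1 ∪ W) ⊆ cleanNb H (X2 \ W2) W1 ∪ cleanNb H (X2 \ W2) W := by
      intro v hv
      obtain ⟨hv1, u, hu, huv⟩ := Finset.mem_filter.1 hv
      rw [Finset.mem_union]
      rcases Finset.mem_union.1 hu with h | h
      · exact Or.inl (Finset.mem_filter.2 ⟨hv1, u, h, huv⟩)
      · exact Or.inr (Finset.mem_filter.2 ⟨hv1, u, h, huv⟩)
    have := (Finset.card_le_card this).trans (Finset.card_union_le _ _)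
    omega
  have hsub : W1 ∪ W ⊆ X1 := Finset.union_subset hW1 hWX
  have hlt2 : (W1 ∪ W).card < s := by
    by_contra h
    have := clean_big hJ W2 c2 hsub (not_lt.1 h)
    omega
  have := hmax _ hsub hlt2 Finset.subset_union_left hnb
  omega

theorem clean {V : Type*} [DecidableEq V] (H : SimpleGraph V) (s : ℕ) (hs : 1 ≤ s)
    (X1 X2 : Finset V) (hd : Disjoint X1 X2) (hJ : Jn H s X1 X2)
    (h1 : 200 * s ≤ X1.card) (h2 : 200 * s ≤ X2.card) :
    ∃ Y1 ⊆ X1, ∃ Y2 ⊆ X2, X1.card ≤ Y1.card + s ∧ X2.card ≤ Y2.card + s ∧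
      (∀ W ⊆ Y1, W.card ≤ 5 * s →
        10 * W.card ≤ (Y2.filter (fun v => ∃ u ∈ W, H.Adj u v)).card) ∧
      (∀ W ⊆ Y2, W.card ≤ 5 * s →
        10 * W.card ≤ (Y1.filter (fun v => ∃ u ∈ W, H.Adj u v)).card) := by
  let C : Finset (Finset V × Finset V) := (X1.powerset ×ˢ X2.powerset).filter (fun p =>
    (p.1.card < s ∧ p.2.card < s) ∧ (cleanNb H (X2 \ p.2) p.1).card ≤ 10 * p.1.card ∧
      (cleanNb H (X1 \ p.1) p.2).card ≤ 10 * p.2.card)
  have hC : ∀ W1 W2, (W1, W2) ∈ C ↔ (W1 ⊆ X1 ∧ W2 ⊆ X2) ∧ (W1.card < s ∧ W2.card < s) ∧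
      (cleanNb H (X2 \ W2) W1).card ≤ 10 * W1.card ∧
      (cleanNb H (X1 \ W1) W2).card ≤ 10 * W2.card := by
    intro W1 W2
    simp only [C, Finset.mem_filter, Finset.mem_product, Finset.mem_powerset]
  have hne : C.Nonempty := by
    refine ⟨(∅, ∅), (hC _ _).2 ⟨⟨by simp, by simp⟩, ⟨by rw [Finset.card_empty]; omega, by rw [Finset.card_empty]; omega⟩, ?_, ?_⟩⟩
    · simp [cleanNb]
    · simp [cleanNb]
  obtain ⟨⟨W1, W2⟩, hm, hmax⟩ := Finset.exists_max_image C (fun p => p.1.card + p.2.card) hne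
  obtain ⟨⟨s1, s2⟩, ⟨c1, c2⟩, n1, n2⟩ := (hC _ _).1 hm
  have hcn : ∀ T T' W : Finset V, T ⊆ T' → (cleanNb H T W).card ≤ (cleanNb H T' W).card :=
    fun T T' W h => Finset.card_le_card (Finset.filter_subset_filter _ h)
  have e1 := Finset.card_sdiff_add_card_eq_card s1
  have e2 := Finset.card_sdiff_add_card_eq_card s2
  refine ⟨X1 \ W1, Finset.sdiff_subset, X2 \ W2, Finset.sdiff_subset, by omega, by omega, ?_, ?_⟩
  · refine clean_aux hJ h2 s1 c1 c2 n1 fun W' h3 h4 h5 h6 => ?_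
    have := hmax (W', W2) ((hC _ _).2 ⟨⟨h3, s2⟩, ⟨h4, c2⟩, h6,
      (hcn _ _ _ (Finset.sdiff_subset_sdiff (Finset.Subset.refl _) h5)).trans n2⟩)
    dsimp only at this
    omega
  · refine clean_aux hJ.symm h1 s2 c2 c1 n2 fun W' h3 h4 h5 h6 => ?_
    have := hmax (W1, W') ((hC _ _).2 ⟨⟨s1, h3⟩, ⟨c1, h4⟩,
      (hcn _ _ _ (Finset.sdiff_subset_sdiff (Finset.Subset.refl _) h5)).trans n1, h6⟩)
    dsimp only at this
    omega

end CRam
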