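import Mathlib
import Pool.Agent.Lib.CRam.Defs

/-!
# CRam.Connect : connecting two sets through reserved vertices along a walk of the reduced graph

Sketch. Let `n` be the least positive number with `n ≡ w.length (mod 2)` such that there is a walk
`a = w_0, …, w_n = b` in `Γ` of length `n`. By minimality the pairs `(w_i, i mod 2)`, `1 ≤ i ≤ n`, are
pairwise distinct (cut out the part between two equal ones; the new length is still positive since
position `i ≥ 1` is kept, of the same parity and smaller), so `n ≤ 2 t` and each cluster occurs at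
most twice among the positions `1, …, n`, at most once with each parity. Choose disjoint subsets
`R0 c, R1 c ⊆ R c` of size `≥ 2 s` each. Forward sets: `F_0 = A`,
`F_i = {v ∈ R_{i mod 2} (w_i) | v has a neighbour in F_{i-1}}` for `1 ≤ i < n`; inductively
`|F_i| ≥ s`: the set of vertices of `R_{i mod 2}(w_i)` without a neighbour in `F_{i-1}` has size `< s` by
`Jn` (here `F_{i-1} ⊆ P (w_{i-1})`, `|F_{i-1}| ≥ s`, `R… ⊆ P (w_i)`). Finally there is an edge between
`F_{n-1}` and `B`. Go back: `y = v_n ∈ B`, `v_{n-1} ∈ F_{n-1}`, …, `v_0 = x ∈ F_0 = A`. The interior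
vertices `v_1, …, v_{n-1}` are distinct as the sets `R_{i mod 2}(w_i)` are pairwise disjoint.
`l = [v_1, …, v_{n-1}]`, `l.length + 1 = n`.
(Alternative: define by recursion on `i` directly ∀ v ∈ F_i, ∃ list from A to v.)
-/

open Classical

namespace CRam

/-- a shortest admissible sequence -/
theorem connect_seq {ι : Type*} [Fintype ι] (Γ : SimpleGraph ι) (a b : ι) (w : Γ.Walk a b)
    (hw : 0 < w.length) :
    ∃ (n : ℕ) (f : ℕ → ι), 0 < n ∧ n % 2 = w.length % 2 ∧ f 0 = a ∧ f n = b ∧
      (∀ i < n, Γ.Adj (f i) (f (i + 1))) ∧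
      (∀ i j, 1 ≤ i → i < j → j ≤ n → i % 2 = j % 2 → f i ≠ f j) := by
  have hex : ∃ n : ℕ, ∃ f : ℕ → ι, 0 < n ∧ n % 2 = w.length % 2 ∧ f 0 = a ∧ f n = b ∧
      (∀ i < n, Γ.Adj (f i) (f (i + 1))) :=
    ⟨w.length, w.getVert, hw, rfl, w.getVert_zero, w.getVert_length,
      fun i hi => w.adj_getVert_succ hi⟩
  obtain ⟨f, h0, hpar, ha, hb, hadj⟩ := Nat.find_spec hex
  refine ⟨Nat.find hex, f, h0, hpar, ha, hb, hadj, ?_⟩
  intro i j hi hij hj hmod hfe
  have hlt : Nat.find hex - (j - i) < Nat.find hex := by omega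
  refine Nat.find_min hex hlt ⟨fun k => if k ≤ i then f k else f (k + (j - i)), by omega,
    by omega, by simp [ha], ?_, ?_⟩
  · by_cases hc : Nat.find hex - (j - i) ≤ i
    · have h1 : Nat.find hex = j := by omega
      simp only [if_pos hc]
      have h2 : Nat.find hex - (j - i) = i := by omega
      rw [h2, hfe, ← h1]
      exact hb
    · simp only [if_neg hc]
      have h2 : Nat.find hex - (j - i) + (j - i) = Nat.find hex := by omega
      rw [h2]
      exact hb
  · intro k hk
    by_cases hc : k + 1 ≤ i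
    · have hc' : k ≤ i := by omega
      simp only [if_pos hc, if_pos hc']
      exact hadj k (by omega)
    · by_cases hc' : k ≤ i
      · have hki : k = i := by omega
        simp only [if_neg hc, if_pos hc']
        subst hki
        rw [hfe]
        have h2 : k + 1 + (j - k) = j + 1 := by omega
        rw [h2]
        exact hadj j (by omega)
      · simp only [if_neg hc, if_neg hc']
        have h2 : k + 1 + (j - i) = k + (j - i) + 1 := by omega
        rw [h2]
        exact hadj _ (by omega)

/-- the forward sets -/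
theorem connect_fwd {V ι : Type*} [DecidableEq V] (H : SimpleGraph V) (s n : ℕ)
    (P : ι → Finset V) (f : ℕ → ι) (hJ : ∀ i < n, Jn H s (P (f i)) (P (f (i + 1))))
    (Rp : ι → ℕ → Finset V) (hR : ∀ a e, Rp a e ⊆ P a) (hRs : ∀ a e, 2 * s ≤ (Rp a e).card)
    (A : Finset V) (hA : A ⊆ P (f 0)) (hAs : s ≤ A.card) :
    ∀ i, i < n → ∃ F : Finset V, F ⊆ P (f i) ∧ s ≤ F.card ∧
      ∀ v ∈ F, ∃ p : ℕ → V, p 0 ∈ A ∧ p i = v ∧ (∀ j < i, H.Adj (p j) (p (j + 1))) ∧
        ∀ j, 1 ≤ j → j ≤ i → p j ∈ Rp (f j) (j % 2) := by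
  intro i
  induction i with
  | zero =>
    intro _
    refine ⟨A, hA, hAs, fun v hv => ⟨fun _ => v, hv, rfl, ?_, ?_⟩⟩
    · intro j hj; omega
    · intro j h1 h2; omega
  | succ i ih =>
    intro hi
    obtain ⟨F, hF, hFs, hFp⟩ := ih (by omega)
    let S := Rp (f (i + 1)) ((i + 1) % 2)
    let F' := S.filter (fun v => ∃ u ∈ F, H.Adj u v)
    have hF' : F' ⊆ P (f (i + 1)) := (Finset.filter_subset _ _).trans (hR _ _)
    have hcompl : (S.filter (fun v => ¬ ∃ u ∈ F, H.Adj u v)).card < s := by
      by_contra hcon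
      obtain ⟨u, hu, v, hv, huv⟩ := hJ i (by omega) F hF
        (S.filter (fun v => ¬ ∃ u ∈ F, H.Adj u v))
        ((Finset.filter_subset _ _).trans (hR _ _)) hFs (not_lt.mp hcon)
      exact (Finset.mem_filter.mp hv).2 ⟨u, hu, huv⟩
    have hcard : F'.card + (S.filter (fun v => ¬ ∃ u ∈ F, H.Adj u v)).card = S.card :=
      Finset.card_filter_add_card_filter_not _
    have hS : 2 * s ≤ S.card := hRs _ _
    refine ⟨F', hF', by omega, ?_⟩
    intro v hv
    obtain ⟨hvS, u, hu, huv⟩ := Finset.mem_filter.mp hv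
    obtain ⟨p, hp0, hpi, hpadj, hpR⟩ := hFp u hu
    refine ⟨fun k => if k ≤ i then p k else v, by simpa using hp0, by simp, ?_, ?_⟩
    · intro j hj
      by_cases hc : j + 1 ≤ i
      · have hc' : j ≤ i := by omega
        simp only [if_pos hc, if_pos hc']
        exact hpadj j (by omega)
      · have hji : j = i := by omega
        subst hji
        simp only [if_neg hc, if_pos le_rfl]
        rw [hpi]
        exact huv
    · intro j h1 h2
      by_cases hc : j ≤ i
      · simp only [if_pos hc]
        exact hpR j h1 hc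
      · have hji : j = i + 1 := by omega
        subst hji
        simp only [if_neg hc]
        exact hvS

theorem connect {V ι : Type*} [DecidableEq V] [Fintype ι] (H : SimpleGraph V) (s : ℕ) (hs : 1 ≤ s)
    (P : ι → Finset V) (hP : Pairwise fun i j => Disjoint (P i) (P j))
    (Γ : SimpleGraph ι) (hΓ : ∀ a b, Γ.Adj a b → Jn H s (P a) (P b))
    (R : ι → Finset V) (hR : ∀ a, R a ⊆ P a) (hRs : ∀ a, 4 * s ≤ (R a).card)
    (a b : ι) (A B : Finset V) (hA : A ⊆ P a) (hB : B ⊆ P b) (hAs : s ≤ A.card)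
    (hBs : s ≤ B.card) (w : Γ.Walk a b) (hw : 0 < w.length) :
    ∃ x ∈ A, ∃ y ∈ B, ∃ l : List V, (x :: (l ++ [y])).IsChain H.Adj ∧ l.Nodup ∧
      (∀ v ∈ l, ∃ c, v ∈ R c) ∧ l.length ≤ 2 * Fintype.card ι ∧
      (l.length + 1) % 2 = w.length % 2 := by
  obtain ⟨n, f, hn0, hpar, hf0, hfn, hadj, hdist⟩ := connect_seq Γ a b w hw
  have hS0 : ∀ c, ∃ S ⊆ R c, S.card = 2 * s := fun c =>
    Finset.exists_subset_card_eq (by have := hRs c; omega)
  choose S0 hS0R hS0c using hS0
  let Rp : ι → ℕ → Finset V := fun c e => if e = 0 then S0 c else R c \ S0 c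
  have hRpR : ∀ c e, Rp c e ⊆ R c := by
    intro c e
    simp only [Rp]
    split_ifs
    · exact hS0R c
    · exact Finset.sdiff_subset
  have hRps : ∀ c e, 2 * s ≤ (Rp c e).card := by
    intro c e
    simp only [Rp]
    split_ifs
    · rw [hS0c c]
    · rw [Finset.card_sdiff_of_subset (hS0R c), hS0c c]
      have := hRs c
      omega
  have hRpd : ∀ c c' e e' v, e < 2 → e' < 2 → v ∈ Rp c e → v ∈ Rp c' e' → c = c' ∧ e = e' := by
    intro c c' e e' v he he' h1 h2
    have hcc : c = c' := by
      by_contra hne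
      exact (Finset.disjoint_left.mp (hP hne) (hR c (hRpR c e h1))) (hR c' (hRpR c' e' h2))
    subst hcc
    refine ⟨rfl, ?_⟩
    simp only [Rp] at h1 h2
    by_cases h3 : e = 0 <;> by_cases h4 : e' = 0
    · omega
    · rw [if_pos h3] at h1
      rw [if_neg h4] at h2
      exact absurd h1 (Finset.mem_sdiff.mp h2).2
    · rw [if_neg h3] at h1
      rw [if_pos h4] at h2
      exact absurd h2 (Finset.mem_sdiff.mp h1).2
    · omega
  have hJ : ∀ i < n, Jn H s (P (f i)) (P (f (i + 1))) := fun i hi => hΓ _ _ (hadj i hi)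
  obtain ⟨F, hF, hFs, hFp⟩ := connect_fwd H s n P f hJ Rp
    (fun c e => (hRpR c e).trans (hR c)) hRps A (by rw [hf0]; exact hA) hAs (n - 1) (by omega)
  have hJn := hJ (n - 1) (by omega)
  have hn1 : n - 1 + 1 = n := by omega
  rw [hn1, hfn] at hJn
  obtain ⟨u, hu, y, hy, huy⟩ := hJn F hF B hB hFs hBs
  obtain ⟨p, hp0, hpi, hpadj, hpR⟩ := hFp u hu
  let l : List V := (List.range (n - 1)).map (fun j => p (j + 1))
  have hll : l.length = n - 1 := by simp [l]
  have hget : ∀ (i : ℕ) (hi : i < (p 0 :: (l ++ [y])).length), i < n →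
      (p 0 :: (l ++ [y]))[i] = p i := by
    intro i hi hin
    rcases i with _ | i
    · rfl
    · simp only [List.getElem_cons_succ]
      rw [List.getElem_append_left (by omega)]
      simp [l]
  have hgetn : ∀ (hi : n < (p 0 :: (l ++ [y])).length), (p 0 :: (l ++ [y]))[n] = y := by
    intro hi
    obtain ⟨m, rfl⟩ : ∃ m, n = m + 1 := ⟨n - 1, by omega⟩
    simp only [List.getElem_cons_succ]
    rw [List.getElem_append_right (by omega)]
    simp
  have hlen : (p 0 :: (l ++ [y])).length = n + 1 := by simp [hll]; omega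
  refine ⟨p 0, hp0, y, hy, l, ?_, ?_, ?_, ?_, ?_⟩
  · rw [List.isChain_iff_getElem]
    intro i hi
    rw [hlen] at hi
    rw [hget i (by omega) (by omega)]
    by_cases hc : i + 1 < n
    · rw [hget (i + 1) (by omega) hc]
      exact hpadj i (by omega)
    · have hin : i + 1 = n := by omega
      subst hin
      rw [hgetn (by omega)]
      have : i = i + 1 - 1 := by omega
      rw [this, hpi]
      exact huy
  · refine List.Nodup.map_on ?_ List.nodup_range
    intro i hi j hj hij
    rw [List.mem_range] at hi hj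
    by_contra hne
    rcases lt_or_gt_of_ne hne with h | h
    · have e1 := hpR (i + 1) (by omega) (by omega)
      have e2 := hpR (j + 1) (by omega) (by omega)
      rw [hij] at e1
      obtain ⟨e3, e4⟩ := hRpd _ _ _ _ _ (Nat.mod_lt _ (by omega)) (Nat.mod_lt _ (by omega)) e1 e2
      exact hdist (i + 1) (j + 1) (by omega) (by omega) (by omega) e4 e3
    · have e1 := hpR (i + 1) (by omega) (by omega)
      have e2 := hpR (j + 1) (by omega) (by omega)
      rw [hij] at e1
      obtain ⟨e3, e4⟩ := hRpd _ _ _ _ _ (Nat.mod_lt _ (by omega)) (Nat.mod_lt _ (by omega)) e2 e1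
      exact hdist (j + 1) (i + 1) (by omega) (by omega) (by omega) e4 e3
  · intro v hv
    simp only [l, List.mem_map, List.mem_range] at hv
    obtain ⟨i, hi, rfl⟩ := hv
    exact ⟨f (i + 1), hRpR _ _ (hpR (i + 1) (by omega) (by omega))⟩
  · rw [hll]
    have hinj : Function.Injective (fun i : Fin n => (f (i.1 + 1),
        (⟨(i.1 + 1) % 2, Nat.mod_lt _ (by omega)⟩ : Fin 2))) := by
      intro i j hij
      simp only [Prod.mk.injEq, Fin.mk.injEq] at hij
      by_contra hne
      have hne' : i.1 ≠ j.1 := fun h => hne (Fin.ext h)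
      rcases lt_or_gt_of_ne hne' with h | h
      · exact hdist (i.1 + 1) (j.1 + 1) (by omega) (by omega) (by omega) hij.2 hij.1
      · exact hdist (j.1 + 1) (i.1 + 1) (by omega) (by omega) (by omega) hij.2.symm hij.1.symm
    have := Fintype.card_le_of_injective _ hinj
    simp only [Fintype.card_fin, Fintype.card_prod] at this
    omega
  · rw [hll, hn1]
    exact hpar

end CRam
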