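import Mathlib
import Pool.Agent.Lib.CRam.Defs

/-!
# CRam.Dfs : long paths with prescribed clusters (depth first search argument)

Sketch. Call a state a pair (`l : List V`, `D : Fin r → Fin r → Finset V`) such that: `l` nodup,
chain for `H`, `l.length ≤ e + 1`, `l[i] ∈ Q (q i)`; `D j j' ⊆ Q j`, the sets `D j j'` are pairwise
disjoint and disjoint from `l`; `D j j' ≠ ∅` only if some `i < e` has `q i = j`, `q (i+1) = j'` (so
`Jn H s (Q j) (Q j')`); every vertex of `D j j'` has no `H`-neighbour in the unused part
`U j' = Q j' \ (l ∪ ⋃ D)` of `Q j'`; and `|D j j'| < s` for all `j, j'`. The empty state is one. Take a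
state with `2 * (∑ |D j j'|) + l.length` maximal (bounded by `2 * card` of a union of the `Q j`); claim
`l.length = e + 1`. Always `|U j'| ≥ |Q j'| - (visits j') - r (s - 1) ≥ s + r ≥ 1`.
If `l = []` then take any vertex of `U (q 0)`. If `l` has length `1 ≤ p ≤ e` and last vertex `v`:
if `v` has a neighbour in `U (q p)`, append it (the number of used vertices grows, all conditions
persist since `U` only shrinks). Otherwise move `v` to `D (q (p-1)) (q p)` (drop it from `l`; `U` does
not change; potential grows by `2 - 1`). We must see that its size is still `< s`: if it is `s`, then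
it has no edge to `U (q p)`, which has at least `s` elements (`≥ |Q| - visits - r s ≥ s`):
contradiction with `Jn`. (Process reversed lists if convenient: the list can be built with its last
vertex as head and reversed at the end.)
-/

open Classical

namespace CRam

/-- position condition for a reversed list (head = last vertex) -/
def DfsPos {V : Type*} {r : ℕ} (Q : Fin r → Finset V) (q : ℕ → Fin r) : List V → Prop
  | [] => True
  | v :: m => v ∈ Q (q m.length) ∧ DfsPos Q q m

theorem DfsPos.get {V : Type*} {r : ℕ} {Q : Fin r → Finset V} {q : ℕ → Fin r} :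
    ∀ {m : List V}, DfsPos Q q m → ∀ (i : ℕ) (hi : i < m.length),
      m[i] ∈ Q (q (m.length - 1 - i))
  | [], _, i, hi => by simp at hi
  | v :: m, h, 0, _ => by simpa using h.1
  | v :: m, h, i + 1, hi => by
    have h1 := DfsPos.get h.2 i (by simpa using hi)
    have h2 : (v :: m).length - 1 - (i + 1) = m.length - 1 - i := by
      simp only [List.length_cons]; omega
    rw [h2]
    exact h1

theorem DfsPos.card {V : Type*} [DecidableEq V] {r : ℕ} {Q : Fin r → Finset V}
    (hQ : Pairwise fun i j => Disjoint (Q i) (Q j)) {q : ℕ → Fin r} (j : Fin r) :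
    ∀ {m : List V}, DfsPos Q q m → (m.toFinset.filter (fun v => v ∈ Q j)).card ≤
      ((Finset.range m.length).filter (fun i => q i = j)).card
  | [], _ => by simp
  | v :: m, h => by
    have ih := DfsPos.card hQ j h.2
    rw [List.toFinset_cons, List.length_cons, Finset.range_add_one, Finset.filter_insert,
      Finset.filter_insert]
    by_cases hv : v ∈ Q j
    · have hqj : q m.length = j := by
        by_contra hne
        exact Finset.disjoint_left.mp (hQ hne) h.1 hv
      rw [if_pos hv, if_pos hqj]
      have h1 := Finset.card_insert_le v (m.toFinset.filter (fun v => v ∈ Q j))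
      have h2 : m.length ∉ (Finset.range m.length).filter (fun i => q i = j) := by simp
      have h3 := Finset.card_insert_of_notMem h2
      omega
    · rw [if_neg hv]
      split_ifs with hqj
      · have h2 : m.length ∉ (Finset.range m.length).filter (fun i => q i = j) := by simp
        have h3 := Finset.card_insert_of_notMem h2
        omega
      · exact ih

/-- a state of the search -/
structure DfsSt {V : Type*} [DecidableEq V] (H : SimpleGraph V) {r : ℕ} (Q : Fin r → Finset V)
    (s : ℕ) (q : ℕ → Fin r) (e : ℕ) (m : List V) (D : Fin r × Fin r → Finset V) : Prop where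
  nodup : m.Nodup
  chain : m.IsChain H.Adj
  len : m.length ≤ e + 1
  pos : DfsPos Q q m
  sub : ∀ x, D x ⊆ Q x.1
  dis : ∀ x, ∀ v ∈ m, v ∉ D x
  small : ∀ x, (D x).card < s
  dead : ∀ x, ∀ v ∈ D x, ∀ u ∈ Q x.2, u ∉ m → (∀ y, u ∉ D y) → ¬ H.Adj v u

theorem DfsSt.free {V : Type*} [DecidableEq V] {H : SimpleGraph V} {r : ℕ} {Q : Fin r → Finset V}
    (hQ : Pairwise fun i j => Disjoint (Q i) (Q j)) {s : ℕ} {q : ℕ → Fin r} {e : ℕ}
    (hc : ∀ j, ((Finset.range (e + 1)).filter (fun i => q i = j)).card + (r + 1) * s
      ≤ (Q j).card) {m : List V} {D : Fin r × Fin r → Finset V} (h : DfsSt H Q s q e m D)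
    (j : Fin r) : s ≤ ((Q j).filter (fun u => u ∉ m ∧ ∀ y, u ∉ D y)).card := by
  have h1 : Q j ⊆ ((Q j).filter (fun u => u ∉ m ∧ ∀ y, u ∉ D y)) ∪
      ((m.toFinset.filter (fun v => v ∈ Q j)) ∪
        (Finset.univ.biUnion fun k : Fin r => D (j, k))) := by
    intro u hu
    rw [Finset.mem_union, Finset.mem_union, Finset.mem_filter, Finset.mem_filter,
      Finset.mem_biUnion]
    by_cases hm : u ∈ m
    · exact Or.inr (Or.inl ⟨by simpa using hm, hu⟩)
    · by_cases hD : ∀ y, u ∉ D y
      · exact Or.inl ⟨hu, hm, hD⟩
      · simp only [not_forall, not_not] at hD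
        obtain ⟨⟨k, k'⟩, hk⟩ := hD
        have hkj : k = j := by
          by_contra hne
          exact Finset.disjoint_left.mp (hQ hne) (h.sub _ hk) hu
        subst hkj
        exact Or.inr (Or.inr ⟨k', Finset.mem_univ _, hk⟩)
  have h2 := Finset.card_le_card h1
  have h3 := Finset.card_union_le ((Q j).filter (fun u => u ∉ m ∧ ∀ y, u ∉ D y))
    ((m.toFinset.filter (fun v => v ∈ Q j)) ∪ (Finset.univ.biUnion fun k : Fin r => D (j, k)))
  have h4 := Finset.card_union_le (m.toFinset.filter (fun v => v ∈ Q j))
    (Finset.univ.biUnion fun k : Fin r => D (j, k))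
  have h5 := DfsPos.card hQ j h.pos
  have h6 : ((Finset.range m.length).filter (fun i => q i = j)).card ≤
      ((Finset.range (e + 1)).filter (fun i => q i = j)).card := by
    apply Finset.card_le_card
    intro i hi
    rw [Finset.mem_filter, Finset.mem_range] at hi ⊢
    exact ⟨by have := h.len; omega, hi.2⟩
  have h7 : (Finset.univ.biUnion fun k : Fin r => D (j, k)).card ≤ r * s := by
    calc _ ≤ ∑ k : Fin r, (D (j, k)).card := Finset.card_biUnion_le
      _ ≤ ∑ k : Fin r, s := Finset.sum_le_sum fun k _ => (h.small _).le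
      _ = r * s := by simp
  have h8 := hc j
  have h9 : (r + 1) * s = r * s + s := by ring
  omega

theorem DfsSt.step {V : Type*} [DecidableEq V] {H : SimpleGraph V} {r : ℕ} {Q : Fin r → Finset V}
    (hQ : Pairwise fun i j => Disjoint (Q i) (Q j)) {s : ℕ} (hs : 1 ≤ s) {q : ℕ → Fin r} {e : ℕ}
    (hJ : ∀ i < e, Jn H s (Q (q i)) (Q (q (i + 1))))
    (hc : ∀ j, ((Finset.range (e + 1)).filter (fun i => q i = j)).card + (r + 1) * s
      ≤ (Q j).card) {m : List V} {D : Fin r × Fin r → Finset V} (h : DfsSt H Q s q e m D)
    (hm : m.length ≤ e) : ∃ m' D', DfsSt H Q s q e m' D' ∧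
      2 * (∑ x, (D x).card) + m.length < 2 * (∑ x, (D' x).card) + m'.length := by
  have hfree := h.free hQ hc (q m.length)
  rcases m with _ | ⟨v, m⟩
  · obtain ⟨u, hu⟩ := Finset.card_pos.mp (lt_of_lt_of_le (by omega : 0 < s) hfree)
    rw [Finset.mem_filter] at hu
    refine ⟨[u], D, ⟨by simp, by simp, by simp, ⟨hu.1, trivial⟩, h.sub, ?_, h.small, ?_⟩, by simp⟩
    · intro x v hv
      rw [List.mem_singleton] at hv
      subst hv
      exact hu.2.2 x
    · intro x v hv w hw hwm hwD
      exact h.dead x v hv w hw (by simp) hwD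
  · by_cases hnb : ∃ u ∈ (Q (q (v :: m).length)).filter (fun u => u ∉ v :: m ∧ ∀ y, u ∉ D y),
        H.Adj u v
    · obtain ⟨u, hu, huv⟩ := hnb
      rw [Finset.mem_filter] at hu
      refine ⟨u :: v :: m, D, ⟨?_, ?_, ?_, ⟨hu.1, h.pos⟩, h.sub, ?_, h.small, ?_⟩, ?_⟩
      · exact List.nodup_cons.mpr ⟨hu.2.1, h.nodup⟩
      · exact List.isChain_cons_cons.mpr ⟨huv, h.chain⟩
      · rw [List.length_cons (a := u)]; omega
      · intro x w hw
        rcases List.mem_cons.mp hw with rfl | hw
        · exact hu.2.2 x
        · exact h.dis x w hw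
      · intro x w hw z hz hzm hzD
        exact h.dead x w hw z hz (fun hz' => hzm (List.mem_cons_of_mem _ hz')) hzD
      · rw [List.length_cons (a := u)]; omega
    · let x0 : Fin r × Fin r := (q m.length, q (v :: m).length)
      let D' : Fin r × Fin r → Finset V := fun x => if x = x0 then insert v (D x) else D x
      have hDD' : ∀ x, D x ⊆ D' x := by
        intro x
        simp only [D']
        split_ifs
        · exact Finset.subset_insert _ _
        · exact Finset.Subset.refl _
      have hvD : ∀ x, v ∉ D x := fun x => h.dis x v (by simp)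
      have hnd := List.nodup_cons.mp h.nodup
      have hmem : ∀ x w, w ∈ D' x → w ∈ D x ∨ (w = v ∧ x = x0) := by
        intro x w hw
        simp only [D'] at hw
        split_ifs at hw with hx
        · rcases Finset.mem_insert.mp hw with rfl | hw
          · exact Or.inr ⟨rfl, hx⟩
          · exact Or.inl hw
        · exact Or.inl hw
      have hfr : ∀ u, u ∉ m → (∀ y, u ∉ D' y) → u ∉ v :: m ∧ ∀ y, u ∉ D y := by
        intro u hum huD
        refine ⟨?_, fun y hy => huD y (hDD' y hy)⟩
        intro hu
        rcases List.mem_cons.mp hu with rfl | hu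
        · apply huD x0
          simp only [D', if_pos]
          exact Finset.mem_insert_self _ _
        · exact hum hu
      have hcard0 : (D' x0).card = (D x0).card + 1 := by
        simp only [D', if_pos]
        exact Finset.card_insert_of_notMem (hvD x0)
      have hdead : ∀ x, ∀ w ∈ D' x, ∀ u ∈ Q x.2, u ∉ m → (∀ y, u ∉ D' y) → ¬ H.Adj w u := by
        intro x w hw u hu hum huD hadj
        obtain ⟨h1, h2⟩ := hfr u hum huD
        rcases hmem x w hw with hw | ⟨rfl, rfl⟩
        · exact h.dead x w hw u hu h1 h2 hadj
        · exact hnb ⟨u, Finset.mem_filter.mpr ⟨hu, h1, h2⟩, hadj.symm⟩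
      have hsub : ∀ x, D' x ⊆ Q x.1 := by
        intro x w hw
        rcases hmem x w hw with hw | ⟨rfl, rfl⟩
        · exact h.sub x hw
        · exact h.pos.1
      refine ⟨m, D', ⟨hnd.2, ?_, ?_, h.pos.2, hsub, ?_, ?_, hdead⟩, ?_⟩
      · exact h.chain.tail
      · have := h.len
        rw [List.length_cons] at this
        omega
      · intro x w hw hwD
        rcases hmem x w hwD with hwD | ⟨rfl, rfl⟩
        · exact h.dis x w (List.mem_cons_of_mem _ hw) hwD
        · exact hnd.1 hw
      · intro x
        by_cases hx : x = x0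
        · subst hx
          rw [hcard0]
          have h1 := h.small x0
          by_contra hcon
          have h2 : s ≤ (D' x0).card := by omega
          have hlen : m.length < e := by rw [List.length_cons] at hm; omega
          obtain ⟨w, hw, u, hu, hwu⟩ := hJ m.length hlen (D' x0) (hsub x0) _
            (Finset.filter_subset _ _) h2 hfree
          rw [Finset.mem_filter] at hu
          refine hdead x0 w hw u hu.1 (fun hum => hu.2.1 (List.mem_cons_of_mem _ hum)) ?_ hwu
          intro y huy
          rcases hmem y u huy with huy | ⟨rfl, rfl⟩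
          · exact hu.2.2 y huy
          · exact hu.2.1 (by simp)
        · simp only [D', if_neg hx]
          exact h.small x
      · have : ∑ x, (D x).card < ∑ x, (D' x).card :=
          Finset.sum_lt_sum (fun x _ => Finset.card_le_card (hDD' x))
            ⟨x0, Finset.mem_univ _, by rw [hcard0]; omega⟩
        rw [List.length_cons]
        omega

theorem dfs {V : Type*} [DecidableEq V] (H : SimpleGraph V) {r : ℕ} (Q : Fin r → Finset V)
    (hQ : Pairwise fun i j => Disjoint (Q i) (Q j)) (s : ℕ) (hs : 1 ≤ s)
    (q : ℕ → Fin r) (e : ℕ) (hJ : ∀ i < e, Jn H s (Q (q i)) (Q (q (i + 1))))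
    (hc : ∀ j, ((Finset.range (e + 1)).filter (fun i => q i = j)).card + (r + 1) * s
      ≤ (Q j).card) :
    ∃ l : List V, l.length = e + 1 ∧ l.Nodup ∧ l.IsChain H.Adj ∧
      ∀ (i : ℕ) (hi : i < l.length), l[i] ∈ Q (q i) := by
  have hfin : ∃ m D, DfsSt H Q s q e m D ∧ m.length = e + 1 := by
    by_contra hcon
    push Not at hcon
    have hgrow : ∀ N : ℕ, ∃ m D, DfsSt H Q s q e m D ∧
        N ≤ 2 * (∑ x, (D x).card) + m.length := by
      intro N
      induction N with
      | zero =>
        refine ⟨[], fun _ => ∅, ⟨by simp, by simp, by simp, trivial, by simp, by simp, ?_,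
          by simp⟩, by simp⟩
        intro x
        simp only [Finset.card_empty]
        omega
      | succ N ih =>
        obtain ⟨m, D, hst, hN⟩ := ih
        have hm : m.length ≤ e := by
          have h1 := hst.len
          have h2 := hcon m D hst
          omega
        obtain ⟨m', D', hst', hlt⟩ := hst.step hQ hs hJ hc hm
        exact ⟨m', D', hst', by omega⟩
    obtain ⟨m, D, hst, hN⟩ := hgrow (2 * (∑ x : Fin r × Fin r, (Q x.1).card) + (e + 2))
    have h1 : ∑ x, (D x).card ≤ ∑ x : Fin r × Fin r, (Q x.1).card :=
      Finset.sum_le_sum fun x _ => Finset.card_le_card (hst.sub x)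
    have h2 := hst.len
    omega
  obtain ⟨m, D, hst, hm⟩ := hfin
  refine ⟨m.reverse, by simp [hm], List.nodup_reverse.mpr hst.nodup, ?_, ?_⟩
  · rw [List.isChain_reverse]
    exact hst.chain.imp fun a b hab => hab.symm
  · intro i hi
    rw [List.length_reverse] at hi
    rw [List.getElem_reverse]
    have h1 := hst.pos.get (m.length - 1 - i) (by omega)
    have h2 : m.length - 1 - (m.length - 1 - i) = i := by omega
    rw [h2] at h1
    exact h1

end CRam
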