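import Mathlib
import Pool.Agent.Lib.CRam.Defs

/-!
# CRam.Tree : two disjoint trees of doubling layers

`L i` are the layers of a tree rooted at `x`, `M i` those of a tree rooted at `y` (layers `i ≤ d`).
Induction on the layers: the neighbourhood of a layer is ten times larger, and at most six times its
size is used.
-/

open Classical

namespace CRam

/-- the conditions on the layers up to `d`; `A i` is the side of `L i` and `B i` that of `M i` -/
structure TreeQ {V : Type*} (H : SimpleGraph V) (A B : ℕ → Finset V) (x y : V) (d : ℕ)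
    (L M : ℕ → Finset V) : Prop where
  l0 : L 0 = {x}
  m0 : M 0 = {y}
  cl : ∀ i ≤ d, (L i).card = 2 ^ i
  cm : ∀ i ≤ d, (M i).card = 2 ^ i
  sl : ∀ i ≤ d, L i ⊆ A i
  sm : ∀ i ≤ d, M i ⊆ B i
  dd : ∀ i ≤ d, ∀ j ≤ d, i ≠ j → Disjoint (L i) (L j) ∧ Disjoint (M i) (M j)
  dm : ∀ i ≤ d, ∀ j ≤ d, Disjoint (L i) (M j)
  al : ∀ i < d, ∀ v ∈ L (i + 1), ∃ u ∈ L i, H.Adj u v
  am : ∀ i < d, ∀ v ∈ M (i + 1), ∃ u ∈ M i, H.Adj u v

theorem tree_used {V : Type*} [DecidableEq V] (L M : ℕ → Finset V) (d : ℕ)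
    (cl : ∀ i ≤ d, (L i).card = 2 ^ i) (cm : ∀ i ≤ d, (M i).card = 2 ^ i) :
    ((Finset.range (d + 1)).biUnion (fun j => L j ∪ M j)).card ≤ 4 * 2 ^ d := by
  calc ((Finset.range (d + 1)).biUnion (fun j => L j ∪ M j)).card
      ≤ ∑ j ∈ Finset.range (d + 1), (L j ∪ M j).card := Finset.card_biUnion_le
    _ ≤ ∑ j ∈ Finset.range (d + 1), 2 * 2 ^ j := by
        apply Finset.sum_le_sum
        intro j hj
        have hj' : j ≤ d := by simpa using Nat.lt_succ_iff.1 (Finset.mem_range.1 hj)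
        have := Finset.card_union_le (L j) (M j)
        rw [cl j hj', cm j hj'] at this
        omega
    _ = 2 * ∑ j ∈ Finset.range (d + 1), 2 ^ j := by rw [Finset.mul_sum]
    _ ≤ 4 * 2 ^ d := by
        have := Nat.geomSum_eq (m := 2) le_rfl (d + 1)
        rw [this, pow_succ]
        omega

theorem tree_step {V : Type*} [DecidableEq V] (H : SimpleGraph V) (s : ℕ)
    (A B : ℕ → Finset V)
    (hA : ∀ i, ∀ W ⊆ A i, W.card ≤ 5 * s →
        10 * W.card ≤ ((A (i + 1)).filter (fun v => ∃ u ∈ W, H.Adj u v)).card)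
    (hB : ∀ i, ∀ W ⊆ B i, W.card ≤ 5 * s →
        10 * W.card ≤ ((B (i + 1)).filter (fun v => ∃ u ∈ W, H.Adj u v)).card)
    (x y : V) (d : ℕ) (hd : 2 ^ d ≤ 5 * s) (L M : ℕ → Finset V) (h : TreeQ H A B x y d L M) :
    ∃ L' M', TreeQ H A B x y (d + 1) L' M' := by
  set U := (Finset.range (d + 1)).biUnion (fun j => L j ∪ M j) with hU
  have hUc : U.card ≤ 4 * 2 ^ d := tree_used L M d h.cl h.cm
  set NL := (A (d + 1)).filter (fun v => ∃ u ∈ L d, H.Adj u v) with hNL
  set NM := (B (d + 1)).filter (fun v => ∃ u ∈ M d, H.Adj u v) with hNM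
  have hNLc : 10 * 2 ^ d ≤ NL.card := by
    have := hA d (L d) (h.sl d le_rfl) (by rw [h.cl d le_rfl]; exact hd)
    rwa [h.cl d le_rfl] at this
  have hNMc : 10 * 2 ^ d ≤ NM.card := by
    have := hB d (M d) (h.sm d le_rfl) (by rw [h.cm d le_rfl]; exact hd)
    rwa [h.cm d le_rfl] at this
  obtain ⟨L', hL'1, hL'2⟩ : ∃ t ⊆ NL \ U, t.card = 2 ^ (d + 1) := by
    apply Finset.exists_subset_card_eq
    have := Finset.le_card_sdiff U NL
    rw [pow_succ]
    omega
  obtain ⟨M', hM'1, hM'2⟩ : ∃ t ⊆ NM \ (U ∪ L'), t.card = 2 ^ (d + 1) := by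
    apply Finset.exists_subset_card_eq
    have h1 := Finset.le_card_sdiff (U ∪ L') NM
    have h2 := Finset.card_union_le U L'
    rw [hL'2, pow_succ] at h2
    rw [pow_succ]
    omega
  have memU : ∀ j ≤ d, ∀ v, v ∈ L j ∨ v ∈ M j → v ∈ U := by
    intro j hj v hv
    rw [hU, Finset.mem_biUnion]
    exact ⟨j, Finset.mem_range.2 (by omega), Finset.mem_union.2 hv⟩
  have dL : ∀ j ≤ d, Disjoint L' (L j) := by
    intro j hj
    rw [Finset.disjoint_left]
    intro v hv hv'
    exact (Finset.mem_sdiff.1 (hL'1 hv)).2 (memU j hj v (Or.inl hv'))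
  have dLM : ∀ j ≤ d, Disjoint L' (M j) := by
    intro j hj
    rw [Finset.disjoint_left]
    intro v hv hv'
    exact (Finset.mem_sdiff.1 (hL'1 hv)).2 (memU j hj v (Or.inr hv'))
  have dM : ∀ j ≤ d, Disjoint M' (M j) := by
    intro j hj
    rw [Finset.disjoint_left]
    intro v hv hv'
    exact (Finset.mem_sdiff.1 (hM'1 hv)).2 (Finset.mem_union_left _ (memU j hj v (Or.inr hv')))
  have dML : ∀ j ≤ d, Disjoint M' (L j) := by
    intro j hj
    rw [Finset.disjoint_left]
    intro v hv hv'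
    exact (Finset.mem_sdiff.1 (hM'1 hv)).2 (Finset.mem_union_left _ (memU j hj v (Or.inl hv')))
  have dd' : Disjoint L' M' := by
    rw [Finset.disjoint_left]
    intro v hv hv'
    exact (Finset.mem_sdiff.1 (hM'1 hv')).2 (Finset.mem_union_right _ hv)
  have eL : ∀ j ≤ d, Function.update L (d + 1) L' j = L j := fun j hj =>
    Function.update_of_ne (by omega) _ _
  have eM : ∀ j ≤ d, Function.update M (d + 1) M' j = M j := fun j hj =>
    Function.update_of_ne (by omega) _ _
  have eL' : Function.update L (d + 1) L' (d + 1) = L' := Function.update_self _ _ _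
  have eM' : Function.update M (d + 1) M' (d + 1) = M' := Function.update_self _ _ _
  have cases' : ∀ i ≤ d + 1, i ≤ d ∨ i = d + 1 := fun i hi => by omega
  refine ⟨Function.update L (d + 1) L', Function.update M (d + 1) M', ?_, ?_, ?_, ?_, ?_, ?_, ?_,
    ?_, ?_, ?_⟩
  · rw [eL 0 (Nat.zero_le _)]; exact h.l0
  · rw [eM 0 (Nat.zero_le _)]; exact h.m0
  · intro i hi
    rcases cases' i hi with h1 | rfl
    · rw [eL i h1]; exact h.cl i h1
    · rw [eL']; exact hL'2
  · intro i hi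
    rcases cases' i hi with h1 | rfl
    · rw [eM i h1]; exact h.cm i h1
    · rw [eM']; exact hM'2
  · intro i hi
    rcases cases' i hi with h1 | rfl
    · rw [eL i h1]; exact h.sl i h1
    · rw [eL']
      exact fun v hv => (Finset.mem_filter.1 (Finset.mem_sdiff.1 (hL'1 hv)).1).1
  · intro i hi
    rcases cases' i hi with h1 | rfl
    · rw [eM i h1]; exact h.sm i h1
    · rw [eM']
      exact fun v hv => (Finset.mem_filter.1 (Finset.mem_sdiff.1 (hM'1 hv)).1).1
  · intro i hi j hj hij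
    rcases cases' i hi with h1 | rfl
    · rcases cases' j hj with h2 | rfl
      · rw [eL i h1, eL j h2, eM i h1, eM j h2]; exact h.dd i h1 j h2 hij
      · rw [eL i h1, eL', eM i h1, eM']; exact ⟨(dL i h1).symm, (dM i h1).symm⟩
    · rcases cases' j hj with h2 | rfl
      · rw [eL', eL j h2, eM', eM j h2]; exact ⟨dL j h2, dM j h2⟩
      · exact absurd rfl hij
  · intro i hi j hj
    rcases cases' i hi with h1 | rfl
    · rcases cases' j hj with h2 | rfl
      · rw [eL i h1, eM j h2]; exact h.dm i h1 j h2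
      · rw [eL i h1, eM']; exact (dML i h1).symm
    · rcases cases' j hj with h2 | rfl
      · rw [eL', eM j h2]; exact dLM j h2
      · rw [eL', eM']; exact dd'
  · intro i hi v hv
    rcases cases' (i + 1) hi with h1 | h1
    · rw [eL (i + 1) h1] at hv
      rw [eL i (by omega)]
      exact h.al i (by omega) v hv
    · have : i = d := by omega
      subst this
      rw [eL'] at hv
      rw [eL i le_rfl]
      exact (Finset.mem_filter.1 (Finset.mem_sdiff.1 (hL'1 hv)).1).2
  · intro i hi v hv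
    rcases cases' (i + 1) hi with h1 | h1
    · rw [eM (i + 1) h1] at hv
      rw [eM i (by omega)]
      exact h.am i (by omega) v hv
    · have : i = d := by omega
      subst this
      rw [eM'] at hv
      rw [eM i le_rfl]
      exact (Finset.mem_filter.1 (Finset.mem_sdiff.1 (hM'1 hv)).1).2

theorem tree {V : Type*} [DecidableEq V] (H : SimpleGraph V) (s : ℕ) (hs : 1 ≤ s)
    (Y1 Y2 : Finset V) (hd : Disjoint Y1 Y2)
    (h1 : ∀ W ⊆ Y1, W.card ≤ 5 * s →
        10 * W.card ≤ (Y2.filter (fun v => ∃ u ∈ W, H.Adj u v)).card)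
    (h2 : ∀ W ⊆ Y2, W.card ≤ 5 * s →
        10 * W.card ≤ (Y1.filter (fun v => ∃ u ∈ W, H.Adj u v)).card)
    (x y : V) (hx : x ∈ Y1) (hy : y ∈ Y2) :
    ∃ (d : ℕ) (L M : ℕ → Finset V), 1 ≤ d ∧ 5 * s + 1 ≤ 2 ^ d ∧ 2 ^ d ≤ 10 * s ∧
      L 0 = {x} ∧ M 0 = {y} ∧
      (∀ i ≤ d, (L i).card = 2 ^ i) ∧ (∀ i ≤ d, (M i).card = 2 ^ i) ∧
      (∀ i ≤ d, Even i → L i ⊆ Y1 ∧ M i ⊆ Y2) ∧ (∀ i ≤ d, Odd i → L i ⊆ Y2 ∧ M i ⊆ Y1) ∧
      (∀ i ≤ d, ∀ j ≤ d, i ≠ j → Disjoint (L i) (L j) ∧ Disjoint (M i) (M j)) ∧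
      (∀ i ≤ d, ∀ j ≤ d, Disjoint (L i) (M j)) ∧
      (∀ i < d, ∀ v ∈ L (i + 1), ∃ u ∈ L i, H.Adj u v) ∧
      (∀ i < d, ∀ v ∈ M (i + 1), ∃ u ∈ M i, H.Adj u v) := by
  set A : ℕ → Finset V := fun i => if Even i then Y1 else Y2 with hA
  set B : ℕ → Finset V := fun i => if Even i then Y2 else Y1 with hB
  have hAB : ∀ i, (A i = Y1 ∧ A (i + 1) = Y2 ∧ B i = Y2 ∧ B (i + 1) = Y1) ∨
      (A i = Y2 ∧ A (i + 1) = Y1 ∧ B i = Y1 ∧ B (i + 1) = Y2) := by
    intro i
    by_cases he : Even i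
    · left
      simp [hA, hB, he, Nat.even_add_one]
    · right
      simp [hA, hB, he, Nat.even_add_one]
  have kA : ∀ i, ∀ W ⊆ A i, W.card ≤ 5 * s →
      10 * W.card ≤ ((A (i + 1)).filter (fun v => ∃ u ∈ W, H.Adj u v)).card := by
    intro i W hW hc
    rcases hAB i with ⟨e1, e2, _, _⟩ | ⟨e1, e2, _, _⟩
    · rw [e1] at hW; rw [e2]; exact h1 W hW hc
    · rw [e1] at hW; rw [e2]; exact h2 W hW hc
  have kB : ∀ i, ∀ W ⊆ B i, W.card ≤ 5 * s →
      10 * W.card ≤ ((B (i + 1)).filter (fun v => ∃ u ∈ W, H.Adj u v)).card := by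
    intro i W hW hc
    rcases hAB i with ⟨_, _, e1, e2⟩ | ⟨_, _, e1, e2⟩
    · rw [e1] at hW; rw [e2]; exact h2 W hW hc
    · rw [e1] at hW; rw [e2]; exact h1 W hW hc
  -- the depth
  have hex : ∃ d, 5 * s + 1 ≤ 2 ^ d := ⟨5 * s + 1, (Nat.lt_two_pow_self).le⟩
  set d := Nat.find hex with hdd
  have hd1 : 5 * s + 1 ≤ 2 ^ d := Nat.find_spec hex
  have hd2 : ∀ i < d, 2 ^ i ≤ 5 * s := fun i hi => by
    have := Nat.find_min hex hi
    omega
  have hd0 : 1 ≤ d := by
    by_contra h0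
    have : d = 0 := by omega
    rw [this] at hd1
    simp at hd1
    omega
  have hd3 : 2 ^ d ≤ 10 * s := by
    have := hd2 (d - 1) (by omega)
    have e : 2 ^ d = 2 ^ (d - 1) * 2 := by
      rw [← pow_succ, Nat.sub_add_cancel hd0]
    omega
  have hall : ∀ i ≤ d, ∃ L M, TreeQ H A B x y i L M := by
    intro i
    induction i with
    | zero =>
        intro _
        refine ⟨fun _ => {x}, fun _ => {y}, rfl, rfl, ?_, ?_, ?_, ?_, ?_, ?_, ?_, ?_⟩
        · intro i hi
          have : i = 0 := by omega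
          subst this; simp
        · intro i hi
          have : i = 0 := by omega
          subst this; simp
        · intro i hi
          have : i = 0 := by omega
          subst this
          simp [hA, hx]
        · intro i hi
          have : i = 0 := by omega
          subst this
          simp [hB, hy]
        · intro i hi j hj hij
          omega
        · intro i _ j _
          rw [Finset.disjoint_singleton]
          rintro rfl
          exact (Finset.disjoint_left.1 hd hx) hy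
        · intro i hi; omega
        · intro i hi; omega
    | succ i ih =>
        intro hi
        obtain ⟨L, M, hQ⟩ := ih (by omega)
        exact tree_step H s A B kA kB x y i (hd2 i (by omega)) L M hQ
  obtain ⟨L, M, hQ⟩ := hall d le_rfl
  refine ⟨d, L, M, hd0, hd1, hd3, hQ.l0, hQ.m0, hQ.cl, hQ.cm, ?_, ?_, hQ.dd, hQ.dm, hQ.al, hQ.am⟩
  · intro i hi he
    have e1 := hQ.sl i hi
    have e2 := hQ.sm i hi
    simp only [hA, hB, he, if_true] at e1 e2
    exact ⟨e1, e2⟩
  · intro i hi ho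
    have e1 := hQ.sl i hi
    have e2 := hQ.sm i hi
    have he : ¬ Even i := Nat.not_even_iff_odd.2 ho
    simp only [hA, hB, he, if_false] at e1 e2
    exact ⟨e1, e2⟩

end CRam
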