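import Mathlib
import Pool.Agent.Lib.CRam.Defs
import Pool.Agent.Lib.CRam.Dfs
import Pool.Agent.Lib.CRam.Clean
import Pool.Agent.Lib.CRam.Tree

/-!
# CRam.Core : the flexible core (paths of every odd length in a window)

Sketch. `Y1`, `Y2` from `clean`. Given `x ∈ Y1`, `y ∈ Y2`, odd `lam ∈ [20 s, 100 s]`, take `d`, `L`, `M`
from `tree`. All the layers together have at most `2 * 2 ^ (d+1) ≤ 40 s` vertices. `2 d ≤ 2 ^ d ≤ 10 s`
so `e := lam - 2 d` is odd, `3 ≤ e ≤ 100 s`. Let (side of `L d`) be `Y1` if `d` is even and `Y2` if `d`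
is odd, `M d` is on the other side. Apply `dfs` with `r = 4`, `Q 0 = L d`,
`Q 1 = (side opposite to L d) \ layers`, `Q 2 = (side of L d) \ layers`, `Q 3 = M d`,
`q i = if i = 0 then 0 else if i = e then 3 else if i odd then 1 else 2`
(`e` odd `≥ 3`; consecutive ones are on opposite sides, so `Jn` by `Jn.mono`, `Jn.symm`).
Sizes: `|Q 0|, |Q 3| = 2 ^ d ≥ 5 s + 1` (one visit each), `|Q 1|, |Q 2| ≥ 199 s - 40 s ≥ e / 2 + 1 + 5 s`.
This gives a path from some `u ∈ L d` to some `v ∈ M d` with `e` edges, whose interior avoids the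
layers. Go back from `u` through the layers to `x` (`d` edges; one vertex in each layer) and from `v`
to `y`. Total length `lam`, all vertices distinct.
-/

open Classical

namespace CRam

/-- Going back through the layers. -/
theorem core_back {V : Type*} (H : SimpleGraph V) (L : ℕ → Finset V) (d : ℕ)
    (hstep : ∀ i < d, ∀ v ∈ L (i + 1), ∃ u ∈ L i, H.Adj u v) (u : V) (hu : u ∈ L d) :
    ∃ p : List V, p.length = d ∧ (p ++ [u]).IsChain H.Adj ∧
      ∀ (i : ℕ) (hi : i < p.length), p[i] ∈ L i := by
  induction d generalizing u with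
  | zero => exact ⟨[], rfl, by simp, by simp⟩
  | succ d ih =>
    obtain ⟨u', hu', huu'⟩ := hstep d (Nat.lt_succ_self d) u hu
    obtain ⟨p, hpl, hpc, hpm⟩ := ih (fun i hi => hstep i (hi.trans (Nat.lt_succ_self d))) u' hu'
    refine ⟨p ++ [u'], by simp [hpl], ?_, ?_⟩
    · rw [List.isChain_append]
      refine ⟨hpc, by simp, ?_⟩
      intro a ha b hb
      simp at ha hb
      subst ha; subst hb
      exact huu'
    · intro i hi
      rw [List.getElem_append]
      split_ifs with h
      · exact hpm i h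
      · simp at hi
        have : i = d := by omega
        subst this
        simpa using hu'

/-- A list with entries in disjoint layers has no duplicates. -/
theorem core_nodup {V : Type*} (L : ℕ → Finset V) (p : List V)
    (hm : ∀ (i : ℕ) (hi : i < p.length), p[i] ∈ L i)
    (hd : ∀ i < p.length, ∀ j < p.length, i ≠ j → Disjoint (L i) (L j)) : p.Nodup := by
  rw [List.Nodup, List.pairwise_iff_getElem]
  intro i j hi hj hij h
  have h1 := hm i hi
  rw [h] at h1
  exact Finset.disjoint_left.1 (hd i hi j hj hij.ne) h1 (hm j hj)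

theorem core_two_mul_le (d : ℕ) (hd : 1 ≤ d) : 2 * d ≤ 2 ^ d := by
  induction d, hd using Nat.le_induction with
  | base => norm_num
  | succ n hn ih =>
    rw [pow_succ]
    omega

/-- The union of the layers is small. -/
theorem core_layers_card {V : Type*} [DecidableEq V] (L : ℕ → Finset V) (d : ℕ)
    (hc : ∀ i ≤ d, (L i).card = 2 ^ i) :
    ((Finset.range (d + 1)).biUnion L).card ≤ 2 * 2 ^ d := by
  refine Finset.card_biUnion_le.trans ?_
  have : ∑ i ∈ Finset.range (d + 1), (L i).card = ∑ i ∈ Finset.range (d + 1), 2 ^ i :=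
    Finset.sum_congr rfl (fun i hi => hc i (by simpa [Nat.lt_succ_iff] using hi))
  rw [this, Nat.geomSum_eq (le_refl 2)]
  have : 2 ^ (d + 1) = 2 * 2 ^ d := by ring
  omega

/-- The middle part of the path, from one last layer to the other one. -/
theorem core_mid {V : Type*} [DecidableEq V] (H : SimpleGraph V) (s : ℕ) (hs : 1 ≤ s)
    (A B : Finset V) (hAB : Disjoint A B) (hJ : Jn H s A B)
    (hA : 199 * s ≤ A.card) (hB : 199 * s ≤ B.card)
    (Z : Finset V) (hZ : Z.card ≤ 40 * s) (LL MM : Finset V) (hLA : LL ⊆ A) (hMB : MM ⊆ B)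
    (hLZ : LL ⊆ Z) (hMZ : MM ⊆ Z) (hL : 5 * s + 1 ≤ LL.card) (hM : 5 * s + 1 ≤ MM.card)
    (e : ℕ) (he : Odd e) (he3 : 3 ≤ e) (he100 : e ≤ 100 * s) :
    ∃ l : List V, l.length = e + 1 ∧ l.Nodup ∧ l.IsChain H.Adj ∧
      (∃ u ∈ LL, l.head? = some u) ∧ (∃ v ∈ MM, l.getLast? = some v) ∧
      (∀ z ∈ l, z ∈ A ∪ B) ∧ (∀ z ∈ l, z ∈ LL ∨ z ∈ MM ∨ z ∉ Z) := by
  let Q : Fin 4 → Finset V := ![LL, B \ Z, A \ Z, MM]
  let q : ℕ → Fin 4 := fun i => if i = 0 then 0 else if i = e then 3 else if Odd i then 1 else 2
  have hLM : Disjoint LL MM := Finset.disjoint_of_subset_left hLA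
    (Finset.disjoint_of_subset_right hMB hAB)
  have d01 : Disjoint LL (B \ Z) := Finset.disjoint_of_subset_left hLZ Finset.disjoint_sdiff
  have d02 : Disjoint LL (A \ Z) := Finset.disjoint_of_subset_left hLZ Finset.disjoint_sdiff
  have d31 : Disjoint MM (B \ Z) := Finset.disjoint_of_subset_left hMZ Finset.disjoint_sdiff
  have d32 : Disjoint MM (A \ Z) := Finset.disjoint_of_subset_left hMZ Finset.disjoint_sdiff
  have d12 : Disjoint (B \ Z) (A \ Z) := Finset.disjoint_of_subset_left Finset.sdiff_subset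
    (Finset.disjoint_of_subset_right Finset.sdiff_subset hAB.symm)
  have hQ : Pairwise fun i j => Disjoint (Q i) (Q j) := by
    intro i j hij
    fin_cases i <;> fin_cases j <;> first
      | exact absurd rfl hij
      | exact hLM
      | exact hLM.symm
      | exact d01
      | exact d01.symm
      | exact d02
      | exact d02.symm
      | exact d31
      | exact d31.symm
      | exact d32
      | exact d32.symm
      | exact d12
      | exact d12.symm
  have hside : ∀ i ≤ e, (Even i → Q (q i) ⊆ A) ∧ (Odd i → Q (q i) ⊆ B) := by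
    intro i hi
    by_cases h0 : i = 0
    · subst h0
      refine ⟨fun _ => ?_, fun h => absurd h (by decide)⟩
      have : q 0 = 0 := by simp [q]
      rw [this]
      exact hLA
    by_cases h1 : i = e
    · subst h1
      refine ⟨fun h => absurd he (Nat.not_odd_iff_even.2 h), fun _ => ?_⟩
      have : q i = 3 := by simp [q, h0]
      rw [this]
      exact hMB
    constructor
    · intro h
      have : q i = 2 := by simp [q, h0, h1, Nat.not_odd_iff_even.2 h]
      rw [this]
      exact Finset.sdiff_subset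
    · intro h
      have : q i = 1 := by simp [q, h0, h1, h]
      rw [this]
      exact Finset.sdiff_subset
  have hJn : ∀ i < e, Jn H s (Q (q i)) (Q (q (i + 1))) := by
    intro i hi
    rcases Nat.even_or_odd i with h | h
    · exact hJ.mono ((hside i hi.le).1 h) ((hside (i + 1) hi).2 h.add_one)
    · exact hJ.symm.mono ((hside i hi.le).2 h) ((hside (i + 1) hi).1 h.add_one)
  have hBZ : 159 * s ≤ (B \ Z).card := by
    have := Finset.le_card_sdiff Z B
    omega
  have hAZ : 159 * s ≤ (A \ Z).card := by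
    have := Finset.le_card_sdiff Z A
    omega
  have hc : ∀ j, ((Finset.range (e + 1)).filter (fun i => q i = j)).card + (4 + 1) * s
      ≤ (Q j).card := by
    intro j
    have hall : ((Finset.range (e + 1)).filter (fun i => q i = j)).card ≤ e + 1 := by
      refine (Finset.card_filter_le _ _).trans ?_
      simp
    fin_cases j
    · have h1 : ((Finset.range (e + 1)).filter (fun i => q i = 0)).card ≤ 1 := by
        refine Finset.card_le_one.2 ?_
        have key : ∀ a, q a = 0 → a = 0 := by
          intro a ha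
          by_contra h0
          by_cases h1 : a = e
          · simp [q, h1] at ha
            omega
          · by_cases h2 : Odd a <;> simp [q, h0, h1, h2] at ha
        intro a ha b hb
        rw [key a (Finset.mem_filter.1 ha).2, key b (Finset.mem_filter.1 hb).2]
      change _ + _ ≤ LL.card
      refine (Nat.add_le_add_right (m := 1) ?_ _).trans (by omega)
      exact h1
    · change _ + _ ≤ (B \ Z).card
      omega
    · change _ + _ ≤ (A \ Z).card
      omega
    · have h1 : ((Finset.range (e + 1)).filter (fun i => q i = 3)).card ≤ 1 := by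
        refine Finset.card_le_one.2 ?_
        have key : ∀ a, q a = 3 → a = e := by
          intro a ha
          by_contra h0
          by_cases h1 : a = 0
          · simp [q, h1] at ha
          · by_cases h2 : Odd a <;> simp [q, h0, h1, h2] at ha
        intro a ha b hb
        rw [key a (Finset.mem_filter.1 ha).2, key b (Finset.mem_filter.1 hb).2]
      change _ + _ ≤ MM.card
      refine (Nat.add_le_add_right (m := 1) ?_ _).trans (by omega)
      exact h1
  obtain ⟨l, hlen, hnd, hch, hmem⟩ := dfs H Q hQ s hs q e hJn hc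
  refine ⟨l, hlen, hnd, hch, ?_, ?_, ?_, ?_⟩
  · have h0 : 0 < l.length := by omega
    refine ⟨l[0], ?_, ?_⟩
    · have := hmem 0 h0
      have hq : q 0 = 0 := by simp [q]
      rw [hq] at this
      exact this
    · rw [List.head?_eq_getElem?, List.getElem?_eq_getElem h0]
  · have h0 : e < l.length := by omega
    refine ⟨l[e], ?_, ?_⟩
    · have := hmem e h0
      have hq : q e = 3 := by
        have : e ≠ 0 := by omega
        simp [q, this]
      rw [hq] at this
      exact this
    · rw [List.getLast?_eq_getElem?]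
      have : l.length - 1 = e := by omega
      rw [this, List.getElem?_eq_getElem h0]
  · intro z hz
    obtain ⟨i, hi, rfl⟩ := List.mem_iff_getElem.1 hz
    have h1 := hmem i hi
    rcases Nat.even_or_odd i with h | h
    · exact Finset.mem_union_left _ ((hside i (by omega)).1 h h1)
    · exact Finset.mem_union_right _ ((hside i (by omega)).2 h h1)
  · intro z hz
    obtain ⟨i, hi, rfl⟩ := List.mem_iff_getElem.1 hz
    have h1 := hmem i hi
    generalize q i = j at h1
    fin_cases j
    · exact Or.inl h1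
    · exact Or.inr (Or.inr (Finset.mem_sdiff.1 h1).2)
    · exact Or.inr (Or.inr (Finset.mem_sdiff.1 h1).2)
    · exact Or.inr (Or.inl h1)

theorem core {V : Type*} [DecidableEq V] (H : SimpleGraph V) (s : ℕ) (hs : 1 ≤ s)
    (X1 X2 : Finset V) (hd : Disjoint X1 X2) (hJ : Jn H s X1 X2)
    (h1 : 200 * s ≤ X1.card) (h2 : 200 * s ≤ X2.card) :
    ∃ Y1 ⊆ X1, ∃ Y2 ⊆ X2, 199 * s ≤ Y1.card ∧ 199 * s ≤ Y2.card ∧
      ∀ x ∈ Y1, ∀ y ∈ Y2, ∀ lam : ℕ, Odd lam → 20 * s ≤ lam → lam ≤ 100 * s →
        ∃ l : List V, l.length = lam + 1 ∧ l.Nodup ∧ l.IsChain H.Adj ∧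
          l.head? = some x ∧ l.getLast? = some y ∧ ∀ v ∈ l, v ∈ Y1 ∪ Y2 := by
  obtain ⟨Y1, hY1, Y2, hY2, hc1, hc2, he1, he2⟩ := clean H s hs X1 X2 hd hJ h1 h2
  have hY : Disjoint Y1 Y2 := Finset.disjoint_of_subset_left hY1
    (Finset.disjoint_of_subset_right hY2 hd)
  have hJY : Jn H s Y1 Y2 := hJ.mono hY1 hY2
  have hY1c : 199 * s ≤ Y1.card := by omega
  have hY2c : 199 * s ≤ Y2.card := by omega
  refine ⟨Y1, hY1, Y2, hY2, hY1c, hY2c, ?_⟩
  intro x hx y hy lam hodd hlo hhi
  obtain ⟨d, L, M, hd1, hd5, hd10, hL0, hM0, hLc, hMc, hev, hod, hdis, hLM, hLs, hMs⟩ :=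
    tree H s hs Y1 Y2 hY he1 he2 x y hx hy
  have h2d := core_two_mul_le d hd1
  set e := lam - 2 * d with he
  have heodd : Odd e := by
    rw [he, Nat.odd_sub (by omega)]
    exact ⟨fun _ => even_two_mul d, fun _ => hodd⟩
  have he3 : 3 ≤ e := by omega
  have he100 : e ≤ 100 * s := by omega
  set Z := (Finset.range (d + 1)).biUnion L ∪ (Finset.range (d + 1)).biUnion M with hZ
  have hZc : Z.card ≤ 40 * s := by
    have a1 := core_layers_card L d hLc
    have a2 := core_layers_card M d hMc
    have a3 := Finset.card_union_le ((Finset.range (d + 1)).biUnion L)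
      ((Finset.range (d + 1)).biUnion M)
    rw [← hZ] at a3
    omega
  have hLZ : ∀ i ≤ d, L i ⊆ Z := by
    intro i hi
    exact (Finset.subset_biUnion_of_mem L (Finset.mem_range.2 (Nat.lt_succ_of_le hi))).trans
      Finset.subset_union_left
  have hMZ : ∀ i ≤ d, M i ⊆ Z := by
    intro i hi
    exact (Finset.subset_biUnion_of_mem M (Finset.mem_range.2 (Nat.lt_succ_of_le hi))).trans
      Finset.subset_union_right
  have hLY : ∀ i ≤ d, L i ⊆ Y1 ∪ Y2 := by
    intro i hi
    rcases Nat.even_or_odd i with h | h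
    · exact (hev i hi h).1.trans Finset.subset_union_left
    · exact (hod i hi h).1.trans Finset.subset_union_right
  have hMY : ∀ i ≤ d, M i ⊆ Y1 ∪ Y2 := by
    intro i hi
    rcases Nat.even_or_odd i with h | h
    · exact (hev i hi h).2.trans Finset.subset_union_right
    · exact (hod i hi h).2.trans Finset.subset_union_left
  have hmid : ∃ l : List V, l.length = e + 1 ∧ l.Nodup ∧ l.IsChain H.Adj ∧
      (∃ u ∈ L d, l.head? = some u) ∧ (∃ v ∈ M d, l.getLast? = some v) ∧
      (∀ z ∈ l, z ∈ Y1 ∪ Y2) ∧ (∀ z ∈ l, z ∈ L d ∨ z ∈ M d ∨ z ∉ Z) := by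
    rcases Nat.even_or_odd d with h | h
    · exact core_mid H s hs Y1 Y2 hY hJY hY1c hY2c Z hZc (L d) (M d) (hev d le_rfl h).1
        (hev d le_rfl h).2 (hLZ d le_rfl) (hMZ d le_rfl) (by rw [hLc d le_rfl]; exact hd5)
        (by rw [hMc d le_rfl]; exact hd5) e heodd he3 he100
    · obtain ⟨l, a1, a2, a3, a4, a5, a6, a7⟩ :=
        core_mid H s hs Y2 Y1 hY.symm hJY.symm hY2c hY1c Z hZc (L d) (M d)
        (hod d le_rfl h).1 (hod d le_rfl h).2 (hLZ d le_rfl) (hMZ d le_rfl)
        (by rw [hLc d le_rfl]; exact hd5) (by rw [hMc d le_rfl]; exact hd5) e heodd he3 he100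
      exact ⟨l, a1, a2, a3, a4, a5, fun z hz => by rw [Finset.union_comm]; exact a6 z hz, a7⟩
  obtain ⟨l, hll, hlnd, hlch, ⟨u, hu, hlu⟩, ⟨v, hv, hlv⟩, hlY, hlZ⟩ := hmid
  obtain ⟨p, hpl, hpc, hpm⟩ := core_back H L d hLs u hu
  obtain ⟨r, hrl, hrc, hrm⟩ := core_back H M d hMs v hv
  have hpnd : p.Nodup := core_nodup L p hpm (fun i hi j hj hij =>
    (hdis i (by omega) j (by omega) hij).1)
  have hrnd : r.Nodup := core_nodup M r hrm (fun i hi j hj hij =>
    (hdis i (by omega) j (by omega) hij).2)
  have hp0 : p[0]? = some x := by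
    have h0 : 0 < p.length := by omega
    rw [List.getElem?_eq_getElem h0]
    have := hpm 0 h0
    rw [hL0, Finset.mem_singleton] at this
    rw [this]
  have hr0 : r[0]? = some y := by
    have h0 : 0 < r.length := by omega
    rw [List.getElem?_eq_getElem h0]
    have := hrm 0 h0
    rw [hM0, Finset.mem_singleton] at this
    rw [this]
  -- membership facts
  have hpL : ∀ z ∈ p, ∃ i < d, z ∈ L i := by
    intro z hz
    obtain ⟨i, hi, rfl⟩ := List.mem_iff_getElem.1 hz
    exact ⟨i, by omega, hpm i hi⟩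
  have hrM : ∀ z ∈ r, ∃ i < d, z ∈ M i := by
    intro z hz
    obtain ⟨i, hi, rfl⟩ := List.mem_iff_getElem.1 hz
    exact ⟨i, by omega, hrm i hi⟩
  rw [List.isChain_append] at hpc hrc
  refine ⟨p ++ l ++ r.reverse, ?_, ?_, ?_, ?_, ?_, ?_⟩
  · simp only [List.length_append, List.length_reverse]
    omega
  · rw [List.nodup_append, List.nodup_append]
    refine ⟨⟨hpnd, hlnd, ?_⟩, List.nodup_reverse.2 hrnd, ?_⟩
    · rintro a ha b hb rfl
      obtain ⟨i, hi, hai⟩ := hpL a ha
      rcases hlZ a hb with h | h | h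
      · exact Finset.disjoint_left.1 (hdis i hi.le d le_rfl hi.ne).1 hai h
      · exact Finset.disjoint_left.1 (hLM i hi.le d le_rfl) hai h
      · exact h (hLZ i hi.le hai)
    · rintro a ha b hb rfl
      rw [List.mem_reverse] at hb
      obtain ⟨j, hj, haj⟩ := hrM a hb
      rcases List.mem_append.1 ha with ha | ha
      · obtain ⟨i, hi, hai⟩ := hpL a ha
        exact Finset.disjoint_left.1 (hLM i hi.le j hj.le) hai haj
      · rcases hlZ a ha with h | h | h
        · exact Finset.disjoint_left.1 (hLM d le_rfl j hj.le) h haj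
        · exact Finset.disjoint_left.1 (hdis j hj.le d le_rfl hj.ne).2 haj h
        · exact h (hMZ j hj.le haj)
  · rw [List.isChain_append, List.isChain_append]
    refine ⟨⟨hpc.1, hlch, ?_⟩, ?_, ?_⟩
    · intro a ha b hb
      rw [hlu] at hb
      refine hpc.2.2 a ha b ?_
      simpa using hb
    · rw [List.isChain_reverse]
      exact hrc.1.imp (fun a b h => h.symm)
    · intro a ha b hb
      have hne : l ≠ [] := by
        intro h
        rw [h] at hlu
        simp at hlu
      rw [List.getLast?_append, hlv] at ha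
      simp at ha
      subst ha
      rw [List.head?_reverse] at hb
      exact (hrc.2.2 b hb v (by simp)).symm
  · rw [List.head?_append, List.head?_append, List.head?_eq_getElem?, hp0]
    simp
  · rw [List.getLast?_append, List.getLast?_reverse, List.head?_eq_getElem?, hr0]
    simp
  · intro z hz
    rcases List.mem_append.1 hz with hz | hz
    · rcases List.mem_append.1 hz with hz | hz
      · obtain ⟨i, hi, hzi⟩ := hpL z hz
        exact hLY i hi.le hzi
      · exact hlY z hz
    · rw [List.mem_reverse] at hz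
      obtain ⟨i, hi, hzi⟩ := hrM z hz
      exact hMY i hi.le hzi

end CRam
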