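import Mathlib

/-!
# CRam.CycList : a closed list of distinct vertices gives a copy of the cycle graph
-/

namespace CRam

theorem cycList {V : Type*} (H : SimpleGraph V) (l : List V) (hl : 3 ≤ l.length)
    (hn : l.Nodup) (hc : l.IsChain H.Adj)
    (hw : ∀ x ∈ l.getLast?, ∀ y ∈ l.head?, H.Adj x y) :
    (SimpleGraph.cycleGraph l.length).IsContained H := by
  have hne : l ≠ [] := by
    intro h; rw [h] at hl; simp at hl
  have hwrap : H.Adj (l[l.length - 1]'(by omega)) (l[0]'(by omega)) := by
    apply hw
    · rw [List.getLast?_eq_getElem?, List.getElem?_eq_getElem (by omega : l.length - 1 < l.length)]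
      rfl
    · rw [List.head?_eq_getElem?, List.getElem?_eq_getElem (by omega : 0 < l.length)]
      rfl
  have hstep : ∀ (i : ℕ) (hi : i + 1 < l.length), H.Adj (l[i]'(by omega)) (l[i + 1]'hi) :=
    fun i hi => List.isChain_iff_getElem.1 hc i hi
  have hone : ∀ u v : Fin l.length, (u - v).val = 1 → H.Adj (l[u.val]) (l[v.val]) := by
    intro u v huv
    rw [Fin.val_sub] at huv
    have hu := u.isLt
    have hv := v.isLt
    rcases Nat.lt_or_ge v.val u.val with h | h
    · -- u > v: u = v + 1
      have h1 : (l.length - v.val + u.val) = l.length + (u.val - v.val) := by omega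
      rw [h1, Nat.add_mod_left, Nat.mod_eq_of_lt (by omega)] at huv
      have h2 : u.val = v.val + 1 := by omega
      have := hstep v.val (by omega)
      simp only [h2]
      exact this.symm
    · -- u ≤ v
      rcases Nat.eq_or_lt_of_le h with h' | h'
      · have h1 : (l.length - v.val + u.val) = l.length := by omega
        rw [h1, Nat.mod_self] at huv
        omega
      · rw [Nat.mod_eq_of_lt (by omega)] at huv
        have h2 : u.val = 0 := by omega
        have h3 : v.val = l.length - 1 := by omega
        simp only [h2, h3]
        exact hwrap.symm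
  refine ⟨⟨⟨fun i => l[i.val], ?_⟩, ?_⟩⟩
  · intro u v huv
    rw [SimpleGraph.cycleGraph_adj'] at huv
    rcases huv with h | h
    · exact hone u v h
    · exact (hone v u h).symm
  · intro u v huv
    exact Fin.ext ((List.Nodup.getElem_inj_iff hn).1 huv)

end CRam
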