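import Mathlib
import Pool.Agent.Lib.CRam.Defs
import Pool.Agent.Lib.CRam.Dfs
import Pool.Agent.Lib.CRam.Connect

/-!
# CRam.LongPath : a long path following a connected matching
-/

open Classical

namespace CRam

theorem card_par0 (n : ℕ) : ((Finset.range n).filter (fun i => i % 2 = 0)).card = (n + 1) / 2 := by
  induction n with
  | zero => simp
  | succ n ih =>
    rw [Finset.range_add_one, Finset.filter_insert]
    split_ifs with h
    · rw [Finset.card_insert_of_notMem (by simp), ih]; omega
    · rw [ih]; omega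

theorem card_par1 (n : ℕ) : ((Finset.range n).filter (fun i => i % 2 = 1)).card = n / 2 := by
  induction n with
  | zero => simp
  | succ n ih =>
    rw [Finset.range_add_one, Finset.filter_insert]
    split_ifs with h
    · rw [Finset.card_insert_of_notMem (by simp), ih]; omega
    · rw [ih]; omega

theorem zigzag {V : Type*} [DecidableEq V] (H : SimpleGraph V) (s : ℕ) (hs : 1 ≤ s)
    (X Y : Finset V) (hXY : Disjoint X Y) (hJ : Jn H s X Y) (n : ℕ) (hn : 1 ≤ n)
    (hX : n + 6 * s + 1 ≤ 2 * X.card) (hY : n + 6 * s + 1 ≤ 2 * Y.card) :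
    ∃ l : List V, l.length = n ∧ l.Nodup ∧ l.IsChain H.Adj ∧
      ∀ (i : ℕ) (hi : i < l.length), (Even i → l[i] ∈ X) ∧ (Odd i → l[i] ∈ Y) := by
  have hmod : ∀ i, i % 2 < 2 := fun i => Nat.mod_lt _ (by norm_num)
  set Q : Fin 2 → Finset V := ![X, Y] with hQd
  set q : ℕ → Fin 2 := fun i => ⟨i % 2, hmod i⟩ with hqd
  have hQ0 : ∀ i, i % 2 = 0 → Q (q i) = X := by
    intro i hi
    have : q i = 0 := Fin.ext (by simpa [hqd] using hi)
    rw [this, hQd]
    rfl
  have hQ1 : ∀ i, i % 2 = 1 → Q (q i) = Y := by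
    intro i hi
    have : q i = 1 := Fin.ext (by simpa [hqd] using hi)
    rw [this, hQd]
    rfl
  have hdis : Pairwise fun i j => Disjoint (Q i) (Q j) := by
    intro i j hij
    fin_cases i <;> fin_cases j <;> simp_all [disjoint_comm]
  have hJn : ∀ i < n - 1, Jn H s (Q (q i)) (Q (q (i + 1))) := by
    intro i _
    rcases Nat.mod_two_eq_zero_or_one i with h | h
    · rw [hQ0 i h, hQ1 (i + 1) (by omega)]
      exact hJ
    · rw [hQ1 i h, hQ0 (i + 1) (by omega)]
      exact hJ.symm
  have hcard : ∀ j, ((Finset.range (n - 1 + 1)).filter (fun i => q i = j)).card + (2 + 1) * s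
      ≤ (Q j).card := by
    intro j
    have hn' : n - 1 + 1 = n := by omega
    rw [hn']
    fin_cases j
    · have h1 : (Finset.range n).filter (fun i => q i = (⟨0, by norm_num⟩ : Fin 2)) =
          (Finset.range n).filter (fun i => i % 2 = 0) := by
        refine Finset.filter_congr fun i _ => ?_
        simp [hqd, Fin.ext_iff]
      have h2 : Q (⟨0, by norm_num⟩ : Fin 2) = X := rfl
      rw [h1, h2, card_par0]
      omega
    · have h1 : (Finset.range n).filter (fun i => q i = (⟨1, by norm_num⟩ : Fin 2)) =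
          (Finset.range n).filter (fun i => i % 2 = 1) := by
        refine Finset.filter_congr fun i _ => ?_
        simp [hqd, Fin.ext_iff]
      have h2 : Q (⟨1, by norm_num⟩ : Fin 2) = Y := rfl
      rw [h1, h2, card_par1]
      omega
  obtain ⟨l, hl, hnd, hch, hmem⟩ := dfs H Q hdis s hs q (n - 1) hJn hcard
  refine ⟨l, by omega, hnd, hch, fun i hi => ⟨fun he => ?_, fun ho => ?_⟩⟩
  · have := hmem i hi
    rwa [hQ0 i (Nat.even_iff.1 he)] at this
  · have := hmem i hi
    rwa [hQ1 i (Nat.odd_iff.1 ho)] at this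

theorem exists_par_set {V : Type*} [DecidableEq V] (l : List V) (hl : l.Nodup) (s lo : ℕ)
    (h : lo + 2 * s ≤ l.length + 1) : ∃ A : Finset V, A.card = s ∧
      ∀ v ∈ A, ∃ (u : ℕ) (hu : lo + 2 * u < l.length), u < s ∧ v = l[lo + 2 * u] := by
  have hlt : ∀ u : Fin s, lo + 2 * (u : ℕ) < l.length := by
    intro u
    have := u.2
    omega
  refine ⟨Finset.univ.image (fun u : Fin s => l[lo + 2 * (u : ℕ)]'(hlt u)), ?_, ?_⟩
  · rw [Finset.card_image_of_injective]
    · simp
    · intro u u' huu
      have := (hl.getElem_inj_iff).1 huu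
      exact Fin.ext (by omega)
  · intro v hv
    rw [Finset.mem_image] at hv
    obtain ⟨u, _, rfl⟩ := hv
    exact ⟨u, hlt u, u.2, rfl⟩

theorem chain_glue {V : Type*} {Rl : V → V → Prop} (l c m : List V) (i j : ℕ)
    (hi : i < l.length) (hj : j < m.length) (hl : l.IsChain Rl) (hm : m.IsChain Rl)
    (hc : (l[i] :: (c ++ [m[j]])).IsChain Rl) :
    (l.take (i + 1) ++ c ++ m.drop j).IsChain Rl := by
  have h1 : l.take (i + 1) = l.take i ++ [l[i]] := by
    rw [List.take_append_getElem]
  have h2 : m.drop j = m[j] :: m.drop (j + 1) := by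
    rw [List.getElem_cons_drop]
  have h3 : (l.take i ++ [l[i]]).IsChain Rl := by
    rw [← h1]
    exact hl.take _
  have h4 : (m[j] :: m.drop (j + 1)).IsChain Rl := by
    rw [← h2]
    exact hm.drop _
  have h5 : l.take (i + 1) ++ c ++ m.drop j =
      l.take i ++ l[i] :: (c ++ m[j] :: m.drop (j + 1)) := by
    rw [h1, h2]
    simp only [List.append_assoc, List.cons_append, List.nil_append]
  rw [h5, List.isChain_split]
  refine ⟨h3, ?_⟩
  have h6 : l[i] :: (c ++ m[j] :: m.drop (j + 1)) =
      (l[i] :: c) ++ m[j] :: m.drop (j + 1) := by simp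
  rw [h6, List.isChain_split]
  exact ⟨by simpa using hc, h4⟩

theorem longPath {V ι : Type*} [DecidableEq V] [Fintype ι] (H : SimpleGraph V) (s t : ℕ)
    (P : ι → Finset V) (hP : Pairwise fun i j => Disjoint (P i) (P j))
    (Γ : SimpleGraph ι) (hΓ : ∀ a b, Γ.Adj a b → Jn H s (P a) (P b))
    (Z1 Z2 R : ι → Finset V) (hZ1 : ∀ a, Z1 a ⊆ P a) (hZ2 : ∀ a, Z2 a ⊆ P a) (hR : ∀ a, R a ⊆ P a)
    (hZ12 : ∀ a, Disjoint (Z1 a) (Z2 a)) (hZ1R : ∀ a, Disjoint (Z1 a) (R a))
    (hZ2R : ∀ a, Disjoint (Z2 a) (R a))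
    (ht : Fintype.card ι = t) (hst : 4 * t + 4 ≤ s)
    (z : ℕ) (hz1 : ∀ a, z ≤ (Z1 a).card) (hz2 : ∀ a, z ≤ (Z2 a).card)
    (r : ℕ) (a b : ℕ → ι) (hia : ∀ i ≤ r, ∀ j ≤ r, a i = a j → i = j)
    (hib : ∀ i ≤ r, ∀ j ≤ r, b i = b j → i = j)
    (hab : ∀ i ≤ r, Γ.Adj (a i) (b i)) (hconn : ∀ i ≤ r, Γ.Reachable (a 0) (a i))
    (hRc : ∀ c, 4 * s + 2 * t * r ≤ (R c).card)
    (d : ℕ → ℕ) (hd1 : ∀ i ≤ r, 20 * s ≤ d i) (hd2 : ∀ i ≤ r, d i + 12 * s ≤ 2 * z) :
    ∃ l : List V, l.length = ∑ i ∈ Finset.range (r + 1), d i ∧ l.Nodup ∧ l.IsChain H.Adj ∧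
      (∀ (i : ℕ) (hi : i < l.length), i < 2 * s →
        (Even i → l[i] ∈ Z1 (a 0)) ∧ (Odd i → l[i] ∈ Z2 (b 0))) ∧
      (∃ ϖ : ℕ, ∀ (i : ℕ) (hi : i < l.length), l.length ≤ i + 2 * s →
        (i % 2 = ϖ % 2 → l[i] ∈ Z1 (a r)) ∧ (i % 2 ≠ ϖ % 2 → l[i] ∈ Z2 (b r))) ∧
      (∀ v ∈ l, (∃ i ≤ r, v ∈ Z1 (a i) ∨ v ∈ Z2 (b i)) ∨ ∃ c, v ∈ R c) ∧
      (l.filter (fun v => decide (∃ c, v ∈ R c))).length ≤ 2 * t * r := by
  -- disjointness facts
  have hP' : ∀ {x y : ι} {v : V}, v ∈ P x → v ∈ P y → x = y := by
    intro x y v hx hy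
    by_contra hne
    exact Finset.disjoint_left.1 (hP hne) hx hy
  have d12 : ∀ {x y : ι} {v : V}, v ∈ Z1 x → v ∈ Z2 y → False := by
    intro x y v hx hy
    have h := hP' (hZ1 _ hx) (hZ2 _ hy)
    subst h
    exact Finset.disjoint_left.1 (hZ12 x) hx hy
  have d1R : ∀ {x y : ι} {v : V}, v ∈ Z1 x → v ∈ R y → False := by
    intro x y v hx hy
    have h := hP' (hZ1 _ hx) (hR _ hy)
    subst h
    exact Finset.disjoint_left.1 (hZ1R x) hx hy
  have d2R : ∀ {x y : ι} {v : V}, v ∈ Z2 x → v ∈ R y → False := by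
    intro x y v hx hy
    have h := hP' (hZ2 _ hx) (hR _ hy)
    subst h
    exact Finset.disjoint_left.1 (hZ2R x) hx hy
  have hs1 : 1 ≤ s := by omega
  -- zigzags
  have hzz : ∀ (x y : ι), Γ.Adj x y → ∀ n, 1 ≤ n → n + 6 * s + 1 ≤ 2 * z →
      ∃ l : List V, l.length = n ∧ l.Nodup ∧ l.IsChain H.Adj ∧
        ∀ (i : ℕ) (hi : i < l.length), (Even i → l[i] ∈ Z1 x) ∧ (Odd i → l[i] ∈ Z2 y) := by
    intro x y hxy n hn hnz
    have h1 := hz1 x
    have h2 := hz2 y
    refine zigzag H s hs1 (Z1 x) (Z2 y) ?_ ((hΓ x y hxy).mono (hZ1 x) (hZ2 y)) n hn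
      (by omega) (by omega)
    exact Finset.disjoint_left.2 fun v hv hv' => d12 hv hv'
  induction r with
  | zero =>
    have e1 := hd1 0 le_rfl
    have e2 := hd2 0 le_rfl
    obtain ⟨l, hl, hnd, hch, hmem⟩ := hzz (a 0) (b 0) (hab 0 le_rfl) (d 0) (by omega) (by omega)
    refine ⟨l, by simpa using hl, hnd, hch, fun i hi _ => hmem i hi, ⟨0, fun i hi _ => ⟨fun h => ?_,
      fun h => ?_⟩⟩, ?_, ?_⟩
    · exact (hmem i hi).1 (Nat.even_iff.2 (by simpa using h))
    · exact (hmem i hi).2 (Nat.odd_iff.2 (by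
        have := Nat.mod_two_eq_zero_or_one i
        simp at h
        omega))
    · intro v hv
      left
      refine ⟨0, le_rfl, ?_⟩
      obtain ⟨i, hi, rfl⟩ := List.getElem_of_mem hv
      rcases Nat.even_or_odd i with h | h
      · exact Or.inl ((hmem i hi).1 h)
      · exact Or.inr ((hmem i hi).2 h)
    · rw [Nat.mul_zero, Nat.le_zero, List.length_eq_zero_iff, List.filter_eq_nil_iff]
      intro v hv
      obtain ⟨i, hi, rfl⟩ := List.getElem_of_mem hv
      rw [decide_eq_true_eq]
      rintro ⟨c, hc⟩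
      rcases Nat.even_or_odd i with h | h
      · exact d1R ((hmem i hi).1 h) hc
      · exact d2R ((hmem i hi).2 h) hc
  | succ r ih =>
    obtain ⟨l, hl, hnd, hch, hfirst, ⟨ϖ, hlast⟩, hmem, hcnt⟩ := ih
      (fun i hi j hj h => hia i (by omega) j (by omega) h)
      (fun i hi j hj h => hib i (by omega) j (by omega) h)
      (fun i hi => hab i (by omega)) (fun i hi => hconn i (by omega))
      (fun c => le_trans (by
        have : 2 * t * r ≤ 2 * t * (r + 1) := Nat.mul_le_mul_left _ (by omega)
        omega) (hRc c))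
      (fun i hi => hd1 i (by omega)) (fun i hi => hd2 i (by omega))
    have e1 := hd1 (r + 1) le_rfl
    have e2 := hd2 (r + 1) le_rfl
    have hΛ : 20 * s ≤ l.length := by
      rw [hl, Finset.sum_range_succ]
      have := hd1 r (by omega)
      omega
    obtain ⟨m, hm, hmnd, hmch, hmmem⟩ := hzz (a (r + 1)) (b (r + 1)) (hab _ le_rfl)
      (d (r + 1) + 4 * s) (by omega) (by omega)
    have har : a r ≠ a (r + 1) := by
      intro h
      have := hia r (by omega) (r + 1) le_rfl h
      omega
    -- the two lists are disjoint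
    have hmm : ∀ v ∈ m, v ∈ Z1 (a (r + 1)) ∨ v ∈ Z2 (b (r + 1)) := by
      intro v hv
      obtain ⟨i, hi, rfl⟩ := List.getElem_of_mem hv
      rcases Nat.even_or_odd i with h | h
      · exact Or.inl ((hmmem i hi).1 h)
      · exact Or.inr ((hmmem i hi).2 h)
    have hlm : ∀ v ∈ l, v ∉ m := by
      intro v hv hv'
      rcases hmem v hv with ⟨i, hi, h1 | h1⟩ | ⟨c, hc⟩
      · rcases hmm v hv' with h2 | h2
        · have h3 := hP' (hZ1 _ h1) (hZ1 _ h2)
          have := hia i (by omega) (r + 1) le_rfl h3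
          omega
        · exact d12 h1 h2
      · rcases hmm v hv' with h2 | h2
        · exact d12 h2 h1
        · have h3 := hP' (hZ2 _ h1) (hZ2 _ h2)
          have := hib i (by omega) (r + 1) le_rfl h3
          omega
      · rcases hmm v hv' with h2 | h2
        · exact d1R h2 hc
        · exact d2R h2 hc
    -- the set `A`
    obtain ⟨A, hAc, hA⟩ := exists_par_set l hnd s (l.length - 2 * s + (ϖ + l.length - 2 * s) % 2)
      (by omega)
    have hA' : ∀ v ∈ A, ∃ (i : ℕ) (hi : i < l.length), l.length ≤ i + 2 * s ∧ v = l[i] ∧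
        i % 2 = ϖ % 2 := by
      intro v hv
      obtain ⟨u, hu, hus, rfl⟩ := hA v hv
      exact ⟨_, hu, by omega, rfl, by omega⟩
    obtain ⟨B, hBc, hB⟩ := exists_par_set m hmnd s 0 (by omega)
    have hB' : ∀ v ∈ B, ∃ (j : ℕ) (hj : j < m.length), j < 2 * s ∧ v = m[j] ∧ j % 2 = 0 := by
      intro v hv
      obtain ⟨u, hu, hus, rfl⟩ := hB v hv
      exact ⟨_, hu, by omega, rfl, by omega⟩
    have hAP : A ⊆ P (a r) := by
      intro v hv
      obtain ⟨i, hi, h1, rfl, h2⟩ := hA' v hv
      exact hZ1 _ ((hlast i hi h1).1 h2)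
    have hBP : B ⊆ P (a (r + 1)) := by
      intro v hv
      obtain ⟨j, hj, h1, rfl, h2⟩ := hB' v hv
      exact hZ1 _ ((hmmem j hj).1 (Nat.even_iff.2 h2))
    -- the reserved sets
    have hRcard : ∀ c, 4 * s ≤ (R c \ l.toFinset).card := by
      intro c
      have h1 : (R c ∩ l.toFinset).card ≤
          (l.filter (fun v => decide (∃ c, v ∈ R c))).length := by
        have h2 : R c ∩ l.toFinset ⊆ (l.filter (fun v => decide (∃ c, v ∈ R c))).toFinset := by
          intro v hv
          rw [Finset.mem_inter, List.mem_toFinset] at hv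
          rw [List.mem_toFinset, List.mem_filter, decide_eq_true_eq]
          exact ⟨hv.2, c, hv.1⟩
        exact (Finset.card_le_card h2).trans (List.toFinset_card_le _)
      have h3 := Finset.card_sdiff_add_card_inter (R c) l.toFinset
      have h4 := hRc c
      have h5 : 2 * t * (r + 1) = 2 * t * r + 2 * t := by ring
      omega
    have hreach : Γ.Reachable (a r) (a (r + 1)) :=
      (hconn r (by omega)).symm.trans (hconn (r + 1) le_rfl)
    obtain ⟨w⟩ := hreach
    have hw : 0 < w.length := by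
      rcases Nat.eq_zero_or_pos w.length with h | h
      · exact absurd (SimpleGraph.Walk.eq_of_length_eq_zero h) har
      · exact h
    obtain ⟨x, hx, y, hy, c, hcch, hcnd, hcR, hclen, -⟩ := connect H s hs1 P hP Γ hΓ
      (fun c => R c \ l.toFinset) (fun c => Finset.sdiff_subset.trans (hR c)) hRcard
      (a r) (a (r + 1)) A B hAP hBP hAc.ge hBc.ge w hw
    obtain ⟨i, hi, hi2, rfl, hiϖ⟩ := hA' x hx
    obtain ⟨j, hj, hj2, rfl, hj0⟩ := hB' y hy
    have hcR' : ∀ v ∈ c, (∃ e, v ∈ R e) ∧ v ∉ l := by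
      intro v hv
      obtain ⟨e, he⟩ := hcR v hv
      rw [Finset.mem_sdiff, List.mem_toFinset] at he
      exact ⟨⟨e, he.1⟩, he.2⟩
    have hcm : ∀ v ∈ c, v ∉ m := by
      intro v hv hv'
      obtain ⟨⟨e, he⟩, -⟩ := hcR' v hv
      rcases hmm v hv' with h2 | h2
      · exact d1R h2 he
      · exact d2R h2 he
    have hglue := chain_glue l c m i j hi hj hch hmch hcch
    set N := l.take (i + 1) ++ c ++ m.drop j with hN
    have hNlen : N.length = (i + 1) + c.length + (m.length - j) := by
      rw [hN, List.length_append, List.length_append, List.length_take, List.length_drop]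
      omega
    have hNnd : N.Nodup := by
      rw [hN, List.nodup_append, List.nodup_append]
      refine ⟨⟨hnd.sublist (List.take_sublist _ _), hcnd, ?_⟩,
        hmnd.sublist (List.drop_sublist _ _), ?_⟩
      · intro v hv v' hv' hvv
        subst hvv
        exact (hcR' v hv').2 (List.mem_of_mem_take hv)
      · intro v hv v' hv' hvv
        subst hvv
        have h1 := List.mem_of_mem_drop hv'
        rw [List.mem_append] at hv
        rcases hv with h | h
        · exact hlm v (List.mem_of_mem_take h) h1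
        · exact hcm v h h1
    have hclen' : c.length ≤ 2 * t := by rw [← ht]; exact hclen
    have hlenN : l.length + d (r + 1) ≤ N.length := by omega
    have hsum : ∑ i ∈ Finset.range (r + 1 + 1), d i = l.length + d (r + 1) := by
      rw [Finset.sum_range_succ, hl]
    have hTlen : (N.take (l.length + d (r + 1))).length = l.length + d (r + 1) := by
      rw [List.length_take]
      omega
    -- entries of `N`
    have hNleft : ∀ (p : ℕ) (hp : p < N.length) (hpi : p < i + 1), N[p] = l[p] := by
      intro p hp hpi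
      have h1 : p < (l.take (i + 1) ++ c).length := by
        rw [List.length_append, List.length_take]
        omega
      have h2 : p < (l.take (i + 1)).length := by
        rw [List.length_take]
        omega
      simp only [hN]
      rw [List.getElem_append_left h1, List.getElem_append_left h2, List.getElem_take]
    have hNright : ∀ (p : ℕ) (hp : p < N.length) (hpi : i + 1 + c.length ≤ p),
        ∃ (h : j + (p - (i + 1 + c.length)) < m.length),
          N[p] = m[j + (p - (i + 1 + c.length))] := by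
      intro p hp hpi
      have h0 : (l.take (i + 1) ++ c).length = i + 1 + c.length := by
        rw [List.length_append, List.length_take]
        omega
      have h1 : (l.take (i + 1) ++ c).length ≤ p := by omega
      refine ⟨by omega, ?_⟩
      simp only [hN]
      rw [List.getElem_append_right h1, List.getElem_drop]
      congr 1
      rw [h0]
    refine ⟨N.take (l.length + d (r + 1)), by rw [hTlen, hsum], hNnd.sublist
      (List.take_sublist _ _), hglue.take _, ?_, ⟨i + 1 + c.length + j, ?_⟩, ?_, ?_⟩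
    · intro p hp hps
      rw [List.getElem_take]
      have h1 : p < N.length := by omega
      rw [hNleft p h1 (by omega)]
      exact hfirst p (by omega) hps
    · intro p hp hps
      rw [hTlen] at hp hps
      rw [List.getElem_take]
      obtain ⟨h1, h2⟩ := hNright p (by omega) (by omega)
      rw [h2]
      constructor
      · intro h3
        exact (hmmem _ h1).1 (Nat.even_iff.2 (by omega))
      · intro h3
        exact (hmmem _ h1).2 (Nat.odd_iff.2 (by omega))
    · intro v hv
      have hv1 := List.mem_of_mem_take hv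
      rw [hN, List.mem_append, List.mem_append] at hv1
      rcases hv1 with (h | h) | h
      · rcases hmem v (List.mem_of_mem_take h) with ⟨u, hu, h1⟩ | h1
        · exact Or.inl ⟨u, by omega, h1⟩
        · exact Or.inr h1
      · exact Or.inr (hcR' v h).1
      · exact Or.inl ⟨r + 1, le_rfl, hmm v (List.mem_of_mem_drop h)⟩
    · have h1 : ((N.take (l.length + d (r + 1))).filter
          (fun v => decide (∃ c, v ∈ R c))).length ≤
          (N.filter (fun v => decide (∃ c, v ∈ R c))).length :=
        ((List.take_sublist _ _).filter _).length_le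
      have h2 : ((l.take (i + 1)).filter (fun v => decide (∃ c, v ∈ R c))).length ≤
          (l.filter (fun v => decide (∃ c, v ∈ R c))).length :=
        ((List.take_sublist _ _).filter _).length_le
      have h3 : (c.filter (fun v => decide (∃ c, v ∈ R c))).length ≤ c.length :=
        List.length_filter_le _ _
      have h4 : (m.drop j).filter (fun v => decide (∃ c, v ∈ R c)) = [] := by
        rw [List.filter_eq_nil_iff]
        intro v hv
        rw [decide_eq_true_eq]
        rintro ⟨e, he⟩
        rcases hmm v (List.mem_of_mem_drop hv) with h5 | h5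
        · exact d1R h5 he
        · exact d2R h5 he
      have h5 : (N.filter (fun v => decide (∃ c, v ∈ R c))).length =
          ((l.take (i + 1)).filter (fun v => decide (∃ c, v ∈ R c))).length +
          (c.filter (fun v => decide (∃ c, v ∈ R c))).length := by
        rw [hN, List.filter_append, List.filter_append, h4, List.append_nil, List.length_append]
      have h6 : 2 * t * (r + 1) = 2 * t * r + 2 * t := by ring
      omega

end CRam
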