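import Mathlib
import Pool.Agent.Lib.CRam.Defs
import Pool.Agent.Lib.CRam.CycList
import Pool.Agent.Lib.CRam.Core
import Pool.Agent.Lib.CRam.Connect
import Pool.Agent.Lib.CRam.LongPath

/-!
# CRam.CycleEmb : cycles of prescribed length from a connected matching of the reduced graph

Sketch. (`M` nonempty as `ℓ > 0`; `r + 1 = |M| ≤ t`.) List `M` as `(a i, b i)`, `i ≤ r`.
0. Reduction: replace `H` by the subgraph `H'` of the edges `uv` with `u ∈ P c`, `v ∈ P c'`,
   `Γ.Adj c c'` for some `c, c'`. Still `Jn H' s (P c) (P c')` for `Γ.Adj c c'`; a copy in `H'` is a copy in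
   `H`. Now a chain of `H'` of `n` edges from `P c` to `P c'` projects to a walk of `Γ` of length `n`.
1. In every cluster choose disjoint `X c` (size `200 s`), `R c` (size `4 s + 2 t^2 + 4 t ≤ 10 s`),
   `Z1 c`, `Z2 c` of size `z = (m - 210 s) / 2` (so `2 z ≥ m - 211 s`).
2. `Λ = ℓ - 60 s`. Choose `d i ∈ [20 s, 2 z - 12 s]` with sum `Λ` (possible since
   `20 s (r+1) ≤ 20 s t ≤ Λ` by `hl` and `Λ ≤ (r+1)(m - 223 s)` by `hlM`). `longPath` gives `l` of
   length `Λ`, `ϖ`.
3. `core` for `X (a 0)`, `X (b 0)` gives `Y1 ⊆ X (a 0)`, `Y2 ⊆ X (b 0)`.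
4. `B1` = entries of `l` at even positions `< 2 s` (in `P (a 0)`, `s` of them), `|Y2| ≥ s`, `Jn`: an edge
   between `x ∈ Y2` and `l[iu]`, `iu < 2 s`, `iu` even.
5. `B2` = entries of `l` at the last `2 s` positions of parity `ϖ` (in `P (a r)`, `s` of them). `connect`
   from `B2` to `Y1 ⊆ P (a 0)` with reserved sets `R c \ l` (`≥ 4 s`) along a walk of `Γ` from `a r` to `a 0`
   of positive length and parity `≡ ℓ + ϖ`: this exists by `hpar`: if `ℓ` is even, by the projection
   of `l` from position `0` to a position of parity `ϖ` near the end (reverse it); if there is an odd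
   closed walk at `p.1`, `p ∈ M`, walks of both parities exist (`hMc`), positive length e.g. by adding
   `a 0 → b 0 → a 0`. We get `l[iv]`, `y ∈ Y1`, a path with `j ≤ 2 t + 1` edges, `j ≡ ℓ + ϖ`.
6. `lam = ℓ - 1 - (iv - iu) - j`; `iv - iu ∈ [Λ - 4 s, Λ]`, so `lam ∈ [20 s, 100 s]`, and `lam` is odd.
   `core` gives a path from `y` to `x` with `lam` edges inside `Y1 ∪ Y2`. The cycle is
   `l[iu..iv] ++ (connection) ++ (core path from y to x)`, of length exactly `ℓ`; use `cycList`.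
-/

open Classical

namespace CRam


/-- disjoint subsets of prescribed sizes -/
theorem cycleEmb_split {V : Type*} [DecidableEq V] (S : Finset V) (n1 n2 n3 n4 : ℕ)
    (h : n1 + n2 + n3 + n4 ≤ S.card) :
    ∃ A B C D : Finset V, A ⊆ S ∧ B ⊆ S ∧ C ⊆ S ∧ D ⊆ S ∧ A.card = n1 ∧ B.card = n2 ∧
      C.card = n3 ∧ D.card = n4 ∧ Disjoint A B ∧ Disjoint A C ∧ Disjoint A D ∧ Disjoint B C ∧
      Disjoint B D ∧ Disjoint C D := by
  obtain ⟨A, hA, hAc⟩ := Finset.exists_subset_card_eq (s := S) (n := n1) (by omega)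
  have h1 : (S \ A).card = S.card - n1 := by rw [Finset.card_sdiff_of_subset hA, hAc]
  obtain ⟨B, hB, hBc⟩ := Finset.exists_subset_card_eq (s := S \ A) (n := n2) (by omega)
  have h2 : ((S \ A) \ B).card = S.card - n1 - n2 := by
    rw [Finset.card_sdiff_of_subset hB, hBc, h1]
  obtain ⟨C, hC, hCc⟩ := Finset.exists_subset_card_eq (s := (S \ A) \ B) (n := n3) (by omega)
  have h3 : (((S \ A) \ B) \ C).card = S.card - n1 - n2 - n3 := by
    rw [Finset.card_sdiff_of_subset hC, hCc, h2]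
  obtain ⟨D, hD, hDc⟩ := Finset.exists_subset_card_eq (s := ((S \ A) \ B) \ C) (n := n4)
    (by omega)
  refine ⟨A, B, C, D, hA, hB.trans Finset.sdiff_subset,
    hC.trans (Finset.sdiff_subset.trans Finset.sdiff_subset),
    hD.trans (Finset.sdiff_subset.trans (Finset.sdiff_subset.trans Finset.sdiff_subset)),
    hAc, hBc, hCc, hDc, ?_, ?_, ?_, ?_, ?_, ?_⟩
  · exact (Finset.disjoint_of_subset_left hB Finset.sdiff_disjoint).symm
  · exact (Finset.disjoint_of_subset_left (hC.trans Finset.sdiff_subset)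
      Finset.sdiff_disjoint).symm
  · exact (Finset.disjoint_of_subset_left
      (hD.trans (Finset.sdiff_subset.trans Finset.sdiff_subset)) Finset.sdiff_disjoint).symm
  · exact (Finset.disjoint_of_subset_left hC Finset.sdiff_disjoint).symm
  · exact (Finset.disjoint_of_subset_left (hD.trans Finset.sdiff_subset)
      Finset.sdiff_disjoint).symm
  · exact (Finset.disjoint_of_subset_left hD Finset.sdiff_disjoint).symm

/-- a sequence with prescribed sum and bounds -/
theorem cycleEmb_sum (n lo hi S : ℕ) (hn : 0 < n) (h1 : n * lo ≤ S) (h2 : S ≤ n * hi) :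
    ∃ d : ℕ → ℕ, (∀ i, lo ≤ d i) ∧ (∀ i, d i ≤ hi) ∧ ∑ i ∈ Finset.range n, d i = S := by
  have hmod := Nat.div_add_mod S n
  have hlt := Nat.mod_lt S hn
  refine ⟨fun i => S / n + if i < S % n then 1 else 0, ?_, ?_, ?_⟩
  · intro i
    have : lo ≤ S / n := by
      rw [Nat.le_div_iff_mul_le hn]; linarith [Nat.mul_comm lo n]
    show lo ≤ S / n + _
    omega
  · intro i
    show S / n + (if i < S % n then 1 else 0) ≤ hi
    split_ifs with h
    · have : S / n < hi := by
        rw [Nat.div_lt_iff_lt_mul hn]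
        by_contra hc
        have : S = n * hi := le_antisymm h2 (by linarith [Nat.mul_comm hi n])
        rw [this] at h
        simp at h
      omega
    · have : S / n ≤ hi := by
        apply Nat.div_le_of_le_mul
        exact h2
      omega
  · rw [Finset.sum_add_distrib, Finset.sum_const, Finset.card_range, smul_eq_mul]
    have : ∑ i ∈ Finset.range n, (if i < S % n then 1 else 0) = S % n := by
      rw [← Finset.sum_filter]
      rw [Finset.sum_const, smul_eq_mul, mul_one]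
      have : Finset.filter (fun i => i < S % n) (Finset.range n) = Finset.range (S % n) := by
        ext i
        simp only [Finset.mem_filter, Finset.mem_range]
        omega
      rw [this, Finset.card_range]
    rw [this]
    exact hmod

/-- the entries of a list at the positions `base, base + 2, …` -/
theorem cycleEmb_pick {V : Type*} [DecidableEq V] (l : List V) (hn : l.Nodup) (s base : ℕ)
    (h : base + 2 * s ≤ l.length + 1) :
    ∃ B : Finset V, B.card = s ∧ ∀ v ∈ B, ∃ i, ∃ hi : i < l.length, base ≤ i ∧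
      i < base + 2 * s ∧ i % 2 = base % 2 ∧ l[i] = v := by
  refine ⟨Finset.univ.image (fun k : Fin s => l[base + 2 * k.1]'(by omega)), ?_, ?_⟩
  · rw [Finset.card_image_of_injective, Finset.card_univ, Fintype.card_fin]
    intro i j hij
    have := (hn.getElem_inj_iff).1 hij
    apply Fin.ext
    omega
  · intro v hv
    obtain ⟨k, -, hk⟩ := Finset.mem_image.1 hv
    refine ⟨base + 2 * k.1, by omega, by omega, by omega, by omega, hk⟩

/-- the subgraph of the edges between adjacent clusters -/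
def cycleEmbSub {V ι : Type*} (H : SimpleGraph V) (P : ι → Finset V) (Γ : SimpleGraph ι) :
    SimpleGraph V where
  Adj u v := H.Adj u v ∧ ∃ c c', u ∈ P c ∧ v ∈ P c' ∧ Γ.Adj c c'
  symm := ⟨fun _ _ h => ⟨h.1.symm, by
    obtain ⟨c, c', h1, h2, h3⟩ := h.2
    exact ⟨c', c, h2, h1, h3.symm⟩⟩⟩
  loopless := ⟨fun u h => H.loopless.irrefl u h.1⟩

theorem cycleEmb_eq {V ι : Type*} {P : ι → Finset V}
    (hP : Pairwise fun i j => Disjoint (P i) (P j)) {c c' : ι} {v : V} (h : v ∈ P c)
    (h' : v ∈ P c') : c = c' := by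
  by_contra hne
  exact (Finset.disjoint_left.1 (hP hne)) h h'

/-- projection of a chain to a walk of the reduced graph -/
theorem cycleEmb_proj {V ι : Type*} (H : SimpleGraph V) (P : ι → Finset V)
    (hP : Pairwise fun i j => Disjoint (P i) (P j)) (Γ : SimpleGraph ι) (l : List V)
    (hc : l.IsChain (cycleEmbSub H P Γ).Adj) (i : ℕ) (hi : i < l.length) (c : ι)
    (hic : l[i] ∈ P c) (n : ℕ) :
    ∀ (hj : i + n < l.length) (c' : ι), l[i + n] ∈ P c' →
      ∃ w : Γ.Walk c c', w.length = n := by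
  induction n with
  | zero =>
    intro hj c' hc'
    have : c = c' := cycleEmb_eq hP hic (by simpa using hc')
    subst this
    exact ⟨SimpleGraph.Walk.nil, rfl⟩
  | succ n ih =>
    intro hj c' hc'
    have hadj := (List.isChain_iff_getElem.1 hc) (i + n) (by omega)
    obtain ⟨-, d, d', hd, hd', hdd⟩ := hadj
    have hdc : d' = c' := cycleEmb_eq hP hd' (by simpa [Nat.add_assoc] using hc')
    subst hdc
    obtain ⟨w, hw⟩ := ih (by omega) d hd
    refine ⟨w.concat hdd, ?_⟩
    rw [SimpleGraph.Walk.length_concat, hw]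



/-- a segment of a list -/
theorem cycleEmb_seg {V : Type*} (l : List V) (R : V → V → Prop) (hn : l.Nodup)
    (hc : l.IsChain R) (iu iv : ℕ) (huv : iu ≤ iv) (hv : iv < l.length) :
    ∃ g : List V, (g ++ [l[iv]]).IsChain R ∧ (g ++ [l[iv]]).Nodup ∧
      (g ++ [l[iv]]).head? = some (l[iu]'(by omega)) ∧ g.length = iv - iu ∧
      ∀ v ∈ g ++ [l[iv]], v ∈ l := by
  have hkey : (l.take iv).drop iu ++ [l[iv]] = (l.take (iv + 1)).drop iu := by
    rw [List.take_succ_eq_append_getElem hv, List.drop_append_of_le_length]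
    rw [List.length_take]
    omega
  refine ⟨(l.take iv).drop iu, ?_, ?_, ?_, ?_, ?_⟩
  · rw [hkey]
    exact (hc.take _).drop _
  · rw [hkey]
    exact (hn.sublist ((List.drop_sublist _ _).trans (List.take_sublist _ _)))
  · rw [hkey, List.head?_drop, List.getElem?_take_of_lt (by omega),
      List.getElem?_eq_getElem (by omega)]
  · rw [List.length_drop, List.length_take]
    omega
  · intro v hv
    rw [hkey] at hv
    exact (((List.drop_sublist _ _).trans (List.take_sublist _ _)).subset hv)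

/-- closing up three paths to a cycle -/
theorem cycleEmb_join {V : Type*} (H : SimpleGraph V) (g l' p : List V) (v y u x : V)
    (h1 : (g ++ [v]).IsChain H.Adj) (h1n : (g ++ [v]).Nodup) (h1h : (g ++ [v]).head? = some u)
    (h2 : (v :: (l' ++ [y])).IsChain H.Adj) (h2n : l'.Nodup)
    (h3 : p.IsChain H.Adj) (h3n : p.Nodup) (h3h : p.head? = some y) (h3l : p.getLast? = some x)
    (hxu : H.Adj x u)
    (d12 : ∀ a ∈ g ++ [v], a ∉ l') (d13 : ∀ a ∈ g ++ [v], a ∉ p) (d23 : ∀ a ∈ l', a ∉ p)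
    (n : ℕ) (hn : 3 ≤ n) (hlen : g.length + 1 + l'.length + p.length = n) :
    (SimpleGraph.cycleGraph n).IsContained H := by
  obtain ⟨p', rfl⟩ : ∃ p', p = y :: p' := by
    cases p with
    | nil => simp at h3h
    | cons a q =>
      simp only [List.head?_cons, Option.some.injEq] at h3h
      exact ⟨q, by rw [h3h]⟩
  have hL1 : ((g ++ [v]) ++ (l' ++ [y])).IsChain H.Adj := by
    apply List.IsChain.append_overlap h1 _ (by simp)
    exact h2
  have hL2 : (((g ++ [v]) ++ l') ++ [y] ++ p').IsChain H.Adj := by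
    apply List.IsChain.append_overlap _ _ (by simp)
    · rw [List.append_assoc]
      exact hL1
    · exact h3
  have hLeq : ((g ++ [v]) ++ l') ++ [y] ++ p' = (g ++ [v]) ++ (l' ++ (y :: p')) := by simp
  rw [hLeq] at hL2
  have hlen' : ((g ++ [v]) ++ (l' ++ (y :: p'))).length = n := by
    rw [← hlen]; simp; omega
  rw [← hlen']
  apply cycList H _ (by omega) _ hL2
  · intro a ha b hb
    have hb' : b = u := by
      rw [List.head?_append_of_ne_nil _ (by simp), h1h] at hb
      simpa using hb.symm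
    have ha' : a = x := by
      rw [List.getLast?_append_of_ne_nil _ (by simp), List.getLast?_append_of_ne_nil _ (by simp),
        h3l] at ha
      simpa using ha.symm
    rw [ha', hb']
    exact hxu
  · rw [List.nodup_append']
    refine ⟨h1n, ?_, ?_⟩
    · rw [List.nodup_append']
      exact ⟨h2n, h3n, fun a ha hb => d23 a ha hb⟩
    · intro a ha hb
      rcases List.mem_append.1 hb with hb | hb
      · exact d12 a ha hb
      · exact d13 a ha hb

/-- both parities -/
theorem cycleEmb_walk {ι : Type*} (Γ : SimpleGraph ι) (a b b' p : ι) (hb : Γ.Adj b b')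
    (h1 : Γ.Reachable a p) (h2 : Γ.Reachable p b) (w : Γ.Walk p p) (hw : Odd w.length) (k : ℕ) :
    ∃ u : Γ.Walk a b, 0 < u.length ∧ u.length % 2 = k % 2 := by
  obtain ⟨w1⟩ := h1
  obtain ⟨w2⟩ := h2
  have hw' : w.length % 2 = 1 := Nat.odd_iff.1 hw
  let w3 : Γ.Walk b b := SimpleGraph.Walk.cons hb (SimpleGraph.Walk.cons hb.symm
    SimpleGraph.Walk.nil)
  have h3 : w3.length = 2 := rfl
  by_cases h : (w1.length + w2.length) % 2 = k % 2
  · refine ⟨(w1.append w2).append w3, ?_, ?_⟩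
    · rw [SimpleGraph.Walk.length_append]; omega
    · rw [SimpleGraph.Walk.length_append, SimpleGraph.Walk.length_append]; omega
  · refine ⟨((w1.append w).append w2).append w3, ?_, ?_⟩
    · rw [SimpleGraph.Walk.length_append]; omega
    · rw [SimpleGraph.Walk.length_append, SimpleGraph.Walk.length_append,
        SimpleGraph.Walk.length_append]; omega

theorem cycleEmb {V ι : Type*} [DecidableEq V] [Fintype ι] (H : SimpleGraph V) (s m t ℓ : ℕ)
    (P : ι → Finset V) (hP : Pairwise fun i j => Disjoint (P i) (P j))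
    (hm : ∀ a, (P a).card = m)
    (Γ : SimpleGraph ι) (hΓ : ∀ a b, Γ.Adj a b → Jn H s (P a) (P b))
    (ht : Fintype.card ι = t) (hst : 10 * t * t + 10 ≤ s) (hl : 80 * t * s ≤ ℓ)
    (M : Finset (ι × ι)) (hM : ∀ p ∈ M, Γ.Adj p.1 p.2)
    (hM1 : Set.InjOn Prod.fst (M : Set (ι × ι))) (hM2 : Set.InjOn Prod.snd (M : Set (ι × ι)))
    (hMc : ∀ p ∈ M, ∀ q ∈ M, Γ.Reachable p.1 q.1)
    (hlM : ℓ + 300 * s * M.card ≤ m * M.card)
    (hpar : Even ℓ ∨ ∃ p ∈ M, ∃ w : Γ.Walk p.1 p.1, Odd w.length) :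
    (SimpleGraph.cycleGraph ℓ).IsContained H := by
  rcases Nat.eq_zero_or_pos ℓ with h0 | hpos
  · subst h0
    exact ⟨⟨⟨fun i => i.elim0, fun {a} => a.elim0⟩, fun a => a.elim0⟩⟩
  -- sizes
  have hMne : 0 < M.card := by
    rcases Nat.eq_zero_or_pos M.card with h | h
    · rw [h] at hlM; omega
    · exact h
  have hMt : M.card ≤ t := by
    rw [← ht, ← Finset.card_image_of_injOn hM1]
    exact Finset.card_le_univ _
  obtain ⟨r, hr⟩ : ∃ r, M.card = r + 1 := ⟨M.card - 1, by omega⟩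
  have ht1 : 1 ≤ t := by omega
  have hs1 : 1 ≤ s := by omega
  have htt : t ≤ t * t := Nat.le_mul_of_pos_left t (by omega)
  have hst0 : 10 * (t * t) + 10 ≤ s := by rw [← Nat.mul_assoc]; exact hst
  have hts : s ≤ t * s := Nat.le_mul_of_pos_left s (by omega)
  have hl0 : 80 * (t * s) ≤ ℓ := by rw [← Nat.mul_assoc]; exact hl
  rw [hr] at hlM
  have hm300 : 300 * s ≤ m := by
    by_contra hcon
    push Not at hcon
    have : m * (r + 1) ≤ 300 * s * (r + 1) := Nat.mul_le_mul_right _ hcon.le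
    omega
  -- enumeration of `M`
  obtain ⟨e, he1, he2⟩ : ∃ e : ℕ → ι × ι, (∀ i, e i ∈ M) ∧
      ∀ i ≤ r, ∀ j ≤ r, e i = e j → i = j := by
    refine ⟨fun i => (M.equivFin.symm ⟨min i r, by omega⟩ : {x // x ∈ M}).1, fun i => ?_, ?_⟩
    · exact (M.equivFin.symm ⟨min i r, by omega⟩).2
    · intro i hi j hj hij
      have h1 := M.equivFin.symm.injective (Subtype.ext hij)
      have h2 := congrArg Fin.val h1
      simp only at h2
      rw [min_eq_left hi, min_eq_left hj] at h2
      exact h2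
  have hia : ∀ i ≤ r, ∀ j ≤ r, (e i).1 = (e j).1 → i = j := fun i hi j hj h =>
    he2 i hi j hj (hM1 (he1 i) (he1 j) h)
  have hib : ∀ i ≤ r, ∀ j ≤ r, (e i).2 = (e j).2 → i = j := fun i hi j hj h =>
    he2 i hi j hj (hM2 (he1 i) (he1 j) h)
  -- the subgraph
  have hJ : ∀ c c', Γ.Adj c c' → Jn (cycleEmbSub H P Γ) s (P c) (P c') := by
    intro c c' hcc A hA B hB hAs hBs
    obtain ⟨x, hx, y, hy, hxy⟩ := hΓ c c' hcc A hA B hB hAs hBs
    exact ⟨x, hx, y, hy, hxy, c, c', hA hx, hB hy, hcc⟩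
  suffices hsuff : (SimpleGraph.cycleGraph ℓ).IsContained (cycleEmbSub H P Γ) by
    obtain ⟨f⟩ := hsuff
    exact ⟨⟨⟨f.toHom, fun {a b} hab => (f.toHom.map_rel hab).1⟩, f.injective⟩⟩
  -- choice of the parts of the clusters
  obtain ⟨z, hz⟩ : ∃ z, z = (m - 210 * s) / 2 := ⟨_, rfl⟩
  have hz1 : m ≤ 2 * z + 210 * s + 1 := by omega
  have hz2 : 2 * z + 210 * s ≤ m := by omega
  have hsplit := fun c => cycleEmb_split (P c) (200 * s) (10 * s) z z (by rw [hm c]; omega)
  choose X R Z1 Z2 hX hR hZ1 hZ2 hXc hRc hZ1c hZ2c hXR hXZ1 hXZ2 hRZ1 hRZ2 hZ12 using hsplit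
  -- choice of the lengths
  have hsum1 : (r + 1) * (20 * s) ≤ ℓ - 60 * s := by
    have h1 : (r + 1) * (20 * s) ≤ t * (20 * s) := Nat.mul_le_mul_right _ (by omega)
    have h2 : t * (20 * s) = 20 * (t * s) := by ring
    omega
  have hsum2 : ℓ - 60 * s ≤ (r + 1) * (2 * z - 12 * s) := by
    have h1 : (r + 1) * (m - 300 * s) ≤ (r + 1) * (2 * z - 12 * s) :=
      Nat.mul_le_mul_left _ (by omega)
    have h2 : (r + 1) * (m - 300 * s) = m * (r + 1) - 300 * s * (r + 1) := by
      rw [Nat.mul_sub, Nat.mul_comm (r + 1) m, Nat.mul_comm (r + 1) (300 * s)]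
    omega
  obtain ⟨d, hd1, hd2, hd3⟩ := cycleEmb_sum (r + 1) (20 * s) (2 * z - 12 * s) (ℓ - 60 * s)
    (by omega) hsum1 hsum2
  have hrt : 2 * t * r ≤ s := by
    have h1 : 2 * t * r ≤ 2 * t * t := Nat.mul_le_mul_left _ (by omega)
    have h2 : 2 * t * t = 2 * (t * t) := by ring
    omega
  obtain ⟨l, hlen, hln, hlc, hlbeg, ⟨ϖ, hlend⟩, hlmem, hlR⟩ :=
    longPath (cycleEmbSub H P Γ) s t P hP Γ hJ Z1 Z2 R hZ1 hZ2 hR hZ12
      (fun c => (hRZ1 c).symm) (fun c => (hRZ2 c).symm) ht (by omega) z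
      (fun c => (hZ1c c).ge) (fun c => (hZ2c c).ge) r (fun i => (e i).1) (fun i => (e i).2)
      hia hib (fun i _ => hM _ (he1 i)) (fun i _ => hMc _ (he1 0) _ (he1 i))
      (fun c => by rw [hRc c]; omega) d (fun i _ => hd1 i) (fun i _ => by
        have := hd2 i
        omega)
  rw [hd3] at hlen
  have hlbig : 20 * s ≤ l.length := by omega
  -- the core
  have hdis0 : Disjoint (X (e 0).1) (X (e 0).2) := by
    have hne : (e 0).1 ≠ (e 0).2 := (hM _ (he1 0)).ne
    exact Finset.disjoint_of_subset_left (hX _) (Finset.disjoint_of_subset_right (hX _) (hP hne))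
  obtain ⟨Y1, hY1, Y2, hY2, hY1c, hY2c, hcore⟩ := core (cycleEmbSub H P Γ) s hs1 (X (e 0).1)
    (X (e 0).2) hdis0 ((hJ _ _ (hM _ (he1 0))).mono (hX _) (hX _)) (hXc _).ge (hXc _).ge
  -- the first set
  obtain ⟨B1, hB1c, hB1⟩ := cycleEmb_pick l hln s 0 (by omega)
  have hB1P : B1 ⊆ P (e 0).1 := by
    intro v hv
    obtain ⟨i, hi, h1, h2, h3, rfl⟩ := hB1 v hv
    exact hZ1 _ ((hlbeg i hi (by omega)).1 (Nat.even_iff.2 (by omega)))
  obtain ⟨u, hu, x, hx, hux⟩ := hJ _ _ (hM _ (he1 0)) B1 hB1P Y2 (hY2.trans (hX _)) hB1c.ge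
    (by omega)
  obtain ⟨iu, hiu, -, hiu2, hiu3, rfl⟩ := hB1 u hu
  -- the last set
  obtain ⟨base, hbase1, hbase2, hbase3⟩ : ∃ base, l.length ≤ base + 2 * s ∧
      base + 2 * s ≤ l.length + 1 ∧ base % 2 = ϖ % 2 := by
    by_cases h : (l.length - 2 * s) % 2 = ϖ % 2
    · exact ⟨l.length - 2 * s, by omega, by omega, h⟩
    · exact ⟨l.length - 2 * s + 1, by omega, by omega, by omega⟩
  obtain ⟨B2, hB2c, hB2⟩ := cycleEmb_pick l hln s base hbase2
  have hB2P : B2 ⊆ P (e r).1 := by
    intro v hv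
    obtain ⟨i, hi, h1, h2, h3, rfl⟩ := hB2 v hv
    exact hZ1 _ ((hlend i hi (by omega)).1 (by omega))
  -- the walk
  obtain ⟨w, hw1, hw2⟩ : ∃ w : Γ.Walk (e r).1 (e 0).1, 0 < w.length ∧
      w.length % 2 = (ℓ + ϖ) % 2 := by
    rcases hpar with hev | ⟨p, hp, w, hw⟩
    · have hb : base < l.length := by omega
      have h0 : l[0]'(by omega) ∈ P (e 0).1 := hZ1 _ ((hlbeg 0 (by omega) (by omega)).1 (by simp))
      have h1 : l[0 + base]'(by omega) ∈ P (e r).1 := by
        have := hZ1 _ ((hlend base hb (by omega)).1 hbase3)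
        simpa using this
      obtain ⟨w, hw⟩ := cycleEmb_proj H P hP Γ l hlc 0 (by omega) _ h0 base (by omega) _ h1
      refine ⟨w.reverse, ?_, ?_⟩
      · rw [SimpleGraph.Walk.length_reverse]; omega
      · rw [SimpleGraph.Walk.length_reverse]
        have := Nat.even_iff.1 hev
        omega
    · exact cycleEmb_walk Γ _ _ _ _ (hM _ (he1 0)) (hMc _ (he1 r) _ hp) (hMc _ hp _ (he1 0))
        w hw _
  -- the connection
  have hR' : ∀ c, 4 * s ≤ ((R c) \ l.toFinset).card := by
    intro c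
    have h1 : (R c ∩ l.toFinset).card ≤ 2 * t * r := by
      refine le_trans ?_ hlR
      rw [← List.toFinset_card_of_nodup (hln.filter _)]
      apply Finset.card_le_card
      intro v hv
      rw [Finset.mem_inter, List.mem_toFinset] at hv
      rw [List.mem_toFinset, List.mem_filter]
      exact ⟨hv.2, by simpa using ⟨c, hv.1⟩⟩
    have h2 := Finset.card_sdiff_add_card_inter (R c) l.toFinset
    rw [hRc c] at h2
    omega
  obtain ⟨v, hv, y, hy, l', hl'c, hl'n, hl'R, hl'len, hl'par⟩ :=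
    connect (cycleEmbSub H P Γ) s hs1 P hP Γ hJ (fun c => (R c) \ l.toFinset)
      (fun c => Finset.sdiff_subset.trans (hR c)) hR' (e r).1 (e 0).1 B2 Y1 hB2P
      (hY1.trans (hX _)) hB2c.ge (by omega) w hw1
  obtain ⟨iv, hiv, hiv1, hiv2, hiv3, rfl⟩ := hB2 v hv
  rw [ht] at hl'len
  -- the length of the core path
  have ht20 : 2 * t ≤ s := by omega
  obtain ⟨lam, hlam⟩ : ∃ lam, lam + 2 + (iv - iu) + l'.length = ℓ :=
    ⟨ℓ - 2 - (iv - iu) - l'.length, by omega⟩
  have hlamodd : Odd lam := by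
    rw [Nat.odd_iff]
    omega
  obtain ⟨p, hplen, hpn, hpc, hph, hpl, hpm⟩ := hcore y hy x hx lam hlamodd (by omega) (by omega)
  obtain ⟨g, hg1, hg2, hg3, hg4, hg5⟩ := cycleEmb_seg l (cycleEmbSub H P Γ).Adj hln hlc iu iv
    (by omega) hiv
  -- disjointness
  have hXl : ∀ c, ∀ v ∈ X c, v ∉ l := by
    intro c v hv hvl
    have hvP := hX c hv
    rcases hlmem v hvl with ⟨i, -, h | h⟩ | ⟨c', h⟩
    · have hc := cycleEmb_eq hP hvP (hZ1 _ h)
      subst hc
      exact Finset.disjoint_left.1 (hXZ1 _) hv h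
    · have hc := cycleEmb_eq hP hvP (hZ2 _ h)
      subst hc
      exact Finset.disjoint_left.1 (hXZ2 _) hv h
    · have hc := cycleEmb_eq hP hvP (hR _ h)
      subst hc
      exact Finset.disjoint_left.1 (hXR _) hv h
  have hXR' : ∀ c, ∀ v ∈ X c, ∀ c', v ∉ R c' := by
    intro c v hv c' h
    have hc := cycleEmb_eq hP (hX c hv) (hR _ h)
    subst hc
    exact Finset.disjoint_left.1 (hXR _) hv h
  have hpX : ∀ v ∈ p, ∃ c, v ∈ X c := by
    intro v hv
    rcases Finset.mem_union.1 (hpm v hv) with h | h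
    · exact ⟨_, hY1 h⟩
    · exact ⟨_, hY2 h⟩
  refine cycleEmb_join (cycleEmbSub H P Γ) g l' p _ y _ x hg1 hg2 hg3 hl'c hl'n hpc hpn hph hpl
    hux.symm ?_ ?_ ?_ ℓ (by omega) (by omega)
  · intro q hq hq'
    obtain ⟨c, hc⟩ := hl'R q hq'
    exact (Finset.mem_sdiff.1 hc).2 (List.mem_toFinset.2 (hg5 q hq))
  · intro q hq hq'
    obtain ⟨c, hc⟩ := hpX q hq'
    exact hXl c q hc (hg5 q hq)
  · intro q hq hq'
    obtain ⟨c, hc⟩ := hpX q hq'
    obtain ⟨c', hc'⟩ := hl'R q hq
    exact hXR' c q hc c' (Finset.mem_sdiff.1 hc').1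

end CRam
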