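import Mathlib

/-!
# CRam.Exact2 : the two-coloured exact inequality

Sketch. On `R` every two elements have the same `K1` or the same `K2`; two equivalence relations
whose union is everything: one of them is everything. By symmetry let `K1 = x` be constant on `R`
(if `R = ∅` the claim is `|Y| ≤ 3B`, fine). `O = {i ∈ R | F1 i = 0}`.
* `O = ∅`: then `|R| ≤ ∑_{K1 = x} F1 ≤ B` and `2|R| + |Y| ≤ 3B`.
* some `o ∈ O` with `F2 o = 1` (`F2 o ≥ 1` on `O` because `(o,o)` is covered): put `x' = K2 o`. Every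
  `i ∈ R ∪ Y` has (`K1 i = x` and `F1 i = 2`) [call this set `S1`] or (`K2 i = x'` and `F2 i ≥ 1`)
  [rest `S2`]. `2|S1| ≤ B`, `|S2| ≤ B`. So
  `2|R| + |Y| ≤ 2|S1 ∩ R| + |S1 ∩ Y| + 2|S2 ∩ R| + |S2 ∩ Y| ≤ B + 2B`.
* all `o ∈ O` have `F2 o = 2` (and `O ≠ ∅`); all of `O` has the same label `x' = K2 o`.
  `Rx = {i ∈ R | F1 i = 2}`, `Rh = {i ∈ R | F1 i = 1}`, `Y1 = {i ∈ Y | K1 i = x, F1 i ≥ 1}`,
  `Y0 = Y \ Y1`. Colour 1, label `x`: `|Rh| + 2|Rx| + |Y1| ≤ B`. `K2 = x'` on `Rh` and on `Y0` (pair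
  with an `o ∈ O`). Pairs `Rh × Y0` are not covered by colour 1, so `F2 i + F2 j ≥ 2` there, whence
  `2|O| + 2 min(|Rh|,|Y0|) ≤ B` (colour 2, label `x'`). Then
  `2|R| + |Y| = 2|Rx| + |Rh| + |Y1| + (2|O| + |Rh| + |Y0|) ≤ B + (B + max(|Rh|,|Y0|)) ≤ 3B`
  as `|Rh| ≤ B`, `|Y0| ≤ |Y| ≤ B`.
-/

open Classical

namespace CRam

theorem exact2_le {ι κ : Type*} {K : ι → κ} {F : ι → ℕ} {T : Finset ι} {B : ℕ}
    (hB : ∀ x, ∑ i ∈ T.filter (fun i => K i = x), F i ≤ B) (x : κ) (S : Finset ι)
    (hS : ∀ i ∈ S, i ∈ T ∧ K i = x) : ∑ i ∈ S, F i ≤ B := by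
  refine le_trans (Finset.sum_le_sum_of_subset ?_) (hB x)
  intro i hi
  exact Finset.mem_filter.2 (hS i hi)

theorem exact2_const {ι : Type*} {F : ι → ℕ} (S : Finset ι) (c : ℕ) (h : ∀ i ∈ S, c ≤ F i) :
    c * S.card ≤ ∑ i ∈ S, F i := by
  have := Finset.card_nsmul_le_sum S F c h
  rw [smul_eq_mul] at this
  linarith [Nat.mul_comm c S.card]

theorem exact2_aux {ι κ : Type*} (K1 K2 : ι → κ) (F1 F2 : ι → ℕ)
    (h1 : ∀ i, F1 i ≤ 2) (h2 : ∀ i, F2 i ≤ 2) (R Y : Finset ι) (hd : Disjoint R Y)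
    (hcov : ∀ i ∈ R, ∀ j ∈ R ∪ Y,
      (K1 i = K1 j ∧ 2 ≤ F1 i + F1 j) ∨ (K2 i = K2 j ∧ 2 ≤ F2 i + F2 j))
    (B : ℕ) (hB1 : ∀ x, ∑ i ∈ (R ∪ Y).filter (fun i => K1 i = x), F1 i ≤ B)
    (hB2 : ∀ x, ∑ i ∈ (R ∪ Y).filter (fun i => K2 i = x), F2 i ≤ B)
    (hY : Y.card ≤ B) (hK : ∀ i ∈ R, ∀ j ∈ R, K1 i = K1 j) :
    2 * R.card + Y.card ≤ 3 * B := by
  by_cases hO : ∀ i ∈ R, F1 i ≠ 0
  · -- no zero weights
    rcases R.eq_empty_or_nonempty with hR | ⟨r, hr⟩
    · subst hR
      simp only [Finset.card_empty]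
      omega
    · have h3 := exact2_le hB1 (K1 r) R (fun i hi => ⟨Finset.mem_union_left _ hi, hK i hi r hr⟩)
      have h4 := exact2_const (F := F1) R 1 (fun i hi => Nat.one_le_iff_ne_zero.2 (hO i hi))
      omega
  · push Not at hO
    obtain ⟨o, hoR, ho⟩ := hO
    by_cases hF : ∃ o ∈ R, F1 o = 0 ∧ F2 o = 1
    · obtain ⟨o, hoR, ho, ho2⟩ := hF
      have h3 := exact2_le hB1 (K1 o) ((R ∪ Y).filter (fun i => K1 i = K1 o ∧ F1 i = 2))
        (fun i hi => ⟨(Finset.mem_filter.1 hi).1, (Finset.mem_filter.1 hi).2.1⟩)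
      have h4 := exact2_const (F := F1) ((R ∪ Y).filter (fun i => K1 i = K1 o ∧ F1 i = 2)) 2
        (fun i hi => (Finset.mem_filter.1 hi).2.2.ge)
      have hcase : ∀ i ∈ (R ∪ Y).filter (fun i => ¬ (K1 i = K1 o ∧ F1 i = 2)),
          K2 i = K2 o ∧ 1 ≤ F2 i := by
        intro i hi
        obtain ⟨hi1, hi2⟩ := Finset.mem_filter.1 hi
        rcases hcov o hoR i hi1 with ⟨ha, hb⟩ | ⟨ha, hb⟩
        · exact absurd ⟨ha.symm, by have := h1 i; omega⟩ hi2
        · exact ⟨ha.symm, by omega⟩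
      have h5 := exact2_le hB2 (K2 o) ((R ∪ Y).filter (fun i => ¬ (K1 i = K1 o ∧ F1 i = 2)))
        (fun i hi => ⟨(Finset.mem_filter.1 hi).1, (hcase i hi).1⟩)
      have h6 := exact2_const (F := F2) ((R ∪ Y).filter (fun i => ¬ (K1 i = K1 o ∧ F1 i = 2))) 1
        (fun i hi => (hcase i hi).2)
      have h7 := Finset.card_filter_add_card_filter_not (s := R ∪ Y)
        (fun i => K1 i = K1 o ∧ F1 i = 2)
      rw [Finset.card_union_of_disjoint hd] at h7
      omega
    · push Not at hF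
      have hF2 : ∀ o ∈ R, F1 o = 0 → F2 o = 2 := by
        intro o hoR ho
        have h3 := hF o hoR ho
        have h4 := h2 o
        rcases hcov o hoR o (Finset.mem_union_left _ hoR) with ⟨_, hb⟩ | ⟨_, hb⟩
        · omega
        · omega
      -- the four sets
      have hk2R : ∀ i ∈ R, F1 i ≤ 1 → K2 i = K2 o := by
        intro i hi hi1
        rcases hcov o hoR i (Finset.mem_union_left _ hi) with ⟨_, hb⟩ | ⟨ha, _⟩
        · omega
        · exact ha.symm
      have hk2Y : ∀ i ∈ Y, ¬ (K1 i = K1 o ∧ 1 ≤ F1 i) → K2 i = K2 o := by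
        intro i hi hi1
        rcases hcov o hoR i (Finset.mem_union_right _ hi) with ⟨ha, hb⟩ | ⟨ha, _⟩
        · exact absurd ⟨ha.symm, by omega⟩ hi1
        · exact ha.symm
      have hpair : ∀ i ∈ R, F1 i = 1 → ∀ j ∈ Y, ¬ (K1 j = K1 o ∧ 1 ≤ F1 j) →
          2 ≤ F2 i + F2 j := by
        intro i hi hi1 j hj hj1
        rcases hcov i hi j (Finset.mem_union_right _ hj) with ⟨ha, hb⟩ | ⟨_, hb⟩
        · exact absurd ⟨ha.symm.trans (hK i hi o hoR), by omega⟩ hj1
        · exact hb
      obtain ⟨O, hOd⟩ : ∃ O, O = R.filter (fun i => F1 i = 0) := ⟨_, rfl⟩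
      obtain ⟨Rh, hRh⟩ : ∃ O, O = R.filter (fun i => F1 i = 1) := ⟨_, rfl⟩
      obtain ⟨Rx, hRx⟩ : ∃ O, O = R.filter (fun i => F1 i = 2) := ⟨_, rfl⟩
      obtain ⟨Y1, hY1⟩ : ∃ O, O = Y.filter (fun i => K1 i = K1 o ∧ 1 ≤ F1 i) := ⟨_, rfl⟩
      obtain ⟨Y0, hY0⟩ : ∃ O, O = Y.filter (fun i => ¬ (K1 i = K1 o ∧ 1 ≤ F1 i)) := ⟨_, rfl⟩
      have hcY : Y1.card + Y0.card = Y.card := by
        rw [hY1, hY0]
        exact Finset.card_filter_add_card_filter_not _
      have dOh : Disjoint O Rh := by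
        rw [hOd, hRh, Finset.disjoint_filter]
        intro i _ ha hb
        omega
      have dOhx : Disjoint (O ∪ Rh) Rx := by
        rw [Finset.disjoint_left]
        intro i hi hx
        rw [hRx, Finset.mem_filter] at hx
        rw [hOd, hRh, Finset.mem_union, Finset.mem_filter, Finset.mem_filter] at hi
        omega
      have hcR : O.card + Rh.card + Rx.card = R.card := by
        rw [← Finset.card_union_of_disjoint dOh, ← Finset.card_union_of_disjoint dOhx]
        congr 1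
        ext i
        rw [hOd, hRh, hRx, Finset.mem_union, Finset.mem_union, Finset.mem_filter,
          Finset.mem_filter, Finset.mem_filter]
        have := h1 i
        constructor
        · rintro ((h | h) | h)
          · exact h.1
          · exact h.1
          · exact h.1
        · intro h
          have : F1 i = 0 ∨ F1 i = 1 ∨ F1 i = 2 := by omega
          rcases this with h' | h' | h'
          · exact Or.inl (Or.inl ⟨h, h'⟩)
          · exact Or.inl (Or.inr ⟨h, h'⟩)
          · exact Or.inr ⟨h, h'⟩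
      have hsub : ∀ {S : Finset ι} {p : ι → Prop} [DecidablePred p] {i : ι},
          i ∈ S.filter p → i ∈ S := fun h => (Finset.mem_filter.1 h).1
      -- colour one
      have hc1 : Rh.card + 2 * Rx.card + Y1.card ≤ B := by
        have e1 := exact2_const (F := F1) Rh 1 (fun i hi => by
          rw [hRh] at hi; exact (Finset.mem_filter.1 hi).2.ge)
        have e2 := exact2_const (F := F1) Rx 2 (fun i hi => by
          rw [hRx] at hi; exact (Finset.mem_filter.1 hi).2.ge)
        have e3 := exact2_const (F := F1) Y1 1 (fun i hi => by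
          rw [hY1] at hi; exact (Finset.mem_filter.1 hi).2.2)
        have d1 : Disjoint Rh Rx := Finset.disjoint_of_subset_left Finset.subset_union_right dOhx
        have d2 : Disjoint (Rh ∪ Rx) Y1 := by
          refine Finset.disjoint_of_subset_left ?_ (Finset.disjoint_of_subset_right ?_ hd)
          · rw [hRh, hRx]
            exact Finset.union_subset (Finset.filter_subset _ _) (Finset.filter_subset _ _)
          · rw [hY1]
            exact Finset.filter_subset _ _
        have e4 := exact2_le hB1 (K1 o) ((Rh ∪ Rx) ∪ Y1) (fun i hi => by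
          rcases Finset.mem_union.1 hi with hi | hi
          · have hiR : i ∈ R := by
              rcases Finset.mem_union.1 hi with hi | hi
              · rw [hRh] at hi; exact hsub hi
              · rw [hRx] at hi; exact hsub hi
            exact ⟨Finset.mem_union_left _ hiR, hK i hiR o hoR⟩
          · rw [hY1, Finset.mem_filter] at hi
            exact ⟨Finset.mem_union_right _ hi.1, hi.2.1⟩)
        rw [Finset.sum_union d2, Finset.sum_union d1] at e4
        omega
      -- colour two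
      have hc2 : 2 * O.card + ∑ i ∈ Rh, F2 i + ∑ i ∈ Y0, F2 i ≤ B := by
        have e1 := exact2_const (F := F2) O 2 (fun i hi => by
          rw [hOd, Finset.mem_filter] at hi
          exact (hF2 i hi.1 hi.2).ge)
        have d2 : Disjoint (O ∪ Rh) Y0 := by
          refine Finset.disjoint_of_subset_left ?_ (Finset.disjoint_of_subset_right ?_ hd)
          · rw [hOd, hRh]
            exact Finset.union_subset (Finset.filter_subset _ _) (Finset.filter_subset _ _)
          · rw [hY0]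
            exact Finset.filter_subset _ _
        have e4 := exact2_le hB2 (K2 o) ((O ∪ Rh) ∪ Y0) (fun i hi => by
          rcases Finset.mem_union.1 hi with hi | hi
          · rcases Finset.mem_union.1 hi with hi | hi
            · rw [hOd, Finset.mem_filter] at hi
              exact ⟨Finset.mem_union_left _ hi.1, hk2R i hi.1 (by omega)⟩
            · rw [hRh, Finset.mem_filter] at hi
              exact ⟨Finset.mem_union_left _ hi.1, hk2R i hi.1 (by omega)⟩
          · rw [hY0, Finset.mem_filter] at hi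
            exact ⟨Finset.mem_union_right _ hi.1, hk2Y i hi.1 hi.2⟩)
        rw [Finset.sum_union d2, Finset.sum_union dOh] at e4
        omega
      have hmin : 2 * min Rh.card Y0.card ≤ ∑ i ∈ Rh, F2 i + ∑ i ∈ Y0, F2 i := by
        by_cases ha : ∃ i ∈ Rh, F2 i = 0
        · obtain ⟨i, hi, hi0⟩ := ha
          have e1 := exact2_const (F := F2) Y0 2 (fun j hj => by
            rw [hY0, Finset.mem_filter] at hj
            rw [hRh, Finset.mem_filter] at hi
            have := hpair i hi.1 hi.2 j hj.1 hj.2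
            omega)
          omega
        · by_cases hb : ∃ j ∈ Y0, F2 j = 0
          · obtain ⟨j, hj, hj0⟩ := hb
            have e1 := exact2_const (F := F2) Rh 2 (fun i hi => by
              rw [hY0, Finset.mem_filter] at hj
              rw [hRh, Finset.mem_filter] at hi
              have := hpair i hi.1 hi.2 j hj.1 hj.2
              omega)
            omega
          · push Not at ha hb
            have e1 := exact2_const (F := F2) Rh 1 (fun i hi =>
              Nat.one_le_iff_ne_zero.2 (ha i hi))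
            have e2 := exact2_const (F := F2) Y0 1 (fun i hi =>
              Nat.one_le_iff_ne_zero.2 (hb i hi))
            omega
      omega

theorem exact2 {ι κ : Type*} (K1 K2 : ι → κ) (F1 F2 : ι → ℕ)
    (h1 : ∀ i, F1 i ≤ 2) (h2 : ∀ i, F2 i ≤ 2) (R Y : Finset ι) (hd : Disjoint R Y)
    (hcov : ∀ i ∈ R, ∀ j ∈ R ∪ Y,
      (K1 i = K1 j ∧ 2 ≤ F1 i + F1 j) ∨ (K2 i = K2 j ∧ 2 ≤ F2 i + F2 j))
    (B : ℕ) (hB1 : ∀ x, ∑ i ∈ (R ∪ Y).filter (fun i => K1 i = x), F1 i ≤ B)
    (hB2 : ∀ x, ∑ i ∈ (R ∪ Y).filter (fun i => K2 i = x), F2 i ≤ B)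
    (hY : Y.card ≤ B) :
    2 * R.card + Y.card ≤ 3 * B := by
  have hor : ∀ i ∈ R, ∀ j ∈ R, K1 i = K1 j ∨ K2 i = K2 j := by
    intro i hi j hj
    rcases hcov i hi j (Finset.mem_union_left _ hj) with h | h
    · exact Or.inl h.1
    · exact Or.inr h.1
  by_cases hK : ∀ i ∈ R, ∀ j ∈ R, K1 i = K1 j
  · exact exact2_aux K1 K2 F1 F2 h1 h2 R Y hd hcov B hB1 hB2 hY hK
  · push Not at hK
    obtain ⟨a, ha, b, hb, hab⟩ := hK
    have hK2 : ∀ i ∈ R, K2 i = K2 a := by
      intro i hi
      have h2ab : K2 a = K2 b := (hor a ha b hb).resolve_left hab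
      by_cases h : K1 i = K1 a
      · rcases hor i hi b hb with h' | h'
        · exact absurd (h.symm.trans h') hab
        · exact h'.trans h2ab.symm
      · exact (hor i hi a ha).resolve_left h
    exact exact2_aux K2 K1 F2 F1 h2 h1 R Y hd (fun i hi j hj => (hcov i hi j hj).symm) B hB2 hB1
      hY (fun i hi j hj => (hK2 i hi).trans (hK2 j hj).symm)

end CRam
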