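import Mathlib

/-!
# CRam.ExactM : two spanning colours and one coloured by components

All statements are about a finite index set `U` (each index has mass one).
Sketch. Let `D2 = {F2 = 2}`, `D3 = {F3 = 2}`, `Dd = D2 ∪ D3`, `A2 = {F2 = 1, F3 = 0}`,
`A3 = {F2 = 0, F3 = 1}`, `A23 = {F2 = F3 = 1}`, `O = {F2 = F3 = 0}`; these partition `U`. Then
`B2 + B3 ≥ ∑ (F2 + F3) ≥ 2|Dd| + |A2| + |A3| + 2|A23|` and `|A2| ≤ B2 ≤ C`, `|A3| ≤ B3 ≤ C`.
Pairs in `O × (U \ Dd)` and in `A2 × A3` are covered by colour 1.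
* If some `o ∈ O` has `F1 o = 1`: every `i ∈ U \ Dd` has `K i = K o` and `F1 i ≥ 1`, so
  `|U \ Dd| ≤ B1 ≤ C`; `2|U| = 2|Dd| + 2|U \ Dd| ≤ B2 + B3 + B1 + C`.
* Otherwise (each `o ∈ O` is covered with itself, so `F1 o ≥ 1`, hence `F1 o = 2`):
  `2|O| + 2 min(|A2|,|A3|) ≤ B1` (all of `O ∪ A2 ∪ A3` in one component of colour 1 if `O ≠ ∅` or if
  `A2`, `A3` are both nonempty; match `min` many elements of `A2` with elements of `A3`, each matched
  pair has total weight `≥ 2`; equivalently: either all elements of `A2` have `F1 ≥ 1` and all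
  elements of `A3` have `F1 ≥ 1`, or one of the two sides has constant weight `2`).
  `2|U| ≤ (B2 + B3) + |A2| + |A3| + 2|O| ≤ B2 + B3 + B1 + max(|A2|,|A3|)`.
-/

open Classical

namespace CRam

theorem exactM {ι κ : Type*} (U : Finset ι) (K : ι → κ) (F1 F2 F3 : ι → ℕ)
    (h1 : ∀ i, F1 i ≤ 2) (h2 : ∀ i, F2 i ≤ 2) (h3 : ∀ i, F3 i ≤ 2)
    (hcov : ∀ i ∈ U, ∀ j ∈ U, (K i = K j ∧ 2 ≤ F1 i + F1 j) ∨ 2 ≤ F2 i + F2 j ∨ 2 ≤ F3 i + F3 j)
    (B1 B2 B3 C : ℕ) (hB1 : ∀ x, ∑ i ∈ U.filter (fun i => K i = x), F1 i ≤ B1)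
    (hB2 : ∑ i ∈ U, F2 i ≤ B2) (hB3 : ∑ i ∈ U, F3 i ≤ B3)
    (hC1 : B1 ≤ C) (hC2 : B2 ≤ C) (hC3 : B3 ≤ C) :
    2 * U.card ≤ B1 + B2 + B3 + C := by
  set O := U.filter (fun i => F2 i = 0 ∧ F3 i = 0) with hO
  set A2 := U.filter (fun i => F2 i = 1 ∧ F3 i = 0) with hA2
  set A3 := U.filter (fun i => F2 i = 0 ∧ F3 i = 1) with hA3
  have cO : O.card = ∑ i ∈ U, if F2 i = 0 ∧ F3 i = 0 then 1 else 0 := by
    rw [hO, Finset.card_filter]
  have cA2 : A2.card = ∑ i ∈ U, if F2 i = 1 ∧ F3 i = 0 then 1 else 0 := by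
    rw [hA2, Finset.card_filter]
  have cA3 : A3.card = ∑ i ∈ U, if F2 i = 0 ∧ F3 i = 1 then 1 else 0 := by
    rw [hA3, Finset.card_filter]
  have cU : U.card = ∑ i ∈ U, 1 := by simp
  have hmain : 2 * U.card ≤ ∑ i ∈ U, F2 i + ∑ i ∈ U, F3 i + A2.card + A3.card + 2 * O.card := by
    rw [cO, cA2, cA3, cU, Finset.mul_sum, Finset.mul_sum, ← Finset.sum_add_distrib,
      ← Finset.sum_add_distrib, ← Finset.sum_add_distrib, ← Finset.sum_add_distrib]
    apply Finset.sum_le_sum
    intro i _
    have := h2 i; have := h3 i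
    split_ifs <;> omega
  have hA2le : A2.card ≤ C := by
    refine le_trans ?_ (hB2.trans hC2)
    rw [cA2]
    apply Finset.sum_le_sum
    intro i _
    split_ifs <;> omega
  have hA3le : A3.card ≤ C := by
    refine le_trans ?_ (hB3.trans hC3)
    rw [cA3]
    apply Finset.sum_le_sum
    intro i _
    split_ifs <;> omega
  by_cases hc : ∃ o ∈ O, F1 o = 1
  · obtain ⟨o, ho, ho1⟩ := hc
    rw [hO, Finset.mem_filter] at ho
    obtain ⟨hoU, ho2, ho3⟩ := ho
    have hb := hB1 (K o)
    rw [Finset.sum_filter] at hb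
    have h5 : 2 * U.card ≤ ∑ i ∈ U, F2 i + ∑ i ∈ U, F3 i +
        2 * ∑ i ∈ U, (if K i = K o then F1 i else 0) := by
      rw [cU, Finset.mul_sum, Finset.mul_sum, ← Finset.sum_add_distrib, ← Finset.sum_add_distrib]
      apply Finset.sum_le_sum
      intro i hi
      have h6 := hcov i hi o hoU
      split_ifs with hk
      · rcases h6 with ⟨_, h⟩ | h | h <;> omega
      · rcases h6 with ⟨h, _⟩ | h | h
        · exact absurd h hk
        · omega
        · omega
    omega
  · push Not at hc
    have hO2 : ∀ o ∈ O, F1 o = 2 ∧ ∀ i ∈ U, F2 i ≤ 1 → F3 i ≤ 1 → K i = K o := by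
      intro o ho
      have ho' := ho
      rw [hO, Finset.mem_filter] at ho'
      obtain ⟨hoU, ho2, ho3⟩ := ho'
      constructor
      · have := hcov o hoU o hoU
        have := hc o ho
        have := h1 o
        omega
      · intro i hi hi2 hi3
        rcases hcov i hi o hoU with ⟨h, _⟩ | h | h
        · exact h
        · omega
        · omega
    have key : ∀ (x : κ) (S : Finset ι), S ⊆ U → (∀ i ∈ S, K i = x ∧ 1 ≤ F1 i ∧
        ¬ (F2 i = 0 ∧ F3 i = 0)) → (∀ o ∈ O, K o = x) →
        2 * O.card + S.card ≤ B1 := by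
      intro x S hSU hP hOx
      have hb := hB1 x
      rw [Finset.sum_filter] at hb
      refine le_trans ?_ hb
      have cS : S.card = ∑ i ∈ U, if i ∈ S then 1 else 0 := by
        rw [Finset.sum_ite_mem, Finset.inter_eq_right.2 hSU]; simp
      rw [cO, cS, Finset.mul_sum, ← Finset.sum_add_distrib]
      apply Finset.sum_le_sum
      intro i hi
      by_cases h7 : F2 i = 0 ∧ F3 i = 0
      · have h8 : i ∈ O := by rw [hO, Finset.mem_filter]; exact ⟨hi, h7⟩
        have h9 : i ∉ S := fun hp => (hP i hp).2.2 h7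
        rw [if_pos h7, if_neg h9, if_pos (hOx i h8), (hO2 i h8).1]
        norm_num
      · rw [if_neg h7]
        by_cases h9 : i ∈ S
        · rw [if_pos h9, if_pos (hP i h9).1]
          have := (hP i h9).2.1
          omega
        · rw [if_neg h9]
          simp
    have h23 : ∀ a ∈ A2, ∀ b ∈ A3, K a = K b ∧ 2 ≤ F1 a + F1 b := by
      intro a ha b hb
      rw [hA2, Finset.mem_filter] at ha
      rw [hA3, Finset.mem_filter] at hb
      rcases hcov a ha.1 b hb.1 with h | h | h
      · exact h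
      · omega
      · omega
    have hOA2 : ∀ a ∈ A2, ∀ o ∈ O, K o = K a := by
      intro a ha o ho
      rw [hA2, Finset.mem_filter] at ha
      exact ((hO2 o ho).2 a ha.1 (by omega) (by omega)).symm
    have hOA3 : ∀ a ∈ A3, ∀ o ∈ O, K o = K a := by
      intro a ha o ho
      rw [hA3, Finset.mem_filter] at ha
      exact ((hO2 o ho).2 a ha.1 (by omega) (by omega)).symm
    have claim : 2 * O.card + A2.card ≤ B1 ∨ 2 * O.card + A3.card ≤ B1 := by
      by_cases hz : ∃ a ∈ A2, F1 a = 0
      · obtain ⟨a, ha, ha0⟩ := hz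
        right
        refine key (K a) A3 (Finset.filter_subset _ _) ?_ (hOA2 a ha)
        intro b hb'
        have hb := (Finset.mem_filter.1 hb').2
        have := h23 a ha b hb'
        exact ⟨this.1.symm, by omega, by omega⟩
      · push Not at hz
        by_cases hOe : O.Nonempty
        · obtain ⟨o, ho⟩ := hOe
          left
          refine key (K o) A2 (Finset.filter_subset _ _) ?_ ?_
          · intro a ha'
            have ha := (Finset.mem_filter.1 ha').2
            have := hz a ha'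
            exact ⟨(hOA2 a ha' o ho).symm, by omega, by omega⟩
          · intro o' ho'
            have ho'' := ho'
            rw [hO, Finset.mem_filter] at ho''
            exact (hO2 o ho).2 o' ho''.1 (by omega) (by omega)
        · rw [Finset.not_nonempty_iff_eq_empty] at hOe
          by_cases hAe : A3.Nonempty
          · obtain ⟨b, hb⟩ := hAe
            left
            refine key (K b) A2 (Finset.filter_subset _ _) ?_ (hOA3 b hb)
            intro a ha'
            have ha := (Finset.mem_filter.1 ha').2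
            have := hz a ha'
            exact ⟨(h23 a ha' b hb).1, by omega, by omega⟩
          · rw [Finset.not_nonempty_iff_eq_empty] at hAe
            right
            rw [hOe, hAe]
            simp
    rcases claim with h | h <;> omega

end CRam
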