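import Mathlib
import Pool.Agent.Lib.CRam.ExactM

/-!
# CRam.Exact3F1 : the three-coloured exact inequality, four label types

Sketch. Blocks: `P* = {i | ∀ c, K c i = p c}` and `P c = {i | K c i = p c ∧ ∀ c' ≠ c, K c' i = p' c'}`
for the three colours `c`: a partition of `ι` into four blocks. Any two different blocks have the same
label in exactly one colour: `P*` and `P c` in colour `c`, `P c` and `P c'` in the third colour.
If all four blocks have `2|block| ≤ B`, then `|ι| ≤ 2B`. Otherwise we may assume `2|P*| > B`: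
if `2|P c0| > B`, replace `(p, p')` by `(p~, p~')` with `p~ c0 = p c0`, `p~' c0 = p' c0` and
`p~ c = p' c`, `p~' c = p c` for `c ≠ c0` (the hypotheses are preserved).
For each colour `c` all pairs in `P* × P c` are covered by colour `c`, so `F c i + F c j ≥ 2`.
`F c = 2` on all of `P*` is impossible (`2|P*| > B`), so either (first kind) `F c ≥ 1` on `P* ∪ P c`,
hence `|P*| + |P c| ≤ B`, or (second kind) `F c = 2` on `P c`, hence `2|P c| + ∑_{P*} F c ≤ B`
(if `F c i = 0` for some `i ∈ P*` second kind; otherwise, if `F c j = 0` for some `j ∈ P c` then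
`F c = 2` on `P*`, impossible; otherwise first kind).
* Some `c` of the first kind: the two other blocks `P c'` have `2|P c'| ≤ B` each (first kind:
  `|P c'| ≤ B - |P*| < B/2`), so the total is `≤ B + B`.
* All three of the second kind: `exactM` on `U = P*` (all labels constant) with
  `B_c = B - 2|P c|`, `C = B`: `2|P*| ≤ 4B - 2∑|P c|`.
-/

open Classical

namespace CRam

/-- The case of a large block `P*`. -/
private lemma core {ι κ : Type*} [Fintype ι] (K : Fin 3 → ι → κ) (F : Fin 3 → ι → ℕ)
    (hF : ∀ c i, F c i ≤ 2) (hcov : ∀ i j, ∃ c, K c i = K c j ∧ 2 ≤ F c i + F c j) (B : ℕ)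
    (hB : ∀ c x, ∑ i ∈ Finset.univ.filter (fun i => K c i = x), F c i ≤ B)
    (p p' : Fin 3 → κ) (hpp : ∀ c, p c ≠ p' c)
    (hp : ∀ i, (∀ c, K c i = p c) ∨ (∃ c0, K c0 i = p c0 ∧ ∀ c, c ≠ c0 → K c i = p' c))
    (hA : B < 2 * (Finset.univ.filter (fun i => ∀ c, K c i = p c)).card) :
    Fintype.card ι ≤ 2 * B := by
  set A := Finset.univ.filter (fun i => ∀ c, K c i = p c) with hAdef
  set Q : Fin 3 → Finset ι := fun c =>
    Finset.univ.filter (fun i => K c i = p c ∧ ∀ c', c' ≠ c → K c' i = p' c') with hQdef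
  have memA : ∀ i, i ∈ A ↔ ∀ c, K c i = p c := by intro i; simp [hAdef]
  have memQ : ∀ c i, i ∈ Q c ↔ (K c i = p c ∧ ∀ c', c' ≠ c → K c' i = p' c') := by
    intro c i; simp [hQdef]
  have hother : ∀ c : Fin 3, ∃ c' : Fin 3, c' ≠ c := by decide
  have hcard : Fintype.card ι ≤ A.card + ((Q 0).card + (Q 1).card + (Q 2).card) := by
    have hsub : (Finset.univ : Finset ι) ⊆ A ∪ ((Q 0 ∪ Q 1) ∪ Q 2) := by
      intro i _
      rcases hp i with h | ⟨c0, h1, h2⟩
      · exact Finset.mem_union_left _ ((memA i).2 h)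
      · refine Finset.mem_union_right _ ?_
        have hm := (memQ c0 i).2 ⟨h1, h2⟩
        fin_cases c0
        · exact Finset.mem_union_left _ (Finset.mem_union_left _ hm)
        · exact Finset.mem_union_left _ (Finset.mem_union_right _ hm)
        · exact Finset.mem_union_right _ hm
    calc Fintype.card ι = (Finset.univ : Finset ι).card := rfl
      _ ≤ (A ∪ ((Q 0 ∪ Q 1) ∪ Q 2)).card := Finset.card_le_card hsub
      _ ≤ A.card + ((Q 0 ∪ Q 1) ∪ Q 2).card := Finset.card_union_le _ _
      _ ≤ A.card + ((Q 0 ∪ Q 1).card + (Q 2).card) := by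
          gcongr; exact Finset.card_union_le _ _
      _ ≤ A.card + ((Q 0).card + (Q 1).card + (Q 2).card) := by
          gcongr; exact Finset.card_union_le _ _
  have hpair : ∀ c, ∀ i ∈ A, ∀ j ∈ Q c, 2 ≤ F c i + F c j := by
    intro c i hi j hj
    obtain ⟨c', h1, h2⟩ := hcov i j
    by_cases h : c' = c
    · subst h; exact h2
    · exfalso
      rw [(memA i).1 hi c', ((memQ c j).1 hj).2 c' h] at h1
      exact hpp c' h1
  have hdisj : ∀ c, Disjoint A (Q c) := by
    intro c
    rw [Finset.disjoint_left]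
    intro i hi hj
    obtain ⟨c', hc'⟩ := hother c
    have h1 := (memA i).1 hi c'
    have h2 := ((memQ c i).1 hj).2 c' hc'
    exact hpp c' (h1.symm.trans h2)
  have hsum : ∀ c, ∑ i ∈ A, F c i + ∑ i ∈ Q c, F c i ≤ B := by
    intro c
    rw [← Finset.sum_union (hdisj c)]
    refine le_trans (Finset.sum_le_sum_of_subset ?_) (hB c (p c))
    intro i hi
    rw [Finset.mem_filter]
    refine ⟨Finset.mem_univ _, ?_⟩
    rcases Finset.mem_union.1 hi with hi | hi
    · exact (memA i).1 hi c
    · exact ((memQ c i).1 hi).1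
  have hnot : ∀ c, ¬ ∀ i ∈ A, 2 ≤ F c i := by
    intro c h
    have h1 : ∑ i ∈ A, 2 ≤ ∑ i ∈ A, F c i := Finset.sum_le_sum h
    rw [Finset.sum_const, smul_eq_mul] at h1
    have := hsum c
    omega
  have hdich : ∀ c, (A.card + (Q c).card ≤ B) ∨ (2 * (Q c).card + ∑ i ∈ A, F c i ≤ B) := by
    intro c
    by_cases h0 : ∃ i ∈ A, F c i = 0
    · obtain ⟨i, hi, hi0⟩ := h0
      right
      have h1 : ∑ j ∈ Q c, 2 ≤ ∑ j ∈ Q c, F c j := by
        refine Finset.sum_le_sum fun j hj => ?_
        have := hpair c i hi j hj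
        omega
      rw [Finset.sum_const, smul_eq_mul] at h1
      have := hsum c
      omega
    · left
      push Not at h0
      have hQ1 : ∀ j ∈ Q c, 1 ≤ F c j := by
        intro j hj
        by_contra hj0
        apply hnot c
        intro i hi
        have := hpair c i hi j hj
        omega
      have h1 : ∑ i ∈ A, 1 ≤ ∑ i ∈ A, F c i :=
        Finset.sum_le_sum fun i hi => Nat.one_le_iff_ne_zero.2 (h0 i hi)
      have h2 : ∑ i ∈ Q c, 1 ≤ ∑ i ∈ Q c, F c i := Finset.sum_le_sum hQ1
      rw [Finset.sum_const, smul_eq_mul, mul_one] at h1 h2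
      have := hsum c
      omega
  have hsmall : ∀ c, 2 * (Q c).card ≤ B := by
    intro c
    rcases hdich c with h | h
    · omega
    · omega
  by_cases hfirst : ∃ c, A.card + (Q c).card ≤ B
  · obtain ⟨c, hc⟩ := hfirst
    have h0 := hsmall 0
    have h1 := hsmall 1
    have h2 := hsmall 2
    fin_cases c
    · simp only [Fin.zero_eta] at hc; omega
    · simp only [Fin.mk_one] at hc; omega
    · simp only [Fin.reduceFinMk] at hc; omega
  · push Not at hfirst
    have hsec : ∀ c, 2 * (Q c).card + ∑ i ∈ A, F c i ≤ B := fun c =>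
      (hdich c).resolve_left (not_le.2 (hfirst c))
    have hM := exactM A (fun _ : ι => p 0) (F 0) (F 1) (F 2) (hF 0) (hF 1) (hF 2)
      (by
        intro i _ j _
        obtain ⟨c, _, h2⟩ := hcov i j
        fin_cases c
        · exact Or.inl ⟨rfl, h2⟩
        · exact Or.inr (Or.inl h2)
        · exact Or.inr (Or.inr h2))
      (B - 2 * (Q 0).card) (B - 2 * (Q 1).card) (B - 2 * (Q 2).card) B
      (by
        intro x
        have h := hsec 0
        have hB0 : ∑ i ∈ A, F 0 i ≤ B - 2 * (Q 0).card := by omega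
        refine le_trans (Finset.sum_le_sum_of_subset ?_) hB0
        intro i hi
        rw [Finset.mem_filter] at hi
        exact hi.1)
      (by have h := hsec 1; omega) (by have h := hsec 2; omega)
      (Nat.sub_le _ _) (Nat.sub_le _ _) (Nat.sub_le _ _)
    have h0 := hsmall 0
    have h1 := hsmall 1
    have h2 := hsmall 2
    omega

theorem exact3F1 {ι κ : Type*} [Fintype ι] (K : Fin 3 → ι → κ) (F : Fin 3 → ι → ℕ)
    (hF : ∀ c i, F c i ≤ 2) (hcov : ∀ i j, ∃ c, K c i = K c j ∧ 2 ≤ F c i + F c j) (B : ℕ)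
    (hB : ∀ c x, ∑ i ∈ Finset.univ.filter (fun i => K c i = x), F c i ≤ B)
    (p p' : Fin 3 → κ) (hpp : ∀ c, p c ≠ p' c)
    (hp : ∀ i, (∀ c, K c i = p c) ∨ (∃ c0, K c0 i = p c0 ∧ ∀ c, c ≠ c0 → K c i = p' c)) :
    Fintype.card ι ≤ 2 * B := by
  by_cases hA : B < 2 * (Finset.univ.filter (fun i => ∀ c, K c i = p c)).card
  · exact core K F hF hcov B hB p p' hpp hp hA
  by_cases hQ : ∃ c0, B < 2 * (Finset.univ.filter
      (fun i => K c0 i = p c0 ∧ ∀ c', c' ≠ c0 → K c' i = p' c')).card
  · obtain ⟨c0, hc0⟩ := hQ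
    refine core K F hF hcov B hB (fun c => if c = c0 then p c else p' c)
      (fun c => if c = c0 then p' c else p c) ?_ ?_ ?_
    · intro c
      by_cases h : c = c0
      · simp only [h, if_true]; exact hpp c0
      · simp only [h, if_false]; exact (hpp c).symm
    · intro i
      rcases hp i with h | ⟨c1, h1, h2⟩
      · right
        refine ⟨c0, by simp [h c0], ?_⟩
        intro c hc
        simp only [hc, if_false]
        exact h c
      · by_cases hc : c1 = c0
        · left
          subst hc
          intro c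
          by_cases h : c = c1
          · subst h; simp [h1]
          · simp only [h, if_false]; exact h2 c h
        · -- the third colour
          right
          have key : ∀ a b : Fin 3, b ≠ a → ∃ c2 : Fin 3, c2 ≠ a ∧ c2 ≠ b ∧
              ∀ c, c = a ∨ c = b ∨ c = c2 := by decide
          obtain ⟨c2, hc20, hc21, hall⟩ := key c0 c1 hc
          refine ⟨c2, ?_, ?_⟩
          · simp only [hc20, if_false]; exact h2 c2 hc21
          · intro c hcc
            rcases hall c with rfl | rfl | rfl
            · simp only [if_true]; exact h2 c (Ne.symm hc)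
            · simp only [hc, if_false]; exact h1
            · exact absurd rfl hcc
    · refine lt_of_lt_of_le hc0 (Nat.mul_le_mul_left _ (Finset.card_le_card ?_))
      intro i hi
      rw [Finset.mem_filter] at hi ⊢
      refine ⟨hi.1, fun c => ?_⟩
      by_cases h : c = c0
      · subst h; simp [hi.2.1]
      · simp only [h, if_false]; exact hi.2.2 c h
  · push Not at hQ
    have hother : ∀ c : Fin 3, ∃ c' : Fin 3, c' ≠ c := by decide
    set A := Finset.univ.filter (fun i => ∀ c, K c i = p c) with hAdef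
    set Q : Fin 3 → Finset ι := fun c =>
      Finset.univ.filter (fun i => K c i = p c ∧ ∀ c', c' ≠ c → K c' i = p' c') with hQdef
    have memA : ∀ i, i ∈ A ↔ ∀ c, K c i = p c := by intro i; simp [hAdef]
    have memQ : ∀ c i, i ∈ Q c ↔ (K c i = p c ∧ ∀ c', c' ≠ c → K c' i = p' c') := by
      intro c i; simp [hQdef]
    have hsub : (Finset.univ : Finset ι) ⊆ A ∪ ((Q 0 ∪ Q 1) ∪ Q 2) := by
      intro i _
      rcases hp i with h | ⟨c0, h1, h2⟩
      · exact Finset.mem_union_left _ ((memA i).2 h)
      · refine Finset.mem_union_right _ ?_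
        have hm := (memQ c0 i).2 ⟨h1, h2⟩
        fin_cases c0
        · exact Finset.mem_union_left _ (Finset.mem_union_left _ hm)
        · exact Finset.mem_union_left _ (Finset.mem_union_right _ hm)
        · exact Finset.mem_union_right _ hm
    have hcard : Fintype.card ι ≤ A.card + ((Q 0).card + (Q 1).card + (Q 2).card) :=
      calc Fintype.card ι = (Finset.univ : Finset ι).card := rfl
        _ ≤ (A ∪ ((Q 0 ∪ Q 1) ∪ Q 2)).card := Finset.card_le_card hsub
        _ ≤ A.card + ((Q 0 ∪ Q 1) ∪ Q 2).card := Finset.card_union_le _ _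
        _ ≤ A.card + ((Q 0 ∪ Q 1).card + (Q 2).card) := by
            gcongr; exact Finset.card_union_le _ _
        _ ≤ A.card + ((Q 0).card + (Q 1).card + (Q 2).card) := by
            gcongr; exact Finset.card_union_le _ _
    have h0 : 2 * (Q 0).card ≤ B := hQ 0
    have h1 : 2 * (Q 1).card ≤ B := hQ 1
    have h2 : 2 * (Q 2).card ≤ B := hQ 2
    omega

end CRam
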