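import Mathlib
import Pool.Agent.Lib.CRam.ExactM

/-!
# CRam.Exact3F2 : the three-coloured exact inequality when there is a centre

Sketch. `Q c = {i | K c i ≠ p c}`; the `Q c` are pairwise disjoint by `hp`. For `i ∈ Q a`, `j ∈ Q b`,
`a ≠ b`, the only colour in which `i`, `j` have the same label is the third one `c`, so
`F c i + F c j ≥ 2`.
* Case 1: for some `a`, for both colours `b ≠ a` there is an element of `Q a` with `F b = 0`. Say
  `a`, `b`, `c` are the three colours. Then for `i ∈ Q c` the pair (`j ∈ Q a` with `F b j = 0`, `i`) is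
  covered by colour `b`, so `F b i = 2` on `Q c`; likewise `F c i = 2` on `Q b`.
  Let `U = univ \ (Q b ∪ Q c)`; on `U` `K b = p b`, `K c = p c`. `∑_U F b ≤ B - 2|Q c|` (the
  component `K b = p b` contains `U ∪ Q c`), `∑_U F c ≤ B - 2|Q b|`. `exactM` on `U` with
  `B1 = B`, `B2 = B - 2|Q c|`, `B3 = B - 2|Q b|`, `C = B`: `2|U| ≤ 4B - 2|Q b| - 2|Q c|`.
* Case 2: for every `a` there is `c = g a ≠ a` with `F c ≥ 1` on `Q a`. Let
  `e i = ∑_{c : K c i = p c} F c i`. `e i ≥ 1` (for `i ∈ Q a` by colour `g a`; for `i` in no `Q a`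
  since `(i,i)` is covered). `∑ e ≤ 3B`. Claim: all `i` with `e i = 1` have their weight in the same
  colour `c*` (`K c* i = p c*`, `F c* i = 1`): if `i`, `j` are two such elements, the colour `c` covering
  `(i,j)` has `K c i = K c j`; if this label is `p c` then both weights are `1` and both have colour
  `c`; otherwise `i, j ∈ Q c` and both must use colour `g c` (weight `≥ 1` there and `e = 1`).
  So `E1 = {e = 1}` has `|E1| ≤ B`, and `2|ι| - |E1| ≤ ∑ e ≤ 3B`, whence `2|ι| ≤ 4B`.
-/

open Classical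

namespace CRam

theorem exact3F2_case1 {ι κ : Type*} [Fintype ι] (K : Fin 3 → ι → κ) (F : Fin 3 → ι → ℕ)
    (hF : ∀ c i, F c i ≤ 2) (hcov : ∀ i j, ∃ c, K c i = K c j ∧ 2 ≤ F c i + F c j) (B : ℕ)
    (hB : ∀ c x, ∑ i ∈ Finset.univ.filter (fun i => K c i = x), F c i ≤ B)
    (p : Fin 3 → κ) (hp : ∀ i, ∀ c c', K c i ≠ p c → K c' i ≠ p c' → c = c')
    (a b c : Fin 3) (hab : a ≠ b) (hac : a ≠ c) (hbc : b ≠ c)
    (hall : ∀ x : Fin 3, x = a ∨ x = b ∨ x = c)
    (j1 : ι) (hj1 : K a j1 ≠ p a) (hF1 : F b j1 = 0)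
    (j2 : ι) (hj2 : K a j2 ≠ p a) (hF2 : F c j2 = 0) : Fintype.card ι ≤ 2 * B := by
  have hFb : ∀ i, K c i ≠ p c → F b i = 2 := by
    intro i hi
    obtain ⟨x, hx1, hx2⟩ := hcov j1 i
    have hai : K a i = p a := by
      by_contra h
      exact hac (hp i a c h hi)
    have hcj : K c j1 = p c := by
      by_contra h
      exact hac (hp j1 a c hj1 h)
    rcases hall x with rfl | rfl | rfl
    · rw [hai] at hx1
      exact absurd hx1 hj1
    · have := hF x i
      omega
    · rw [hcj] at hx1
      exact absurd hx1.symm hi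
  have hFc : ∀ i, K b i ≠ p b → F c i = 2 := by
    intro i hi
    obtain ⟨x, hx1, hx2⟩ := hcov j2 i
    have hai : K a i = p a := by
      by_contra h
      exact hab (hp i a b h hi)
    have hbj : K b j2 = p b := by
      by_contra h
      exact hab (hp j2 a b hj2 h)
    rcases hall x with rfl | rfl | rfl
    · rw [hai] at hx1
      exact absurd hx1 hj2
    · rw [hbj] at hx1
      exact absurd hx1.symm hi
    · have := hF x i
      omega
  set Qb : Finset ι := Finset.univ.filter (fun i => K b i ≠ p b) with hQb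
  set Qc : Finset ι := Finset.univ.filter (fun i => K c i ≠ p c) with hQc
  set U : Finset ι := Finset.univ.filter (fun i => K b i = p b ∧ K c i = p c) with hU
  have hdbc : Disjoint Qb Qc := by
    rw [Finset.disjoint_left]
    intro i h1 h2
    simp only [hQb, hQc, Finset.mem_filter, Finset.mem_univ, true_and] at h1 h2
    exact hbc (hp i b c h1 h2)
  have hdUb : Disjoint U Qb := by
    rw [Finset.disjoint_left]
    intro i h1 h2
    simp only [hQb, hU, Finset.mem_filter, Finset.mem_univ, true_and] at h1 h2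
    exact h2 h1.1
  have hdUc : Disjoint U Qc := by
    rw [Finset.disjoint_left]
    intro i h1 h2
    simp only [hQc, hU, Finset.mem_filter, Finset.mem_univ, true_and] at h1 h2
    exact h2 h1.2
  have hcard : Fintype.card ι = U.card + Qb.card + Qc.card := by
    have h1 : (U ∪ Qb ∪ Qc).card = U.card + Qb.card + Qc.card := by
      rw [Finset.card_union_of_disjoint, Finset.card_union_of_disjoint hdUb]
      rw [Finset.disjoint_union_left]
      exact ⟨hdUc, hdbc⟩
    rw [← h1, ← Finset.card_univ]
    congr 1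
    ext i
    simp only [hQb, hQc, hU, Finset.mem_union, Finset.mem_filter, Finset.mem_univ, true_and,
      true_iff]
    tauto
  have hsb : ∑ i ∈ U, F b i + 2 * Qc.card ≤ B := by
    have h1 : ∑ i ∈ Qc, F b i = 2 * Qc.card := by
      rw [Finset.sum_congr rfl (fun i hi => hFb i (Finset.mem_filter.1 hi).2), Finset.sum_const,
        smul_eq_mul, mul_comm]
    rw [← h1, ← Finset.sum_union hdUc]
    refine le_trans (Finset.sum_le_sum_of_subset ?_) (hB b (p b))
    intro i hi
    simp only [hQc, hU, Finset.mem_union, Finset.mem_filter, Finset.mem_univ, true_and] at hi ⊢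
    rcases hi with hi | hi
    · exact hi.1
    · by_contra h
      exact hbc (hp i b c h hi)
  have hsc : ∑ i ∈ U, F c i + 2 * Qb.card ≤ B := by
    have h1 : ∑ i ∈ Qb, F c i = 2 * Qb.card := by
      rw [Finset.sum_congr rfl (fun i hi => hFc i (Finset.mem_filter.1 hi).2), Finset.sum_const,
        smul_eq_mul, mul_comm]
    rw [← h1, ← Finset.sum_union hdUb]
    refine le_trans (Finset.sum_le_sum_of_subset ?_) (hB c (p c))
    intro i hi
    simp only [hQb, hU, Finset.mem_union, Finset.mem_filter, Finset.mem_univ, true_and] at hi ⊢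
    rcases hi with hi | hi
    · exact hi.2
    · by_contra h
      exact hbc (hp i b c hi h)
  have key := exactM U (K a) (F a) (F b) (F c) (hF a) (hF b) (hF c) (by
    intro i _ j _
    obtain ⟨x, hx1, hx2⟩ := hcov i j
    rcases hall x with rfl | rfl | rfl
    · exact Or.inl ⟨hx1, hx2⟩
    · exact Or.inr (Or.inl hx2)
    · exact Or.inr (Or.inr hx2)) B (B - 2 * Qc.card) (B - 2 * Qb.card) B
    (by
      intro x
      refine le_trans (Finset.sum_le_sum_of_subset ?_) (hB a x)
      intro i hi
      rw [Finset.mem_filter] at hi ⊢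
      exact ⟨Finset.mem_univ _, hi.2⟩)
    (by omega) (by omega) le_rfl (Nat.sub_le _ _) (Nat.sub_le _ _)
  omega

theorem exact3F2_case2 {ι κ : Type*} [Fintype ι] (K : Fin 3 → ι → κ) (F : Fin 3 → ι → ℕ)
    (hcov : ∀ i j, ∃ c, K c i = K c j ∧ 2 ≤ F c i + F c j) (B : ℕ)
    (hB : ∀ c x, ∑ i ∈ Finset.univ.filter (fun i => K c i = x), F c i ≤ B)
    (p : Fin 3 → κ) (hp : ∀ i, ∀ c c', K c i ≠ p c → K c' i ≠ p c' → c = c')
    (g : Fin 3 → Fin 3) (hg : ∀ a, g a ≠ a) (hgF : ∀ a i, K a i ≠ p a → F (g a) i ≠ 0) :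
    Fintype.card ι ≤ 2 * B := by
  have hgK : ∀ a i, K a i ≠ p a → K (g a) i = p (g a) := by
    intro a i hi
    by_contra h
    exact hg a (hp i (g a) a h hi)
  let e : ι → ℕ := fun i => ∑ c, if K c i = p c then F c i else 0
  have hle : ∀ i c, K c i = p c → F c i ≤ e i := by
    intro i c hc
    have h1 : (if K c i = p c then F c i else 0) ≤ e i :=
      Finset.single_le_sum (f := fun c => if K c i = p c then F c i else 0)
        (fun _ _ => Nat.zero_le _) (Finset.mem_univ c)
    rwa [if_pos hc] at h1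
  have hle2 : ∀ i c c', c ≠ c' → K c i = p c → K c' i = p c' → F c i + F c' i ≤ e i := by
    intro i c c' hcc hc hc'
    have h1 : ∑ x ∈ ({c, c'} : Finset (Fin 3)), (if K x i = p x then F x i else 0) ≤ e i :=
      Finset.sum_le_sum_of_subset (Finset.subset_univ _)
    rw [Finset.sum_pair hcc, if_pos hc, if_pos hc'] at h1
    exact h1
  have he1 : ∀ i, 1 ≤ e i := by
    intro i
    by_cases h : ∃ a, K a i ≠ p a
    · obtain ⟨a, ha⟩ := h
      have h1 := hle i (g a) (hgK a i ha)
      have h2 := hgF a i ha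
      omega
    · push Not at h
      obtain ⟨c, _, hc⟩ := hcov i i
      have h1 := hle i c (h c)
      omega
  have hsum : ∑ i, e i ≤ 3 * B := by
    have h1 : ∑ i, e i = ∑ c, ∑ i ∈ Finset.univ.filter (fun i => K c i = p c), F c i := by
      rw [Finset.sum_comm]
      refine Finset.sum_congr rfl (fun c _ => ?_)
      rw [Finset.sum_filter]
    rw [h1]
    refine (Finset.sum_le_sum (fun c _ => hB c (p c))).trans ?_
    simp
  set E1 : Finset ι := Finset.univ.filter (fun i => e i = 1) with hE1
  have hE1c : E1.card ≤ B := by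
    rcases E1.eq_empty_or_nonempty with h | ⟨i0, hi0⟩
    · rw [h]; simp
    · have hi0' : e i0 = 1 := (Finset.mem_filter.1 hi0).2
      -- two elements share the colour
      have hshare : ∀ i j, e i = 1 → e j = 1 → ∃ c, K c i = p c ∧ F c i = 1 ∧ K c j = p c ∧
          F c j = 1 := by
        intro i j hi hj
        obtain ⟨c, hc1, hc2⟩ := hcov i j
        by_cases h : K c i = p c
        · have hj' : K c j = p c := hc1 ▸ h
          have h1 := hle i c h
          have h2 := hle j c hj'
          exact ⟨c, h, by omega, hj', by omega⟩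
        · have hj' : K c j ≠ p c := fun h' => h (hc1.trans h')
          have h1 := hle i (g c) (hgK c i h)
          have h2 := hle j (g c) (hgK c j hj')
          have h3 := hgF c i h
          have h4 := hgF c j hj'
          exact ⟨g c, hgK c i h, by omega, hgK c j hj', by omega⟩
      obtain ⟨c0, hc0, hc0F, _, _⟩ := hshare i0 i0 hi0' hi0'
      have hall : ∀ j ∈ E1, K c0 j = p c0 ∧ F c0 j = 1 := by
        intro j hj
        obtain ⟨c, h1, h2, h3, h4⟩ := hshare i0 j hi0' (Finset.mem_filter.1 hj).2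
        have : c = c0 := by
          by_contra hne
          have := hle2 i0 c c0 hne h1 hc0
          omega
        subst this
        exact ⟨h3, h4⟩
      calc E1.card = ∑ i ∈ E1, F c0 i := by
            rw [Finset.sum_congr rfl (fun i hi => (hall i hi).2)]
            simp
        _ ≤ ∑ i ∈ Finset.univ.filter (fun i => K c0 i = p c0), F c0 i := by
            refine Finset.sum_le_sum_of_subset ?_
            intro i hi
            rw [Finset.mem_filter]
            exact ⟨Finset.mem_univ _, (hall i hi).1⟩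
        _ ≤ B := hB c0 (p c0)
  have hcnt : 2 * Fintype.card ι ≤ ∑ i, e i + E1.card := by
    have h1 : E1.card = ∑ i, (if e i = 1 then 1 else 0) := by
      rw [hE1, Finset.card_filter]
    rw [h1, ← Finset.sum_add_distrib]
    have h2 : 2 * Fintype.card ι = ∑ _i : ι, 2 := by simp [mul_comm]
    rw [h2]
    refine Finset.sum_le_sum (fun i _ => ?_)
    have := he1 i
    split_ifs with h
    · omega
    · omega
  omega

theorem exact3F2 {ι κ : Type*} [Fintype ι] (K : Fin 3 → ι → κ) (F : Fin 3 → ι → ℕ)
    (hF : ∀ c i, F c i ≤ 2) (hcov : ∀ i j, ∃ c, K c i = K c j ∧ 2 ≤ F c i + F c j) (B : ℕ)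
    (hB : ∀ c x, ∑ i ∈ Finset.univ.filter (fun i => K c i = x), F c i ≤ B)
    (p : Fin 3 → κ) (hp : ∀ i, ∀ c c', K c i ≠ p c → K c' i ≠ p c' → c = c') :
    Fintype.card ι ≤ 2 * B := by
  by_cases hc : ∃ a, ∀ b, b ≠ a → ∃ j, K a j ≠ p a ∧ F b j = 0
  · obtain ⟨a, ha⟩ := hc
    have main : ∀ b c : Fin 3, a ≠ b → a ≠ c → b ≠ c → (∀ x : Fin 3, x = a ∨ x = b ∨ x = c) →
        Fintype.card ι ≤ 2 * B := by
      intro b c hab hac hbc hall
      obtain ⟨j1, hj1, hF1⟩ := ha b hab.symm
      obtain ⟨j2, hj2, hF2⟩ := ha c hac.symm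
      exact exact3F2_case1 K F hF hcov B hB p hp a b c hab hac hbc hall j1 hj1 hF1 j2 hj2 hF2
    fin_cases a
    · exact main 1 2 (by decide) (by decide) (by decide) (by decide)
    · exact main 0 2 (by decide) (by decide) (by decide) (by decide)
    · exact main 0 1 (by decide) (by decide) (by decide) (by decide)
  · push Not at hc
    choose g hg hgF using hc
    exact exact3F2_case2 K F hcov B hB p hp g hg (fun a i hi => hgF a i hi)

end CRam
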