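import Mathlib

/-!
# CRam.Struct3 : pairwise intersecting triples
-/

namespace CRam

theorem struct3_aux {ι κ : Type*} (K0 K1 K2 : ι → κ)
    (h : ∀ i j, K0 i = K0 j ∨ K1 i = K1 j ∨ K2 i = K2 j) (x y z0 : ι)
    (h0 : K0 x = K0 y) (h1 : K1 x ≠ K1 y) (h2 : K2 x ≠ K2 y) (hz : K0 z0 ≠ K0 x) :
    (∃ p0 p1 p2, ∀ i, (K0 i = p0 ∧ K1 i = p1) ∨ (K0 i = p0 ∧ K2 i = p2) ∨
      (K1 i = p1 ∧ K2 i = p2)) ∨
    (∃ p0 p1 p2 q0 q1 q2, p0 ≠ q0 ∧ p1 ≠ q1 ∧ p2 ≠ q2 ∧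
      ∀ i, (K0 i = p0 ∧ K1 i = p1 ∧ K2 i = p2) ∨ (K0 i = p0 ∧ K1 i = q1 ∧ K2 i = q2) ∨
        (K0 i = q0 ∧ K1 i = p1 ∧ K2 i = q2) ∨ (K0 i = q0 ∧ K1 i = q1 ∧ K2 i = p2)) := by
  have key : ∀ z, K0 z ≠ K0 x →
      (K1 z = K1 x ∧ K2 z = K2 y) ∨ (K1 z = K1 y ∧ K2 z = K2 x) := by
    intro z hzx
    have e1 := h z x
    have e2 := h z y
    rw [← h0] at e2
    rcases e1 with e1 | e1 | e1
    · exact absurd e1 hzx
    · rcases e2 with e2 | e2 | e2
      · exact absurd e2 hzx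
      · exact absurd (e1.symm.trans e2) h1
      · exact Or.inl ⟨e1, e2⟩
    · rcases e2 with e2 | e2 | e2
      · exact absurd e2 hzx
      · exact Or.inr ⟨e2, e1⟩
      · exact absurd (e1.symm.trans e2) h2
  by_cases hA : ∃ z, K0 z ≠ K0 x ∧ K1 z = K1 x ∧ K2 z = K2 y
  · by_cases hB : ∃ z, K0 z ≠ K0 x ∧ K1 z = K1 y ∧ K2 z = K2 x
    · obtain ⟨z1, a1, a2, a3⟩ := hA
      obtain ⟨z2, b1, b2, b3⟩ := hB
      have e : K0 z1 = K0 z2 := by
        rcases h z1 z2 with e | e | e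
        · exact e
        · rw [a2, b2] at e; exact absurd e h1
        · rw [a3, b3] at e; exact absurd e.symm h2
      right
      refine ⟨K0 x, K1 x, K2 x, K0 z1, K1 y, K2 y, fun e' => a1 e'.symm, h1, h2, ?_⟩
      intro i
      by_cases hi : K0 i = K0 x
      · have e1 := h i z1
        have e2 := h i z2
        rw [a2, a3] at e1
        rw [b2, b3] at e2
        rcases e1 with e1 | e1 | e1
        · exact absurd (e1.symm.trans hi) a1
        · rcases e2 with e2 | e2 | e2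
          · exact absurd (e2.symm.trans hi) b1
          · exact absurd (e1.symm.trans e2) h1
          · exact Or.inl ⟨hi, e1, e2⟩
        · rcases e2 with e2 | e2 | e2
          · exact absurd (e2.symm.trans hi) b1
          · exact Or.inr (Or.inl ⟨hi, e2, e1⟩)
          · exact absurd (e2.symm.trans e1) h2
      · rcases key i hi with ⟨k1, k2⟩ | ⟨k1, k2⟩
        · have e2 := h i z2
          rw [b2, b3, k1, k2] at e2
          rcases e2 with e2 | e2 | e2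
          · exact Or.inr (Or.inr (Or.inl ⟨e2.trans e.symm, k1, k2⟩))
          · exact absurd e2 h1
          · exact absurd e2.symm h2
        · have e1 := h i z1
          rw [a2, a3, k1, k2] at e1
          rcases e1 with e1 | e1 | e1
          · exact Or.inr (Or.inr (Or.inr ⟨e1, k1, k2⟩))
          · exact absurd e1.symm h1
          · exact absurd e1 h2
    · obtain ⟨z1, a1, a2, a3⟩ := hA
      left
      refine ⟨K0 x, K1 x, K2 y, ?_⟩
      intro i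
      by_cases hi : K0 i = K0 x
      · rcases h i z1 with e1 | e1 | e1
        · exact absurd (e1.symm.trans hi) a1
        · exact Or.inl ⟨hi, e1.trans a2⟩
        · exact Or.inr (Or.inl ⟨hi, e1.trans a3⟩)
      · rcases key i hi with ⟨k1, k2⟩ | ⟨k1, k2⟩
        · exact Or.inr (Or.inr ⟨k1, k2⟩)
        · exact absurd ⟨i, hi, k1, k2⟩ hB
  · have hz' := key z0 hz
    rcases hz' with hz' | hz'
    · exact absurd ⟨z0, hz, hz'.1, hz'.2⟩ hA
    · left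
      refine ⟨K0 x, K1 y, K2 x, ?_⟩
      intro i
      by_cases hi : K0 i = K0 x
      · rcases h i z0 with e1 | e1 | e1
        · exact absurd (e1.symm.trans hi) hz
        · exact Or.inl ⟨hi, e1.trans hz'.1⟩
        · exact Or.inr (Or.inl ⟨hi, e1.trans hz'.2⟩)
      · rcases key i hi with ⟨k1, k2⟩ | ⟨k1, k2⟩
        · exact absurd ⟨i, hi, k1, k2⟩ hA
        · exact Or.inr (Or.inr ⟨k1, k2⟩)

/-- Some pair agrees in exactly one coordinate. -/
theorem struct3_pair {ι κ : Type*} (K0 K1 K2 : ι → κ)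
    (h : ∀ i j, K0 i = K0 j ∨ K1 i = K1 j ∨ K2 i = K2 j)
    (n0 : ∃ i j, K0 i ≠ K0 j) (n1 : ∃ i j, K1 i ≠ K1 j) :
    ∃ x y, (K0 x = K0 y ∧ K1 x ≠ K1 y ∧ K2 x ≠ K2 y) ∨
      (K0 x ≠ K0 y ∧ K1 x = K1 y ∧ K2 x ≠ K2 y) ∨
      (K0 x ≠ K0 y ∧ K1 x ≠ K1 y ∧ K2 x = K2 y) := by
  by_contra hcon
  push Not at hcon
  obtain ⟨x, z, hxz⟩ := n0
  obtain ⟨u, v, huv⟩ := n1
  have A : ∀ i j, K0 i ≠ K0 j → K1 i = K1 j := by
    intro i j hij
    by_contra h1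
    rcases h i j with e | e | e
    · exact hij e
    · exact h1 e
    · exact (hcon i j).2.2 hij h1 e
  have B : K0 u = K0 v := by
    by_contra h0
    exact huv (A u v h0)
  by_cases hx : K0 x = K0 u
  · have hz : K0 z ≠ K0 u := fun e => hxz (hx.trans e.symm)
    have e1 := A z u hz
    have e2 := A z v (fun e => hz (e.trans B.symm))
    exact huv (e1.symm.trans e2)
  · have e1 := A x u hx
    have e2 := A x v (fun e => hx (e.trans B.symm))
    exact huv (e1.symm.trans e2)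

theorem struct3 {ι κ : Type*} [Nonempty ι] (K : Fin 3 → ι → κ) (h : ∀ i j, ∃ c, K c i = K c j)
    (hn : ∀ c, ∃ i j, K c i ≠ K c j) :
    (∃ p : Fin 3 → κ, ∀ i, ∀ c c', K c i ≠ p c → K c' i ≠ p c' → c = c') ∨
    (∃ p p' : Fin 3 → κ, (∀ c, p c ≠ p' c) ∧
      ∀ i, (∀ c, K c i = p c) ∨ (∃ c0, K c0 i = p c0 ∧ ∀ c, c ≠ c0 → K c i = p' c)) := by
  have hh : ∀ i j, K 0 i = K 0 j ∨ K 1 i = K 1 j ∨ K 2 i = K 2 j := by
    intro i j
    obtain ⟨c, hc⟩ := h i j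
    fin_cases c
    · exact Or.inl hc
    · exact Or.inr (Or.inl hc)
    · exact Or.inr (Or.inr hc)
  -- conversion of the conclusion
  have conv1 : (∃ p0 p1 p2, ∀ i, (K 0 i = p0 ∧ K 1 i = p1) ∨ (K 0 i = p0 ∧ K 2 i = p2) ∨
      (K 1 i = p1 ∧ K 2 i = p2)) →
      (∃ p : Fin 3 → κ, ∀ i, ∀ c c', K c i ≠ p c → K c' i ≠ p c' → c = c') := by
    rintro ⟨p0, p1, p2, hp⟩
    refine ⟨![p0, p1, p2], ?_⟩
    intro i c c'
    have := hp i
    fin_cases c <;> fin_cases c' <;> simp <;> tauto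
  have conv2 : (∃ p0 p1 p2 q0 q1 q2, p0 ≠ q0 ∧ p1 ≠ q1 ∧ p2 ≠ q2 ∧
      ∀ i, (K 0 i = p0 ∧ K 1 i = p1 ∧ K 2 i = p2) ∨ (K 0 i = p0 ∧ K 1 i = q1 ∧ K 2 i = q2) ∨
        (K 0 i = q0 ∧ K 1 i = p1 ∧ K 2 i = q2) ∨ (K 0 i = q0 ∧ K 1 i = q1 ∧ K 2 i = p2)) →
      (∃ p p' : Fin 3 → κ, (∀ c, p c ≠ p' c) ∧
      ∀ i, (∀ c, K c i = p c) ∨ (∃ c0, K c0 i = p c0 ∧ ∀ c, c ≠ c0 → K c i = p' c)) := by
    rintro ⟨p0, p1, p2, q0, q1, q2, h0, h1, h2, hp⟩
    refine ⟨![p0, p1, p2], ![q0, q1, q2], ?_, ?_⟩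
    · intro c
      fin_cases c
      · exact h0
      · exact h1
      · exact h2
    · intro i
      rcases hp i with ⟨a, b, c⟩ | ⟨a, b, c⟩ | ⟨a, b, c⟩ | ⟨a, b, c⟩
      · left
        intro d; fin_cases d
        · exact a
        · exact b
        · exact c
      · right
        refine ⟨0, a, ?_⟩
        intro d hd; fin_cases d
        · exact absurd rfl hd
        · exact b
        · exact c
      · right
        refine ⟨1, b, ?_⟩
        intro d hd; fin_cases d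
        · exact a
        · exact absurd rfl hd
        · exact c
      · right
        refine ⟨2, c, ?_⟩
        intro d hd; fin_cases d
        · exact a
        · exact b
        · exact absurd rfl hd
  obtain ⟨x, y, hxy⟩ := struct3_pair (K 0) (K 1) (K 2) hh (hn 0) (hn 1)
  have hz : ∀ c, ∃ z, K c z ≠ K c x := by
    intro c
    by_contra hcon
    push Not at hcon
    obtain ⟨i, j, hij⟩ := hn c
    exact hij ((hcon i).trans (hcon j).symm)
  rcases hxy with ⟨a, b, c⟩ | ⟨a, b, c⟩ | ⟨a, b, c⟩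
  · obtain ⟨z0, hz0⟩ := hz 0
    rcases struct3_aux (K 0) (K 1) (K 2) hh x y z0 a b c hz0 with r | r
    · exact Or.inl (conv1 r)
    · exact Or.inr (conv2 r)
  · obtain ⟨z0, hz0⟩ := hz 1
    rcases struct3_aux (K 1) (K 0) (K 2) (fun i j => by have := hh i j; tauto) x y z0 b a c hz0
      with ⟨p1, p0, p2, r⟩ | ⟨p1, p0, p2, q1, q0, q2, r1, r0, r2, r⟩
    · exact Or.inl (conv1 ⟨p0, p1, p2, fun i => by have := r i; tauto⟩)
    · refine Or.inr (conv2 ⟨p0, p1, p2, q0, q1, q2, r0, r1, r2, fun i => ?_⟩)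
      rcases r i with ⟨e1, e2, e3⟩ | ⟨e1, e2, e3⟩ | ⟨e1, e2, e3⟩ | ⟨e1, e2, e3⟩
      · exact Or.inl ⟨e2, e1, e3⟩
      · exact Or.inr (Or.inr (Or.inl ⟨e2, e1, e3⟩))
      · exact Or.inr (Or.inl ⟨e2, e1, e3⟩)
      · exact Or.inr (Or.inr (Or.inr ⟨e2, e1, e3⟩))
  · obtain ⟨z0, hz0⟩ := hz 2
    rcases struct3_aux (K 2) (K 0) (K 1) (fun i j => by have := hh i j; tauto) x y z0 c a b hz0
      with ⟨p2, p0, p1, r⟩ | ⟨p2, p0, p1, q2, q0, q1, r2, r0, r1, r⟩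
    · exact Or.inl (conv1 ⟨p0, p1, p2, fun i => by have := r i; tauto⟩)
    · refine Or.inr (conv2 ⟨p0, p1, p2, q0, q1, q2, r0, r1, r2, fun i => ?_⟩)
      rcases r i with ⟨e1, e2, e3⟩ | ⟨e1, e2, e3⟩ | ⟨e1, e2, e3⟩ | ⟨e1, e2, e3⟩
      · exact Or.inl ⟨e2, e3, e1⟩
      · exact Or.inr (Or.inr (Or.inr ⟨e2, e3, e1⟩))
      · exact Or.inr (Or.inl ⟨e2, e3, e1⟩)
      · exact Or.inr (Or.inr (Or.inl ⟨e2, e3, e1⟩))

end CRam
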