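import Mathlib
import Pool.Agent.Lib.CRam.ExactM
import Pool.Agent.Lib.CRam.Exact2
import Pool.Agent.Lib.CRam.Struct3
import Pool.Agent.Lib.CRam.Exact3F2
import Pool.Agent.Lib.CRam.Exact3F1

/-!
# CRam.Exact3 : the three-coloured exact inequality (total labels)
-/

open Classical

namespace CRam

theorem exact3_const {ι κ : Type*} [Fintype ι] (K1 K2 : ι → κ) (F1 F2 F3 : ι → ℕ)
    (h1 : ∀ i, F1 i ≤ 2) (h2 : ∀ i, F2 i ≤ 2) (h3 : ∀ i, F3 i ≤ 2)
    (hcov : ∀ i j, (K1 i = K1 j ∧ 2 ≤ F1 i + F1 j) ∨ (K2 i = K2 j ∧ 2 ≤ F2 i + F2 j) ∨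
      2 ≤ F3 i + F3 j) (B : ℕ)
    (hB1 : ∀ x, ∑ i ∈ Finset.univ.filter (fun i => K1 i = x), F1 i ≤ B)
    (hB2 : ∀ x, ∑ i ∈ Finset.univ.filter (fun i => K2 i = x), F2 i ≤ B)
    (hB3 : ∑ i, F3 i ≤ B) : Fintype.card ι ≤ 2 * B := by
  set R : Finset ι := Finset.univ.filter (fun i => F3 i = 0) with hR
  set Y : Finset ι := Finset.univ.filter (fun i => F3 i = 1) with hY
  set X : Finset ι := Finset.univ.filter (fun i => F3 i = 2) with hX
  have hcard : Fintype.card ι = R.card + Y.card + X.card := by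
    rw [← Finset.card_univ, Finset.card_eq_sum_ones]
    have : ∀ i ∈ (Finset.univ : Finset ι), 1 =
        (if F3 i = 0 then 1 else 0) + (if F3 i = 1 then 1 else 0) + (if F3 i = 2 then 1 else 0) := by
      intro i _
      have := h3 i
      interval_cases F3 i <;> simp
    rw [Finset.sum_congr rfl this, Finset.sum_add_distrib, Finset.sum_add_distrib]
    simp [hR, hY, hX]
  have hsum : Y.card + 2 * X.card ≤ B := by
    refine le_trans (le_of_eq ?_) hB3
    have : ∀ i ∈ (Finset.univ : Finset ι), F3 i =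
        (if F3 i = 1 then 1 else 0) + (if F3 i = 2 then 2 else 0) := by
      intro i _
      have := h3 i
      interval_cases F3 i <;> simp
    rw [Finset.sum_congr rfl this, Finset.sum_add_distrib]
    rw [← Finset.sum_filter, ← Finset.sum_filter]
    simp [hY, hX, mul_comm]
  have hd : Disjoint R Y := by
    rw [Finset.disjoint_left]
    intro i hi hi'
    rw [hR, Finset.mem_filter] at hi
    rw [hY, Finset.mem_filter] at hi'
    omega
  have hcov2 : ∀ i ∈ R, ∀ j ∈ R ∪ Y,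
      (K1 i = K1 j ∧ 2 ≤ F1 i + F1 j) ∨ (K2 i = K2 j ∧ 2 ≤ F2 i + F2 j) := by
    intro i hi j hj
    rw [hR, Finset.mem_filter] at hi
    have hj' : F3 j ≤ 1 := by
      rw [Finset.mem_union, hR, hY, Finset.mem_filter, Finset.mem_filter] at hj
      omega
    rcases hcov i j with h | h | h
    · exact Or.inl h
    · exact Or.inr h
    · omega
  have := exact2 K1 K2 F1 F2 h1 h2 R Y hd hcov2 B
    (fun x => le_trans (Finset.sum_le_sum_of_subset
      (Finset.filter_subset_filter _ (Finset.subset_univ _))) (hB1 x))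
    (fun x => le_trans (Finset.sum_le_sum_of_subset
      (Finset.filter_subset_filter _ (Finset.subset_univ _))) (hB2 x)) (by omega)
  omega

theorem exact3 {ι κ : Type*} [Fintype ι] (K : Fin 3 → ι → κ) (F : Fin 3 → ι → ℕ)
    (hF : ∀ c i, F c i ≤ 2) (hcov : ∀ i j, ∃ c, K c i = K c j ∧ 2 ≤ F c i + F c j) (B : ℕ)
    (hB : ∀ c x, ∑ i ∈ Finset.univ.filter (fun i => K c i = x), F c i ≤ B) :
    Fintype.card ι ≤ 2 * B := by
  rcases isEmpty_or_nonempty ι with hι | hι
  · simp
  have hcov' : ∀ i j, (K 0 i = K 0 j ∧ 2 ≤ F 0 i + F 0 j) ∨ (K 1 i = K 1 j ∧ 2 ≤ F 1 i + F 1 j) ∨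
      (K 2 i = K 2 j ∧ 2 ≤ F 2 i + F 2 j) := by
    intro i j
    obtain ⟨c, hc⟩ := hcov i j
    fin_cases c
    · exact Or.inl hc
    · exact Or.inr (Or.inl hc)
    · exact Or.inr (Or.inr hc)
  by_cases hn : ∀ c, ∃ i j, K c i ≠ K c j
  · rcases struct3 K (fun i j => by
      obtain ⟨c, hc⟩ := hcov i j
      exact ⟨c, hc.1⟩) hn with ⟨p, hp⟩ | ⟨p, p', hpp, hp⟩
    · exact exact3F2 K F hF hcov B hB p hp
    · exact exact3F1 K F hF hcov B hB p p' hpp hp
  · push Not at hn
    obtain ⟨c, hc⟩ := hn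
    have hconst : ∑ i, F c i ≤ B := by
      obtain ⟨i0⟩ := hι
      have := hB c (K c i0)
      rwa [Finset.filter_true_of_mem (fun i _ => hc i i0)] at this
    fin_cases c
    · exact exact3_const (K 1) (K 2) (F 1) (F 2) (F 0) (hF 1) (hF 2) (hF 0) (fun i j => by
        rcases hcov' i j with h | h | h
        · exact Or.inr (Or.inr h.2)
        · exact Or.inl h
        · exact Or.inr (Or.inl h)) B (hB 1) (hB 2) hconst
    · exact exact3_const (K 0) (K 2) (F 0) (F 2) (F 1) (hF 0) (hF 2) (hF 1) (fun i j => by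
        rcases hcov' i j with h | h | h
        · exact Or.inl h
        · exact Or.inr (Or.inr h.2)
        · exact Or.inr (Or.inl h)) B (hB 0) (hB 2) hconst
    · exact exact3_const (K 0) (K 1) (F 0) (F 1) (F 2) (hF 0) (hF 1) (hF 2) (fun i j => by
        rcases hcov' i j with h | h | h
        · exact Or.inl h
        · exact Or.inr (Or.inl h)
        · exact Or.inr (Or.inr h.2)) B (hB 0) (hB 1) hconst

end CRam
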