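import Mathlib
import Pool.Agent.Lib.CRam.Defs
import Pool.Agent.Lib.CRam.Exact2
import Pool.Agent.Lib.CRam.Exact3

/-!
# CRam.ExactW : the four exact bounds with optional labels

Sketch. None → unique label: replace `κ` by `κ ⊕ ι`, `K' c i = inl x` if `K c i = some x`,
`inr i` otherwise, `F' c i = F c i` if `(K c i).isSome` and `0` otherwise. This is a system with
total labels, still all pairs are covered, component sums `≤ B`. Hence `exactBound_2_1` from
`exact2` (with `Y = ∅`) and `exactBound_3_1` from `exact3`.
In a fully covered system every `i` has `lab K i ≥ 1`.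

`exactBound_2_w` (weights `2` for `lab = 1`, `1` for `lab = 2`): if no `i` has `lab = 1`, use
`exactBound_2_1`. Otherwise let `i0` have a label only in colour `c` (other colour `c'`). All `i` are
covered with `i0` by `c`, so all have the label `x` of `i0` in colour `c`. If some `i0` with `lab = 1`
has `F c i0 = 1`, then `F c ≥ 1` everywhere, `|ι| ≤ B`, total weight `≤ 2B`. Otherwise all elements
with `lab = 1` have `F c = 2`. Let `x1` be their number, `y_j` the number of elements with
`lab = 2`, `F c = j`. `2 x1 + y1 + 2 y2 ≤ B`; the elements with `F c = 0` are pairwise (and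
with themselves) covered by colour `c'`: same label and `F c' ≥ 1`, so `y0 ≤ B`. Total weight
`2 x1 + y0 + y1 + y2 ≤ 2B`.

`exactBound_3_w` (weights `4, 2, 1` for `lab = 1, 2, 3`): if no `i` has `lab = 1`, total weight
`≤ 2|ι| ≤ 4B` by `exactBound_3_1`. Otherwise let `i0` have only colour `c`; all `i` have the same
label `x` in colour `c`. If some `i0` with `lab = 1` has `F c i0 = 1`, then `|ι| ≤ B`. Otherwise all
elements with `lab = 1` have `F c = 2`; the elements with `F c ≥ 1` and `lab ≥ 2` have weight
`≤ 2`; so the elements with `F c ≥ 1` have total weight `≤ 2 ∑ F c ≤ 2B`. The elements with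
`F c = 0` are pairwise covered by the two other colours, with `lab' = lab - 1 ∈ {1, 2}` labels there
and weight `2^(3 - lab) = 2^(2 - lab')`: by `exactBound_2_w` (applied to the subtype) total weight
`≤ 2B`.
-/

open Classical

namespace CRam

/-- every label made total -/
def wK {k : ℕ} {ι κ : Type} (K : Fin k → ι → Option κ) (c : Fin k) (i : ι) : κ ⊕ ι :=
  match K c i with
  | some x => Sum.inl x
  | none => Sum.inr i

/-- weights put to zero where there is no label -/
def wF {k : ℕ} {ι κ : Type} (K : Fin k → ι → Option κ) (F : Fin k → ι → ℕ) (c : Fin k) (i : ι) :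
    ℕ :=
  match K c i with
  | some _ => F c i
  | none => 0

theorem wK_inl {k : ℕ} {ι κ : Type} (K : Fin k → ι → Option κ) (c : Fin k) (i : ι) (x : κ) :
    wK K c i = Sum.inl x ↔ K c i = some x := by
  unfold wK
  cases h : K c i <;> simp

theorem wK_inr {k : ℕ} {ι κ : Type} (K : Fin k → ι → Option κ) (c : Fin k) (i j : ι) :
    wK K c i = Sum.inr j → K c i = none := by
  unfold wK
  cases h : K c i <;> simp

theorem wF_le {k : ℕ} {ι κ : Type} (K : Fin k → ι → Option κ) (F : Fin k → ι → ℕ)
    (h : ∀ c i, F c i ≤ 2) (c : Fin k) (i : ι) : wF K F c i ≤ 2 := by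
  unfold wF
  split
  · exact h c i
  · omega

theorem w_cov {k : ℕ} {ι κ : Type} (K : Fin k → ι → Option κ) (F : Fin k → ι → ℕ)
    {i j : ι} (h : Cov K F i j) : ∃ c, wK K c i = wK K c j ∧ 2 ≤ wF K F c i + wF K F c j := by
  obtain ⟨c, x, h1, h2, h3⟩ := h
  exact ⟨c, by simp [wK, h1, h2], by simpa [wF, h1, h2] using h3⟩

theorem w_sum {k : ℕ} {ι κ : Type} [Fintype ι] (K : Fin k → ι → Option κ) (F : Fin k → ι → ℕ)
    (B : ℕ) (hB : ∀ c x, ∑ i ∈ Finset.univ.filter (fun i => K c i = some x), F c i ≤ B)
    (c : Fin k) (y : κ ⊕ ι) :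
    ∑ i ∈ Finset.univ.filter (fun i => wK K c i = y), wF K F c i ≤ B := by
  rcases y with x | j
  · refine le_trans (le_of_eq ?_) (hB c x)
    have : Finset.univ.filter (fun i => wK K c i = Sum.inl x) =
        Finset.univ.filter (fun i => K c i = some x) := by
      ext i
      simp only [Finset.mem_filter, Finset.mem_univ, true_and, wK_inl]
    rw [this]
    apply Finset.sum_congr rfl
    intro i hi
    simp only [Finset.mem_filter, Finset.mem_univ, true_and] at hi
    simp [wF, hi]
  · have : ∑ i ∈ Finset.univ.filter (fun i => wK K c i = Sum.inr j), wF K F c i = 0 := by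
      apply Finset.sum_eq_zero
      intro i hi
      simp only [Finset.mem_filter, Finset.mem_univ, true_and] at hi
      have := wK_inr K c i j hi
      simp [wF, this]
    omega

theorem exactBound_2_1 : ExactBound 2 (fun _ => 1) 2 3 := by
  intro ι κ _ K F hF hcov B hB
  have h := exact2 (wK K 0) (wK K 1) (wF K F 0) (wF K F 1) (wF_le K F hF 0) (wF_le K F hF 1)
    Finset.univ ∅ (by simp)
    (by
      intro i _ j _
      obtain ⟨c, hc⟩ := w_cov K F (hcov i j)
      fin_cases c
      · exact Or.inl hc
      · exact Or.inr hc) B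
    (by
      intro x
      refine le_trans (le_of_eq ?_) (w_sum K F B hB 0 x)
      rw [Finset.union_empty]
      refine Finset.sum_congr ?_ (fun _ _ => rfl)
      ext i; simp only [Finset.mem_filter])
    (by
      intro x
      refine le_trans (le_of_eq ?_) (w_sum K F B hB 1 x)
      rw [Finset.union_empty]
      refine Finset.sum_congr ?_ (fun _ _ => rfl)
      ext i; simp only [Finset.mem_filter]) (by simp)
  simpa using h

theorem exactBound_3_1 : ExactBound 3 (fun _ => 1) 1 2 := by
  intro ι κ _ K F hF hcov B hB
  have h := exact3 (wK K) (wF K F) (fun c i => wF_le K F hF c i) (fun i j => w_cov K F (hcov i j)) B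
    (fun c x => by
      refine le_trans (le_of_eq ?_) (w_sum K F B hB c x)
      refine Finset.sum_congr ?_ (fun _ _ => rfl)
      ext i; simp only [Finset.mem_filter])
  simpa using h

theorem lab_pos {k : ℕ} {ι κ : Type} (K : Fin k → ι → Option κ) (F : Fin k → ι → ℕ) {i : ι}
    (h : Cov K F i i) : 1 ≤ lab K i := by
  obtain ⟨c, x, h1, -, -⟩ := h
  unfold lab
  apply Finset.card_pos.2
  exact ⟨c, by simp [h1]⟩

theorem lab_eq {k : ℕ} {ι κ : Type} (K : Fin (k + 1) → ι → Option κ) (c : Fin (k + 1)) {i : ι}
    (h : (K c i).isSome) : lab K i = lab (fun d => K (c.succAbove d)) i + 1 := by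
  unfold lab
  rw [Finset.card_filter, Finset.card_filter, Fin.sum_univ_succAbove _ c, if_pos h]
  ring

theorem lab_one {k : ℕ} {ι κ : Type} (K : Fin k → ι → Option κ) {i : ι} (h : lab K i = 1)
    {c d : Fin k} (hc : (K c i).isSome) (hd : (K d i).isSome) : c = d := by
  unfold lab at h
  obtain ⟨a, ha⟩ := Finset.card_eq_one.1 h
  have h1 : c ∈ Finset.univ.filter (fun c : Fin k => (K c i).isSome) := by simp [hc]
  have h2 : d ∈ Finset.univ.filter (fun c : Fin k => (K c i).isSome) := by simp [hd]
  rw [ha] at h1 h2
  rw [Finset.mem_singleton.1 h1, Finset.mem_singleton.1 h2]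

theorem exactBound_1_w : ExactBound 1 (fun s => 2 ^ (1 - s)) 1 1 := by
  intro ι κ _ K F hF hcov B hB
  rcases isEmpty_or_nonempty ι with h | ⟨⟨i0⟩⟩
  · simp
  · obtain ⟨c, x, h1, -, -⟩ := hcov i0 i0
    have hc0 : ∀ c : Fin 1, c = 0 := fun c => Subsingleton.elim _ _
    rw [hc0 c] at h1
    have hall : ∀ i, K 0 i = some x := by
      intro i
      obtain ⟨d, y, h3, h4, _⟩ := hcov i0 i
      rw [hc0 d] at h3 h4
      rw [h4, ← h3, h1]
    have hF1 : ∀ i, 1 ≤ F 0 i := by
      intro i
      obtain ⟨d, y, _, _, h5⟩ := hcov i i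
      rw [hc0 d] at h5
      omega
    have hb := hB 0 x
    rw [Finset.filter_true_of_mem (fun i _ => hall i)] at hb
    simp only [one_mul]
    refine le_trans (Finset.sum_le_sum (fun i _ => ?_)) hb
    have := lab_pos K F (hcov i i)
    have h6 : 1 - lab K i = 0 := by omega
    rw [h6, pow_zero]
    exact hF1 i

theorem step_w (m : ℕ) (hk : ExactBound (m + 1) (fun s => 2 ^ (m + 1 - s)) 1 (2 ^ m))
    (h1 : ExactBound (m + 2) (fun _ => 1) 1 2) :
    ExactBound (m + 2) (fun s => 2 ^ (m + 2 - s)) 1 (2 ^ (m + 1)) := by
  intro ι κ _ K F hF hcov B hB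
  have hlab : ∀ i, 1 ≤ lab K i := fun i => lab_pos K F (hcov i i)
  have hwle : ∀ i, 2 ^ (m + 2 - lab K i) ≤ 2 ^ (m + 1) := fun i =>
    Nat.pow_le_pow_right (by norm_num) (by have := hlab i; omega)
  rw [one_mul]
  by_cases hA : ∀ i, 2 ≤ lab K i
  · have hc := h1 ι κ K F hF hcov B hB
    simp only [one_mul, Finset.sum_const, Finset.card_univ, smul_eq_mul, mul_one] at hc
    calc ∑ i, 2 ^ (m + 2 - lab K i) ≤ ∑ i : ι, 2 ^ m :=
          Finset.sum_le_sum (fun i _ => Nat.pow_le_pow_right (by norm_num)
            (by have := hA i; omega))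
      _ = Fintype.card ι * 2 ^ m := by simp
      _ ≤ (2 * B) * 2 ^ m := Nat.mul_le_mul_right _ hc
      _ = 2 ^ (m + 1) * B := by ring
  · push Not at hA
    obtain ⟨i0, hi0⟩ := hA
    have hi0' : lab K i0 = 1 := by have := hlab i0; omega
    obtain ⟨c, x, hcx, -, -⟩ := hcov i0 i0
    have hall : ∀ i j, lab K i = 1 → K c j = some x ∧ 2 ≤ F c i + F c j := by
      have hx0 : ∀ j, K c j = some x := by
        intro j
        obtain ⟨d, y, h3, h4, _⟩ := hcov i0 j
        have : d = c := lab_one K hi0' (by simp [h3]) (by simp [hcx])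
        subst this
        rw [h4, ← h3, hcx]
      intro i j hi
      refine ⟨hx0 j, ?_⟩
      obtain ⟨d, y, h3, h4, h5⟩ := hcov i j
      have : d = c := lab_one K hi (by simp [h3]) (by simp [hx0 i])
      subst this
      exact h5
    have hx0 : ∀ j, K c j = some x := fun j => (hall i0 j hi0').1
    have hb := hB c x
    rw [Finset.filter_true_of_mem (fun i _ => hx0 i)] at hb
    by_cases hB1 : ∃ i, lab K i = 1 ∧ F c i ≤ 1
    · obtain ⟨i, hi, hi2⟩ := hB1
      have hge : ∀ j, 1 ≤ F c j := fun j => by
        have := (hall i j hi).2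
        omega
      calc ∑ i, 2 ^ (m + 2 - lab K i) ≤ ∑ i : ι, 2 ^ (m + 1) * F c i :=
            Finset.sum_le_sum (fun j _ => by
              calc 2 ^ (m + 2 - lab K j) ≤ 2 ^ (m + 1) * 1 := by rw [mul_one]; exact hwle j
                _ ≤ 2 ^ (m + 1) * F c j := Nat.mul_le_mul_left _ (hge j))
        _ = 2 ^ (m + 1) * ∑ i : ι, F c i := by rw [Finset.mul_sum]
        _ ≤ 2 ^ (m + 1) * B := Nat.mul_le_mul_left _ hb
    · push Not at hB1
      have hsplit : ∑ i, 2 ^ (m + 2 - lab K i) =
          ∑ i ∈ Finset.univ.filter (fun i => F c i = 0), 2 ^ (m + 2 - lab K i) +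
          ∑ i ∈ Finset.univ.filter (fun i => ¬ F c i = 0), 2 ^ (m + 2 - lab K i) :=
        (Finset.sum_filter_add_sum_filter_not _ _ _).symm
      have hbig : ∑ i ∈ Finset.univ.filter (fun i => ¬ F c i = 0), 2 ^ (m + 2 - lab K i) ≤
          2 ^ m * B := by
        calc ∑ i ∈ Finset.univ.filter (fun i => ¬ F c i = 0), 2 ^ (m + 2 - lab K i)
            ≤ ∑ i ∈ Finset.univ.filter (fun i => ¬ F c i = 0), 2 ^ m * F c i := by
              apply Finset.sum_le_sum
              intro i hi
              simp only [Finset.mem_filter, Finset.mem_univ, true_and] at hi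
              by_cases h7 : lab K i = 1
              · have h8 := hB1 i h7
                have h9 := hF c i
                have h10 : F c i = 2 := by omega
                rw [h7, h10]
                have : m + 2 - 1 = m + 1 := by omega
                rw [this, pow_succ]
              · have h8 := hlab i
                calc 2 ^ (m + 2 - lab K i) ≤ 2 ^ m :=
                      Nat.pow_le_pow_right (by norm_num) (by omega)
                  _ = 2 ^ m * 1 := (mul_one _).symm
                  _ ≤ 2 ^ m * F c i := Nat.mul_le_mul_left _ (Nat.pos_of_ne_zero hi)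
          _ ≤ ∑ i, 2 ^ m * F c i :=
              Finset.sum_le_sum_of_subset (Finset.filter_subset _ _)
          _ = 2 ^ m * ∑ i, F c i := by rw [Finset.mul_sum]
          _ ≤ 2 ^ m * B := Nat.mul_le_mul_left _ hb
      have hzero : ∑ i ∈ Finset.univ.filter (fun i => F c i = 0), 2 ^ (m + 2 - lab K i) ≤
          2 ^ m * B := by
        let S := {i : ι // F c i = 0}
        have hk' := hk S κ (fun d i => K (c.succAbove d) i.1) (fun d i => F (c.succAbove d) i.1)
          (fun d i => hF _ _)
          (by
            rintro ⟨i, hi⟩ ⟨j, hj⟩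
            obtain ⟨d, y, h3, h4, h5⟩ := hcov i j
            have hdc : d ≠ c := by
              rintro rfl
              omega
            obtain ⟨d', rfl⟩ := Fin.exists_succAbove_eq hdc
            exact ⟨d', y, h3, h4, h5⟩) B
          (by
            intro d y
            refine le_trans ?_ (hB (c.succAbove d) y)
            have e : ∑ i ∈ Finset.univ.filter (fun i : S => K (c.succAbove d) i.1 = some y),
                F (c.succAbove d) i.1 = ∑ i ∈ (Finset.univ.filter
                (fun i : S => K (c.succAbove d) i.1 = some y)).map (Function.Embedding.subtype _),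
                F (c.succAbove d) i := by
              rw [Finset.sum_map]; rfl
            rw [e]
            apply Finset.sum_le_sum_of_subset
            intro i hi
            simp only [Finset.mem_map, Finset.mem_filter, Finset.mem_univ, true_and,
              Function.Embedding.coe_subtype] at hi ⊢
            obtain ⟨a, ha, rfl⟩ := hi
            exact ha)
        rw [one_mul] at hk'
        refine le_trans (le_of_eq ?_) hk'
        rw [← Finset.sum_subtype_eq_sum_filter]
        apply Finset.sum_congr
        · ext i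
          simp
        · intro i _
          have h11 : lab K i.1 = lab (fun d (i : S) => K (c.succAbove d) i.1) i + 1 := by
            rw [lab_eq K c (by simp [hx0])]
            rfl
          have h12 : m + 2 - lab K i.1 = m + 1 - lab (fun d (i : S) => K (c.succAbove d) i.1) i := by
            rw [h11]; omega
          rw [h12]
      calc ∑ i, 2 ^ (m + 2 - lab K i) ≤ 2 ^ m * B + 2 ^ m * B := by
            rw [hsplit]; exact Nat.add_le_add hzero hbig
        _ = 2 ^ (m + 1) * B := by ring

theorem exactBound_2_w : ExactBound 2 (fun s => 2 ^ (2 - s)) 1 2 := by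
  refine step_w 0 exactBound_1_w ?_
  intro ι κ _ K F hF hcov B hB
  have := exactBound_2_1 ι κ K F hF hcov B hB
  omega

theorem exactBound_3_w : ExactBound 3 (fun s => 2 ^ (3 - s)) 1 4 :=
  step_w 1 exactBound_2_w exactBound_3_1

end CRam
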