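import Mathlib
import Pool.Agent.Lib.CRam.Defs

/-!
# CRam.Prob1 : first moment bound for `G(N,p)`

Sketch.
* `gnpProb_true`: encode graphs by their edge sets. `G ↦ G.edgeFinset` is a bijection from
  `SimpleGraph (Fin N)` to subsets of the set `E` of the `N.choose 2` non-diagonal elements of
  `Sym2 (Fin N)` (inverse `SimpleGraph.fromEdgeSet`); then `Finset.sum_pow_mul_eq_add_pow`.
* `gnpProb_no_edge`: for disjoint `A`, `B`, the event that there is no edge between `A` and `B`
  means that the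
  edge set is a subset of `E \ E(A,B)`, where `E(A,B)` = image of `A ×ˢ B` has `|A||B|` elements; so
  the sum is `(1-p)^{|A||B|} * (p + (1-p))^{...}`.
* union bound over the `≤ 4 ^ N` pairs `(A, B)`; `N ≤ Q * |A|` gives `N / Q ≤ |A|` so
  `(1-p)^{|A||B|} ≤ (1-p)^((N/Q)^2)`.
-/

open Classical

namespace CRam

theorem prob1_weight_nonneg (N : ℕ) (p : ℝ) (hp0 : 0 ≤ p) (hp1 : p ≤ 1)
    (G : SimpleGraph (Fin N)) :
    0 ≤ p ^ G.edgeFinset.card * (1 - p) ^ (N.choose 2 - G.edgeFinset.card) :=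
  mul_nonneg (pow_nonneg hp0 _) (pow_nonneg (by linarith) _)

theorem gnpProb_nonneg (N : ℕ) (p : ℝ) (hp0 : 0 ≤ p) (hp1 : p ≤ 1)
    (E : SimpleGraph (Fin N) → Prop) : 0 ≤ gnpProb N p E := by
  refine Finset.sum_nonneg fun G _ => ?_
  split_ifs
  · exact prob1_weight_nonneg N p hp0 hp1 G
  · exact le_rfl

theorem gnpProb_mono (N : ℕ) (p : ℝ) (hp0 : 0 ≤ p) (hp1 : p ≤ 1)
    (E E' : SimpleGraph (Fin N) → Prop) (h : ∀ G, E G → E' G) : gnpProb N p E ≤ gnpProb N p E' := by
  refine Finset.sum_le_sum fun G _ => ?_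
  by_cases h1 : E G
  · rw [if_pos h1, if_pos (h G h1)]
  · rw [if_neg h1]
    split_ifs
    · exact prob1_weight_nonneg N p hp0 hp1 G
    · exact le_rfl

theorem prob1_mem {V : Type*} (G : SimpleGraph V) (inst : Fintype G.edgeSet) (e : Sym2 V) :
    e ∈ @SimpleGraph.edgeFinset V G inst ↔ e ∈ G.edgeSet :=
  SimpleGraph.mem_edgeFinset

theorem prob1_no_set (N : ℕ) (p : ℝ) (S : Finset (Sym2 (Fin N)))
    (hS : S ⊆ (⊤ : SimpleGraph (Fin N)).edgeFinset) :
    gnpProb N p (fun G => Disjoint G.edgeFinset S) = (1 - p) ^ S.card := by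
  set E : Finset (Sym2 (Fin N)) := (⊤ : SimpleGraph (Fin N)).edgeFinset with hE
  have hEcard : E.card = N.choose 2 := by
    rw [hE, SimpleGraph.card_edgeFinset_top_eq_card_choose_two, Fintype.card_fin]
  have h1 : gnpProb N p (fun G => Disjoint G.edgeFinset S) =
      ∑ T ∈ (E \ S).powerset, p ^ T.card * (1 - p) ^ (N.choose 2 - T.card) := by
    have h0 : gnpProb N p (fun G => Disjoint G.edgeFinset S) =
        ∑ G ∈ Finset.univ.filter (fun G : SimpleGraph (Fin N) => Disjoint G.edgeFinset S),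
          p ^ G.edgeFinset.card * (1 - p) ^ (N.choose 2 - G.edgeFinset.card) := by
      rw [Finset.sum_filter]
      unfold gnpProb
      refine Finset.sum_congr rfl fun G _ => ?_
      by_cases h : Disjoint G.edgeFinset S
      · rw [if_pos h, if_pos h]
      · rw [if_neg h, if_neg h]
    rw [h0]
    refine Finset.sum_bij' (fun G _ => G.edgeFinset)
      (fun T _ => SimpleGraph.fromEdgeSet (T : Set (Sym2 (Fin N)))) ?_ ?_ ?_ ?_ ?_
    · intro G hG
      rw [Finset.mem_filter] at hG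
      rw [Finset.mem_powerset]
      intro e he
      rw [Finset.mem_sdiff]
      refine ⟨?_, Finset.disjoint_left.1 hG.2 he⟩
      exact SimpleGraph.edgeFinset_mono le_top he
    · intro T hT
      rw [Finset.mem_powerset] at hT
      rw [Finset.mem_filter]
      refine ⟨Finset.mem_univ _, ?_⟩
      rw [Finset.disjoint_left]
      intro e he heS
      have he' := (prob1_mem _ _ e).1 he
      rw [SimpleGraph.edgeSet_fromEdgeSet] at he'
      have h2 := hT (Finset.mem_coe.1 he'.1)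
      exact (Finset.mem_sdiff.1 h2).2 heS
    · intro G _
      ext a b
      rw [SimpleGraph.fromEdgeSet_adj]
      constructor
      · rintro ⟨h2, _⟩
        simpa using h2
      · intro h2
        exact ⟨by simpa using h2, h2.ne⟩
    · intro T hT
      rw [Finset.mem_powerset] at hT
      ext e
      refine Iff.trans (prob1_mem _ _ e) ?_
      rw [SimpleGraph.edgeSet_fromEdgeSet]
      constructor
      · intro he
        exact Finset.mem_coe.1 he.1
      · intro he
        refine ⟨Finset.mem_coe.2 he, ?_⟩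
        have h2 := (Finset.mem_sdiff.1 (hT he)).1
        rw [hE, SimpleGraph.mem_edgeFinset] at h2
        exact SimpleGraph.not_isDiag_of_mem_edgeSet _ h2
    · intro G _
      rfl
  rw [h1]
  have h2 : ∀ T ∈ (E \ S).powerset, p ^ T.card * (1 - p) ^ (N.choose 2 - T.card) =
      (1 - p) ^ S.card * (p ^ T.card * (1 - p) ^ ((E \ S).card - T.card)) := by
    intro T hT
    rw [Finset.mem_powerset] at hT
    have h3 : (E \ S).card = E.card - S.card := Finset.card_sdiff_of_subset hS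
    have h4 := Finset.card_le_card hT
    have h5 := Finset.card_le_card hS
    have h6 : N.choose 2 - T.card = S.card + ((E \ S).card - T.card) := by omega
    rw [h6, pow_add]
    ring
  rw [Finset.sum_congr rfl h2, ← Finset.mul_sum, Finset.sum_pow_mul_eq_add_pow]
  simp

theorem gnpProb_no_edge (N : ℕ) (p : ℝ) (A B : Finset (Fin N)) (hd : Disjoint A B) :
    gnpProb N p (fun G => ∀ a ∈ A, ∀ b ∈ B, ¬ G.Adj a b) = (1 - p) ^ (A.card * B.card) := by
  set S : Finset (Sym2 (Fin N)) := (A ×ˢ B).image (fun q => s(q.1, q.2)) with hSdef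
  have hne : ∀ a ∈ A, ∀ b ∈ B, a ≠ b := fun a ha b hb h =>
    Finset.disjoint_left.1 hd ha (h ▸ hb)
  have hcard : S.card = A.card * B.card := by
    rw [hSdef, Finset.card_image_of_injOn, Finset.card_product]
    rintro ⟨a, b⟩ hab ⟨a', b'⟩ hab' h
    simp only [Finset.coe_product, Set.mem_prod, Finset.mem_coe] at hab hab'
    rcases Sym2.eq_iff.1 h with ⟨h1, h2⟩ | ⟨h1, h2⟩
    · exact Prod.ext h1 h2
    · exact absurd h1 (hne a hab.1 b' hab'.2)
  have hsub : S ⊆ (⊤ : SimpleGraph (Fin N)).edgeFinset := by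
    intro e he
    rw [hSdef, Finset.mem_image] at he
    obtain ⟨⟨a, b⟩, hab, rfl⟩ := he
    rw [Finset.mem_product] at hab
    rw [SimpleGraph.mem_edgeFinset, SimpleGraph.mem_edgeSet, SimpleGraph.top_adj]
    exact hne a hab.1 b hab.2
  rw [← hcard, ← prob1_no_set N p S hsub]
  congr 1
  funext G
  apply propext
  rw [Finset.disjoint_left]
  constructor
  · intro h e he heS
    rw [hSdef, Finset.mem_image] at heS
    obtain ⟨⟨a, b⟩, hab, rfl⟩ := heS
    rw [Finset.mem_product] at hab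
    rw [SimpleGraph.mem_edgeFinset, SimpleGraph.mem_edgeSet] at he
    exact h a hab.1 b hab.2 he
  · intro h a ha b hb hab
    refine h (SimpleGraph.mem_edgeFinset.2 ((SimpleGraph.mem_edgeSet _).2 hab)) ?_
    rw [hSdef, Finset.mem_image]
    exact ⟨(a, b), Finset.mem_product.2 ⟨ha, hb⟩, rfl⟩

theorem gnpProb_true (N : ℕ) (p : ℝ) : gnpProb N p (fun _ => True) = 1 := by
  have h := gnpProb_no_edge N p ∅ ∅ (Finset.disjoint_empty_left _)
  simpa using h

theorem gnpProb_not (N : ℕ) (p : ℝ) (E : SimpleGraph (Fin N) → Prop) :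
    gnpProb N p (fun G => ¬ E G) = 1 - gnpProb N p E := by
  rw [← gnpProb_true N p, eq_sub_iff_add_eq]
  unfold gnpProb
  rw [← Finset.sum_add_distrib]
  refine Finset.sum_congr rfl fun G _ => ?_
  by_cases h : E G
  · simp [h]
  · simp [h]

theorem prob1_union (N : ℕ) (p : ℝ) (hp0 : 0 ≤ p) (hp1 : p ≤ 1) {I : Type*} (P : Finset I)
    (E : I → SimpleGraph (Fin N) → Prop) (E₀ : SimpleGraph (Fin N) → Prop)
    (h : ∀ G, E₀ G → ∃ i ∈ P, E i G) :
    gnpProb N p E₀ ≤ ∑ i ∈ P, gnpProb N p (E i) := by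
  unfold gnpProb
  rw [Finset.sum_comm]
  refine Finset.sum_le_sum fun G _ => ?_
  have hw := prob1_weight_nonneg N p hp0 hp1 G
  have hnn : ∀ i ∈ P, 0 ≤ (if E i G then
      p ^ G.edgeFinset.card * (1 - p) ^ (N.choose 2 - G.edgeFinset.card) else 0) := by
    intro q _
    split_ifs
    · exact hw
    · exact le_rfl
  by_cases hJ : E₀ G
  · rw [if_pos hJ]
    obtain ⟨i, hi, hE⟩ := h G hJ
    refine le_trans ?_ (Finset.single_le_sum hnn hi)
    rw [if_pos hE]
  · rw [if_neg hJ]
    exact Finset.sum_nonneg hnn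

theorem gnpProb_not_joined_le (N Q : ℕ) (hQ : 1 ≤ Q) (p : ℝ) (hp0 : 0 ≤ p) (hp1 : p ≤ 1) :
    gnpProb N p (fun G => ¬ Joined Q G) ≤ 4 ^ N * (1 - p) ^ ((N / Q) ^ 2) := by
  set P : Finset (Finset (Fin N) × Finset (Fin N)) :=
    Finset.univ.filter (fun q => Disjoint q.1 q.2 ∧ N ≤ Q * q.1.card ∧ N ≤ Q * q.2.card) with hP
  have h1 : gnpProb N p (fun G => ¬ Joined Q G) ≤
      ∑ q ∈ P, gnpProb N p (fun G => ∀ a ∈ q.1, ∀ b ∈ q.2, ¬ G.Adj a b) := by
    refine prob1_union N p hp0 hp1 P _ _ fun G hJ => ?_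
    unfold Joined at hJ
    push Not at hJ
    obtain ⟨A, B, hd, hA, hB, hno⟩ := hJ
    refine ⟨(A, B), ?_, hno⟩
    rw [hP, Finset.mem_filter]
    exact ⟨Finset.mem_univ _, hd, hA, hB⟩
  refine h1.trans ?_
  have h2 : ∀ q ∈ P, gnpProb N p (fun G => ∀ a ∈ q.1, ∀ b ∈ q.2, ¬ G.Adj a b) ≤
      (1 - p) ^ ((N / Q) ^ 2) := by
    intro q hq
    rw [hP, Finset.mem_filter] at hq
    obtain ⟨_, hd, hA, hB⟩ := hq
    rw [gnpProb_no_edge N p q.1 q.2 hd]
    refine pow_le_pow_of_le_one (by linarith) (by linarith) ?_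
    rw [pow_two]
    exact Nat.mul_le_mul (Nat.div_le_of_le_mul hA) (Nat.div_le_of_le_mul hB)
  refine (Finset.sum_le_sum h2).trans ?_
  rw [Finset.sum_const, nsmul_eq_mul]
  refine mul_le_mul_of_nonneg_right ?_ (pow_nonneg (by linarith) _)
  have h3 : P.card ≤ 4 ^ N := by
    refine (Finset.card_le_univ P).trans ?_
    rw [Fintype.card_prod, Fintype.card_finset, Fintype.card_fin, ← mul_pow]
    norm_num
  exact_mod_cast h3

end CRam
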