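import Mathlib
import Pool.Agent.Lib.CRam.Defs
import Pool.Agent.Lib.CRam.Prob1

/-!
# CRam.Prob2 : `G(⌊c n⌋, p)` is joined at level `1/Q` a.a.s. when `p n → ∞`

Sketch. With `N = ⌊c n⌋₊`, `4 ^ N * (1 - p) ^ ((N / Q) ^ 2) ≤ exp (N log 4 - p (N/Q)^2)`, and
`N / Q ≥ N / (2Q)` (real) for `N ≥ 2 Q`, so the exponent is `≤ N (log 4 - p N / (4 Q^2)) → -∞` since
`p N ≥ p (c n - 1) → ∞`. So `gnpProb (¬ Joined) → 0`, use `gnpProb_not`, squeeze.
-/

open Classical Filter Topology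

namespace CRam

theorem prob2_bound (N Q : ℕ) (hQ : 1 ≤ Q) (p : ℝ) (hp0 : 0 ≤ p) (hp1 : p ≤ 1) (hN : Q ≤ N)
    (hpN : 4 * (Q : ℝ) ^ 2 * (Real.log 4 + 1) ≤ p * N) :
    gnpProb N p (fun G => ¬ Joined Q G) ≤ Real.exp (-(N : ℝ)) := by
  refine (gnpProb_not_joined_le N Q hQ p hp0 hp1).trans ?_
  have hQ' : (0 : ℝ) < Q := by exact_mod_cast hQ
  have h1 : (4 : ℝ) ^ N = Real.exp (N * Real.log 4) := by
    rw [mul_comm, Real.exp_mul, Real.exp_log (by norm_num), Real.rpow_natCast]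
  have h2 : (1 - p) ^ ((N / Q) ^ 2) ≤ Real.exp (-(p * ((N / Q : ℕ) : ℝ) ^ 2)) := by
    have h3 : 1 - p ≤ Real.exp (-p) := Real.one_sub_le_exp_neg p
    refine (pow_le_pow_left₀ (by linarith) h3 _).trans ?_
    rw [← Real.exp_nat_mul]
    apply Real.exp_le_exp.2
    push_cast
    nlinarith
  have h4 : (N : ℝ) / (2 * Q) ≤ ((N / Q : ℕ) : ℝ) := by
    have h5 : (N : ℝ) < Q * (((N / Q : ℕ) : ℝ) + 1) := by
      have := Nat.lt_mul_div_succ N (Nat.pos_of_ne_zero (by omega) : 0 < Q)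
      exact_mod_cast this
    have h6 : (1 : ℝ) ≤ ((N / Q : ℕ) : ℝ) := by
      have : 1 ≤ N / Q := (Nat.one_le_div_iff (by omega)).2 hN
      exact_mod_cast this
    rw [div_le_iff₀ (by positivity)]
    nlinarith
  have h7 : ((N : ℝ) / (2 * Q)) ^ 2 ≤ ((N / Q : ℕ) : ℝ) ^ 2 :=
    pow_le_pow_left₀ (by positivity) h4 2
  calc 4 ^ N * (1 - p) ^ ((N / Q) ^ 2)
      ≤ Real.exp (N * Real.log 4) * Real.exp (-(p * ((N / Q : ℕ) : ℝ) ^ 2)) := by
        rw [h1]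
        exact mul_le_mul_of_nonneg_left h2 (Real.exp_nonneg _)
    _ = Real.exp (N * Real.log 4 + -(p * ((N / Q : ℕ) : ℝ) ^ 2)) := (Real.exp_add _ _).symm
    _ ≤ Real.exp (-(N : ℝ)) := by
        apply Real.exp_le_exp.2
        have h8 : p * ((N : ℝ) / (2 * Q)) ^ 2 ≤ p * ((N / Q : ℕ) : ℝ) ^ 2 :=
          mul_le_mul_of_nonneg_left h7 hp0
        have h9 : (N : ℝ) * (Real.log 4 + 1) ≤ p * ((N : ℝ) / (2 * Q)) ^ 2 := by
          have h10 : p * ((N : ℝ) / (2 * Q)) ^ 2 = N * ((p * N) / (4 * (Q : ℝ) ^ 2)) := by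
            field_simp
            ring
          rw [h10]
          refine mul_le_mul_of_nonneg_left ?_ (Nat.cast_nonneg N)
          rw [le_div_iff₀ (by positivity)]
          linarith
        linarith

theorem tendsto_joined (c : ℝ) (hc : 0 < c) (p : ℕ → ℝ) (hp : ∀ n, 0 < p n ∧ p n ≤ 1)
    (hpn : Tendsto (fun n : ℕ => p n * n) atTop atTop) (Q : ℕ) (hQ : 1 ≤ Q) :
    Tendsto (fun n : ℕ => gnpProb ⌊c * n⌋₊ (p n) (fun G => Joined Q G)) atTop (𝓝 1) := by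
  have hN : Tendsto (fun n : ℕ => ⌊c * (n : ℝ)⌋₊) atTop atTop :=
    tendsto_nat_floor_atTop.comp (tendsto_natCast_atTop_atTop.const_mul_atTop hc)
  have hpN : Tendsto (fun n : ℕ => p n * (⌊c * (n : ℝ)⌋₊ : ℝ)) atTop atTop := by
    have h1 : Tendsto (fun n : ℕ => c * (p n * n) + (-1)) atTop atTop :=
      tendsto_atTop_add_const_right _ _ (hpn.const_mul_atTop hc)
    refine tendsto_atTop_mono (fun n => ?_) h1
    have h2 : c * (n : ℝ) < (⌊c * (n : ℝ)⌋₊ : ℝ) + 1 := Nat.lt_floor_add_one _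
    have h3 := (hp n).1
    have h4 := (hp n).2
    nlinarith
  have h0 : Tendsto (fun n : ℕ => gnpProb ⌊c * n⌋₊ (p n) (fun G => ¬ Joined Q G)) atTop (𝓝 0) := by
    have hexp : Tendsto (fun n : ℕ => Real.exp (-((⌊c * (n : ℝ)⌋₊ : ℕ) : ℝ))) atTop (𝓝 0) :=
      Real.tendsto_exp_neg_atTop_nhds_zero.comp (tendsto_natCast_atTop_atTop.comp hN)
    refine squeeze_zero' (Eventually.of_forall fun n =>
      gnpProb_nonneg _ _ (hp n).1.le (hp n).2 _) ?_ hexp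
    filter_upwards [hN.eventually_ge_atTop Q, hpN.eventually_ge_atTop
      (4 * (Q : ℝ) ^ 2 * (Real.log 4 + 1))] with n h1 h2
    exact prob2_bound _ Q hQ (p n) (hp n).1.le (hp n).2 h1 h2
  have h1 : (fun n : ℕ => gnpProb ⌊c * n⌋₊ (p n) (fun G => Joined Q G)) =
      fun n : ℕ => 1 - gnpProb ⌊c * n⌋₊ (p n) (fun G => ¬ Joined Q G) := by
    funext n
    rw [gnpProb_not]
    ring
  rw [h1]
  simpa using h0.const_sub 1

/-- The form used at the end: an event implied by joinedness for all large `n`. -/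
theorem tendsto_of_joined (c : ℝ) (hc : 0 < c) (p : ℕ → ℝ) (hp : ∀ n, 0 < p n ∧ p n ≤ 1)
    (hpn : Tendsto (fun n : ℕ => p n * n) atTop atTop) (Q N0 : ℕ) (hQ : 1 ≤ Q)
    (E : ∀ n : ℕ, SimpleGraph (Fin ⌊c * (n : ℝ)⌋₊) → Prop)
    (hE : ∀ n ≥ N0, ∀ G : SimpleGraph (Fin ⌊c * (n : ℝ)⌋₊), Joined Q G → E n G) :
    Tendsto (fun n : ℕ => gnpProb ⌊c * n⌋₊ (p n) (E n)) atTop (𝓝 1) := by
  refine tendsto_of_tendsto_of_tendsto_of_le_of_le' (tendsto_joined c hc p hp hpn Q hQ)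
    tendsto_const_nhds ?_ ?_
  · filter_upwards [eventually_ge_atTop N0] with n hn
    exact gnpProb_mono _ _ (hp n).1.le (hp n).2 _ _ (hE n hn)
  · refine Eventually.of_forall fun n => ?_
    rw [← gnpProb_true ⌊c * n⌋₊ (p n)]
    exact gnpProb_mono _ _ (hp n).1.le (hp n).2 _ _ (fun _ _ => trivial)

end CRam
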