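import Mathlib

/-!
# CRam.Sample : a good random sample exists

Sketch. Let `X = Fin n → ι` (uniform), `A = |ι|`. `|X| = A^n`. Count the bad functions.
1. Some `a ≠ b` with `(f a, f b) ∈ Bad`: at most `n^2 * |Bad| * A^(n-2) ≤ n^2 ε A^n` functions.
2. For a function `h : ι → ℝ` with `∑ h = 0`: `∑_{f ∈ X} (∑_a h (f a))^2 = n A^(n-1) ∑ h^2`
   (expand the square; the off-diagonal terms vanish). So by Chebyshev the number of `f` with
   `|∑_a h (f a)| ≥ n δ` is at most `A^(n-1) (∑ h^2) / (n δ^2)`.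
   For `h = g j - avg (g j)`: `∑ h^2 ≤ ∑ (g j)^2 ≤ 2 ∑ g j`; sum over `j`: `≤ 2 G A`. So at most
   `2 G A^n / (n δ^2)` functions violate some `j`. For `h = W - avg W`: `∑ h^2 ≤ ∑ W^2 ≤ Wm^2 A`.
The total is less than `A^n` by `hsmall`, so a good `f` exists.
-/

open Classical

namespace CRam

theorem sample_pi {ι : Type*} [Fintype ι] (n : ℕ) (F : Fin n → ι → ℝ) :
    ∑ f : Fin n → ι, ∏ a, F a (f a) = ∏ a, ∑ i, F a i := by
  rw [Finset.prod_univ_sum]
  simp

theorem sample_one {ι : Type*} [Fintype ι] [Nonempty ι] (n : ℕ) (u : ι → ℝ) (a : Fin n) :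
    ∑ f : Fin n → ι, u (f a) =
      (Fintype.card ι : ℝ) ^ n * ((∑ i, u i) / Fintype.card ι) := by
  have hA : (Fintype.card ι : ℝ) ≠ 0 := by positivity
  have h := sample_pi n (fun c i => if c = a then u i else (1 : ℝ)) (ι := ι)
  have h1 : ∀ f : Fin n → ι, ∏ c, (if c = a then u (f c) else (1 : ℝ)) = u (f a) := by
    intro f
    rw [Finset.prod_ite_eq' Finset.univ a (fun c => u (f c))]
    simp
  have h2 : ∀ c : Fin n, ∑ i, (if c = a then u i else (1 : ℝ)) =
      (Fintype.card ι : ℝ) * (if c = a then (∑ i, u i) / Fintype.card ι else 1) := by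
    intro c
    split_ifs with hc
    · field_simp
    · simp
  simp only [h1, h2] at h
  rw [h, Finset.prod_mul_distrib, Finset.prod_ite_eq' Finset.univ a]
  simp

theorem sample_two {ι : Type*} [Fintype ι] [Nonempty ι] (n : ℕ) (u v : ι → ℝ) (a b : Fin n)
    (hab : a ≠ b) :
    ∑ f : Fin n → ι, u (f a) * v (f b) =
      (Fintype.card ι : ℝ) ^ n *
        (((∑ i, u i) / Fintype.card ι) * ((∑ i, v i) / Fintype.card ι)) := by
  have hA : (Fintype.card ι : ℝ) ≠ 0 := by positivity
  have h := sample_pi n (fun c i => (if c = a then u i else (1 : ℝ)) *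
    (if c = b then v i else (1 : ℝ))) (ι := ι)
  have h1 : ∀ f : Fin n → ι, ∏ c, ((if c = a then u (f c) else (1 : ℝ)) *
      (if c = b then v (f c) else (1 : ℝ))) = u (f a) * v (f b) := by
    intro f
    rw [Finset.prod_mul_distrib, Finset.prod_ite_eq' Finset.univ a (fun c => u (f c)),
      Finset.prod_ite_eq' Finset.univ b (fun c => v (f c))]
    simp
  have h2 : ∀ c : Fin n, ∑ i, ((if c = a then u i else (1 : ℝ)) *
      (if c = b then v i else (1 : ℝ))) =
      (Fintype.card ι : ℝ) * ((if c = a then (∑ i, u i) / Fintype.card ι else 1) *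
        (if c = b then (∑ i, v i) / Fintype.card ι else 1)) := by
    intro c
    by_cases hc : c = a
    · have hcb : c ≠ b := fun h => hab (hc.symm.trans h)
      simp only [if_pos hc, if_neg hcb, mul_one]
      field_simp
    · by_cases hcb : c = b
      · simp only [if_neg hc, if_pos hcb, one_mul]
        field_simp
      · simp [if_neg hc, if_neg hcb]
  simp only [h1, h2] at h
  rw [h, Finset.prod_mul_distrib, Finset.prod_mul_distrib, Finset.prod_ite_eq' Finset.univ a,
    Finset.prod_ite_eq' Finset.univ b]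
  simp

theorem sample_sq {ι : Type*} [Fintype ι] [Nonempty ι] (n : ℕ) (h : ι → ℝ) (hh : ∑ i, h i = 0) :
    ∑ f : Fin n → ι, (∑ a, h (f a)) ^ 2 =
      n * ((Fintype.card ι : ℝ) ^ n * ((∑ i, h i ^ 2) / Fintype.card ι)) := by
  have h1 : ∀ f : Fin n → ι, (∑ a, h (f a)) ^ 2 = ∑ a, ∑ b, h (f a) * h (f b) := by
    intro f
    rw [sq, Finset.sum_mul_sum]
  simp only [h1]
  rw [Finset.sum_comm]
  have h2 : ∀ a : Fin n, ∑ f : Fin n → ι, ∑ b, h (f a) * h (f b) =
      (Fintype.card ι : ℝ) ^ n * ((∑ i, h i ^ 2) / Fintype.card ι) := by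
    intro a
    rw [Finset.sum_comm]
    rw [Finset.sum_eq_single a]
    · have := sample_one n (fun i => h i * h i) a (ι := ι)
      rw [this]
      simp only [sq]
    · intro b _ hb
      rw [sample_two n h h a b (Ne.symm hb), hh]
      simp
    · simp
  simp only [h2]
  simp

/-- centring a function decreases the sum of squares -/
theorem sample_centre {ι : Type*} [Fintype ι] [Nonempty ι] (g : ι → ℝ) :
    ∑ i, (g i - (∑ i, g i) / Fintype.card ι) ^ 2 ≤ ∑ i, g i ^ 2 := by
  have hA : (0 : ℝ) < Fintype.card ι := by positivity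
  set m := (∑ i, g i) / Fintype.card ι with hm
  have hs : ∑ i, g i = m * Fintype.card ι := by rw [hm]; field_simp
  have : ∑ i, (g i - m) ^ 2 = ∑ i, g i ^ 2 - m ^ 2 * Fintype.card ι := by
    have : ∀ i, (g i - m) ^ 2 = g i ^ 2 - 2 * m * g i + m ^ 2 := fun i => by ring
    simp only [this]
    rw [Finset.sum_add_distrib, Finset.sum_sub_distrib, ← Finset.mul_sum, hs]
    simp
    ring
  rw [this]
  nlinarith [sq_nonneg m, mul_nonneg (sq_nonneg m) hA.le]

theorem sample_centre_sum {ι : Type*} [Fintype ι] [Nonempty ι] (g : ι → ℝ) :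
    ∑ i, (g i - (∑ i, g i) / Fintype.card ι) = 0 := by
  have hA : (Fintype.card ι : ℝ) ≠ 0 := by positivity
  rw [Finset.sum_sub_distrib]
  simp
  field_simp
  simp

/-- second moment of the deviation -/
theorem sample_dev {ι : Type*} [Fintype ι] [Nonempty ι] (n : ℕ) (g : ι → ℝ) :
    ∑ f : Fin n → ι, (∑ a, g (f a) - n * ((∑ i, g i) / Fintype.card ι)) ^ 2 ≤
      n * ((Fintype.card ι : ℝ) ^ n * ((∑ i, g i ^ 2) / Fintype.card ι)) := by
  have h := sample_sq n (fun i => g i - (∑ i, g i) / Fintype.card ι) (sample_centre_sum g)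
  have h1 : ∀ f : Fin n → ι, ∑ a, (g (f a) - (∑ i, g i) / Fintype.card ι) =
      ∑ a, g (f a) - n * ((∑ i, g i) / Fintype.card ι) := by
    intro f
    rw [Finset.sum_sub_distrib]
    simp
  simp only [h1] at h
  rw [h]
  have := sample_centre g
  gcongr

theorem sample_bad {ι : Type*} [Fintype ι] [Nonempty ι] (n : ℕ) (Bad : Finset (ι × ι))
    (a b : Fin n) (hab : a ≠ b) :
    ∑ f : Fin n → ι, (if (f a, f b) ∈ Bad then (1 : ℝ) else 0) =
      (Fintype.card ι : ℝ) ^ n * (Bad.card / (Fintype.card ι : ℝ) ^ 2) := by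
  have h1 : ∀ f : Fin n → ι, (if (f a, f b) ∈ Bad then (1 : ℝ) else 0) =
      ∑ p ∈ Bad, (if f a = p.1 then (1 : ℝ) else 0) * (if f b = p.2 then 1 else 0) := by
    intro f
    have : ∀ p : ι × ι, (if f a = p.1 then (1 : ℝ) else 0) * (if f b = p.2 then 1 else 0) =
        if (f a, f b) = p then 1 else 0 := by
      intro p
      by_cases h1 : f a = p.1 <;> by_cases h2 : f b = p.2 <;> simp [h1, h2, Prod.ext_iff]
    simp only [this]
    rw [Finset.sum_ite_eq]
  simp only [h1]
  rw [Finset.sum_comm]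
  have h2 : ∀ p : ι × ι, ∑ f : Fin n → ι,
      (if f a = p.1 then (1 : ℝ) else 0) * (if f b = p.2 then 1 else 0) =
      (Fintype.card ι : ℝ) ^ n * ((1 / Fintype.card ι) * (1 / Fintype.card ι)) := by
    intro p
    have := sample_two n (fun i => if i = p.1 then (1 : ℝ) else 0)
      (fun i => if i = p.2 then (1 : ℝ) else 0) a b hab
    rw [this]
    simp
  simp only [h2]
  rw [Finset.sum_const, nsmul_eq_mul]
  have hA : (Fintype.card ι : ℝ) ≠ 0 := by positivity
  field_simp

theorem sample {ι J : Type*} [Fintype ι] [Nonempty ι] [Fintype J] (g : J → ι → ℝ) (W : ι → ℝ)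
    (Bad : Finset (ι × ι)) (n : ℕ) (G Wm ε δ : ℝ)
    (hg0 : ∀ j i, 0 ≤ g j i) (hg2 : ∀ j i, g j i ≤ 2) (hG : ∀ i, ∑ j, g j i ≤ G)
    (hW0 : ∀ i, 0 ≤ W i) (hW : ∀ i, W i ≤ Wm)
    (hBad : (Bad.card : ℝ) ≤ ε * (Fintype.card ι : ℝ) ^ 2) (hδ : 0 < δ) (hn : 1 ≤ n)
    (hsmall : (n : ℝ) ^ 2 * ε + 2 * G / (n * δ ^ 2) + Wm ^ 2 / (n * δ ^ 2) < 1) :
    ∃ f : Fin n → ι, (∀ a b, a ≠ b → (f a, f b) ∉ Bad) ∧
      (∀ j, ∑ a, g j (f a) ≤ n * ((∑ i, g j i) / Fintype.card ι + δ)) ∧
      n * ((∑ i, W i) / Fintype.card ι - δ) ≤ ∑ a, W (f a) := by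
  by_contra hcon
  push Not at hcon
  have hA : (0 : ℝ) < Fintype.card ι := by positivity
  have hnpos : (0 : ℝ) < n := by exact_mod_cast hn
  set A : ℝ := (Fintype.card ι : ℝ) with hAdef
  have hnd : 0 < (n * δ) ^ 2 := by positivity
  have hε : (Bad.card : ℝ) / A ^ 2 ≤ ε := by
    rw [div_le_iff₀ (by positivity)]; exact hBad
  -- pointwise bound
  have hpt : ∀ f : Fin n → ι, (1 : ℝ) ≤
      (∑ a, ∑ b, if a = b then (0 : ℝ) else (if (f a, f b) ∈ Bad then 1 else 0)) +
      (∑ j, (∑ a, g j (f a) - n * ((∑ i, g j i) / A)) ^ 2) / (n * δ) ^ 2 +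
      (∑ a, W (f a) - n * ((∑ i, W i) / A)) ^ 2 / (n * δ) ^ 2 := by
    intro f
    have t1 : 0 ≤ (∑ a, ∑ b, if a = b then (0 : ℝ) else (if (f a, f b) ∈ Bad then 1 else 0)) :=
      Finset.sum_nonneg fun a _ => Finset.sum_nonneg fun b _ => by split_ifs <;> simp
    have t2 : 0 ≤ (∑ j, (∑ a, g j (f a) - n * ((∑ i, g j i) / A)) ^ 2) / (n * δ) ^ 2 :=
      div_nonneg (Finset.sum_nonneg fun j _ => sq_nonneg _) hnd.le
    have t3 : 0 ≤ (∑ a, W (f a) - n * ((∑ i, W i) / A)) ^ 2 / (n * δ) ^ 2 :=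
      div_nonneg (sq_nonneg _) hnd.le
    by_cases hb : ∃ a b, a ≠ b ∧ (f a, f b) ∈ Bad
    · obtain ⟨a, b, hab, hm⟩ := hb
      have : (1 : ℝ) ≤ (∑ a, ∑ b, if a = b then (0 : ℝ) else
          (if (f a, f b) ∈ Bad then 1 else 0)) := by
        calc (1 : ℝ) = (if a = b then (0 : ℝ) else (if (f a, f b) ∈ Bad then 1 else 0)) := by
              rw [if_neg hab, if_pos hm]
          _ ≤ ∑ b, (if a = b then (0 : ℝ) else (if (f a, f b) ∈ Bad then 1 else 0)) :=
              Finset.single_le_sum (f := fun b => (if a = b then (0 : ℝ) else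
                (if (f a, f b) ∈ Bad then 1 else 0)))
                (fun b _ => by split_ifs <;> simp) (Finset.mem_univ b)
          _ ≤ _ := Finset.single_le_sum (f := fun a => ∑ b, (if a = b then (0 : ℝ) else
                (if (f a, f b) ∈ Bad then 1 else 0)))
                (fun a _ => Finset.sum_nonneg fun b _ => by split_ifs <;> simp)
                (Finset.mem_univ a)
      linarith
    · push Not at hb
      by_cases hj : ∃ j, n * ((∑ i, g j i) / A + δ) < ∑ a, g j (f a)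
      · obtain ⟨j, hj⟩ := hj
        have : (1 : ℝ) ≤ (∑ j, (∑ a, g j (f a) - n * ((∑ i, g j i) / A)) ^ 2) /
            (n * δ) ^ 2 := by
          rw [le_div_iff₀ hnd, one_mul]
          calc (n * δ) ^ 2 ≤ (∑ a, g j (f a) - n * ((∑ i, g j i) / A)) ^ 2 := by
                apply pow_le_pow_left₀ (by positivity)
                have : n * ((∑ i, g j i) / A + δ) = n * ((∑ i, g j i) / A) + n * δ := by ring
                linarith
            _ ≤ _ := Finset.single_le_sum
                (f := fun j => (∑ a, g j (f a) - n * ((∑ i, g j i) / A)) ^ 2)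
                (fun j _ => sq_nonneg _) (Finset.mem_univ j)
        linarith
      · push Not at hj
        have h3 := hcon f hb hj
        have : (1 : ℝ) ≤ (∑ a, W (f a) - n * ((∑ i, W i) / A)) ^ 2 / (n * δ) ^ 2 := by
          rw [le_div_iff₀ hnd, one_mul]
          have e : n * ((∑ i, W i) / A - δ) = n * ((∑ i, W i) / A) - n * δ := by ring
          have : n * δ ≤ n * ((∑ i, W i) / A) - ∑ a, W (f a) := by linarith
          calc (n * δ) ^ 2 ≤ (n * ((∑ i, W i) / A) - ∑ a, W (f a)) ^ 2 :=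
                pow_le_pow_left₀ (by positivity) this 2
            _ = _ := by ring
        linarith
  -- sum over `f`
  have hsum := Finset.sum_le_sum fun (f : Fin n → ι) (_ : f ∈ Finset.univ) => hpt f
  rw [Finset.sum_add_distrib, Finset.sum_add_distrib] at hsum
  have hone : ∑ f : Fin n → ι, (1 : ℝ) = A ^ n := by simp [hAdef]
  rw [hone] at hsum
  have hAn : 0 < A ^ n := by positivity
  -- first term
  have b1 : ∑ f : Fin n → ι,
      (∑ a, ∑ b, if a = b then (0 : ℝ) else (if (f a, f b) ∈ Bad then 1 else 0)) ≤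
      n ^ 2 * (A ^ n * ε) := by
    rw [Finset.sum_comm]
    have : ∀ a : Fin n, ∑ f : Fin n → ι,
        (∑ b, if a = b then (0 : ℝ) else (if (f a, f b) ∈ Bad then 1 else 0)) ≤
        n * (A ^ n * ε) := by
      intro a
      rw [Finset.sum_comm]
      have : ∀ b : Fin n, ∑ f : Fin n → ι,
          (if a = b then (0 : ℝ) else (if (f a, f b) ∈ Bad then 1 else 0)) ≤ A ^ n * ε := by
        intro b
        have hε0 : 0 ≤ ε := le_trans (by positivity) hε
        by_cases hab : a = b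
        · simp only [if_pos hab]
          simp
          positivity
        · simp only [if_neg hab]
          rw [sample_bad n Bad a b hab]
          gcongr
      calc _ ≤ ∑ b : Fin n, A ^ n * ε := Finset.sum_le_sum fun b _ => this b
        _ = n * (A ^ n * ε) := by simp
    calc _ ≤ ∑ a : Fin n, n * (A ^ n * ε) := Finset.sum_le_sum fun a _ => this a
      _ = _ := by simp; ring
  -- second term
  have b2 : ∑ f : Fin n → ι, (∑ j, (∑ a, g j (f a) - n * ((∑ i, g j i) / A)) ^ 2) /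
      (n * δ) ^ 2 ≤ n * (A ^ n * (2 * G)) / (n * δ) ^ 2 := by
    rw [← Finset.sum_div]
    gcongr
    rw [Finset.sum_comm]
    calc _ ≤ ∑ j, n * (A ^ n * ((∑ i, g j i ^ 2) / A)) :=
          Finset.sum_le_sum fun j _ => sample_dev n (g j)
      _ = n * (A ^ n * ((∑ j, ∑ i, g j i ^ 2) / A)) := by
          rw [← Finset.mul_sum, ← Finset.mul_sum, Finset.sum_div]
      _ ≤ n * (A ^ n * (2 * G)) := by
          gcongr
          rw [div_le_iff₀ hA, Finset.sum_comm]
          calc _ ≤ ∑ i : ι, 2 * G := by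
                apply Finset.sum_le_sum
                intro i _
                calc ∑ j, g j i ^ 2 ≤ ∑ j, 2 * g j i :=
                      Finset.sum_le_sum fun j _ => by nlinarith [hg0 j i, hg2 j i]
                  _ = 2 * ∑ j, g j i := by rw [Finset.mul_sum]
                  _ ≤ 2 * G := by linarith [hG i]
            _ = _ := by simp [hAdef]; ring
  -- third term
  have b3 : ∑ f : Fin n → ι, (∑ a, W (f a) - n * ((∑ i, W i) / A)) ^ 2 / (n * δ) ^ 2 ≤
      n * (A ^ n * Wm ^ 2) / (n * δ) ^ 2 := by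
    rw [← Finset.sum_div]
    gcongr
    refine le_trans (sample_dev n W) ?_
    gcongr
    rw [div_le_iff₀ hA]
    calc ∑ i, W i ^ 2 ≤ ∑ i : ι, Wm ^ 2 :=
          Finset.sum_le_sum fun i _ => pow_le_pow_left₀ (hW0 i) (hW i) 2
      _ = _ := by simp [hAdef]; ring
  have htot : A ^ n ≤ A ^ n * ((n : ℝ) ^ 2 * ε + 2 * G / (n * δ ^ 2) + Wm ^ 2 / (n * δ ^ 2)) := by
    have e2 : n * (A ^ n * (2 * G)) / (n * δ) ^ 2 = A ^ n * (2 * G / (n * δ ^ 2)) := by
      field_simp
    have e3 : n * (A ^ n * Wm ^ 2) / (n * δ) ^ 2 = A ^ n * (Wm ^ 2 / (n * δ ^ 2)) := by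
      field_simp
    rw [e2] at b2
    rw [e3] at b3
    nlinarith [b1, b2, b3, hsum]
  nlinarith [mul_lt_mul_of_pos_left hsmall hAn]

end CRam
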