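import Mathlib
import Pool.Agent.Lib.CRam.Defs
import Pool.Agent.Lib.CRam.Sample

/-!
# CRam.Robust : exact bounds are robust under few uncovered pairs

Sketch. Let `Wm = max_{s ≤ k} w s + 1` and `T ≥ |ι|`. Fix a small `δ'` (in terms of `δ, α, β, Wm`),
then `n` large, then `ε` small.
0. If `α Wm |ι| ≤ δ T` the claim is trivial. Otherwise `|ι| ≥ c T` with `c = δ / (α Wm)`.
1. `N0 = {i | ¬ Cov K F i i}`. For `i, j ∈ N0`: all weights at existing labels are `0`, so
   `¬ Cov K F i j`; thus `|N0|^2 ≤ ε T^2`, `|N0| ≤ √ε T`. Let `ι' = ι \ N0` (subtype), of size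
   `≥ |ι| / 2`. `|Bad ∩ ι'×ι'| ≤ ε T^2 ≤ ε'|ι'|^2` with `ε' = 4 ε / c^2`.
2. `sample` on `ι'` with `J` = pairs (colour `c`, label `x` that occurs), `g (c,x) i = F c i` if
   `K c i = some x`, else `0`; `∑_J g i ≤ 2k =: G`; `W i = w (lab K i)`; `δ'`, `n`, `ε'`. Get
   `f : Fin n → ι'`.
3. The system `K c ∘ f`, `F c ∘ f` on `Fin n` is fully covered (`f a = f b` is fine because
   `f a ∉ N0`). `ExactBound` with the natural number `B' = ⌊n (B / |ι'| + δ')⌋`.
4. Add `N0`: `α ∑_{N0} W ≤ α Wm √ε T`.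
-/

open Classical

namespace CRam

theorem robust_lab_le {k : ℕ} {ι κ : Type*} (K : Fin k → ι → Option κ) (i : ι) :
    lab K i ≤ k := by
  unfold lab
  exact (Finset.card_le_univ _).trans (by simp)

/-- the finite set of (colour, label) pairs that occur -/
noncomputable def robustJ {k : ℕ} {ι κ : Type} [Fintype ι] (K : Fin k → ι → Option κ) :
    Finset (Fin k × Option κ) :=
  (Finset.univ : Finset (Fin k × ι)).image (fun p => (p.1, K p.1 p.2))

theorem robust_sumJ {k : ℕ} {ι κ : Type} [Fintype ι] (K : Fin k → ι → Option κ)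
    (F : Fin k → ι → ℕ) (hF : ∀ c i, F c i ≤ 2) (J : Finset (Fin k × Option κ)) (i : ι) :
    ∑ j ∈ J, (if K j.1 i = j.2 then (F j.1 i : ℝ) else 0) ≤ 2 * k := by
  rw [← Finset.sum_filter]
  have hcard : (J.filter (fun j => K j.1 i = j.2)).card ≤ k := by
    have h := Finset.card_le_card_of_injOn (s := J.filter (fun j => K j.1 i = j.2))
      (t := (Finset.univ : Finset (Fin k))) (fun j => j.1) (fun _ _ => by simp) ?_
    · simpa using h
    · intro a ha b hb hab
      simp only [Finset.coe_filter, Set.mem_ofPred_eq] at ha hb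
      have : a.1 = b.1 := hab
      refine Prod.ext this ?_
      rw [← ha.2, ← hb.2, this]
  calc ∑ j ∈ J.filter (fun j => K j.1 i = j.2), (F j.1 i : ℝ)
      ≤ ∑ _j ∈ J.filter (fun j => K j.1 i = j.2), (2 : ℝ) :=
        Finset.sum_le_sum (fun j _ => by exact_mod_cast hF j.1 i)
    _ = (J.filter (fun j => K j.1 i = j.2)).card * 2 := by simp
    _ ≤ k * 2 := by
        have : ((J.filter (fun j => K j.1 i = j.2)).card : ℝ) ≤ k := by exact_mod_cast hcard
        linarith
    _ = 2 * k := by ring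

/-- indices which are not self covered are pairwise uncovered -/
theorem robust_not_cov {k : ℕ} {ι κ : Type*} (K : Fin k → ι → Option κ) (F : Fin k → ι → ℕ)
    {i j : ι} (hi : ¬ Cov K F i i) (hj : ¬ Cov K F j j) : ¬ Cov K F i j := by
  rintro ⟨c, x, h1, h2, h3⟩
  have e1 : F c i = 0 := by
    by_contra h
    exact hi ⟨c, x, h1, h1, by omega⟩
  have e2 : F c j = 0 := by
    by_contra h
    exact hj ⟨c, x, h2, h2, by omega⟩
  omega

/-- The main step: the bound on a nonempty index set all of whose elements are self covered. -/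
theorem robust_core (k : ℕ) (w : ℕ → ℕ) (α β : ℕ) (hE : ExactBound k w α β)
    (Wm : ℝ) (hWm : ∀ s ≤ k, (w s : ℝ) ≤ Wm) (n : ℕ) (δ' ε₁ : ℝ) (hδ : 0 < δ') (hn : 1 ≤ n)
    (hsmall : (n : ℝ) ^ 2 * ε₁ + 2 * (2 * k) / (n * δ' ^ 2) + Wm ^ 2 / (n * δ' ^ 2) < 1)
    (ι κ : Type) [Fintype ι] [Nonempty ι] (K : Fin k → ι → Option κ) (F : Fin k → ι → ℕ)
    (hF : ∀ c i, F c i ≤ 2) (hself : ∀ i, Cov K F i i)
    (hbad : ((Finset.univ.filter (fun p : ι × ι => ¬ Cov K F p.1 p.2)).card : ℝ) ≤
      ε₁ * (Fintype.card ι : ℝ) ^ 2)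
    (B : ℝ) (hB : 0 ≤ B)
    (hcomp : ∀ c x, ((∑ i ∈ Finset.univ.filter (fun i => K c i = some x), F c i : ℕ) : ℝ) ≤ B) :
    (α : ℝ) * ∑ i, (w (lab K i) : ℝ) ≤ β * B + (α + β) * δ' * Fintype.card ι := by
  set J := robustJ K with hJ
  set g : J → ι → ℝ := fun j i => if K j.1.1 i = j.1.2 then (F j.1.1 i : ℝ) else 0 with hg
  obtain ⟨f, hf1, hf2, hf3⟩ := sample (J := J) g (fun i => (w (lab K i) : ℝ))
    (Finset.univ.filter (fun p : ι × ι => ¬ Cov K F p.1 p.2)) n (2 * k) Wm ε₁ δ'
    (by intro j i; simp only [hg]; split_ifs <;> positivity)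
    (by
      intro j i; simp only [hg]; split_ifs
      · exact_mod_cast hF _ _
      · norm_num)
    (by
      intro i
      simp only [hg]
      rw [Finset.sum_coe_sort J (fun j => if K j.1 i = j.2 then (F j.1 i : ℝ) else 0)]
      exact robust_sumJ K F hF J i)
    (by intro i; positivity)
    (by intro i; exact hWm _ (robust_lab_le K i))
    hbad hδ hn hsmall
  have hcard : (0 : ℝ) < Fintype.card ι := by exact_mod_cast Fintype.card_pos
  have hn0 : (0 : ℝ) < n := by exact_mod_cast hn
  set B' : ℕ := ⌊(n : ℝ) * (B / Fintype.card ι + δ')⌋₊ with hB'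
  have hpos : 0 ≤ (n : ℝ) * (B / Fintype.card ι + δ') := by positivity
  have key := hE (Fin n) κ (fun c a => K c (f a)) (fun c a => F c (f a)) (fun c a => hF c (f a))
    (by
      intro a b
      have hc : Cov K F (f a) (f b) := by
        by_cases hab : a = b
        · rw [hab]; exact hself _
        · have := hf1 a b hab
          simpa using this
      obtain ⟨c, x, h1, h2, h3⟩ := hc
      exact ⟨c, x, h1, h2, h3⟩)
    B'
    (by
      intro c x
      rw [hB']
      refine Nat.le_floor ?_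
      push_cast
      by_cases hmem : (c, some x) ∈ J
      · have h := hf2 ⟨(c, some x), hmem⟩
        simp only [hg] at h
        rw [Finset.sum_filter]
        refine h.trans ?_
        have h2 : ∑ i, (if K c i = some x then (F c i : ℝ) else 0) ≤ B := by
          have := hcomp c x
          rw [Finset.sum_filter] at this
          push_cast at this
          exact this
        have : (∑ i, (if K c i = some x then (F c i : ℝ) else 0)) / Fintype.card ι ≤
            B / Fintype.card ι := by gcongr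
        gcongr
      · have : (Finset.univ.filter (fun a : Fin n => K c (f a) = some x)) = ∅ := by
          apply Finset.filter_eq_empty_iff.2
          intro a _ h
          apply hmem
          rw [hJ]
          unfold robustJ
          rw [Finset.mem_image]
          exact ⟨(c, f a), Finset.mem_univ _, by rw [← h]⟩
        rw [this]
        simpa using hpos)
  have key2 : (α : ℝ) * ∑ a, (w (lab K (f a)) : ℝ) ≤ β * B' := by
    have : (α : ℝ) * ∑ a, (w (lab (fun c a => K c (f a)) a) : ℝ) ≤ β * B' := by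
      exact_mod_cast key
    exact this
  have key3 : (B' : ℝ) ≤ n * (B / Fintype.card ι + δ') := Nat.floor_le hpos
  have hα : (0 : ℝ) ≤ α := by positivity
  have hβ : (0 : ℝ) ≤ β := by positivity
  set S := ∑ i, (w (lab K i) : ℝ) with hS
  set C : ℝ := (Fintype.card ι : ℝ) with hC
  have h4 : (α : ℝ) * (n * (S / C - δ')) ≤ β * (n * (B / C + δ')) := by
    calc (α : ℝ) * (n * (S / C - δ')) ≤ α * ∑ a, (w (lab K (f a)) : ℝ) := by
          gcongr
      _ ≤ β * B' := key2
      _ ≤ β * (n * (B / C + δ')) := by gcongr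
  have h5 : (α : ℝ) * (S / C - δ') ≤ β * (B / C + δ') := by
    have : (n : ℝ) * (α * (S / C - δ')) ≤ n * (β * (B / C + δ')) := by linarith
    exact le_of_mul_le_mul_left this hn0
  have h6 : C * ((α : ℝ) * (S / C - δ')) ≤ C * (β * (B / C + δ')) :=
    mul_le_mul_of_nonneg_left h5 hcard.le
  have e1 : C * ((α : ℝ) * (S / C - δ')) = α * S - α * δ' * C := by
    field_simp
  have e2 : C * ((β : ℝ) * (B / C + δ')) = β * B + β * δ' * C := by
    field_simp
  rw [e1, e2] at h6
  linarith

theorem robust (k : ℕ) (w : ℕ → ℕ) (α β : ℕ) (hE : ExactBound k w α β) (δ : ℝ) (hδ : 0 < δ) :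
    ∃ ε > (0 : ℝ), ∀ (ι κ : Type) [Fintype ι] (T : ℕ) (K : Fin k → ι → Option κ)
      (F : Fin k → ι → ℕ), Fintype.card ι ≤ T → (∀ c i, F c i ≤ 2) →
      ((Finset.univ.filter (fun p : ι × ι => ¬ Cov K F p.1 p.2)).card : ℝ) ≤ ε * (T : ℝ) ^ 2 →
      ∀ B : ℝ, 0 ≤ B →
        (∀ c x, ((∑ i ∈ Finset.univ.filter (fun i => K c i = some x), F c i : ℕ) : ℝ) ≤ B) →
        (α : ℝ) * ∑ i, (w (lab K i) : ℝ) ≤ β * B + δ * T := by
  -- constants
  set Wm : ℝ := ∑ s ∈ Finset.range (k + 1), (w s : ℝ) + 1 with hWmdef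
  have hWm : ∀ s ≤ k, (w s : ℝ) ≤ Wm := by
    intro s hs
    have := Finset.single_le_sum (f := fun s => (w s : ℝ)) (s := Finset.range (k + 1))
      (fun i _ => by positivity) (Finset.mem_range.2 (Nat.lt_succ_of_le hs))
    linarith
  have hWm1 : 1 ≤ Wm := by
    have : (0 : ℝ) ≤ ∑ s ∈ Finset.range (k + 1), (w s : ℝ) := by positivity
    linarith
  have hα : (0 : ℝ) ≤ α := by positivity
  have hβ : (0 : ℝ) ≤ β := by positivity
  have hαW : (0 : ℝ) ≤ α * Wm := by positivity
  set c : ℝ := δ / (α * Wm + 1) with hc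
  have hc0 : 0 < c := by positivity
  set δ' : ℝ := δ / (2 * (α + β + 1)) with hδ'
  have hδ'0 : 0 < δ' := by positivity
  set n : ℕ := ⌊2 * (4 * k + Wm ^ 2) / δ' ^ 2⌋₊ + 1 with hn
  have hn1 : 1 ≤ n := by omega
  have hn0 : (0 : ℝ) < n := by exact_mod_cast hn1
  have hnn : 2 * (4 * k + Wm ^ 2) / δ' ^ 2 < n := by
    rw [hn]; push_cast; exact Nat.lt_floor_add_one _
  set η : ℝ := c / (4 * n) with hη
  have hη0 : 0 < η := by positivity
  have hηc : η ≤ c / 4 := by
    rw [hη]
    have : (1 : ℝ) ≤ n := by exact_mod_cast hn1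
    apply div_le_div_of_nonneg_left hc0.le (by norm_num) (by linarith)
  refine ⟨η ^ 2, by positivity, ?_⟩
  intro ι κ _ T K F hT hF hbad B hB hcomp
  have hβB : 0 ≤ (β : ℝ) * B := by positivity
  have hsumle : ∀ s : Finset ι, ∑ i ∈ s, (w (lab K i) : ℝ) ≤ Wm * s.card := by
    intro s
    calc ∑ i ∈ s, (w (lab K i) : ℝ) ≤ ∑ _i ∈ s, Wm :=
          Finset.sum_le_sum (fun i _ => hWm _ (robust_lab_le K i))
      _ = Wm * s.card := by simp [mul_comm]
  have hTr : (Fintype.card ι : ℝ) ≤ T := by exact_mod_cast hT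
  have hT0 : (0 : ℝ) ≤ T := by positivity
  by_cases hcase : (α : ℝ) * Wm * Fintype.card ι ≤ δ * T
  · have h1 := hsumle Finset.univ
    have h2 : (α : ℝ) * ∑ i, (w (lab K i) : ℝ) ≤ α * (Wm * Fintype.card ι) := by
      gcongr
      simpa using h1
    linarith
  push Not at hcase
  have hcT : c * T ≤ Fintype.card ι := by
    rw [hc, div_mul_eq_mul_div, div_le_iff₀ (by positivity)]
    have : (0 : ℝ) ≤ Fintype.card ι := by positivity
    nlinarith
  -- N0
  set N0 : Finset ι := Finset.univ.filter (fun i => ¬ Cov K F i i) with hN0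
  have hN0sq : ((N0.card : ℝ)) ^ 2 ≤ (η * T) ^ 2 := by
    have hsub : N0 ×ˢ N0 ⊆ Finset.univ.filter (fun p : ι × ι => ¬ Cov K F p.1 p.2) := by
      intro p hp
      rw [Finset.mem_product] at hp
      simp only [hN0, Finset.mem_filter, Finset.mem_univ, true_and] at hp ⊢
      exact robust_not_cov K F hp.1 hp.2
    have h1 := Finset.card_le_card hsub
    rw [Finset.card_product] at h1
    have h2 : (N0.card : ℝ) * N0.card ≤
        ((Finset.univ.filter (fun p : ι × ι => ¬ Cov K F p.1 p.2)).card : ℝ) := by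
      exact_mod_cast h1
    calc ((N0.card : ℝ)) ^ 2 = (N0.card : ℝ) * N0.card := by ring
      _ ≤ _ := h2
      _ ≤ η ^ 2 * (T : ℝ) ^ 2 := hbad
      _ = (η * T) ^ 2 := by ring
  have hN0le : (N0.card : ℝ) ≤ η * T := by
    have := abs_le_of_sq_le_sq' hN0sq (by positivity)
    exact this.2
  have hTpos : (0 : ℝ) < T := by
    rcases hT0.eq_or_lt with h | h
    · exfalso
      rw [← h] at hcase hTr
      have : (Fintype.card ι : ℝ) = 0 := le_antisymm hTr (by positivity)
      rw [this] at hcase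
      simp at hcase
    · exact h
  -- the subtype
  have hcardsub : (Fintype.card {i : ι // i ∉ N0} : ℝ) = Fintype.card ι - N0.card := by
    have h1 : Fintype.card {i : ι // i ∉ N0} = Fintype.card ι - N0.card := by
      rw [Fintype.card_subtype_compl (fun i => i ∈ N0)]
      simp
    have h2 : N0.card ≤ Fintype.card ι := Finset.card_le_univ _
    rw [h1, Nat.cast_sub h2]
  have hhalf : (Fintype.card ι : ℝ) / 2 ≤ Fintype.card {i : ι // i ∉ N0} := by
    rw [hcardsub]
    have : η * T ≤ (Fintype.card ι : ℝ) / 4 := by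
      calc η * T ≤ c / 4 * T := by gcongr
        _ = c * T / 4 := by ring
        _ ≤ _ := by linarith
    have h0 : (0 : ℝ) ≤ Fintype.card ι := by positivity
    linarith
  have hιpos : (0 : ℝ) < Fintype.card ι := lt_of_lt_of_le (by positivity) hcT
  have hιpos' : (0 : ℝ) < Fintype.card {i : ι // i ∉ N0} := lt_of_lt_of_le (by positivity) hhalf
  have : Nonempty {i : ι // i ∉ N0} := by
    have : 0 < Fintype.card {i : ι // i ∉ N0} := by exact_mod_cast hιpos'
    exact Fintype.card_pos_iff.1 this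
  have hcore := robust_core k w α β hE Wm hWm n δ' (4 * η ^ 2 / c ^ 2) hδ'0 hn1
    (by
      have e1 : (n : ℝ) ^ 2 * (4 * η ^ 2 / c ^ 2) = 1 / 4 := by
        rw [hη]; field_simp
      have e2 : 2 * (2 * (k : ℝ)) / (n * δ' ^ 2) + Wm ^ 2 / (n * δ' ^ 2) =
          (4 * k + Wm ^ 2) / (n * δ' ^ 2) := by ring
      have e3 : (4 * (k : ℝ) + Wm ^ 2) / (n * δ' ^ 2) < 1 / 2 := by
        rw [div_lt_div_iff₀ (by positivity) (by norm_num)]
        rw [div_lt_iff₀ (by positivity)] at hnn
        linarith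
      rw [add_assoc, e1, e2]
      linarith)
    {i : ι // i ∉ N0} κ (fun c i => K c i.1) (fun c i => F c i.1) (fun c i => hF c i.1)
    (by
      intro i
      have hi := i.2
      simp only [hN0, Finset.mem_filter, Finset.mem_univ, true_and, not_not] at hi
      exact hi)
    (by
      have hle : (Finset.univ.filter (fun p : {i : ι // i ∉ N0} × {i : ι // i ∉ N0} =>
          ¬ Cov (fun c (i : {i : ι // i ∉ N0}) => K c i.1) (fun c i => F c i.1) p.1 p.2)).card ≤
          (Finset.univ.filter (fun p : ι × ι => ¬ Cov K F p.1 p.2)).card := by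
        apply Finset.card_le_card_of_injOn (fun p => (p.1.1, p.2.1))
        · intro p hp
          simp only [Finset.coe_filter, Finset.mem_univ, true_and, Set.mem_ofPred_eq] at hp ⊢
          exact hp
        · intro p _ q _ hpq
          simp only [Prod.mk.injEq] at hpq
          exact Prod.ext (Subtype.ext hpq.1) (Subtype.ext hpq.2)
      calc ((Finset.univ.filter (fun p : {i : ι // i ∉ N0} × {i : ι // i ∉ N0} =>
          ¬ Cov (fun c (i : {i : ι // i ∉ N0}) => K c i.1) (fun c i => F c i.1)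
            p.1 p.2)).card : ℝ)
          ≤ ((Finset.univ.filter (fun p : ι × ι => ¬ Cov K F p.1 p.2)).card : ℝ) := by
            exact_mod_cast hle
        _ ≤ η ^ 2 * (T : ℝ) ^ 2 := hbad
        _ ≤ η ^ 2 * (2 * Fintype.card {i : ι // i ∉ N0} / c) ^ 2 := by
            have : (T : ℝ) ≤ 2 * Fintype.card {i : ι // i ∉ N0} / c := by
              rw [le_div_iff₀ hc0]
              linarith
            gcongr
        _ = 4 * η ^ 2 / c ^ 2 * (Fintype.card {i : ι // i ∉ N0} : ℝ) ^ 2 := by
            field_simp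
            ring)
    B hB
    (by
      intro c x
      refine le_trans ?_ (hcomp c x)
      norm_cast
      rw [Finset.sum_filter, Finset.sum_filter]
      calc ∑ i : {i : ι // i ∉ N0}, (if K c i.1 = some x then F c i.1 else 0)
          = ∑ i ∈ Finset.univ.filter (fun i => i ∉ N0), (if K c i = some x then F c i else 0) := by
            rw [Finset.sum_subtype (Finset.univ.filter (fun i => i ∉ N0)) (p := fun i => i ∉ N0)
              (by simp) (fun i => if K c i = some x then F c i else 0)]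
        _ ≤ ∑ i, (if K c i = some x then F c i else 0) :=
            Finset.sum_le_sum_of_subset (Finset.subset_univ _))
  have hsplit : ∑ i, (w (lab K i) : ℝ) =
      ∑ i : {i : ι // i ∉ N0}, (w (lab (fun c (i : {i : ι // i ∉ N0}) => K c i.1) i) : ℝ) +
      ∑ i ∈ N0, (w (lab K i) : ℝ) := by
    have e : ∑ i : {i : ι // i ∉ N0}, (w (lab (fun c (i : {i : ι // i ∉ N0}) => K c i.1) i) : ℝ) =
        ∑ i ∈ Finset.univ.filter (fun i => i ∉ N0), (w (lab K i) : ℝ) := by
      rw [Finset.sum_subtype (Finset.univ.filter (fun i => i ∉ N0)) (p := fun i => i ∉ N0)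
        (by simp) (fun i => (w (lab K i) : ℝ))]
      rfl
    rw [e, ← Finset.sum_filter_add_sum_filter_not Finset.univ (fun i => i ∈ N0), add_comm]
    congr 1
    apply Finset.sum_congr _ (fun _ _ => rfl)
    ext i; simp
  rw [hsplit, mul_add]
  have hN : (α : ℝ) * ∑ i ∈ N0, (w (lab K i) : ℝ) ≤ δ / 4 * T := by
    calc (α : ℝ) * ∑ i ∈ N0, (w (lab K i) : ℝ) ≤ α * (Wm * N0.card) := by
          gcongr; exact hsumle N0
      _ ≤ α * (Wm * (η * T)) := by gcongr
      _ ≤ α * (Wm * (c / 4 * T)) := by gcongr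
      _ = (α * Wm * c) / 4 * T := by ring
      _ ≤ δ / 4 * T := by
          have : (α : ℝ) * Wm * c ≤ δ := by
            rw [hc, mul_div_assoc', div_le_iff₀ (by positivity)]
            have e : δ * ((α : ℝ) * Wm + 1) = α * Wm * δ + δ := by ring
            linarith
          gcongr
  have hM : ((α : ℝ) + β) * δ' * Fintype.card {i : ι // i ∉ N0} ≤ δ / 2 * T := by
    have h1 : ((α : ℝ) + β) * δ' ≤ δ / 2 := by
      rw [hδ', mul_div_assoc', div_le_div_iff₀ (by positivity) (by norm_num)]
      have e : ((α : ℝ) + β) * δ * 2 + 2 * δ = δ * (2 * (α + β + 1)) := by ring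
      linarith
    have h2 : (Fintype.card {i : ι // i ∉ N0} : ℝ) ≤ T := by
      rw [hcardsub]
      have : (0 : ℝ) ≤ N0.card := by positivity
      linarith
    calc ((α : ℝ) + β) * δ' * Fintype.card {i : ι // i ∉ N0}
        ≤ δ / 2 * Fintype.card {i : ι // i ∉ N0} := by gcongr
      _ ≤ δ / 2 * T := by gcongr
  have hfin : δ / 2 * T + δ / 4 * T ≤ δ * T := by
    have e : δ / 2 * T + δ / 4 * T + δ * T / 4 = δ * T := by ring
    have : 0 ≤ δ * T := by positivity
    linarith
  linarith

end CRam
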