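import Mathlib

/-!
# CRam.Konig : partial matchings in the bipartite double cover and half-integral covers

Sketch. Bipartite double cover: left copy `ι`, right copy `ι`, `a ~ b` iff `r a b`. For
`A : Finset ι` let `N A = {b | ∃ a ∈ A, r a b}`. Choose `A` maximising `def = |A| - |N A|` (integers,
`≥ 0`). Hall (`Finset.all_card_le_biUnion_card_iff_exists_injective`, applied to the relation with
`def` additional right vertices adjacent to everything: `t : ι → Finset (ι ⊕ Fin def)`) gives an
injective `f : ι → ι ⊕ Fin def`; the `a` with `f a = inl b` give a matching `M` with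
`|M| ≥ |ι| - def`. Cover: `C₁ = ι \ A` (left), `C₂ = N A` (right), `|C₁| + |C₂| = |ι| - def ≤ |M|`;
every `r a b` has `a ∈ C₁` or `b ∈ C₂`. Put `F a = [a ∈ C₁] + [a ∈ C₂]`. For `r a b` (hence `r b a`)
`F a + F b = ([a ∈ C₁] + [b ∈ C₂]) + ([b ∈ C₁] + [a ∈ C₂]) ≥ 2`.
-/

open Classical

namespace CRam

theorem konig {ι : Type*} [Fintype ι] (r : ι → ι → Prop) (hr : ∀ a b, r a b → r b a) :
    ∃ M : Finset (ι × ι), (∀ p ∈ M, r p.1 p.2) ∧ Set.InjOn Prod.fst (M : Set (ι × ι)) ∧
      Set.InjOn Prod.snd (M : Set (ι × ι)) ∧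
      ∃ F : ι → ℕ, (∀ a, F a ≤ 2) ∧ (∀ a b, r a b → 2 ≤ F a + F b) ∧ ∑ a, F a ≤ M.card := by
  let N : Finset ι → Finset ι := fun A => Finset.univ.filter (fun b => ∃ a ∈ A, r a b)
  obtain ⟨A, -, hA⟩ := Finset.exists_max_image (Finset.univ : Finset (Finset ι))
    (fun A => (A.card : ℤ) - ((N A).card : ℤ)) ⟨∅, Finset.mem_univ _⟩
  have hN0 : N ∅ = ∅ := by
    apply Finset.filter_eq_empty_iff.2
    rintro b - ⟨a, ha, -⟩
    exact absurd ha (Finset.notMem_empty a)
  have hdef : (0 : ℤ) ≤ (A.card : ℤ) - ((N A).card : ℤ) := by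
    have := hA ∅ (Finset.mem_univ _)
    simpa [hN0] using this
  obtain ⟨d, hd⟩ := Int.eq_ofNat_of_zero_le hdef
  have hd' : A.card = (N A).card + d := by
    have : (A.card : ℤ) = (N A).card + d := by rw [← hd]; ring
    exact_mod_cast this
  let t : ι → Finset (ι ⊕ Fin d) := fun a =>
    (Finset.univ.filter (fun b => r a b)).disjSum Finset.univ
  have hhall : ∀ s : Finset ι, s.card ≤ (s.biUnion t).card := by
    intro s
    rcases s.eq_empty_or_nonempty with rfl | ⟨a0, ha0⟩
    · simp
    have hsub : (N s).disjSum (Finset.univ : Finset (Fin d)) ⊆ s.biUnion t := by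
      intro x hx
      rw [Finset.mem_biUnion]
      rcases x with b | i
      · rw [Finset.inl_mem_disjSum] at hx
        obtain ⟨a, ha, hab⟩ := (Finset.mem_filter.1 hx).2
        exact ⟨a, ha, Finset.inl_mem_disjSum.2 (Finset.mem_filter.2 ⟨Finset.mem_univ _, hab⟩)⟩
      · exact ⟨a0, ha0, Finset.inr_mem_disjSum.2 (Finset.mem_univ _)⟩
    refine le_trans ?_ (Finset.card_le_card hsub)
    rw [Finset.card_disjSum, Finset.card_univ, Fintype.card_fin]
    have h1 := hA s (Finset.mem_univ _)
    simp only [hd] at h1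
    have h2 : (s.card : ℤ) ≤ (N s).card + d := by
      have h3 : ((s.card : ℤ) - (N s).card) ≤ d := h1
      linarith
    exact_mod_cast h2
  obtain ⟨f, hf, hft⟩ := (Finset.all_card_le_biUnion_card_iff_exists_injective t).1 hhall
  let M : Finset (ι × ι) := Finset.univ.filter (fun p => f p.1 = Sum.inl p.2)
  have hM : ∀ p, p ∈ M ↔ f p.1 = Sum.inl p.2 := by
    intro p
    simp [M]
  have hcardM : Fintype.card ι ≤ M.card + d := by
    have h1 : (Finset.univ : Finset ι).card ≤
        (M.disjSum (Finset.univ : Finset (Fin d))).card := by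
      refine Finset.card_le_card_of_injOn
        (fun a => (Sum.rec (fun b => Sum.inl (a, b)) (fun i => Sum.inr i) (f a) :
          (ι × ι) ⊕ Fin d)) ?_ ?_
      · intro a _
        rcases hfa : f a with b | i
        · simp only [hfa]
          exact Finset.mem_coe.2 (Finset.inl_mem_disjSum.2 ((hM _).2 hfa))
        · simp only [hfa]
          exact Finset.mem_coe.2 (Finset.inr_mem_disjSum.2 (Finset.mem_univ _))
      · intro a _ a' _ haa
        apply hf
        rcases hfa : f a with b | i <;> rcases hfa' : f a' with b' | i' <;>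
          simp only [hfa, hfa'] at haa
        · have h2 := Sum.inl.inj haa
          rw [(Prod.mk.inj h2).2]
        · cases haa
        · cases haa
        · rw [Sum.inr.inj haa]
    rw [Finset.card_disjSum, Finset.card_univ, Finset.card_univ, Fintype.card_fin] at h1
    exact h1
  refine ⟨M, ?_, ?_, ?_, fun a => (if a ∈ A then 0 else 1) + (if a ∈ N A then 1 else 0),
    ?_, ?_, ?_⟩
  · intro p hp
    have h1 := hft p.1
    rw [(hM p).1 hp] at h1
    exact (Finset.mem_filter.1 (Finset.inl_mem_disjSum.1 h1)).2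
  · intro p hp q hq hpq
    have h1 := (hM p).1 (Finset.mem_coe.1 hp)
    have h2 := (hM q).1 (Finset.mem_coe.1 hq)
    rw [hpq, h2] at h1
    exact Prod.ext hpq (Sum.inl.inj h1).symm
  · intro p hp q hq hpq
    have h1 := (hM p).1 (Finset.mem_coe.1 hp)
    have h2 := (hM q).1 (Finset.mem_coe.1 hq)
    rw [hpq, ← h2] at h1
    exact Prod.ext (hf h1) hpq
  · intro a
    dsimp only
    split_ifs <;> omega
  · intro a b hab
    have hba := hr a b hab
    have h1 : a ∈ A → b ∈ N A := fun h => Finset.mem_filter.2 ⟨Finset.mem_univ _, a, h, hab⟩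
    have h2 : b ∈ A → a ∈ N A := fun h => Finset.mem_filter.2 ⟨Finset.mem_univ _, b, h, hba⟩
    dsimp only
    by_cases ha : a ∈ A <;> by_cases hb : b ∈ A
    · rw [if_pos ha, if_pos hb, if_pos (h1 ha), if_pos (h2 hb)]
    · rw [if_pos ha, if_neg hb, if_pos (h1 ha)]
      omega
    · rw [if_neg ha, if_pos hb, if_pos (h2 hb)]
      omega
    · rw [if_neg ha, if_neg hb]
      omega
  · have e1 : ∑ a, (if a ∈ A then 0 else 1 : ℕ) + A.card = Fintype.card ι := by
      have h1 : (A.card : ℕ) = ∑ a, (if a ∈ A then 1 else 0 : ℕ) := by simp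
      rw [h1, ← Finset.sum_add_distrib, Fintype.card, Finset.card_eq_sum_ones]
      apply Finset.sum_congr rfl
      intro a _
      split_ifs <;> rfl
    have e2 : ∑ a, (if a ∈ N A then 1 else 0 : ℕ) = (N A).card := by simp
    rw [Finset.sum_add_distrib, e2]
    omega

end CRam
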