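import Mathlib
import Pool.Agent.Lib.CRam.Defs

/-!
# CRam.PartDefs : definitions for the partition lemma
-/

open Classical

namespace CRam

/-- number of colours without any edge between `A` and `B` -/
noncomputable def dead {k : ℕ} {V : Type*} (H : Fin k → SimpleGraph V) (A B : Finset V) : ℕ :=
  (Finset.univ.filter (fun c : Fin k => ∀ x ∈ A, ∀ y ∈ B, ¬ (H c).Adj x y)).card

/-- potential (times `N^2`) of a family of clusters of size `m` -/
noncomputable def Phi {k : ℕ} {V : Type*} {t : ℕ} (H : Fin k → SimpleGraph V)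
    (P : Fin t → Finset V) (m : ℕ) : ℕ :=
  ∑ a, ∑ b, if a ≠ b then dead H (P a) (P b) * m ^ 2 else 0

/-- number of bad ordered pairs of clusters (all pairs `(a, a)` are bad) -/
noncomputable def bad {k : ℕ} {V : Type*} {t : ℕ} (H : Fin k → SimpleGraph V) (s : ℕ)
    (P : Fin t → Finset V) : ℕ :=
  (Finset.univ.filter (fun p : Fin t × Fin t => ¬ ∃ c, (Red (H c) s P).Adj p.1 p.2)).card

end CRam
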