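import Mathlib
import Pool.Agent.Lib.CRam.Defs

/-!
# CRam.PartAtoms : simultaneous refinement of clusters into equal blocks

Sketch. For `a : Fin t` and `S : Finset (Fin w)` let `atom a S = {v ∈ P a | ∀ j, v ∈ W a j ↔ j ∈ S}`
(these partition `P a`). Cut each atom into `|atom| / m'` disjoint blocks of size exactly `m'` (a
remainder of `< m'` vertices is thrown away; general sub-lemma: a finset `A` has a finset/family of
`A.card / m'` pairwise disjoint subsets of size `m'`). Index all blocks by `Fin t'`
(`Fintype.equivFin` of a sigma type, or collect the blocks in a `Finset (Fin t × Finset V)`).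
A block inside `atom a S` is inside `W a j` if `j ∈ S` and disjoint from it otherwise. `W a j` and
`P a` are unions of atoms, at most `2 ^ w` of them, each losing less than `m'` vertices.
-/

open Classical

namespace CRam

theorem exists_blocks {V : Type*} [DecidableEq V] (m' : ℕ) :
    ∀ (n : ℕ) (A : Finset V), n * m' ≤ A.card → ∃ B : Fin n → Finset V,
      (∀ i j, i ≠ j → Disjoint (B i) (B j)) ∧ (∀ i, (B i).card = m') ∧ ∀ i, B i ⊆ A := by
  intro n
  induction n with
  | zero =>
    intro A _
    exact ⟨fun i => i.elim0, fun i => i.elim0, fun i => i.elim0, fun i => i.elim0⟩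
  | succ n ih =>
    intro A hA
    have h1 : m' ≤ A.card := le_trans (by nlinarith) hA
    obtain ⟨A0, hA0, hc0⟩ := Finset.exists_subset_card_eq h1
    have h2 : n * m' ≤ (A \ A0).card := by
      rw [Finset.card_sdiff_of_subset hA0, hc0]
      have : (n + 1) * m' = n * m' + m' := by ring
      omega
    obtain ⟨B, hB1, hB2, hB3⟩ := ih (A \ A0) h2
    refine ⟨Fin.cons A0 B, ?_, ?_, ?_⟩
    · intro i j
      refine Fin.cases ?_ (fun i' => ?_) i
      · refine Fin.cases ?_ (fun j' => ?_) j
        · intro h
          exact absurd rfl h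
        · intro _
          simp only [Fin.cons_zero, Fin.cons_succ]
          exact Finset.disjoint_left.2 fun v hv hv' =>
            (Finset.mem_sdiff.1 (hB3 j' hv')).2 hv
      · refine Fin.cases ?_ (fun j' => ?_) j
        · intro _
          simp only [Fin.cons_zero, Fin.cons_succ]
          exact Finset.disjoint_left.2 fun v hv hv' =>
            (Finset.mem_sdiff.1 (hB3 i' hv)).2 hv'
        · intro h
          simp only [Fin.cons_succ]
          exact hB1 i' j' (fun hh => h (by rw [hh]))
    · intro i
      refine Fin.cases ?_ (fun i' => ?_) i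
      · simpa using hc0
      · simpa using hB2 i'
    · intro i
      refine Fin.cases ?_ (fun i' => ?_) i
      · simpa using hA0
      · simpa using (hB3 i').trans Finset.sdiff_subset

theorem partAtoms {V : Type*} [DecidableEq V] {t w : ℕ} (P : Fin t → Finset V)
    (hP : Pairwise fun i j => Disjoint (P i) (P j))
    (W : Fin t → Fin w → Finset V) (hW : ∀ a j, W a j ⊆ P a) (m' : ℕ) (hm' : 1 ≤ m') :
    ∃ (t' : ℕ) (P' : Fin t' → Finset V) (π : Fin t' → Fin t),
      (Pairwise fun x y => Disjoint (P' x) (P' y)) ∧ (∀ x, (P' x).card = m') ∧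
      (∀ x, P' x ⊆ P (π x)) ∧
      (∀ x j, P' x ⊆ W (π x) j ∨ Disjoint (P' x) (W (π x) j)) ∧
      (∀ a, (P a).card ≤
        m' * (Finset.univ.filter (fun x => π x = a)).card + 2 ^ w * m') ∧
      (∀ a j, (W a j).card ≤
        m' * (Finset.univ.filter (fun x => π x = a ∧ P' x ⊆ W a j)).card + 2 ^ w * m') := by
  let atom : Fin t → Finset (Fin w) → Finset V :=
    fun a S => (P a).filter (fun v => ∀ j, v ∈ W a j ↔ j ∈ S)
  have hatom : ∀ a S, atom a S ⊆ P a := fun a S => Finset.filter_subset _ _
  have hatomW : ∀ a S j, j ∈ S → atom a S ⊆ W a j := by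
    intro a S j hj v hv
    exact ((Finset.mem_filter.1 hv).2 j).2 hj
  have hatomW' : ∀ a S j, j ∉ S → Disjoint (atom a S) (W a j) := by
    intro a S j hj
    exact Finset.disjoint_left.2 fun v hv hv' => hj (((Finset.mem_filter.1 hv).2 j).1 hv')
  have hatomD : ∀ a S S', S ≠ S' → Disjoint (atom a S) (atom a S') := by
    intro a S S' hS
    refine Finset.disjoint_left.2 fun v hv hv' => hS ?_
    ext j
    exact (((Finset.mem_filter.1 hv).2 j).symm).trans ((Finset.mem_filter.1 hv').2 j)
  have hex : ∀ a S, ∃ B : Fin ((atom a S).card / m') → Finset V,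
      (∀ i j, i ≠ j → Disjoint (B i) (B j)) ∧ (∀ i, (B i).card = m') ∧ ∀ i, B i ⊆ atom a S :=
    fun a S => exists_blocks m' _ _ (Nat.div_mul_le_self _ _)
  choose B hB1 hB2 hB3 using hex
  let ι := Σ a : Fin t, Σ S : Finset (Fin w), Fin ((atom a S).card / m')
  let e : ι ≃ Fin (Fintype.card ι) := Fintype.equivFin ι
  let Q : ι → Finset V := fun z => B z.1 z.2.1 z.2.2
  have hQP : ∀ z, Q z ⊆ P z.1 := fun z => (hB3 z.1 z.2.1 z.2.2).trans (hatom _ _)
  have hQD : ∀ z z', z ≠ z' → Disjoint (Q z) (Q z') := by
    rintro ⟨a, S, i⟩ ⟨b, S', j⟩ hne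
    by_cases hab : a = b
    · subst hab
      by_cases hS : S = S'
      · subst hS
        exact hB1 a S i j (fun h => hne (by rw [h]))
      · exact Disjoint.mono (hB3 a S i) (hB3 a S' j) (hatomD a S S' hS)
    · exact Disjoint.mono (hQP ⟨a, S, i⟩) (hQP ⟨b, S', j⟩) (hP hab)
  have key : ∀ (a : Fin t) (T : Finset (Finset (Fin w))) (R : Fin (Fintype.card ι) → Prop)
      [DecidablePred R], (∀ S ∈ T, ∀ i, R (e ⟨a, S, i⟩)) →
      ∑ S ∈ T, (atom a S).card ≤ m' * (Finset.univ.filter R).card + 2 ^ w * m' := by
    intro a T R _ hR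
    have h1 : ∑ S ∈ T, (atom a S).card / m' ≤ (Finset.univ.filter R).card := by
      let F : (Σ S : Finset (Fin w), Fin ((atom a S).card / m')) → Fin (Fintype.card ι) :=
        fun z => e ⟨a, z⟩
      have hF : Function.Injective F := by
        intro z z' h
        have := e.injective h
        exact eq_of_heq (Sigma.mk.inj this).2
      have h2 : ((T.sigma fun S => (Finset.univ : Finset (Fin ((atom a S).card / m')))).image
          F) ⊆ Finset.univ.filter R := by
        intro x hx
        obtain ⟨⟨S, i⟩, hz, rfl⟩ := Finset.mem_image.1 hx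
        exact Finset.mem_filter.2 ⟨Finset.mem_univ _, hR S (Finset.mem_sigma.1 hz).1 i⟩
      have h3 := Finset.card_le_card h2
      rw [Finset.card_image_of_injective _ hF, Finset.card_sigma] at h3
      simpa using h3
    have h4 : ∀ S ∈ T, (atom a S).card ≤ m' * ((atom a S).card / m') + m' := by
      intro S _
      have h5 := Nat.div_add_mod (atom a S).card m'
      have h6 := Nat.mod_lt (atom a S).card (show 0 < m' from hm')
      omega
    have h7 : T.card ≤ 2 ^ w := by
      have := Finset.card_le_univ T
      simpa using this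
    calc ∑ S ∈ T, (atom a S).card
        ≤ ∑ S ∈ T, (m' * ((atom a S).card / m') + m') := Finset.sum_le_sum h4
      _ = m' * ∑ S ∈ T, (atom a S).card / m' + T.card * m' := by
          rw [Finset.sum_add_distrib, Finset.mul_sum]
          simp
      _ ≤ m' * (Finset.univ.filter R).card + 2 ^ w * m' :=
          Nat.add_le_add (Nat.mul_le_mul_left _ h1) (Nat.mul_le_mul_right _ h7)
  refine ⟨Fintype.card ι, fun x => Q (e.symm x), fun x => (e.symm x).1, ?_, ?_, ?_, ?_, ?_, ?_⟩
  · intro x y hxy
    exact hQD _ _ (fun h => hxy (e.symm.injective h))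
  · intro x
    exact hB2 _ _ _
  · intro x
    exact hQP _
  · intro x j
    by_cases hj : j ∈ (e.symm x).2.1
    · left
      exact (hB3 _ _ _).trans (hatomW _ _ _ hj)
    · right
      exact Disjoint.mono_left (hB3 _ _ _) (hatomW' _ _ _ hj)
  · intro a
    have h1 := key a Finset.univ (fun x => (e.symm x).1 = a) (by
      intro S _ i
      simp)
    refine le_trans ?_ h1
    rw [← Finset.card_biUnion (fun S _ S' _ h => hatomD a S S' h)]
    apply Finset.card_le_card
    intro v hv
    refine Finset.mem_biUnion.2 ⟨Finset.univ.filter (fun j => v ∈ W a j), Finset.mem_univ _, ?_⟩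
    exact Finset.mem_filter.2 ⟨hv, fun j => by simp⟩
  · intro a j
    have h1 := key a (Finset.univ.filter (fun S => j ∈ S))
      (fun x => (e.symm x).1 = a ∧ Q (e.symm x) ⊆ W a j) (by
        intro S hS i
        have hS' : j ∈ S := by simpa using hS
        simp only [Equiv.symm_apply_apply, true_and]
        exact (hB3 _ _ _).trans (hatomW _ _ _ hS'))
    refine le_trans ?_ h1
    rw [← Finset.card_biUnion (fun S _ S' _ h => hatomD a S S' h)]
    apply Finset.card_le_card
    intro v hv
    refine Finset.mem_biUnion.2 ⟨Finset.univ.filter (fun j => v ∈ W a j), ?_, ?_⟩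
    · simpa using hv
    · exact Finset.mem_filter.2 ⟨hW a j hv, fun j => by simp⟩

end CRam
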