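import Mathlib
import Pool.Agent.Lib.CRam.Defs
import Pool.Agent.Lib.CRam.PartDefs
import Pool.Agent.Lib.CRam.PartAtoms

/-!
# CRam.PartStep : one refinement round

Sketch. Put `s = m / D` (so `s ≥ m / (2 D)` as `m ≥ 2 D`). For an off-diagonal bad pair `(a, b)`
(there are at least `t^2/L - t ≥ t^2/(2L)` of them, because `t ≥ 2 L`) choose by `hj` a colour
`c(a,b)` with an edge between `P a` and `P b`. As the pair is bad, `¬ Jn (H c) s (P a) (P b)`, so there
are `A' ⊆ P a`, `B' ⊆ P b` with `|A'|, |B'| ≥ s` and no edge of `H c` between them.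
Apply `partAtoms` with `w = 2 * t` (or `t + t`): the sets `W a j` are the `A'(a, j)` for `j < t` and
the `B'(j - t, a)` for `j ≥ t` (use `∅` for pairs which are not off-diagonal bad).
For blocks `x`, `y` with `π x = a ≠ π y = b`: every dead colour of `(P a, P b)` is dead for
`(P' x, P' y)`, and if `(a,b)` is bad and `P' x ⊆ A'(a,b)`, `P' y ⊆ B'(a,b)` then `c(a,b)` is one more
dead colour. So, with `n_a` = number of blocks in `P a`, `m' n_a ≥ m - 4^t m' ≥ m (1 - 1/q)`, number
of blocks in `A'` times `m'` at least `s - m/q ≥ m/(2D) - m/(4D) = m / (4D)`: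
`Phi' ≥ (1-1/q)^2 Phi + (t^2/(2L)) (m/(4D))^2`.
-/

open Classical

namespace CRam

theorem dead_mono {k : ℕ} {V : Type*} (H : Fin k → SimpleGraph V) {A B A' B' : Finset V}
    (hA : A' ⊆ A) (hB : B' ⊆ B) : dead H A B ≤ dead H A' B' := by
  unfold dead
  apply Finset.card_le_card
  intro c hc
  have h := (Finset.mem_filter.1 hc).2
  exact Finset.mem_filter.2 ⟨Finset.mem_univ _, fun x hx y hy => h x (hA hx) y (hB hy)⟩

theorem dead_succ {k : ℕ} {V : Type*} (H : Fin k → SimpleGraph V) {A B A' B' : Finset V}
    (hA : A' ⊆ A) (hB : B' ⊆ B) (c : Fin k) (h1 : ∃ x ∈ A, ∃ y ∈ B, (H c).Adj x y)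
    (h2 : ∀ x ∈ A', ∀ y ∈ B', ¬ (H c).Adj x y) : dead H A B + 1 ≤ dead H A' B' := by
  unfold dead
  apply Nat.succ_le_of_lt
  apply Finset.card_lt_card
  refine Finset.ssubset_iff_subset_ne.2 ⟨?_, ?_⟩
  · intro c' hc
    have h := (Finset.mem_filter.1 hc).2
    exact Finset.mem_filter.2 ⟨Finset.mem_univ _, fun x hx y hy => h x (hA hx) y (hB hy)⟩
  · intro heq
    have h3 : c ∈ Finset.univ.filter (fun c : Fin k => ∀ x ∈ A', ∀ y ∈ B', ¬ (H c).Adj x y) :=
      Finset.mem_filter.2 ⟨Finset.mem_univ _, h2⟩
    rw [← heq] at h3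
    obtain ⟨x, hx, y, hy, hxy⟩ := h1
    exact (Finset.mem_filter.1 h3).2 x hx y hy hxy

theorem partStep {k N t : ℕ} (D L q m m' : ℕ) (hD : 1 ≤ D) (hL : 1 ≤ L) (hq : 4 * D ≤ q)
    (hm' : 1 ≤ m') (hmm : m' * 4 ^ t * q ≤ m) (hmD : 2 * D ≤ m) (ht : 2 * L ≤ t)
    (H : Fin k → SimpleGraph (Fin N)) (P : Fin t → Finset (Fin N))
    (hP : Pairwise fun i j => Disjoint (P i) (P j)) (hc : ∀ a, (P a).card = m)
    (hj : ∀ a b, a ≠ b → ∃ c, ∃ x ∈ P a, ∃ y ∈ P b, (H c).Adj x y)
    (hbad : t ^ 2 < L * bad H (m / D) P) :
    ∃ (t' : ℕ) (P' : Fin t' → Finset (Fin N)),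
      (Pairwise fun i j => Disjoint (P' i) (P' j)) ∧ (∀ x, (P' x).card = m') ∧
      t' * m' ≤ t * m ∧ q * (t * m) ≤ q * (t' * m') + t * m ∧
      (1 - 2 / (q : ℝ)) * (Phi H P m : ℝ) + ((t : ℝ) * m) ^ 2 / (32 * L * D ^ 2)
        ≤ (Phi H P' m' : ℝ) := by
  -- off-diagonal bad pairs
  let Bd : Fin t → Fin t → Prop := fun a b => a ≠ b ∧ ¬ ∃ c, (Red (H c) (m / D) P).Adj a b
  have hsel : ∀ a b, ∃ (X Y : Finset (Fin N)), X ⊆ P a ∧ Y ⊆ P b ∧
      (Bd a b → m / D ≤ X.card ∧ m / D ≤ Y.card ∧ ∃ c, (∃ x ∈ P a, ∃ y ∈ P b, (H c).Adj x y) ∧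
        ∀ x ∈ X, ∀ y ∈ Y, ¬ (H c).Adj x y) := by
    intro a b
    by_cases hab : Bd a b
    · obtain ⟨c, hc1⟩ := hj a b hab.1
      have h1 : ¬ Jn (H c) (m / D) (P a) (P b) := fun h => hab.2 ⟨c, hab.1, h⟩
      unfold Jn at h1
      push Not at h1
      obtain ⟨A', hA', B', hB', hA, hB, h2⟩ := h1
      exact ⟨A', B', hA', hB', fun _ => ⟨hA, hB, c, hc1, h2⟩⟩
    · exact ⟨∅, ∅, Finset.empty_subset _, Finset.empty_subset _, fun h => absurd h hab⟩
  choose X Y hX hY hXY using hsel
  let W : Fin t → Fin (t + t) → Finset (Fin N) :=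
    fun a => Fin.addCases (fun j => X a j) (fun j => Y j a)
  have hW : ∀ a j, W a j ⊆ P a := by
    intro a j
    refine Fin.addCases (fun j => ?_) (fun j => ?_) j
    · simp only [W, Fin.addCases_left]
      exact hX a j
    · simp only [W, Fin.addCases_right]
      exact hY j a
  obtain ⟨t', P', π, h1, h2, h3, h4, h5, h6⟩ := partAtoms P hP W hW m' hm'
  have hpow : 2 ^ (t + t) = 4 ^ t := by
    rw [← two_mul, pow_mul]
    norm_num
  rw [hpow] at h5 h6
  let n : Fin t → ℕ := fun a => (Finset.univ.filter (fun x => π x = a)).card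
  let U : Fin t → Fin t → Finset (Fin t') :=
    fun a b => Finset.univ.filter (fun x => π x = a ∧ P' x ⊆ X a b)
  let Vv : Fin t → Fin t → Finset (Fin t') :=
    fun a b => Finset.univ.filter (fun x => π x = b ∧ P' x ⊆ Y a b)
  have hn : ∀ a, m ≤ m' * n a + 4 ^ t * m' := by
    intro a
    have := h5 a
    rw [hc a] at this
    exact this
  have hU : ∀ a b, (X a b).card ≤ m' * (U a b).card + 4 ^ t * m' := by
    intro a b
    have := h6 a (Fin.castAdd t b)
    simpa only [W, Fin.addCases_left] using this
  have hV : ∀ a b, (Y a b).card ≤ m' * (Vv a b).card + 4 ^ t * m' := by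
    intro a b
    have := h6 b (Fin.natAdd t a)
    simpa only [W, Fin.addCases_right] using this
  have hsum : ∑ a, n a = t' := by
    have := Finset.card_eq_sum_card_fiberwise (s := (Finset.univ : Finset (Fin t')))
      (t := (Finset.univ : Finset (Fin t))) (f := π) (fun x _ => Finset.mem_univ _)
    simpa using this.symm
  refine ⟨t', P', h1, h2, ?_, ?_, ?_⟩
  · have e1 : t' * m' = ∑ x, (P' x).card := by
      simp [h2]
    have e2 : t * m = ∑ a, (P a).card := by
      simp [hc]
    rw [e1, e2, ← Finset.card_biUnion (fun x _ y _ h => h1 h),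
      ← Finset.card_biUnion (fun x _ y _ h => hP h)]
    apply Finset.card_le_card
    intro v hv
    obtain ⟨x, _, hx⟩ := Finset.mem_biUnion.1 hv
    exact Finset.mem_biUnion.2 ⟨π x, Finset.mem_univ _, h3 x hx⟩
  · have e1 : q * (t * m) = ∑ _a : Fin t, q * m := by
      rw [Finset.sum_const, Finset.card_univ, Fintype.card_fin, smul_eq_mul]
      ring
    have e2 : q * (t' * m') + t * m = ∑ a, (q * (m' * n a) + m) := by
      rw [Finset.sum_add_distrib, ← Finset.mul_sum, ← Finset.mul_sum, hsum,
        Finset.sum_const, Finset.card_univ, Fintype.card_fin, smul_eq_mul]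
      ring
    rw [e1, e2]
    apply Finset.sum_le_sum
    intro a _
    have := Nat.mul_le_mul_left q (hn a)
    have e3 : q * (m' * n a + 4 ^ t * m') = q * (m' * n a) + m' * 4 ^ t * q := by ring
    omega
  · -- real number estimates
    have hq0 : (0 : ℝ) < q := by
      have : 0 < q := by omega
      exact_mod_cast this
    have hD0 : (0 : ℝ) < D := by exact_mod_cast hD
    have hL0 : (0 : ℝ) < L := by exact_mod_cast hL
    have hqD : (4 : ℝ) * D ≤ q := by exact_mod_cast hq
    have hmq : (4 : ℝ) ^ t * m' ≤ m / q := by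
      rw [le_div_iff₀ hq0]
      have : ((m' * 4 ^ t * q : ℕ) : ℝ) ≤ (m : ℝ) := by exact_mod_cast hmm
      push_cast at this
      linarith
    have hm0 : (0 : ℝ) ≤ m := by positivity
    have hnr : ∀ a, (m : ℝ) * (1 - 1 / q) ≤ m' * n a := by
      intro a
      have h7 : ((m : ℕ) : ℝ) ≤ ((m' * n a + 4 ^ t * m' : ℕ) : ℝ) := by exact_mod_cast hn a
      push_cast at h7
      have h8 : (m : ℝ) * (1 - 1 / q) = m - m / q := by ring
      rw [h8]
      linarith
    have hs : (m : ℝ) / (2 * D) ≤ ((m / D : ℕ) : ℝ) := by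
      rw [div_le_iff₀ (by positivity)]
      have h7 := Nat.div_add_mod m D
      have h8 := Nat.mod_lt m (show 0 < D from hD)
      have h9 : 2 ≤ m / D := by
        rw [Nat.le_div_iff_mul_le (show 0 < D from hD)]
        exact hmD
      have h10 : m ≤ 2 * D * (m / D) := by nlinarith
      have h11 : (m : ℝ) ≤ ((2 * D * (m / D) : ℕ) : ℝ) := by exact_mod_cast h10
      push_cast at h11
      linarith
    have hmD' : (m : ℝ) / q ≤ m / (4 * D) := by
      apply div_le_div_of_nonneg_left hm0 (by positivity) hqD
    have hsmall : (m : ℝ) / (4 * D) ≤ ((m / D : ℕ) : ℝ) - m / q := by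
      have : (m : ℝ) / (2 * D) = m / (4 * D) + m / (4 * D) := by
        field_simp
        ring
      linarith
    have hUr : ∀ a b, Bd a b → (m : ℝ) / (4 * D) ≤ m' * (U a b).card := by
      intro a b hab
      have h7 : (m / D : ℕ) ≤ m' * (U a b).card + 4 ^ t * m' := (hXY a b hab).1.trans (hU a b)
      have h8 : ((m / D : ℕ) : ℝ) ≤ ((m' * (U a b).card + 4 ^ t * m' : ℕ) : ℝ) := by
        exact_mod_cast h7
      rw [Nat.cast_add, Nat.cast_mul, Nat.cast_mul, Nat.cast_pow] at h8
      push_cast at h8
      linarith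
    have hVr : ∀ a b, Bd a b → (m : ℝ) / (4 * D) ≤ m' * (Vv a b).card := by
      intro a b hab
      have h7 : (m / D : ℕ) ≤ m' * (Vv a b).card + 4 ^ t * m' := (hXY a b hab).2.1.trans (hV a b)
      have h8 : ((m / D : ℕ) : ℝ) ≤ ((m' * (Vv a b).card + 4 ^ t * m' : ℕ) : ℝ) := by
        exact_mod_cast h7
      rw [Nat.cast_add, Nat.cast_mul, Nat.cast_mul, Nat.cast_pow] at h8
      push_cast at h8
      linarith
    -- lower bound for a pair of clusters
    have hpair : ∀ a b, (dead H (P a) (P b) : ℝ) * (n a * n b) +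
        (if Bd a b then ((U a b).card : ℝ) * (Vv a b).card else 0) ≤
        ∑ x ∈ Finset.univ.filter (fun x => π x = a), ∑ y ∈ Finset.univ.filter (fun y => π y = b),
          (dead H (P' x) (P' y) : ℝ) := by
      intro a b
      by_cases hab : Bd a b
      · rw [if_pos hab]
        obtain ⟨_, _, c, hc1, hc2⟩ := hXY a b hab
        have e1 : (dead H (P a) (P b) : ℝ) * (n a * n b) + ((U a b).card : ℝ) * (Vv a b).card =
            ∑ x ∈ Finset.univ.filter (fun x => π x = a),
              ∑ y ∈ Finset.univ.filter (fun y => π y = b),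
              ((dead H (P a) (P b) : ℝ) +
                (if P' x ⊆ X a b then 1 else 0) * (if P' y ⊆ Y a b then 1 else 0)) := by
          simp only [Finset.sum_add_distrib]
          rw [← Finset.sum_mul_sum]
          have e2 : ∑ x ∈ Finset.univ.filter (fun x => π x = a),
              (if P' x ⊆ X a b then (1 : ℝ) else 0) = (U a b).card := by
            rw [Finset.sum_boole, Finset.filter_filter]
          have e3 : ∑ x ∈ Finset.univ.filter (fun x => π x = b),
              (if P' x ⊆ Y a b then (1 : ℝ) else 0) = (Vv a b).card := by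
            rw [Finset.sum_boole, Finset.filter_filter]
          rw [e2, e3]
          simp only [Finset.sum_const, nsmul_eq_mul]
          simp only [n]
          ring
        rw [e1]
        apply Finset.sum_le_sum
        intro x hx
        apply Finset.sum_le_sum
        intro y hy
        have hxa : π x = a := (Finset.mem_filter.1 hx).2
        have hyb : π y = b := (Finset.mem_filter.1 hy).2
        have hxP : P' x ⊆ P a := hxa ▸ h3 x
        have hyP : P' y ⊆ P b := hyb ▸ h3 y
        by_cases hx1 : P' x ⊆ X a b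
        · by_cases hy1 : P' y ⊆ Y a b
          · have := dead_succ H hxP hyP c hc1 (fun x' hx' y' hy' =>
              hc2 x' (hx1 hx') y' (hy1 hy'))
            rw [if_pos hx1, if_pos hy1, mul_one]
            exact_mod_cast this
          · have := dead_mono H hxP hyP
            rw [if_neg hy1, mul_zero, add_zero]
            exact_mod_cast this
        · have := dead_mono H hxP hyP
          rw [if_neg hx1, zero_mul, add_zero]
          exact_mod_cast this
      · rw [if_neg hab, add_zero]
        have e1 : (dead H (P a) (P b) : ℝ) * (n a * n b) =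
            ∑ x ∈ Finset.univ.filter (fun x => π x = a),
              ∑ y ∈ Finset.univ.filter (fun y => π y = b), (dead H (P a) (P b) : ℝ) := by
          simp only [Finset.sum_const, nsmul_eq_mul]
          simp only [n]
          ring
        rw [e1]
        apply Finset.sum_le_sum
        intro x hx
        apply Finset.sum_le_sum
        intro y hy
        have hxa : π x = a := (Finset.mem_filter.1 hx).2
        have hyb : π y = b := (Finset.mem_filter.1 hy).2
        have := dead_mono H (hxa ▸ h3 x : P' x ⊆ P a) (hyb ▸ h3 y : P' y ⊆ P b)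
        exact_mod_cast this
    have hPhi' : ∑ a, ∑ b, (if a ≠ b then
        (∑ x ∈ Finset.univ.filter (fun x => π x = a),
          ∑ y ∈ Finset.univ.filter (fun y => π y = b), (dead H (P' x) (P' y) : ℝ)) * m' ^ 2
        else 0) ≤ (Phi H P' m' : ℝ) := by
      have e1 : (Phi H P' m' : ℝ) = ∑ x, ∑ y, (if x ≠ y then
          (dead H (P' x) (P' y) : ℝ) * m' ^ 2 else 0) := by
        unfold Phi
        push_cast
        rfl
      rw [e1]
      have e2 : ∑ x, ∑ y, (if x ≠ y then (dead H (P' x) (P' y) : ℝ) * m' ^ 2 else 0) =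
          ∑ a, ∑ b, ∑ x ∈ Finset.univ.filter (fun x => π x = a),
          ∑ y ∈ Finset.univ.filter (fun y => π y = b),
            (if x ≠ y then (dead H (P' x) (P' y) : ℝ) * m' ^ 2 else 0) := by
        rw [← Finset.sum_fiberwise (s := Finset.univ) (g := π)]
        apply Finset.sum_congr rfl
        intro a _
        rw [Finset.sum_comm' (s := Finset.univ)
          (t := fun _ => Finset.univ.filter (fun x => π x = a))
          (s' := fun _ => Finset.univ) (t' := Finset.univ.filter (fun x => π x = a))
          (by simp)]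
        apply Finset.sum_congr rfl
        intro x _
        rw [← Finset.sum_fiberwise (s := Finset.univ) (g := π)]
      rw [e2]
      apply Finset.sum_le_sum
      intro a _
      apply Finset.sum_le_sum
      intro b _
      by_cases hab : a = b
      · rw [if_neg (by simpa using hab)]
        apply Finset.sum_nonneg
        intro x _
        apply Finset.sum_nonneg
        intro y _
        split_ifs
        · positivity
        · exact le_rfl
      · rw [if_pos hab, Finset.sum_mul]
        apply Finset.sum_le_sum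
        intro x hx
        rw [Finset.sum_mul]
        apply Finset.sum_le_sum
        intro y hy
        have hxa : π x = a := (Finset.mem_filter.1 hx).2
        have hyb : π y = b := (Finset.mem_filter.1 hy).2
        have hxy : x ≠ y := by
          intro h
          apply hab
          rw [← hxa, ← hyb, h]
        rw [if_pos hxy]
    refine le_trans ?_ hPhi'
    -- compare with the old potential
    have hterm : ∀ a b, (if a ≠ b then (1 - 2 / (q : ℝ)) * ((dead H (P a) (P b) : ℝ) * m ^ 2)
        + (if Bd a b then ((m : ℝ) / (4 * D)) ^ 2 else 0) else 0) ≤ (if a ≠ b then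
        (∑ x ∈ Finset.univ.filter (fun x => π x = a),
          ∑ y ∈ Finset.univ.filter (fun y => π y = b), (dead H (P' x) (P' y) : ℝ)) * m' ^ 2
        else 0) := by
      intro a b
      by_cases hab : a = b
      · rw [if_neg (by simpa using hab), if_neg (by simpa using hab)]
      · rw [if_pos hab, if_pos hab]
        have h7 := mul_le_mul_of_nonneg_right (hpair a b) (sq_nonneg (m' : ℝ))
        refine le_trans ?_ h7
        rw [add_mul]
        apply add_le_add
        · have h8 : (0 : ℝ) ≤ m * (1 - 1 / q) := by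
            apply mul_nonneg hm0
            rw [sub_nonneg, div_le_one hq0]
            have : (1 : ℝ) ≤ D := by exact_mod_cast hD
            linarith
          have h9 : ((m : ℝ) * (1 - 1 / q)) * (m * (1 - 1 / q)) ≤ (m' * n a) * (m' * n b) :=
            mul_le_mul (hnr a) (hnr b) h8 (by positivity)
          have h10 : (1 - 2 / (q : ℝ)) * m ^ 2 ≤ (m * (1 - 1 / q)) * (m * (1 - 1 / q)) := by
            have : (m * (1 - 1 / q)) * (m * (1 - 1 / q)) - (1 - 2 / (q : ℝ)) * m ^ 2 =
              (m / q) ^ 2 := by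
              field_simp
              ring
            nlinarith [sq_nonneg ((m : ℝ) / q)]
          have h11 : (0 : ℝ) ≤ dead H (P a) (P b) := by positivity
          calc (1 - 2 / (q : ℝ)) * ((dead H (P a) (P b) : ℝ) * m ^ 2)
              = (dead H (P a) (P b) : ℝ) * ((1 - 2 / (q : ℝ)) * m ^ 2) := by ring
            _ ≤ (dead H (P a) (P b) : ℝ) * ((m' * n a) * (m' * n b)) :=
                mul_le_mul_of_nonneg_left (h10.trans h9) h11
            _ = (dead H (P a) (P b) : ℝ) * (n a * n b) * m' ^ 2 := by ring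
        · by_cases hB : Bd a b
          · rw [if_pos hB, if_pos hB]
            have h8 : (0 : ℝ) ≤ m / (4 * D) := by positivity
            calc ((m : ℝ) / (4 * D)) ^ 2 = (m / (4 * D)) * (m / (4 * D)) := by ring
              _ ≤ (m' * (U a b).card) * (m' * (Vv a b).card) :=
                  mul_le_mul (hUr a b hB) (hVr a b hB) h8 (by positivity)
              _ = ((U a b).card : ℝ) * (Vv a b).card * m' ^ 2 := by ring
          · rw [if_neg hB, if_neg hB]
            simp
    have hle := Finset.sum_le_sum (s := (Finset.univ : Finset (Fin t)))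
      (fun a _ => Finset.sum_le_sum (s := (Finset.univ : Finset (Fin t)))
        (fun b _ => hterm a b))
    refine le_trans ?_ hle
    -- number of off-diagonal bad pairs
    let Bset : Finset (Fin t × Fin t) := Finset.univ.filter (fun p => Bd p.1 p.2)
    have hBcard : bad H (m / D) P ≤ Bset.card + t := by
      unfold bad
      have h7 : (Finset.univ.filter
          (fun p : Fin t × Fin t => ¬ ∃ c, (Red (H c) (m / D) P).Adj p.1 p.2)) ⊆
          Bset ∪ (Finset.univ.image fun a : Fin t => (a, a)) := by
        intro p hp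
        by_cases h8 : p.1 = p.2
        · apply Finset.mem_union_right
          exact Finset.mem_image.2 ⟨p.1, Finset.mem_univ _, by
            ext
            · rfl
            · simp [h8]⟩
        · apply Finset.mem_union_left
          exact Finset.mem_filter.2 ⟨Finset.mem_univ _, h8, (Finset.mem_filter.1 hp).2⟩
      refine (Finset.card_le_card h7).trans ((Finset.card_union_le _ _).trans ?_)
      apply Nat.add_le_add_left
      refine Finset.card_image_le.trans ?_
      simp
    have hB2 : (t : ℝ) ^ 2 / (2 * L) ≤ ((Bset.card : ℕ) : ℝ) := by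
      rw [div_le_iff₀ (by positivity)]
      have h7 : t ^ 2 ≤ L * (Bset.card + t) := hbad.le.trans (Nat.mul_le_mul_left _ hBcard)
      have h8 : 2 * (L * t) ≤ t ^ 2 := by nlinarith
      have h9 : t ^ 2 ≤ Bset.card * (2 * L) := by nlinarith
      exact_mod_cast h9
    have hsumB : ∑ a, ∑ b, (if Bd a b then ((m : ℝ) / (4 * D)) ^ 2 else 0) =
        ((Bset.card : ℕ) : ℝ) * ((m : ℝ) / (4 * D)) ^ 2 := by
      rw [← Finset.sum_product', Finset.univ_product_univ, ← Finset.sum_filter]
      simp [Bset]
    have hlhs : ∑ a, ∑ b, (if a ≠ b then (1 - 2 / (q : ℝ)) *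
        ((dead H (P a) (P b) : ℝ) * m ^ 2) + (if Bd a b then ((m : ℝ) / (4 * D)) ^ 2 else 0)
        else 0) = (1 - 2 / (q : ℝ)) * (Phi H P m : ℝ) +
          ((Bset.card : ℕ) : ℝ) * ((m : ℝ) / (4 * D)) ^ 2 := by
      rw [← hsumB]
      unfold Phi
      push_cast
      rw [Finset.mul_sum, ← Finset.sum_add_distrib]
      apply Finset.sum_congr rfl
      intro a _
      rw [Finset.mul_sum, ← Finset.sum_add_distrib]
      apply Finset.sum_congr rfl
      intro b _
      by_cases hab : a = b
      · have hB : ¬ Bd a b := fun h => h.1 hab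
        rw [if_neg (by simpa using hab), if_neg (by simpa using hab), if_neg hB]
        simp
      · rw [if_pos hab, if_pos hab]
    rw [hlhs]
    apply add_le_add le_rfl
    have h12 : ((t : ℝ) * m) ^ 2 / (32 * L * D ^ 2) = t ^ 2 / (2 * L) * (m / (4 * D)) ^ 2 := by
      field_simp
      ring
    rw [h12]
    exact mul_le_mul_of_nonneg_right hB2 (sq_nonneg _)

end CRam
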