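import Mathlib
import Pool.Agent.Lib.CRam.Defs
import Pool.Agent.Lib.CRam.PartDefs
import Pool.Agent.Lib.CRam.PartStep

/-!
# CRam.PartMain : the partition lemma (iteration of `partStep`)

Start with `2 L` consecutive blocks; as long as `L * bad > t^2` apply `partStep`; the potential
`Phi` grows by `N^2 / (256 L D^2)` in every round and is at most `k N^2`.
-/

open Classical

namespace CRam

/-- bounds for the number of clusters after `i` rounds -/
def partTau (L q : ℕ) : ℕ → ℕ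
  | 0 => 2 * L
  | i + 1 => 4 * partTau L q i * 4 ^ partTau L q i * q

theorem partTau_le_succ {L q : ℕ} (hq : 1 ≤ q) (i : ℕ) :
    partTau L q i ≤ partTau L q (i + 1) := by
  show partTau L q i ≤ 4 * partTau L q i * 4 ^ partTau L q i * q
  have h1 : 1 ≤ 4 ^ partTau L q i := Nat.one_le_pow _ _ (by norm_num)
  calc partTau L q i ≤ 4 * partTau L q i := by omega
    _ = 4 * partTau L q i * 1 * 1 := by ring
    _ ≤ 4 * partTau L q i * 4 ^ partTau L q i * q :=
        Nat.mul_le_mul (Nat.mul_le_mul le_rfl h1) hq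

theorem partTau_mono {L q : ℕ} (hq : 1 ≤ q) : Monotone (partTau L q) :=
  monotone_nat_of_le_succ (partTau_le_succ hq)

/-- total size of a family of disjoint clusters -/
theorem partMain_total {N t m : ℕ} (P : Fin t → Finset (Fin N))
    (hP : Pairwise fun i j => Disjoint (P i) (P j)) (hc : ∀ a, (P a).card = m) : t * m ≤ N := by
  have h1 : (Finset.univ.biUnion P).card = ∑ a, (P a).card :=
    Finset.card_biUnion fun i _ j _ hij => hP hij
  have h2 : (Finset.univ.biUnion P).card ≤ (Finset.univ : Finset (Fin N)).card :=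
    Finset.card_le_card (Finset.subset_univ _)
  rw [h1] at h2
  simpa [hc] using h2

theorem partMain_dead_le {k : ℕ} {V : Type*} (H : Fin k → SimpleGraph V) (A B : Finset V) :
    dead H A B ≤ k := by
  unfold dead
  refine (Finset.card_filter_le _ _).trans ?_
  simp

theorem partMain_Phi_le {k N t m : ℕ} (H : Fin k → SimpleGraph (Fin N))
    (P : Fin t → Finset (Fin N)) : Phi H P m ≤ k * (t * m) ^ 2 := by
  unfold Phi
  have h1 : ∀ a b : Fin t, (if a ≠ b then dead H (P a) (P b) * m ^ 2 else 0) ≤ k * m ^ 2 := by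
    intro a b
    split_ifs
    · exact Nat.mul_le_mul_right _ (partMain_dead_le H _ _)
    · exact Nat.zero_le _
  refine (Finset.sum_le_sum fun a _ => Finset.sum_le_sum fun b _ => h1 a b).trans ?_
  simp only [Finset.sum_const, Finset.card_univ, Fintype.card_fin, smul_eq_mul]
  apply le_of_eq
  ring

/-- the invariant -/
structure PartInv (k D L q N i : ℕ) (H : Fin k → SimpleGraph (Fin N)) (t m : ℕ)
    (P : Fin t → Finset (Fin N)) : Prop where
  tlo : 2 * L ≤ t
  thi : t ≤ partTau L q i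
  disj : Pairwise fun i j => Disjoint (P i) (P j)
  card : ∀ a, (P a).card = m
  size : (N : ℝ) * (1 - 1 / (4 * L) - i / q) ≤ (t : ℝ) * m
  phi : (i : ℝ) * ((N : ℝ) ^ 2 / (256 * L * D ^ 2)) ≤ (Phi H P m : ℝ)

theorem partMain_start {k D L q N : ℕ} (hL : 2 ≤ L) (hN : 8 * L ^ 2 ≤ N)
    (H : Fin k → SimpleGraph (Fin N)) :
    ∃ (t m : ℕ) (P : Fin t → Finset (Fin N)), PartInv k D L q N 0 H t m P := by
  set m : ℕ := N / (2 * L) with hm
  have hmN : 2 * L * m ≤ N := Nat.mul_div_le _ _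
  have hlt : ∀ a : Fin (2 * L), ∀ x ∈ Finset.Ico ((a : ℕ) * m) (((a : ℕ) + 1) * m), x < N := by
    intro a x hx
    have h1 := (Finset.mem_Ico.1 hx).2
    have h2 : ((a : ℕ) + 1) * m ≤ 2 * L * m := Nat.mul_le_mul_right _ a.2
    omega
  refine ⟨2 * L, m, fun a => (Finset.Ico ((a : ℕ) * m) (((a : ℕ) + 1) * m)).attachFin (hlt a),
    le_rfl, le_rfl, ?_, ?_, ?_, ?_⟩
  · intro a b hab
    rw [Finset.disjoint_left]
    intro x hx hy
    rw [Finset.mem_attachFin, Finset.mem_Ico] at hx hy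
    have hne : (a : ℕ) ≠ b := fun h => hab (Fin.ext h)
    rcases lt_or_gt_of_ne hne with h | h
    · have h1 : ((a : ℕ) + 1) * m ≤ (b : ℕ) * m := Nat.mul_le_mul_right _ h
      omega
    · have h1 : ((b : ℕ) + 1) * m ≤ (a : ℕ) * m := Nat.mul_le_mul_right _ h
      omega
  · intro a
    rw [Finset.card_attachFin, Nat.card_Ico, add_mul, one_mul, Nat.add_sub_cancel_left]
  · have h1 : N < 2 * L * m + 2 * L := by
      have := Nat.lt_mul_div_succ N (show 0 < 2 * L by omega)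
      rw [← hm, mul_add, mul_one] at this
      exact this
    have h1' : (N : ℝ) < 2 * L * m + 2 * L := by exact_mod_cast h1
    have h2' : (8 : ℝ) * L ^ 2 ≤ N := by exact_mod_cast hN
    have hLr : (2 : ℝ) ≤ L := by exact_mod_cast hL
    have h3 : (2 : ℝ) * L ≤ N * (1 / (4 * L)) := by
      rw [mul_one_div, le_div_iff₀ (by positivity)]
      nlinarith
    push_cast
    have h4 : (0 : ℝ) / (q : ℝ) = 0 := zero_div _
    rw [h4]
    nlinarith
  · simp

theorem partMain_step {k D L q N i R T : ℕ} (hD : 1 ≤ D) (hL : 2 ≤ L)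
    (hq : q = 512 * (k + 1) * L ^ 2 * D ^ 2) (hR : R = 256 * (k + 1) * L * D ^ 2)
    (hT : T = partTau L q R) (hi : i < R)
    (hN0 : 2 * T * (4 ^ T * q + 2 * D) ≤ N)
    (H : Fin k → SimpleGraph (Fin N))
    (hH : ∀ A B : Finset (Fin N), Disjoint A B → N ≤ 2 * T * A.card → N ≤ 2 * T * B.card →
        ∃ c, ∃ a ∈ A, ∃ b ∈ B, (H c).Adj a b)
    {t m : ℕ} {P : Fin t → Finset (Fin N)} (hI : PartInv k D L q N i H t m P)
    (hbad : t ^ 2 < L * bad H (m / D) P) :
    ∃ (t' m' : ℕ) (P' : Fin t' → Finset (Fin N)), PartInv k D L q N (i + 1) H t' m' P' := by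
  have hLr : (2 : ℝ) ≤ L := by exact_mod_cast hL
  have hDr : (1 : ℝ) ≤ D := by exact_mod_cast hD
  have hqpos : 1 ≤ q := by
    rw [hq]
    have : 0 < 512 * (k + 1) * L ^ 2 * D ^ 2 := by positivity
    omega
  have hqr : (0 : ℝ) < q := by exact_mod_cast hqpos
  have hqval : (q : ℝ) = 512 * (k + 1) * L ^ 2 * D ^ 2 := by rw [hq]; push_cast; ring
  have hiR : (i : ℝ) + 1 ≤ 256 * (k + 1) * L * D ^ 2 := by
    have : i + 1 ≤ R := hi
    have h2 : ((i + 1 : ℕ) : ℝ) ≤ (R : ℝ) := by exact_mod_cast this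
    rw [hR] at h2
    push_cast at h2
    exact h2
  have hiq : ((i : ℝ) + 1) / q ≤ 1 / (2 * L) := by
    rw [div_le_div_iff₀ hqr (by positivity), one_mul, hqval]
    calc ((i : ℝ) + 1) * (2 * L) ≤ (256 * (k + 1) * L * D ^ 2) * (2 * L) :=
          mul_le_mul_of_nonneg_right hiR (by positivity)
      _ = 512 * (k + 1) * L ^ 2 * D ^ 2 := by ring
  have hiq0 : (i : ℝ) / q ≤ ((i : ℝ) + 1) / q := div_le_div_of_nonneg_right (by linarith) hqr.le
  have hNr : (0 : ℝ) ≤ N := Nat.cast_nonneg N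
  have hLinv : 1 / (2 * (L : ℝ)) ≤ 1 / 4 := by
    rw [div_le_div_iff₀ (by positivity) (by norm_num)]
    linarith
  have hLinv2 : 1 / (4 * (L : ℝ)) ≤ 1 / 8 := by
    rw [div_le_div_iff₀ (by positivity) (by norm_num)]
    linarith
  have htT : t ≤ T := by
    rw [hT]
    exact hI.thi.trans (partTau_mono hqpos hi.le)
  have htpos : 1 ≤ t := by have := hI.tlo; omega
  have htot : t * m ≤ N := partMain_total P hI.disj hI.card
  -- half of the vertices are covered
  have hhalf : (N : ℝ) ≤ 2 * (t * m) := by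
    have h1 := hI.size
    nlinarith
  have hhalf' : N ≤ 2 * (t * m) := by exact_mod_cast hhalf
  have hmbig : 4 ^ T * q + 2 * D ≤ m := by
    have h1 : N ≤ 2 * T * m := by
      calc N ≤ 2 * (t * m) := hhalf'
        _ = 2 * t * m := by ring
        _ ≤ 2 * T * m := Nat.mul_le_mul_right _ (Nat.mul_le_mul_left _ htT)
    have hTpos : 0 < 2 * T := by omega
    exact Nat.le_of_mul_le_mul_left (hN0.trans h1) hTpos
  have h4t : 4 ^ t * q ≤ 4 ^ T * q :=
    Nat.mul_le_mul_right _ (Nat.pow_le_pow_right (by norm_num) htT)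
  set m' : ℕ := m / (4 ^ t * q) with hm'
  have h4tpos : 0 < 4 ^ t * q := by positivity
  have hm'1 : 1 ≤ m' := by
    rw [hm', Nat.one_le_div_iff h4tpos]
    omega
  have hmm : m' * 4 ^ t * q ≤ m := by
    rw [mul_assoc]
    exact Nat.div_mul_le_self _ _
  have hmlt : m < 2 * (m' * (4 ^ t * q)) := by
    have h1 : m < (4 ^ t * q) * (m' + 1) := Nat.lt_mul_div_succ m h4tpos
    calc m < (4 ^ t * q) * (m' + 1) := h1
      _ ≤ (4 ^ t * q) * (2 * m') := Nat.mul_le_mul_left _ (by omega)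
      _ = 2 * (m' * (4 ^ t * q)) := by ring
  have hq4 : 4 * D ≤ q := by
    rw [hq]
    calc 4 * D ≤ 512 * 1 * 1 * D := by omega
      _ ≤ 512 * (k + 1) * L ^ 2 * D ^ 2 := by
        refine Nat.mul_le_mul (Nat.mul_le_mul (Nat.mul_le_mul le_rfl (by omega)) ?_) ?_
        · exact Nat.one_le_pow _ _ (by omega)
        · exact Nat.le_self_pow (by norm_num) D
  obtain ⟨t', P', hdisj, hcard, hle, hge, hPhi⟩ := partStep (k := k) (N := N) (t := t) D L q m m'
    hD (by omega) hq4 hm'1 hmm (by omega) hI.tlo H P hI.disj hI.card (by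
      intro a b hab
      refine hH _ _ (hI.disj hab) ?_ ?_
      · rw [hI.card]
        calc N ≤ 2 * (t * m) := hhalf'
          _ = 2 * t * m := by ring
          _ ≤ 2 * T * m := Nat.mul_le_mul_right _ (Nat.mul_le_mul_left _ htT)
      · rw [hI.card]
        calc N ≤ 2 * (t * m) := hhalf'
          _ = 2 * t * m := by ring
          _ ≤ 2 * T * m := Nat.mul_le_mul_right _ (Nat.mul_le_mul_left _ htT)) hbad
  have hge' : (t : ℝ) * m - N / q ≤ (t' : ℝ) * m' := by
    have h1 : (q : ℝ) * (t * m) ≤ q * (t' * m') + t * m := by exact_mod_cast hge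
    have h2 : (t : ℝ) * m ≤ N := by exact_mod_cast htot
    have h3 : (q : ℝ) * ((t : ℝ) * m - N / q) ≤ q * (t' * m') := by
      rw [mul_sub, mul_div_cancel₀ _ hqr.ne']
      linarith
    exact le_of_mul_le_mul_left h3 hqr
  have hsize' : (N : ℝ) * (1 - 1 / (4 * L) - ((i : ℝ) + 1) / q) ≤ (t' : ℝ) * m' := by
    have h1 := hI.size
    have h2 : (N : ℝ) * (1 - 1 / (4 * L) - ((i : ℝ) + 1) / q) =
        N * (1 - 1 / (4 * L) - i / q) - N / q := by
      rw [add_div]; ring
    rw [h2]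
    linarith
  have hhalf2 : (N : ℝ) ≤ 2 * (t' * m') := by nlinarith
  have hhalf2' : N ≤ 2 * (t' * m') := by exact_mod_cast hhalf2
  refine ⟨t', m', P', ?_, ?_, hdisj, hcard, ?_, ?_⟩
  · -- `t ≤ t'`
    have h1 : 2 * t * m' ≤ 2 * t' * m' := by
      have h4q : 2 ≤ 4 ^ t * q := by
        have : 4 ^ 1 ≤ 4 ^ t := Nat.pow_le_pow_right (by norm_num) htpos
        calc 2 ≤ 4 * 1 := by norm_num
          _ ≤ 4 ^ t * q := Nat.mul_le_mul (by simpa using this) hqpos
      calc 2 * t * m' = t * (m' * 2) := by ring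
        _ ≤ t * (m' * (4 ^ t * q)) := Nat.mul_le_mul_left _ (Nat.mul_le_mul_left _ h4q)
        _ ≤ t * m := Nat.mul_le_mul_left _ (by rw [← mul_assoc]; exact hmm)
        _ ≤ N := htot
        _ ≤ 2 * (t' * m') := hhalf2'
        _ = 2 * t' * m' := by ring
    have h2 : 2 * t ≤ 2 * t' := Nat.le_of_mul_le_mul_right h1 hm'1
    have := hI.tlo
    omega
  · -- `t' ≤ 4 t 4^t q`
    have h1 : t' * m' ≤ (4 * t * 4 ^ t * q) * m' := by
      calc t' * m' ≤ t * m := hle
        _ ≤ t * (2 * (m' * (4 ^ t * q))) := Nat.mul_le_mul_left _ hmlt.le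
        _ = (2 * t * 4 ^ t * q) * m' := by ring
        _ ≤ (4 * t * 4 ^ t * q) * m' := by
          refine Nat.mul_le_mul_right _ (Nat.mul_le_mul_right _ (Nat.mul_le_mul_right _ ?_))
          omega
    have h2 : t' ≤ 4 * t * 4 ^ t * q := Nat.le_of_mul_le_mul_right h1 hm'1
    refine h2.trans ?_
    show 4 * t * 4 ^ t * q ≤ 4 * partTau L q i * 4 ^ partTau L q i * q
    refine Nat.mul_le_mul_right _ (Nat.mul_le_mul (Nat.mul_le_mul_left _ hI.thi) ?_)
    exact Nat.pow_le_pow_right (by norm_num) hI.thi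
  · push_cast
    exact hsize'
  · push_cast
    have h1 := hI.phi
    have hPk : (Phi H P m : ℝ) ≤ k * (N : ℝ) ^ 2 := by
      have h2 := partMain_Phi_le (m := m) H P
      have h3 : k * (t * m) ^ 2 ≤ k * N ^ 2 := Nat.mul_le_mul_left _ (Nat.pow_le_pow_left htot 2)
      exact_mod_cast h2.trans h3
    have hsq : (N : ℝ) ^ 2 / 4 ≤ ((t : ℝ) * m) ^ 2 := by
      have h4 : (N : ℝ) / 2 ≤ t * m := by linarith
      have h5 : ((N : ℝ) / 2) ^ 2 ≤ ((t : ℝ) * m) ^ 2 := pow_le_pow_left₀ (by positivity) h4 2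
      calc (N : ℝ) ^ 2 / 4 = ((N : ℝ) / 2) ^ 2 := by ring
        _ ≤ _ := h5
    have hgain : (N : ℝ) ^ 2 / (128 * L * D ^ 2) ≤ ((t : ℝ) * m) ^ 2 / (32 * L * D ^ 2) := by
      calc (N : ℝ) ^ 2 / (128 * L * D ^ 2) = ((N : ℝ) ^ 2 / 4) / (32 * L * D ^ 2) := by
            field_simp; ring
        _ ≤ _ := div_le_div_of_nonneg_right hsq (by positivity)
    have hloss : 2 / (q : ℝ) * (Phi H P m : ℝ) ≤ (N : ℝ) ^ 2 / (256 * L * D ^ 2) := by
      have hk : (k : ℝ) ≤ k + 1 := by linarith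
      calc 2 / (q : ℝ) * (Phi H P m : ℝ) ≤ 2 / (q : ℝ) * ((k + 1) * (N : ℝ) ^ 2) := by
            refine mul_le_mul_of_nonneg_left (hPk.trans ?_) (by positivity)
            exact mul_le_mul_of_nonneg_right hk (by positivity)
        _ = (N : ℝ) ^ 2 / (256 * L ^ 2 * D ^ 2) := by
            rw [hqval]
            have hk1 : ((k : ℝ) + 1) ≠ 0 := by positivity
            field_simp
            ring
        _ ≤ (N : ℝ) ^ 2 / (256 * L * D ^ 2) := by
            refine div_le_div_of_nonneg_left (by positivity) (by positivity) ?_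
            have : (L : ℝ) ≤ L ^ 2 := by nlinarith
            nlinarith [mul_nonneg (sub_nonneg.2 this) (sq_nonneg (D : ℝ))]
    have hsum : (N : ℝ) ^ 2 / (128 * L * D ^ 2) =
        (N : ℝ) ^ 2 / (256 * L * D ^ 2) + (N : ℝ) ^ 2 / (256 * L * D ^ 2) := by
      field_simp; ring
    have h6 : (1 - 2 / (q : ℝ)) * (Phi H P m : ℝ) =
        (Phi H P m : ℝ) - 2 / (q : ℝ) * (Phi H P m : ℝ) := by ring
    rw [h6] at hPhi
    linarith

/-- the version with `L ≥ 2` -/
theorem partition_aux (k D L : ℕ) (hD : 1 ≤ D) (hL : 2 ≤ L) :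
    ∃ T Q N0 : ℕ, 1 ≤ Q ∧ ∀ N ≥ N0, ∀ H : Fin k → SimpleGraph (Fin N),
      (∀ A B : Finset (Fin N), Disjoint A B → N ≤ Q * A.card → N ≤ Q * B.card →
        ∃ c, ∃ a ∈ A, ∃ b ∈ B, (H c).Adj a b) →
      ∃ (t m : ℕ) (P : Fin t → Finset (Fin N)), 1 ≤ t ∧ t ≤ T ∧
        (Pairwise fun i j => Disjoint (P i) (P j)) ∧ (∀ a, (P a).card = m) ∧
        L * N ≤ L * (t * m) + N ∧ L * bad H (m / D) P ≤ t ^ 2 := by
  obtain ⟨q, hq⟩ : ∃ q, q = 512 * (k + 1) * L ^ 2 * D ^ 2 := ⟨_, rfl⟩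
  obtain ⟨R, hR⟩ : ∃ R, R = 256 * (k + 1) * L * D ^ 2 := ⟨_, rfl⟩
  have hqpos : 1 ≤ q := by
    rw [hq]
    have : 0 < 512 * (k + 1) * L ^ 2 * D ^ 2 := by positivity
    omega
  obtain ⟨T, hT⟩ : ∃ T, T = partTau L q R := ⟨_, rfl⟩
  have hTL : 2 * L ≤ T := by
    rw [hT]
    exact partTau_mono hqpos (Nat.zero_le R)
  refine ⟨T, 2 * T, 2 * T * (4 ^ T * q + 2 * D) + 8 * L ^ 2 + 1, by omega, fun N hN H hH => ?_⟩
  by_contra hcon
  push Not at hcon
  have hNR : 2 * T * (4 ^ T * q + 2 * D) ≤ N := by omega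
  -- the invariant holds for ever
  have hinv : ∀ i, i ≤ R → ∃ (t m : ℕ) (P : Fin t → Finset (Fin N)),
      PartInv k D L q N i H t m P := by
    intro i
    induction i with
    | zero => intro _; exact partMain_start hL (by omega) H
    | succ i ih =>
      intro hi
      obtain ⟨t, m, P, hI⟩ := ih (by omega)
      refine partMain_step hD hL hq hR hT (by omega) hNR H hH hI ?_
      refine hcon t m P (by have := hI.tlo; omega)
        (by rw [hT]; exact hI.thi.trans (partTau_mono hqpos (by omega))) hI.disj hI.card ?_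
      -- the covered part is large
      have hLr : (2 : ℝ) ≤ L := by exact_mod_cast hL
      have hDr : (1 : ℝ) ≤ D := by exact_mod_cast hD
      have hqr : (0 : ℝ) < q := by exact_mod_cast hqpos
      have hqval : (q : ℝ) = 512 * (k + 1) * L ^ 2 * D ^ 2 := by rw [hq]; push_cast; ring
      have hiR : (i : ℝ) ≤ 256 * (k + 1) * L * D ^ 2 := by
        have : i ≤ 256 * (k + 1) * L * D ^ 2 := by rw [← hR]; omega
        exact_mod_cast this
      have hiq : (i : ℝ) / q ≤ 1 / (2 * L) := by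
        rw [div_le_div_iff₀ hqr (by positivity), one_mul, hqval]
        calc (i : ℝ) * (2 * L) ≤ (256 * (k + 1) * L * D ^ 2) * (2 * L) :=
              mul_le_mul_of_nonneg_right hiR (by positivity)
          _ = 512 * (k + 1) * L ^ 2 * D ^ 2 := by ring
      have hsz := hI.size
      have hNr : (0 : ℝ) ≤ N := Nat.cast_nonneg N
      have h1 : (N : ℝ) * (1 - 1 / L) ≤ t * m := by
        refine le_trans (mul_le_mul_of_nonneg_left ?_ hNr) hsz
        have h2 : 1 / (4 * (L : ℝ)) + 1 / (2 * L) ≤ 1 / L := by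
          have : (0 : ℝ) < L := by linarith
          rw [div_add_div _ _ (by positivity) (by positivity),
            div_le_div_iff₀ (by positivity) this]
          nlinarith
        linarith
      have h3 : (L : ℝ) * N ≤ L * (t * m) + N := by
        have h4 : (L : ℝ) * (N * (1 - 1 / L)) ≤ L * (t * m) :=
          mul_le_mul_of_nonneg_left h1 (by linarith)
        have h5 : (L : ℝ) * (N * (1 - 1 / L)) = L * N - N := by
          have : (L : ℝ) ≠ 0 := by linarith
          field_simp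
        linarith
      exact_mod_cast h3
  obtain ⟨t, m, P, hI⟩ := hinv R le_rfl
  have h1 := hI.phi
  have h2 := partMain_Phi_le (m := m) H P
  have h3 : k * (t * m) ^ 2 ≤ k * N ^ 2 :=
    Nat.mul_le_mul_left _ (Nat.pow_le_pow_left (partMain_total P hI.disj hI.card) 2)
  have h4 : (Phi H P m : ℝ) ≤ k * (N : ℝ) ^ 2 := by exact_mod_cast h2.trans h3
  have hLr : (2 : ℝ) ≤ L := by exact_mod_cast hL
  have hDr : (1 : ℝ) ≤ D := by exact_mod_cast hD
  have h5 : (R : ℝ) * ((N : ℝ) ^ 2 / (256 * L * D ^ 2)) = (k + 1) * (N : ℝ) ^ 2 := by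
    rw [hR]
    push_cast
    field_simp
  rw [h5] at h1
  have hNpos : (0 : ℝ) < N := by
    have : 0 < N := by omega
    exact_mod_cast this
  nlinarith [pow_pos hNpos 2]

theorem partition (k D L : ℕ) (hD : 1 ≤ D) (hL : 1 ≤ L) :
    ∃ T Q N0 : ℕ, 1 ≤ Q ∧ ∀ N ≥ N0, ∀ H : Fin k → SimpleGraph (Fin N),
      (∀ A B : Finset (Fin N), Disjoint A B → N ≤ Q * A.card → N ≤ Q * B.card →
        ∃ c, ∃ a ∈ A, ∃ b ∈ B, (H c).Adj a b) →
      ∃ (t m : ℕ) (P : Fin t → Finset (Fin N)), 1 ≤ t ∧ t ≤ T ∧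
        (Pairwise fun i j => Disjoint (P i) (P j)) ∧ (∀ a, (P a).card = m) ∧
        L * N ≤ L * (t * m) + N ∧ L * bad H (m / D) P ≤ t ^ 2 := by
  obtain ⟨T, Q, N0, hQ, h⟩ := partition_aux k D (L + 1) hD (by omega)
  refine ⟨T, Q, N0, hQ, fun N hN H hH => ?_⟩
  obtain ⟨t, m, P, h1, h2, h3, h4, h5, h6⟩ := h N hN H hH
  refine ⟨t, m, P, h1, h2, h3, h4, ?_, ?_⟩
  · have h7 := partMain_total P h3 h4
    rw [add_mul, add_mul, one_mul, one_mul] at h5
    omega
  · refine le_trans (Nat.mul_le_mul_right _ (by omega)) h6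

end CRam
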