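import Mathlib

/-!
# CRam.Sides : 2-colouring of the bipartite components, and the choice of heavier sides

Sketch. `exists_side`: for every component choose a representative `ρ`; `σ a` = (there is a walk
of odd length from `ρ` to `a`). If there is no odd closed walk at `a`, all the walks from `ρ` to `a`
have the same parity, and adjacent vertices get different values.
`heavier_sides`: average over all `τ : Fin k → κ → Bool` restricted to the finitely many classes that
occur (or greedy induction over the colours and classes: processing the classes one after the other,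
keep the heavier side of the class with respect to the current weights and double the weights of
the kept elements of this class; the total weight does not decrease). Averaging: for fixed `i` and
random `τ`, `P(i ∈ U) = 2 ^ (-(number of c with bip c i))`, so `E ∑_{i ∈ U} 2 ^ (#{c | bip c i}) = |ι|`.
Greedy over the colours only: for one colour choose `τ : κ → Bool` such that for each class the
kept side is the heavier one; iterate over the `k` colours with weight functions `ι → ℕ`.
-/

open Classical

namespace CRam

theorem exists_side {ι : Type*} (Γ : SimpleGraph ι) :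
    ∃ σ : ι → Bool, ∀ a b, Γ.Adj a b → (∀ w : Γ.Walk a a, ¬ Odd w.length) → σ a ≠ σ b := by
  have hrep : ∀ a, Γ.Reachable (Γ.connectedComponentMk a).out a := by
    intro a
    exact SimpleGraph.ConnectedComponent.exact (Quot.out_eq (Γ.connectedComponentMk a))
  refine ⟨fun a => decide (∃ w : Γ.Walk (Γ.connectedComponentMk a).out a, Odd w.length), ?_⟩
  intro a b hab hno
  have hcc : Γ.connectedComponentMk a = Γ.connectedComponentMk b :=
    SimpleGraph.ConnectedComponent.sound hab.reachable
  obtain ⟨w⟩ := hrep a
  have hpar : ∀ w1 w2 : Γ.Walk (Γ.connectedComponentMk a).out a, Odd w1.length →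
      ¬ Even w2.length := by
    intro w1 w2 h1 h2
    apply hno (w1.reverse.append w2)
    rw [SimpleGraph.Walk.length_append, SimpleGraph.Walk.length_reverse]
    exact h1.add_even h2
  simp only [ne_eq, decide_eq_decide]
  rw [← hcc]
  intro hiff
  by_cases hw : Odd w.length
  · obtain ⟨w', hw'⟩ := hiff.1 ⟨w, hw⟩
    apply hpar w (w'.append (SimpleGraph.Walk.cons hab.symm SimpleGraph.Walk.nil)) hw
    rw [SimpleGraph.Walk.length_append, SimpleGraph.Walk.length_cons,
      SimpleGraph.Walk.length_nil]
    exact hw'.add_one
  · rw [Nat.not_odd_iff_even] at hw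
    obtain ⟨w', hw'⟩ := hiff.2 ⟨w.append (SimpleGraph.Walk.cons hab SimpleGraph.Walk.nil), by
      rw [SimpleGraph.Walk.length_append, SimpleGraph.Walk.length_cons,
        SimpleGraph.Walk.length_nil]
      exact hw.add_one⟩
    exact hpar w' w hw' hw

theorem heavier_aux {ι κ : Type*} (k : ℕ) (C : Fin k → ι → κ) (σ : Fin k → ι → Bool)
    (bip : Fin k → ι → Prop) (hbip : ∀ c i j, C c i = C c j → (bip c i ↔ bip c j))
    (V : Finset ι) (S : Finset (Fin k)) :
    ∃ U : Finset ι,
      (∀ c ∈ S, ∀ i ∈ U, ∀ j ∈ U, C c i = C c j → bip c i → σ c i = σ c j) ∧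
      V.card ≤ ∑ i ∈ U, 2 ^ ((S.filter (fun c => bip c i)).card) := by
  induction S using Finset.induction_on with
  | empty =>
    refine ⟨V, by simp, ?_⟩
    simp
  | insert c S hc ih =>
    obtain ⟨U, hU1, hU2⟩ := ih
    have hτ : ∀ x : κ, ∃ b : Bool,
        ∑ i ∈ U.filter (fun i => C c i = x), 2 ^ ((S.filter (fun c => bip c i)).card) ≤
        ∑ i ∈ U.filter (fun i => C c i = x),
          (if σ c i = b then 2 * 2 ^ ((S.filter (fun c => bip c i)).card) else 0) := by
      intro x
      by_contra hcon
      push Not at hcon
      have h1 := hcon true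
      have h2 := hcon false
      have h3 : ∑ i ∈ U.filter (fun i => C c i = x),
          (if σ c i = true then 2 * 2 ^ ((S.filter (fun c => bip c i)).card) else 0) +
          ∑ i ∈ U.filter (fun i => C c i = x),
          (if σ c i = false then 2 * 2 ^ ((S.filter (fun c => bip c i)).card) else 0) =
          2 * ∑ i ∈ U.filter (fun i => C c i = x), 2 ^ ((S.filter (fun c => bip c i)).card) := by
        rw [← Finset.sum_add_distrib, Finset.mul_sum]
        apply Finset.sum_congr rfl
        intro i _
        cases σ c i <;> simp
      omega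
    choose τ hτ using hτ
    refine ⟨U.filter (fun i => bip c i → σ c i = τ (C c i)), ?_, ?_⟩
    · intro d hd i hi j hj hij hb
      rw [Finset.mem_filter] at hi hj
      rcases Finset.mem_insert.1 hd with rfl | hd
      · rw [hi.2 hb, hj.2 ((hbip _ _ _ hij).1 hb), hij]
      · exact hU1 d hd i hi.1 j hj.1 hij hb
    · refine hU2.trans ?_
      rw [Finset.sum_filter]
      rw [← Finset.sum_fiberwise_of_maps_to (s := U) (t := U.image (C c)) (g := C c)
          (fun i hi => Finset.mem_image_of_mem _ hi),
        ← Finset.sum_fiberwise_of_maps_to (s := U) (t := U.image (C c)) (g := C c)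
          (fun i hi => Finset.mem_image_of_mem _ hi)]
      apply Finset.sum_le_sum
      intro x hx
      obtain ⟨i₀, hi₀, hx0⟩ := Finset.mem_image.1 hx
      by_cases hb : bip c i₀
      · refine (hτ x).trans (le_of_eq ?_)
        apply Finset.sum_congr rfl
        intro i hi
        rw [Finset.mem_filter] at hi
        have hbi : bip c i := (hbip c i₀ i (by rw [hx0, hi.2])).1 hb
        rw [Finset.filter_insert, if_pos hbi, Finset.card_insert_of_notMem
          (fun h => hc (Finset.mem_of_mem_filter _ h)), pow_succ, mul_comm]
        by_cases h4 : σ c i = τ x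
        · rw [if_pos h4, if_pos (fun _ => h4.trans (by rw [hi.2]))]
        · rw [if_neg h4, if_neg (fun h5 => h4 ((h5 hbi).trans (by rw [hi.2])))]
      · apply le_of_eq
        apply Finset.sum_congr rfl
        intro i hi
        rw [Finset.mem_filter] at hi
        have hbi : ¬ bip c i := fun h => hb ((hbip c i₀ i (by rw [hx0, hi.2])).2 h)
        rw [if_pos (fun h => absurd h hbi), Finset.filter_insert, if_neg hbi]

theorem heavier_sides {ι κ : Type*} [Fintype ι] (k : ℕ) (C : Fin k → ι → κ) (σ : Fin k → ι → Bool)
    (bip : Fin k → ι → Prop) (hbip : ∀ c i j, C c i = C c j → (bip c i ↔ bip c j)) :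
    ∃ U : Finset ι,
      (∀ i ∈ U, ∀ j ∈ U, ∀ c, C c i = C c j → bip c i → σ c i = σ c j) ∧
      Fintype.card ι ≤
        ∑ i ∈ U, 2 ^ ((Finset.univ.filter (fun c : Fin k => bip c i)).card) := by
  obtain ⟨U, h1, h2⟩ := heavier_aux k C σ bip hbip Finset.univ Finset.univ
  exact ⟨U, fun i hi j hj c => h1 c (Finset.mem_univ _) i hi j hj, h2⟩

end CRam
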