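import Mathlib
import Pool.Agent.Lib.CRam.Defs
import Pool.Agent.Lib.CRam.PartDefs
import Pool.Agent.Lib.CRam.PartMain
import Pool.Agent.Lib.CRam.Konig
import Pool.Agent.Lib.CRam.CycleEmb
import Pool.Agent.Lib.CRam.Sides

/-!
# CRam.System : from a coloured joined graph without monochromatic `C_ℓ` to a system of weights
-/

open Classical

namespace CRam

/-- `i` lies on an odd closed walk, or the target length is even. -/
def sysGood {ι : Type*} (Γ : SimpleGraph ι) (ℓ : ℕ) (i : ι) : Prop :=
  Even ℓ ∨ ∃ w : Γ.Walk i i, Odd w.length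

theorem sysGood_of_reachable {ι : Type*} {Γ : SimpleGraph ι} {ℓ : ℕ} {i j : ι}
    (h : Γ.Reachable i j) (hi : sysGood Γ ℓ i) : sysGood Γ ℓ j := by
  rcases hi with hi | ⟨w, hw⟩
  · exact Or.inl hi
  · obtain ⟨u⟩ := h
    refine Or.inr ⟨(u.reverse.append w).append u, ?_⟩
    simp only [SimpleGraph.Walk.length_append, SimpleGraph.Walk.length_reverse]
    have : u.length + w.length + u.length = w.length + 2 * u.length := by ring
    rw [this]
    exact Odd.add_even hw (even_two_mul _)

/-- Optional labels of one colour. -/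
noncomputable def sysK {ι : Type*} (Γ : SimpleGraph ι) (ℓ : ℕ) (i : ι) : Option (Set ι) :=
  if sysGood Γ ℓ i then some (Γ.connectedComponentMk i).supp else none

theorem sysK_isSome {ι : Type*} (Γ : SimpleGraph ι) (ℓ : ℕ) (i : ι) :
    (sysK Γ ℓ i).isSome ↔ sysGood Γ ℓ i := by
  unfold sysK; split_ifs with h <;> simp [h]

/-- One colour: weights on the components of the reduced graph. -/
theorem sys_one {V ι : Type*} [DecidableEq V] [Fintype ι] (H : SimpleGraph V) (s m t ℓ : ℕ)
    (P : ι → Finset V) (hP : Pairwise fun i j => Disjoint (P i) (P j))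
    (hm : ∀ a, (P a).card = m)
    (Γ : SimpleGraph ι) (hΓ : ∀ a b, Γ.Adj a b → Jn H s (P a) (P b))
    (ht : Fintype.card ι = t) (hst : 10 * t * t + 10 ≤ s) (hl : 80 * t * s ≤ ℓ)
    (hno : ¬ (SimpleGraph.cycleGraph ℓ).IsContained H) :
    ∃ F : ι → ℕ, (∀ i, F i ≤ 2) ∧ (∀ a b, Γ.Adj a b → 2 ≤ F a + F b) ∧
      ∀ x, (m - 300 * s) * ∑ i ∈ Finset.univ.filter (fun i => sysK Γ ℓ i = some x), F i ≤ ℓ := by
  have key : ∀ C : Γ.ConnectedComponent, ∃ M : Finset (ι × ι), ∃ F : ι → ℕ,
      (∀ p ∈ M, (Γ.Adj p.1 p.2 ∧ Γ.connectedComponentMk p.1 = C ∧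
        Γ.connectedComponentMk p.2 = C)) ∧
      Set.InjOn Prod.fst (M : Set (ι × ι)) ∧ Set.InjOn Prod.snd (M : Set (ι × ι)) ∧
      (∀ a, F a ≤ 2) ∧ (∀ a b, (Γ.Adj a b ∧ Γ.connectedComponentMk a = C ∧
        Γ.connectedComponentMk b = C) → 2 ≤ F a + F b) ∧ ∑ a, F a ≤ M.card := by
    intro C
    obtain ⟨M, hM, h1, h2, F, hF1, hF2, hF3⟩ := konig
      (fun a b => Γ.Adj a b ∧ Γ.connectedComponentMk a = C ∧ Γ.connectedComponentMk b = C)
      (fun a b h => ⟨h.1.symm, h.2.2, h.2.1⟩)
    exact ⟨M, F, hM, h1, h2, hF1, hF2, hF3⟩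
  choose M F hM h1 h2 hF1 hF2 hF3 using key
  refine ⟨fun i => F (Γ.connectedComponentMk i) i, fun i => hF1 _ i, ?_, ?_⟩
  · intro a b hab
    have hc : Γ.connectedComponentMk a = Γ.connectedComponentMk b :=
      SimpleGraph.ConnectedComponent.sound hab.reachable
    have := hF2 (Γ.connectedComponentMk a) a b ⟨hab, rfl, hc.symm⟩
    show 2 ≤ F (Γ.connectedComponentMk a) a + F (Γ.connectedComponentMk b) b
    rw [← hc]
    exact this
  · intro x
    by_cases hx : ∃ i0, sysK Γ ℓ i0 = some x
    · obtain ⟨i0, hi0⟩ := hx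
      have hgood : sysGood Γ ℓ i0 := by
        rw [← sysK_isSome, hi0]; rfl
      have hx' : x = (Γ.connectedComponentMk i0).supp := by
        unfold sysK at hi0
        rw [if_pos hgood] at hi0
        exact (Option.some.inj hi0).symm
      set C := Γ.connectedComponentMk i0 with hC
      have hsum : ∑ i ∈ Finset.univ.filter (fun i => sysK Γ ℓ i = some x),
          F (Γ.connectedComponentMk i) i ≤ (M C).card := by
        refine le_trans ?_ (hF3 C)
        calc ∑ i ∈ Finset.univ.filter (fun i => sysK Γ ℓ i = some x),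
              F (Γ.connectedComponentMk i) i
            = ∑ i ∈ Finset.univ.filter (fun i => sysK Γ ℓ i = some x), F C i := by
              refine Finset.sum_congr rfl ?_
              intro i hi
              rw [Finset.mem_filter] at hi
              have hgi : sysGood Γ ℓ i := by rw [← sysK_isSome, hi.2]; rfl
              have : (Γ.connectedComponentMk i).supp = x := by
                have := hi.2
                unfold sysK at this
                rw [if_pos hgi] at this
                exact Option.some.inj this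
              have hCi : Γ.connectedComponentMk i = C := by
                apply SimpleGraph.ConnectedComponent.supp_injective
                rw [this, hx']
              rw [hCi]
          _ ≤ ∑ i, F C i := Finset.sum_le_sum_of_subset (Finset.filter_subset _ _)
      have hlt : (m - 300 * s) * (M C).card ≤ ℓ := by
        by_contra hcon
        push Not at hcon
        apply hno
        have hMne : (M C).Nonempty := by
          rw [Finset.nonempty_iff_ne_empty]
          intro h0
          rw [h0] at hcon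
          simp at hcon
        have hms : 300 * s ≤ m := by
          by_contra hms
          push Not at hms
          rw [Nat.sub_eq_zero_of_le hms.le] at hcon
          simp at hcon
        refine cycleEmb H s m t ℓ P hP hm Γ hΓ ht hst hl (M C) (fun p hp => (hM C p hp).1)
          (h1 C) (h2 C) ?_ ?_ ?_
        · intro p hp q hq
          have e1 := (hM C p hp).2.1
          have e2 := (hM C q hq).2.1
          exact SimpleGraph.ConnectedComponent.exact (e1.trans e2.symm)
        · obtain ⟨m', rfl⟩ := Nat.exists_eq_add_of_le hms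
          rw [Nat.add_sub_cancel_left] at hcon
          nlinarith
        · rcases hgood with hg | hg
          · exact Or.inl hg
          · obtain ⟨p, hp⟩ := hMne
            have e1 := (hM C p hp).2.1
            have hr : Γ.Reachable i0 p.1 :=
              SimpleGraph.ConnectedComponent.exact (hC.symm.trans e1.symm)
            have := sysGood_of_reachable (ℓ := ℓ) hr (Or.inr hg)
            rcases this with h | h
            · exact Or.inl h
            · exact Or.inr ⟨p, hp, h⟩
      exact le_trans (Nat.mul_le_mul_left _ hsum) hlt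
    · push Not at hx
      rw [Finset.sum_eq_zero]
      · simp
      · intro i hi
        rw [Finset.mem_filter] at hi
        exact absurd hi.2 (hx i)

theorem system (k D L : ℕ) (hD : 1 ≤ D) (hL : 2 ≤ L) :
    ∃ Q N0 : ℕ, 1 ≤ Q ∧ ∀ N ≥ N0, ∀ G : SimpleGraph (Fin N), Joined Q G →
      ∀ χ : Sym2 (Fin N) → Fin k, ∀ ℓ : ℕ, 80 * N ≤ D * ℓ →
      (∀ c, ¬ (SimpleGraph.cycleGraph ℓ).IsContained (colGraph G χ c)) →
      ∃ (t m : ℕ) (K : Fin k → Fin t → Option (Set (Fin t))) (F : Fin k → Fin t → ℕ)
        (U : Finset (Fin t)),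
        1 ≤ t ∧ 1 ≤ m ∧ L * N ≤ L * (t * m) + N ∧ (∀ c i, F c i ≤ 2) ∧
        (∀ c x, (m - 300 * (m / D)) *
          ∑ i ∈ Finset.univ.filter (fun i => K c i = some x), F c i ≤ ℓ) ∧
        L * (Finset.univ.filter (fun p : Fin t × Fin t =>
          p.1 ∈ U ∧ p.2 ∈ U ∧ ¬ Cov K F p.1 p.2)).card ≤ t ^ 2 ∧
        (Even ℓ → ∀ i, lab K i = k) ∧ t ≤ ∑ i ∈ U, 2 ^ (k - lab K i) := by
  obtain ⟨T, Q, N0, hQ, hpart⟩ := partition k D L hD (by omega)
  refine ⟨Q, max N0 (2 * T * D * (10 * T * T + 11) + 1), hQ, ?_⟩
  intro N hN G hG χ ℓ hℓ hno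
  obtain ⟨t, m, P, ht1, htT, hP, hm, hcov, hbad⟩ := hpart N (le_trans (le_max_left _ _) hN)
    (colGraph G χ) (by
      intro A B hAB hA hB
      obtain ⟨a, ha, b, hb, hab⟩ := hG A B hAB hA hB
      exact ⟨χ s(a, b), a, ha, b, hb, hab, rfl⟩)
  have hN2 : 2 * T * D * (10 * T * T + 11) + 1 ≤ N := le_trans (le_max_right _ _) hN
  -- `t * m ≤ N`
  have htm : t * m ≤ N := by
    have h : (Finset.univ.biUnion P).card = t * m := by
      rw [Finset.card_biUnion (fun i _ j _ hij => hP hij)]
      simp [hm]
    rw [← h]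
    simpa using Finset.card_le_univ (Finset.univ.biUnion P)
  -- `N ≤ 2 t m`
  have hNtm : N ≤ 2 * (t * m) := by
    have h1 : L * N ≤ L * (t * m) + N := hcov
    nlinarith
  have hT1 : 1 ≤ T := le_trans ht1 htT
  have hms : D * (10 * T * T + 11) ≤ m := by
    by_contra hcon
    push Not at hcon
    have : N < 2 * (T * (D * (10 * T * T + 11))) := by
      calc N ≤ 2 * (t * m) := hNtm
        _ ≤ 2 * (T * m) := by gcongr
        _ < 2 * (T * (D * (10 * T * T + 11))) := by
          have := (Nat.mul_lt_mul_left (a := T) (by omega)).2 hcon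
          omega
    nlinarith
  have hm1 : 1 ≤ m := by
    have : 1 ≤ D * (10 * T * T + 11) := Nat.one_le_iff_ne_zero.2 (by positivity)
    omega
  have hs : 10 * t * t + 10 ≤ m / D := by
    rw [Nat.le_div_iff_mul_le (by omega)]
    have h1 : t * t ≤ T * T := Nat.mul_le_mul htT htT
    nlinarith
  have hl80 : 80 * t * (m / D) ≤ ℓ := by
    have h1 : D * (m / D) ≤ m := Nat.mul_div_le m D
    have h2 : D * (80 * t * (m / D)) ≤ D * ℓ := by
      calc D * (80 * t * (m / D)) = 80 * (t * (D * (m / D))) := by ring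
        _ ≤ 80 * (t * m) := by gcongr
        _ ≤ 80 * N := by gcongr
        _ ≤ D * ℓ := hℓ
    exact Nat.le_of_mul_le_mul_left h2 (by omega)
  -- weights
  have hF : ∀ c : Fin k, ∃ F : Fin t → ℕ, (∀ i, F i ≤ 2) ∧
      (∀ a b, (Red (colGraph G χ c) (m / D) P).Adj a b → 2 ≤ F a + F b) ∧
      ∀ x, (m - 300 * (m / D)) * ∑ i ∈ Finset.univ.filter
        (fun i => sysK (Red (colGraph G χ c) (m / D) P) ℓ i = some x), F i ≤ ℓ := by
    intro c
    exact sys_one (colGraph G χ c) (m / D) m t ℓ P hP hm _ (fun a b h => h.2) (by simp) hs hl80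
      (hno c)
  choose F hF2 hFe hFs using hF
  -- sides
  have hσ : ∀ c : Fin k, ∃ σ : Fin t → Bool, ∀ a b,
      (Red (colGraph G χ c) (m / D) P).Adj a b →
      (∀ w : (Red (colGraph G χ c) (m / D) P).Walk a a, ¬ Odd w.length) → σ a ≠ σ b :=
    fun c => exists_side _
  choose σ hσ using hσ
  obtain ⟨U, hU1, hU2⟩ := heavier_sides k
    (fun c i => ((Red (colGraph G χ c) (m / D) P).connectedComponentMk i).supp) σ
    (fun c i => ¬ sysGood (Red (colGraph G χ c) (m / D) P) ℓ i) (by
      intro c i j hij
      have hc : (Red (colGraph G χ c) (m / D) P).connectedComponentMk i =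
          (Red (colGraph G χ c) (m / D) P).connectedComponentMk j :=
        SimpleGraph.ConnectedComponent.supp_injective hij
      have hr := SimpleGraph.ConnectedComponent.exact hc
      exact ⟨fun h h' => h (sysGood_of_reachable hr.symm h'),
        fun h h' => h (sysGood_of_reachable hr h')⟩)
  refine ⟨t, m, fun c i => sysK (Red (colGraph G χ c) (m / D) P) ℓ i, F, U, ht1, hm1, hcov, hF2,
    hFs, ?_, ?_, ?_⟩
  · refine le_trans (Nat.mul_le_mul_left _ (Finset.card_le_card ?_)) hbad
    intro p hp
    rw [Finset.mem_filter] at hp ⊢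
    refine ⟨Finset.mem_univ _, ?_⟩
    rintro ⟨c, hc⟩
    obtain ⟨-, hp1, hp2, hncov⟩ := hp
    apply hncov
    have hcomp : (Red (colGraph G χ c) (m / D) P).connectedComponentMk p.1 =
        (Red (colGraph G χ c) (m / D) P).connectedComponentMk p.2 :=
      SimpleGraph.ConnectedComponent.sound hc.reachable
    have hgood : sysGood (Red (colGraph G χ c) (m / D) P) ℓ p.1 := by
      by_contra hng
      have h1 := hU1 p.1 hp1 p.2 hp2 c (by rw [hcomp]) hng
      refine hσ c p.1 p.2 hc ?_ h1
      intro w hw
      exact hng (Or.inr ⟨w, hw⟩)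
    have hgood2 : sysGood (Red (colGraph G χ c) (m / D) P) ℓ p.2 :=
      sysGood_of_reachable hc.reachable hgood
    refine ⟨c, ((Red (colGraph G χ c) (m / D) P).connectedComponentMk p.1).supp, ?_, ?_,
      hFe c _ _ hc⟩
    · show sysK _ ℓ p.1 = _
      unfold sysK
      rw [if_pos hgood]
    · show sysK _ ℓ p.2 = _
      unfold sysK
      rw [if_pos hgood2, hcomp]
  · intro hev i
    unfold lab
    rw [Finset.filter_true_of_mem]
    · simp
    · intro c _
      show (sysK _ ℓ i).isSome
      rw [sysK_isSome]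
      exact Or.inl hev
  · have : Fintype.card (Fin t) = t := by simp
    rw [this] at hU2
    refine le_trans hU2 (le_of_eq (Finset.sum_congr rfl ?_))
    intro i _
    congr 1
    unfold lab
    have h1 : (Finset.univ.filter (fun c : Fin k =>
        ¬ sysGood (Red (colGraph G χ c) (m / D) P) ℓ i)).card +
        (Finset.univ.filter (fun c : Fin k =>
          (sysK (Red (colGraph G χ c) (m / D) P) ℓ i).isSome)).card = k := by
      have h2 : (Finset.univ.filter (fun c : Fin k =>
          (sysK (Red (colGraph G χ c) (m / D) P) ℓ i).isSome)) =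
          (Finset.univ.filter (fun c : Fin k =>
            sysGood (Red (colGraph G χ c) (m / D) P) ℓ i)) := by
        ext c
        simp only [Finset.mem_filter, Finset.mem_univ, true_and]
        exact sysK_isSome _ _ _
      rw [h2, add_comm, Finset.card_filter_add_card_filter_not]
      simp
    convert Nat.eq_sub_of_add_eq h1

end CRam
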