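import Mathlib
import Pool.Agent.Lib.CRam.Defs
import Pool.Agent.Lib.CRam.System
import Pool.Agent.Lib.CRam.Robust
import Pool.Agent.Lib.CRam.ExactW
import Pool.Agent.Lib.CRam.Prob2

/-!
# CRam.Final : the four Ramsey statements
-/

open Classical Filter Topology

namespace CRam

/-- The final real arithmetic. -/
theorem det_arith (α β n N t m m' c δ η : ℝ) (hα : 1 ≤ α) (hβ : 0 ≤ β) (hη0 : 0 < η)
    (hη1 : η ≤ 1 / 6) (_hn : 0 ≤ n) (ht : 1 ≤ t) (hm : 1 ≤ m) (hN : 0 ≤ N)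
    (hc : α * c = 2 * β) (h7 : 3 * η * (c + δ) = δ / 2)
    (hm' : m * (1 - η) ≤ m') (hNge : (c + δ) * n < N + 1)
    (hn2 : 2 * (α + β) < n * (α * δ))
    (h3 : N * (1 - η) ≤ t * m) (ℓ : ℝ) (hℓ : ℓ ≤ 2 * n + 1)
    (hmain : α * t ≤ β * (ℓ / m') + α * η * t) : False := by
  have hm'0 : 0 < m' := lt_of_lt_of_le (by nlinarith) hm'
  have hη2 : 0 ≤ 1 - η := by linarith
  have h1 : α * (1 - η) * t * m' ≤ β * ℓ := by
    have h2 : α * (1 - η) * t ≤ β * (ℓ / m') := by linarith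
    calc α * (1 - η) * t * m' ≤ β * (ℓ / m') * m' := by gcongr
      _ = β * ℓ := by field_simp
  have h2 : α * (1 - η) * (1 - η) * (t * m) ≤ β * ℓ := by
    refine le_trans ?_ h1
    have h3 : 0 ≤ α * (1 - η) * t := by positivity
    calc α * (1 - η) * (1 - η) * (t * m) = (α * (1 - η) * t) * (m * (1 - η)) := by ring
      _ ≤ (α * (1 - η) * t) * m' := by gcongr
  have h4 : α * (1 - η) * (1 - η) * (N * (1 - η)) ≤ β * ℓ := by
    refine le_trans ?_ h2
    have : 0 ≤ α * (1 - η) * (1 - η) := by positivity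
    gcongr
  have h5 : α * (1 - 3 * η) * N ≤ β * ℓ := by
    refine le_trans ?_ h4
    have : (1 - 3 * η) ≤ (1 - η) * (1 - η) * (1 - η) := by nlinarith [mul_nonneg hη0.le hη0.le]
    calc α * (1 - 3 * η) * N = (1 - 3 * η) * (α * N) := by ring
      _ ≤ ((1 - η) * (1 - η) * (1 - η)) * (α * N) := by gcongr
      _ = _ := by ring
  have h6 : α * (1 - 3 * η) * ((c + δ) * n - 1) ≤ β * (2 * n + 1) := by
    have h7 : α * (1 - 3 * η) * ((c + δ) * n - 1) ≤ α * (1 - 3 * η) * N := by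
      have : 0 ≤ 1 - 3 * η := by linarith
      have : 0 ≤ α * (1 - 3 * η) := by positivity
      have : (c + δ) * n - 1 ≤ N := by linarith
      gcongr
    have h8 : β * ℓ ≤ β * (2 * n + 1) := by gcongr
    linarith
  have h8 : α * (1 - 3 * η) * ((c + δ) * n - 1) ≥ α * (c + δ / 2) * n - α := by
    have e1 : α * (1 - 3 * η) * ((c + δ) * n - 1) =
        α * ((c + δ) - 3 * η * (c + δ)) * n - α + 3 * α * η := by ring
    rw [e1, h7]
    have : 0 ≤ 3 * α * η := by positivity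
    have e2 : α * (c + δ - δ / 2) * n = α * (c + δ / 2) * n := by ring
    linarith
  have h9 : α * (c + δ / 2) * n = 2 * β * n + α * δ * n / 2 := by
    have : α * (c + δ / 2) * n = (α * c) * n + α * δ * n / 2 := by ring
    rw [this, hc]
  linarith

/-- Deterministic statement with a free number `N` of vertices. -/
theorem det_aux (k α β par : ℕ) (w : ℕ → ℕ) (hα : 1 ≤ α) (hpar : par ≤ 1)
    (hE : ExactBound k w α β)
    (hw : (par = 0 ∧ 1 ≤ w k) ∨ (∀ s, 2 ^ (k - s) ≤ w s)) (c : ℝ) (hc : (α : ℝ) * c = 2 * β)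
    (hc0 : 0 ≤ c) (δ : ℝ) (hδ : 0 < δ) :
    ∃ Q N0 : ℕ, 1 ≤ Q ∧ ∀ n ≥ N0, ∀ N : ℕ, (N : ℝ) ≤ (c + δ) * n → (c + δ) * n < N + 1 →
      ∀ G : SimpleGraph (Fin N), Joined Q G → Arrows G k (2 * n + par) := by
  have hcδ : 0 < c + δ := by linarith
  obtain ⟨η, hη⟩ : ∃ η : ℝ, η = δ / (6 * (c + δ)) := ⟨_, rfl⟩
  have hη0 : 0 < η := by rw [hη]; positivity
  have hη1 : η ≤ 1 / 6 := by
    rw [hη, div_le_div_iff₀ (by positivity) (by norm_num)]
    nlinarith
  have h7 : 3 * η * (c + δ) = δ / 2 := by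
    rw [hη]; field_simp; norm_num
  clear hη
  have hαR : (1 : ℝ) ≤ α := by exact_mod_cast hα
  obtain ⟨ε, hε, hrob⟩ := robust k w α β hE (α * η) (by positivity)
  -- choice of D and L
  obtain ⟨D, hDge⟩ := exists_nat_gt (max (300 / η) (40 * (c + δ)))
  have hD1 : 300 / η < D := lt_of_le_of_lt (le_max_left _ _) hDge
  have hD2 : 40 * (c + δ) < D := lt_of_le_of_lt (le_max_right _ _) hDge
  have hD0 : (0 : ℝ) < D := lt_trans (by positivity) hD1
  have hDη : 300 ≤ η * D := by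
    rw [div_lt_iff₀ hη0] at hD1
    linarith
  obtain ⟨L, hLge⟩ := exists_nat_gt (max (max (1 / η) (1 / ε)) 2)
  have hL1 : 1 / η < L := lt_of_le_of_lt (le_trans (le_max_left _ _) (le_max_left _ _)) hLge
  have hL2 : 1 / ε < L := lt_of_le_of_lt (le_trans (le_max_right _ _) (le_max_left _ _)) hLge
  have hL3 : (2 : ℝ) < L := lt_of_le_of_lt (le_max_right _ _) hLge
  have hLη : 1 ≤ η * L := by
    rw [div_lt_iff₀ hη0] at hL1
    linarith
  have hLε : 1 ≤ ε * L := by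
    rw [div_lt_iff₀ hε] at hL2
    linarith
  have hL3' : 2 ≤ L := by
    have : (2 : ℝ) < L := hL3
    exact_mod_cast this.le
  have hD1' : 1 ≤ D := by
    have : (0 : ℝ) < D := hD0
    exact_mod_cast this
  obtain ⟨Q, N1, hQ, hsys⟩ := system k D L hD1' hL3'
  obtain ⟨N0, hN0⟩ := exists_nat_gt (max ((N1 + 1 : ℝ) / (c + δ)) (2 * (α + β) / (α * δ)))
  refine ⟨Q, N0, hQ, ?_⟩
  intro n hn N hNle hNge G hG χ
  have hnR : (N0 : ℝ) ≤ n := by exact_mod_cast hn
  have hn1 : (N1 + 1 : ℝ) / (c + δ) < n :=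
    lt_of_lt_of_le (lt_of_le_of_lt (le_max_left _ _) hN0) hnR
  have hn2 : 2 * (α + β) / (α * δ) < (n : ℝ) :=
    lt_of_lt_of_le (lt_of_le_of_lt (le_max_right _ _) hN0) hnR
  rw [div_lt_iff₀ hcδ] at hn1
  rw [div_lt_iff₀ (by positivity)] at hn2
  have hNN1 : N1 ≤ N := by
    have : (N1 : ℝ) < N := by linarith
    exact_mod_cast this.le
  by_contra hno'
  have hno := not_exists.mp hno'
  have h80 : 80 * N ≤ D * (2 * n + par) := by
    have : (80 : ℝ) * N ≤ D * (2 * n + par) := by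
      have hn0 : (0 : ℝ) ≤ n := Nat.cast_nonneg n
      have hp0 : (0 : ℝ) ≤ par := Nat.cast_nonneg par
      have h1 := mul_le_mul_of_nonneg_right hD2.le hn0
      have h2 := mul_nonneg hD0.le hp0
      calc (80 : ℝ) * N ≤ 80 * ((c + δ) * n) := by linarith
        _ = 2 * (40 * (c + δ) * n) := by ring
        _ ≤ 2 * (D * n) := by linarith
        _ ≤ D * (2 * n + par) := by linarith
    exact_mod_cast this
  obtain ⟨t, m, K, F, U, ht, hm, hLN, hF2, hFs, hbad, hlab, hU⟩ :=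
    hsys N hNN1 G hG χ (2 * n + par) h80 hno
  have htR : (1 : ℝ) ≤ t := by exact_mod_cast ht
  have hmR : (1 : ℝ) ≤ m := by exact_mod_cast hm
  -- effective cluster size
  have hm' : (m : ℝ) * (1 - η) ≤ ((m - 300 * (m / D) : ℕ) : ℝ) := by
    have h1 : D * (m / D) ≤ m := Nat.mul_div_le m D
    have h1R : (D : ℝ) * ((m / D : ℕ) : ℝ) ≤ m := by exact_mod_cast h1
    have h3 : (300 : ℝ) * ((m / D : ℕ) : ℝ) ≤ η * m := by
      have h0 : (0 : ℝ) ≤ ((m / D : ℕ) : ℝ) := Nat.cast_nonneg _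
      calc (300 : ℝ) * ((m / D : ℕ) : ℝ) ≤ (η * D) * ((m / D : ℕ) : ℝ) := by gcongr
        _ = η * (D * ((m / D : ℕ) : ℝ)) := by ring
        _ ≤ η * m := by gcongr
    have h4 : ((m : ℝ) - 300 * ((m / D : ℕ) : ℝ)) ≤ ((m - 300 * (m / D) : ℕ) : ℝ) := by
      have : m ≤ (m - 300 * (m / D)) + 300 * (m / D) := by omega
      have h5 : (m : ℝ) ≤ ((m - 300 * (m / D) : ℕ) : ℝ) + 300 * ((m / D : ℕ) : ℝ) := by
        exact_mod_cast this
      linarith
    linarith
  obtain ⟨m'', hm''⟩ : ∃ m'' : ℕ, m'' = m - 300 * (m / D) := ⟨_, rfl⟩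
  rw [← hm''] at hm'
  have hm'0 : (0 : ℝ) < m'' := lt_of_lt_of_le (by nlinarith) hm'
  -- robust inequality
  have hR := hrob {i : Fin t // i ∈ U} (Set (Fin t)) t (fun c i => K c i.1) (fun c i => F c i.1)
    (by simpa using Finset.card_le_univ U) (fun c i => hF2 c i.1)
    (by
      have hcard : (Finset.univ.filter (fun p : {i : Fin t // i ∈ U} × {i : Fin t // i ∈ U} =>
          ¬ Cov (fun c i => K c i.1) (fun c i => F c i.1) p.1 p.2)).card ≤
          (Finset.univ.filter (fun p : Fin t × Fin t =>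
            p.1 ∈ U ∧ p.2 ∈ U ∧ ¬ Cov K F p.1 p.2)).card := by
        refine Finset.card_le_card_of_injOn (fun p => (p.1.1, p.2.1)) ?_ ?_
        · intro p hp
          rw [Finset.mem_coe, Finset.mem_filter] at hp ⊢
          exact ⟨Finset.mem_univ _, p.1.2, p.2.2, hp.2⟩
        · rintro ⟨a, b⟩ _ ⟨a', b'⟩ _ h
          simp only [Prod.mk.injEq] at h ⊢
          exact ⟨Subtype.ext h.1, Subtype.ext h.2⟩
      have h1 : (L : ℝ) * ((Finset.univ.filter (fun p : Fin t × Fin t =>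
            p.1 ∈ U ∧ p.2 ∈ U ∧ ¬ Cov K F p.1 p.2)).card : ℝ) ≤ (t : ℝ) ^ 2 := by
        exact_mod_cast hbad
      have h2 : ((Finset.univ.filter (fun p : {i : Fin t // i ∈ U} × {i : Fin t // i ∈ U} =>
          ¬ Cov (fun c i => K c i.1) (fun c i => F c i.1) p.1 p.2)).card : ℝ) ≤
          ((Finset.univ.filter (fun p : Fin t × Fin t =>
            p.1 ∈ U ∧ p.2 ∈ U ∧ ¬ Cov K F p.1 p.2)).card : ℝ) := by exact_mod_cast hcard
      refine le_trans h2 ?_
      set X : ℝ := ((Finset.univ.filter (fun p : Fin t × Fin t =>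
            p.1 ∈ U ∧ p.2 ∈ U ∧ ¬ Cov K F p.1 p.2)).card : ℝ) with hX
      have hX0 : 0 ≤ X := Nat.cast_nonneg _
      calc X ≤ (ε * L) * X := by nlinarith
        _ = ε * (L * X) := by ring
        _ ≤ ε * (t : ℝ) ^ 2 := by gcongr)
    (((2 * n + par : ℕ) : ℝ) / m'') (by positivity)
    (by
      intro c x
      rw [le_div_iff₀ hm'0]
      have h1 := hFs c x
      rw [← hm''] at h1
      have h2 : ∑ i ∈ Finset.univ.filter (fun i : {i : Fin t // i ∈ U} => K c i.1 = some x),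
          F c i.1 ≤ ∑ i ∈ Finset.univ.filter (fun i => K c i = some x), F c i := by
        have h0 := Finset.sum_map (Finset.univ.filter
          (fun i : {i : Fin t // i ∈ U} => K c i.1 = some x)) (Function.Embedding.subtype _)
          (fun i => F c i)
        simp only [Function.Embedding.subtype_apply] at h0
        rw [← h0]
        refine Finset.sum_le_sum_of_subset ?_
        intro i hi
        simp only [Finset.mem_map, Finset.mem_filter, Finset.mem_univ, true_and,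
          Function.Embedding.subtype_apply] at hi ⊢
        obtain ⟨a, ha, rfl⟩ := hi
        exact ha
      have h3 : (∑ i ∈ Finset.univ.filter (fun i : {i : Fin t // i ∈ U} => K c i.1 = some x),
          F c i.1) * m'' ≤ 2 * n + par := by
        calc _ ≤ (∑ i ∈ Finset.univ.filter (fun i => K c i = some x), F c i) *
              m'' := Nat.mul_le_mul_right _ h2
          _ = m'' *
              (∑ i ∈ Finset.univ.filter (fun i => K c i = some x), F c i) := mul_comm _ _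
          _ ≤ 2 * n + par := h1
      exact_mod_cast h3)
  -- lower bound for the weights
  have hlow : (t : ℝ) ≤ ∑ i : {i : Fin t // i ∈ U},
      (w (lab (fun c (i : {i : Fin t // i ∈ U}) => K c i.1) i) : ℝ) := by
    have h1 : ∀ i : {i : Fin t // i ∈ U},
        lab (fun c (i : {i : Fin t // i ∈ U}) => K c i.1) i = lab K i.1 := fun i => rfl
    simp only [h1]
    have h2 : ∑ i : {i : Fin t // i ∈ U}, (w (lab K i.1) : ℝ) = ∑ i ∈ U, (w (lab K i) : ℝ) :=
      Finset.sum_coe_sort U (fun i => (w (lab K i) : ℝ))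
    rw [h2]
    have h3 : t ≤ ∑ i ∈ U, w (lab K i) := by
      refine le_trans hU (Finset.sum_le_sum ?_)
      intro i _
      rcases hw with ⟨hp, hw⟩ | hw
      · have : lab K i = k := hlab (by rw [hp]; simp) i
        rw [this]; simpa using hw
      · exact hw _
    exact_mod_cast h3
  have hmain : (α : ℝ) * t ≤ β * (((2 * n + par : ℕ) : ℝ) / m'') + α * η * t := by
    calc (α : ℝ) * t ≤ α * ∑ i : {i : Fin t // i ∈ U},
          (w (lab (fun c (i : {i : Fin t // i ∈ U}) => K c i.1) i) : ℝ) := by gcongr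
      _ ≤ _ := hR
  -- final arithmetic
  have h3 : (N : ℝ) * (1 - η) ≤ t * m := by
    have h4 : (L : ℝ) * N ≤ L * (t * m) + N := by exact_mod_cast hLN
    have hL0 : (0 : ℝ) < L := by linarith
    have hN0' : (0 : ℝ) ≤ N := Nat.cast_nonneg _
    have h5 : (N : ℝ) ≤ (η * L) * N := by
      have := mul_le_mul_of_nonneg_right hLη hN0'
      linarith
    have h6 : (L : ℝ) * (N * (1 - η)) ≤ L * (t * m) := by
      have : (L : ℝ) * (N * (1 - η)) = L * N - (η * L) * N := by ring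
      linarith
    exact le_of_mul_le_mul_left h6 hL0
  have hℓ : (((2 * n + par : ℕ) : ℝ)) ≤ 2 * n + 1 := by
    have : 2 * n + par ≤ 2 * n + 1 := by omega
    exact_mod_cast this
  exact det_arith α β n N t m m'' c δ η hαR (Nat.cast_nonneg _) hη0 hη1 (Nat.cast_nonneg _) htR
    hmR (Nat.cast_nonneg _) hc h7 hm' hNge hn2 h3 _ hℓ hmain

/-- Deterministic statement: joined graphs on `⌊(2β/α + δ) n⌋` vertices arrow `C_{2n+par}`. -/
theorem det (k α β par : ℕ) (w : ℕ → ℕ) (hα : 1 ≤ α) (hpar : par ≤ 1) (hE : ExactBound k w α β)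
    (hw : (par = 0 ∧ 1 ≤ w k) ∨ (∀ s, 2 ^ (k - s) ≤ w s)) (c : ℝ) (hc : (α : ℝ) * c = 2 * β)
    (hc0 : 0 ≤ c) (δ : ℝ) (hδ : 0 < δ) :
    ∃ Q N0 : ℕ, 1 ≤ Q ∧ ∀ n ≥ N0, ∀ G : SimpleGraph (Fin ⌊(c + δ) * (n : ℝ)⌋₊),
      Joined Q G → Arrows G k (2 * n + par) := by
  obtain ⟨Q, N0, hQ, h⟩ := det_aux k α β par w hα hpar hE hw c hc hc0 δ hδ
  refine ⟨Q, N0, hQ, fun n hn G hG => h n hn _ (Nat.floor_le (by positivity))
    (Nat.lt_floor_add_one _) G hG⟩

/-- The four arrow statements hold a.a.s. -/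
theorem main (p : ℕ → ℝ) (hp : ∀ n, 0 < p n ∧ p n ≤ 1)
    (hpn : Tendsto (fun n : ℕ => p n * n) atTop atTop) (δ : ℝ) (hδ : 0 < δ) :
    Tendsto (fun n : ℕ => gnpProb ⌊(8 + δ) * n⌋₊ (p n) (fun G => Arrows G 3 (2 * n + 1)))
      atTop (𝓝 1) ∧
    Tendsto (fun n : ℕ => gnpProb ⌊(4 + δ) * n⌋₊ (p n) (fun G => Arrows G 2 (2 * n + 1)))
      atTop (𝓝 1) ∧
    Tendsto (fun n : ℕ => gnpProb ⌊(4 + δ) * n⌋₊ (p n) (fun G => Arrows G 3 (2 * n)))
      atTop (𝓝 1) ∧
    Tendsto (fun n : ℕ => gnpProb ⌊(3 + δ) * n⌋₊ (p n) (fun G => Arrows G 2 (2 * n)))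
      atTop (𝓝 1) := by
  refine ⟨?_, ?_, ?_, ?_⟩
  · obtain ⟨Q, N0, hQ, h⟩ := det 3 1 4 1 _ le_rfl le_rfl exactBound_3_w (Or.inr fun s => le_rfl)
      8 (by norm_num) (by norm_num) δ hδ
    exact tendsto_of_joined (8 + δ) (by linarith) p hp hpn Q N0 hQ
      (fun n G => Arrows G 3 (2 * n + 1)) h
  · obtain ⟨Q, N0, hQ, h⟩ := det 2 1 2 1 _ le_rfl le_rfl exactBound_2_w (Or.inr fun s => le_rfl)
      4 (by norm_num) (by norm_num) δ hδ
    exact tendsto_of_joined (4 + δ) (by linarith) p hp hpn Q N0 hQ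
      (fun n G => Arrows G 2 (2 * n + 1)) h
  · obtain ⟨Q, N0, hQ, h⟩ := det 3 1 2 0 _ le_rfl (by norm_num) exactBound_3_1
      (Or.inl ⟨rfl, le_rfl⟩) 4 (by norm_num) (by norm_num) δ hδ
    exact tendsto_of_joined (4 + δ) (by linarith) p hp hpn Q N0 hQ
      (fun n G => Arrows G 3 (2 * n)) h
  · obtain ⟨Q, N0, hQ, h⟩ := det 2 2 3 0 _ (by norm_num) (by norm_num) exactBound_2_1
      (Or.inl ⟨rfl, le_rfl⟩) 3 (by norm_num) (by norm_num) δ hδ
    exact tendsto_of_joined (3 + δ) (by linarith) p hp hpn Q N0 hQ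
      (fun n G => Arrows G 2 (2 * n)) h

end CRam
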